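import Pool.Agent.DERV.STP2

/-!
# Project DERV, part II: the functional alpha
-/

set_option autoImplicit false

universe u

open Finset

namespace Pool.Agent.DERV

open Pool.Agent.VOAut
open UpperHalfPlane hiding I
open scoped Nat ArithmeticFunction.sigma Manifold

variable {V : Type u} [AddCommGroup V] [Module ℂ V]

theorem alp_van (c : ℂ) (N : ℕ) (h : PowerSeries ℂ) : Van N (c • (PowerSeries.X ^ N * h)) := by
  intro i hi
  rw [PowerSeries.coeff_smul, PowerSeries.coeff_X_pow_mul', if_neg (not_le.2 hi), smul_zero]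

theorem alp_coeff (c : ℂ) (N : ℕ) (h : PowerSeries ℂ) :
    (PowerSeries.coeff N (c • (PowerSeries.X ^ N * h)) : ℂ) = c * PowerSeries.coeff 0 h := by
  rw [PowerSeries.coeff_smul, PowerSeries.coeff_X_pow_mul', if_pos le_rfl, Nat.sub_self,
    smul_eq_mul]

theorem alp_mul (N : ℕ) (e h : PowerSeries ℂ) (hh : Van N h) :
    (PowerSeries.coeff N (e * h) : ℂ) = PowerSeries.coeff 0 e * PowerSeries.coeff N h := by
  rw [PowerSeries.coeff_mul, Finset.sum_eq_single (0, N)]
  · rintro ⟨a, b⟩ hab hne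
    rw [Finset.HasAntidiagonal.mem_antidiagonal] at hab
    have hb : b < N := by
      rcases Nat.lt_or_ge b N with h1 | h1
      · exact h1
      · exfalso
        apply hne
        simp only at hab
        have : a = 0 := by omega
        have : b = N := by omega
        simp_all
    rw [hh b hb, mul_zero]
  · intro h1
    exact absurd (Finset.HasAntidiagonal.mem_antidiagonal.2 (by simp)) h1

theorem alp_zs0 {A : VOA V} {D : Module.End ℂ V} (p : Pack A D) (v : V) :
    (PowerSeries.coeff 0 (Zs (p.t 0) v) : ℂ) = al0 A v := by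
  unfold Zs
  rw [PowerSeries.coeff_mk]
  exact p.tr0 v

theorem alp {A : VOA V} {D : Module.End ℂ V}
    (p : Pack A D) (N : ℕ) (f g : V →ₗ[ℂ] PowerSeries ℂ) (hg : IsF A (lamt (p.t 0) - N) g)
    (f1 : ∀ u v, f (br A 0 u v) = kap • (PowerSeries.X ^ N * Zs (p.t 0) (br A 1 (D u) v)))
    (f2 : ∀ u v, df2 A Ek f u v = kap • (PowerSeries.X ^ N * (Zs (p.t 0) (br A (-1) (D u) v)
        + SS A (fun j => 2 * j + 1) 1 Ek (ZsL (p.t 0)) (D u) v)))
    (f3 : ∀ v, df3 A Ek f v = th (f v) + (lamt (p.t 0) - N) • f v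
        + kap • (g v + PowerSeries.X ^ N * Ts (p.t 0) v)) : ∃ alpha, IsAlpha A D alpha := by
  obtain ⟨-, d, m, -, hF⟩ := strip p (lamt (p.t 0) - N) f g N
    (fun u v => by rw [f1]; exact alp_van _ _ _)
    (fun u v => by rw [hg.c1]; intro i _; simp)
    (fun u v => by rw [f2]; exact alp_van _ _ _)
    (fun u v => by rw [hg.c2]; intro i _; simp)
    (fun v => by
      have e : df3 A Ek f v - (th (f v) + (lamt (p.t 0) - N) • f v + kap • g v) =
          kap • (PowerSeries.X ^ N * Ts (p.t 0) v) := by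
        rw [f3, smul_add]
        abel
      rw [e]
      exact alp_van _ _ _)
    (fun v => by rw [hg.c3, sub_self]; intro i _; simp)
  set G : V →ₗ[ℂ] PowerSeries ℂ :=
    ∑ j, d j • (LinearMap.mulLeft ℂ (PowerSeries.X ^ m j) ∘ₗ ZsL (p.t j)) with hG
  have hGa : ∀ v, G v = ∑ j, d j • (PowerSeries.X ^ m j * Zs (p.t j) v) := by
    intro v
    rw [hG, LinearMap.sum_apply]
    rfl
  have hvan : ∀ v, Van N ((f - G) v) := by
    intro v
    rw [LinearMap.sub_apply, hGa]
    exact hF v
  have hG1 : ∀ u v, G (br A 0 u v) = 0 := by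
    intro u v
    rw [hGa]
    apply Finset.sum_eq_zero
    intro j _
    have := (Zs_isF (p.t j)).c1 u v
    rw [ZsL_apply] at this
    rw [this, mul_zero, smul_zero]
  have hG2 : ∀ u v, df2 A Ek G u v = 0 := by
    intro u v
    have h1 : ∀ s : Finset (Fin (p.n + 1)), df2 A Ek
        (∑ j ∈ s, d j • (LinearMap.mulLeft ℂ (PowerSeries.X ^ m j) ∘ₗ ZsL (p.t j))) u v = 0 := by
      classical
      intro s
      induction s using Finset.induction_on with
      | empty =>
        have := df2_smulS A Ek 0 (0 : V →ₗ[ℂ] PowerSeries ℂ) u v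
        rw [zero_smul, zero_smul] at this
        rw [Finset.sum_empty]
        exact this
      | insert a s ha ih =>
        rw [Finset.sum_insert ha, df2_addS, ih, add_zero, df2_smulS, df2_mulS,
          (Zs_isF (p.t a)).c2, mul_zero, smul_zero]
    exact h1 Finset.univ
  refine ⟨(PowerSeries.coeff N).comp (f - G), ⟨fun u v => ?_, fun u v => ?_⟩⟩
  · rw [LinearMap.comp_apply]
    obtain ⟨K1, h1⟩ := SS_range A 0 u v
    obtain ⟨K2, h2⟩ := SS_range A 1 (D u) v
    obtain ⟨K3, h3⟩ := WW_pho A u v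
    obtain ⟨K4, h4⟩ := WW_phoLg A (D u) v
    set K := max (max K1 K2) (max K3 K4) with hK
    have e1 := congrArg (fun h => (PowerSeries.coeff N h : ℂ)) (f2 u v)
    have e2 : df2 A Ek (f - G) u v = df2 A Ek f u v := by
      rw [df2_subS, hG2, sub_zero]
    rw [← e2] at e1
    rw [alp_coeff] at e1
    unfold df2 at e1
    rw [h1 _ _ _ _ K (by omega), h2 _ _ _ _ K (by omega), map_add, map_add, map_sum, map_sum,
      alp_zs0] at e1
    rw [h3 K (by omega), h4 K (by omega), map_sub, map_sub, map_sub, map_sum, map_sum, map_sum]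
    have e3 : ∑ j ∈ range K, (PowerSeries.coeff N
        ((2 * (j : ℂ) + 1) • (Ek j * (f - G) (br A (2 * j + 0) u v))) : ℂ) =
        -∑ j ∈ range K, (PowerSeries.coeff N
          ((f - G) (((2 * (j : ℂ) + 1) * bk j) • br A (2 * j) u v)) : ℂ) := by
      rw [← Finset.sum_neg_distrib]
      apply Finset.sum_congr rfl
      intro j _
      rw [PowerSeries.coeff_smul, alp_mul N _ _ (hvan _), Ek_zero, map_smul,
        PowerSeries.coeff_smul, add_zero, smul_eq_mul, smul_eq_mul]
      ring
    have e4 : ∑ j ∈ range K, (PowerSeries.coeff 0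
        ((2 * (j : ℂ) + 1) • (Ek j * (ZsL (p.t 0)) (br A (2 * j + 1) (D u) v))) : ℂ) =
        -∑ j ∈ range K, al0 A (((2 * (j : ℂ) + 1) * bk j) • br A (2 * j + 1) (D u) v) := by
      rw [← Finset.sum_neg_distrib]
      apply Finset.sum_congr rfl
      intro j _
      rw [PowerSeries.coeff_smul, alp_mul 0 _ _ (fun i hi => absurd hi (Nat.not_lt_zero i)),
        Ek_zero, map_smul, ZsL_apply, alp_zs0, smul_eq_mul, smul_eq_mul]
      ring
    rw [e3, e4, ← sub_eq_add_neg, ← sub_eq_add_neg] at e1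
    exact e1
  · rw [LinearMap.comp_apply, WW_one, WW_Lg, LinearMap.sub_apply, hG1, sub_zero, f1, alp_coeff,
      alp_zs0]

end Pool.Agent.DERV
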