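import Pool.Agent.DERV.Defs
import Pool.Agent.VOAut.Faithful

/-!
# Project DERV: basic linearity lemmas
-/

set_option autoImplicit false

universe u

open Finset

namespace Pool.Agent.DERV

open Pool.Agent.VOAut

variable {V : Type u} [AddCommGroup V] [Module ℂ V]

section hc

variable {M : Type*} [AddCommGroup M] [Module ℂ M] {gr : ℤ → Submodule ℂ M}

theorem hcomp_fin (h : DirectSum.IsInternal gr) (v : M) :
    {n : ℤ | hcomp h n v ≠ 0}.Finite := by
  classical
  set e := LinearEquiv.ofBijective (DirectSum.coeLinearMap gr) h with he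
  refine ((DFinsupp.support (e.symm v)).finite_toSet).subset ?_
  intro n hn
  simp only [Set.mem_ofPred_eq, ne_eq] at hn
  rw [Finset.mem_coe, DFinsupp.mem_support_iff]
  intro h0
  apply hn
  unfold hcomp
  simp only [LinearMap.comp_apply, LinearEquiv.coe_coe, Submodule.subtype_apply]
  have : (DirectSum.component ℂ ℤ (fun i => gr i) n) (e.symm v) = 0 := h0
  rw [← he, this]
  simp

theorem hcomp_sum (h : DirectSum.IsInternal gr) (v : M) : ∑ᶠ n : ℤ, hcomp h n v = v := by
  classical
  set e := LinearEquiv.ofBijective (DirectSum.coeLinearMap gr) h with he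
  have h1 : v = DirectSum.coeLinearMap gr (e.symm v) := by
    have := e.apply_symm_apply v
    rw [he] at this
    exact this.symm
  have hs : (Function.support fun n => hcomp h n v) ⊆ ((DFinsupp.support (e.symm v) : Finset ℤ) : Set ℤ) := by
    intro n hn
    rw [Function.mem_support] at hn
    rw [Finset.mem_coe, DFinsupp.mem_support_iff]
    intro h0
    apply hn
    unfold hcomp
    simp only [LinearMap.comp_apply, LinearEquiv.coe_coe, Submodule.subtype_apply]
    have : (DirectSum.component ℂ ℤ (fun i => gr i) n) (e.symm v) = 0 := h0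
    rw [← he, this]
    simp
  rw [finsum_eq_sum_of_support_subset _ hs]
  conv_rhs => rw [h1]
  rw [DirectSum.coeLinearMap_eq_dfinsuppSum]
  rfl

/-- Finite sums over the homogeneous components. -/
theorem hcomp_finsum_add {W : Type*} [AddCommGroup W] (h : DirectSum.IsInternal gr)
    (F : ℤ → M → W) (hF : ∀ n x y, F n (x + y) = F n x + F n y) (x y : M) :
    ∑ᶠ n : ℤ, F n (hcomp h n (x + y)) =
      ∑ᶠ n : ℤ, F n (hcomp h n x) + ∑ᶠ n : ℤ, F n (hcomp h n y) := by
  have h0 : ∀ n, F n 0 = 0 := fun n => by
    have := hF n 0 0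
    simpa using this
  rw [← finsum_add_distrib]
  · apply finsum_congr
    intro n
    rw [map_add, hF]
  · refine (hcomp_fin h x).subset ?_
    intro n hn
    rw [Function.mem_support] at hn
    intro h1
    apply hn
    show F n (hcomp h n x) = 0
    rw [h1, h0]
  · refine (hcomp_fin h y).subset ?_
    intro n hn
    rw [Function.mem_support] at hn
    intro h1
    apply hn
    show F n (hcomp h n y) = 0
    rw [h1, h0]

end hc

variable (A : VOA V)

theorem rs_fin (f : LaurentSeries ℂ) (u v : V) :
    (Function.support fun i : ℤ => f.coeff i • A.Y u i v).Finite := by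
  obtain ⟨N, hN⟩ := A.trunc u v
  refine (Set.finite_Ico f.order N).subset ?_
  intro i hi
  rw [Function.mem_support] at hi
  constructor
  · by_contra h
    apply hi
    rw [HahnSeries.coeff_eq_zero_of_lt_order (not_le.1 h), zero_smul]
  · by_contra h
    apply hi
    rw [hN i (not_lt.1 h), smul_zero]

theorem rs_add_f (f g : LaurentSeries ℂ) (u v : V) :
    rs A (f + g) u v = rs A f u v + rs A g u v := by
  unfold rs
  rw [← finsum_add_distrib (rs_fin A f u v) (rs_fin A g u v)]
  apply finsum_congr
  intro i
  rw [HahnSeries.coeff_add, add_smul]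

theorem rs_smul_f (c : ℂ) (f : LaurentSeries ℂ) (u v : V) :
    rs A (c • f) u v = c • rs A f u v := by
  unfold rs
  rw [smul_finsum' c (rs_fin A f u v)]
  apply finsum_congr
  intro i
  rw [HahnSeries.coeff_smul, smul_eq_mul, mul_smul]

theorem rs_add_u (f : LaurentSeries ℂ) (u u' v : V) :
    rs A f (u + u') v = rs A f u v + rs A f u' v := by
  unfold rs
  rw [← finsum_add_distrib (rs_fin A f u v) (rs_fin A f u' v)]
  apply finsum_congr
  intro i
  rw [map_add, Pi.add_apply, LinearMap.add_apply, smul_add]

theorem rs_smul_u (f : LaurentSeries ℂ) (c : ℂ) (u v : V) :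
    rs A f (c • u) v = c • rs A f u v := by
  unfold rs
  rw [smul_finsum' c (rs_fin A f u v)]
  apply finsum_congr
  intro i
  rw [map_smul, Pi.smul_apply, LinearMap.smul_apply, smul_comm]

theorem rs_add_v (f : LaurentSeries ℂ) (u v v' : V) :
    rs A f u (v + v') = rs A f u v + rs A f u v' := by
  unfold rs
  rw [← finsum_add_distrib (rs_fin A f u v) (rs_fin A f u v')]
  apply finsum_congr
  intro i
  rw [map_add, smul_add]

theorem rs_smul_v (f : LaurentSeries ℂ) (c : ℂ) (u v : V) :
    rs A f u (c • v) = c • rs A f u v := by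
  unfold rs
  rw [smul_finsum' c (rs_fin A f u v)]
  apply finsum_congr
  intro i
  rw [map_smul, smul_comm]

theorem rs_zero_u (f : LaurentSeries ℂ) (v : V) : rs A f 0 v = 0 := by
  have := rs_smul_u A f 0 0 v
  simpa using this

/-- `rs` as a linear map in the last argument. -/
noncomputable def rsv (f : LaurentSeries ℂ) (u : V) : V →ₗ[ℂ] V where
  toFun := rs A f u
  map_add' := rs_add_v A f u
  map_smul' := fun c v => rs_smul_v A f c u v

/-- `rs` as a linear map in all arguments. -/
noncomputable def rsL : LaurentSeries ℂ →ₗ[ℂ] V →ₗ[ℂ] V →ₗ[ℂ] V :=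
  LinearMap.mk₂ ℂ (fun f u => rsv A f u)
    (fun f g u => by ext v; exact rs_add_f A f g u v)
    (fun c f u => by ext v; exact rs_smul_f A c f u v)
    (fun f u u' => by ext v; exact rs_add_u A f u u' v)
    (fun c f u => by ext v; exact rs_smul_u A f c u v)

theorem rsL_apply (f : LaurentSeries ℂ) (u v : V) : rsL A f u v = rs A f u v := rfl

theorem rs_single (n : ℤ) (c : ℂ) (u v : V) :
    rs A (HahnSeries.single n c) u v = c • A.Y u n v := by
  unfold rs
  rw [finsum_eq_single _ n]
  · rw [HahnSeries.coeff_single_same]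
  · intro i hi
    rw [HahnSeries.coeff_single_of_ne hi, zero_smul]

/-- Only finitely many coefficients matter. -/
theorem rs_congr (u v : V) : ∃ N : ℤ, ∀ f g : LaurentSeries ℂ,
    (∀ i < N, f.coeff i = g.coeff i) → rs A f u v = rs A g u v := by
  obtain ⟨N, hN⟩ := A.trunc u v
  refine ⟨N, fun f g h => ?_⟩
  unfold rs
  apply finsum_congr
  intro i
  by_cases hi : i < N
  · rw [h i hi]
  · rw [hN i (not_lt.1 hi), smul_zero, smul_zero]

/-- The support of the sum that defines `WW`. -/
theorem WW_fin (φ : LaurentSeries ℂ) (u v : V) :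
    (Function.support fun a : ℤ => rs A ((1 + xL) ^ (a - 1) * φ) (pr A a u) v).Finite := by
  refine (hcomp_fin A.internal u).subset ?_
  intro n hn
  rw [Function.mem_support] at hn
  intro h1
  apply hn
  show rs A ((1 + xL) ^ (n - 1) * φ) (pr A n u) v = 0
  rw [h1, rs_zero_u]

theorem WW_add_f (f g : LaurentSeries ℂ) (u v : V) :
    WW A (f + g) u v = WW A f u v + WW A g u v := by
  unfold WW
  rw [← finsum_add_distrib (WW_fin A f u v) (WW_fin A g u v)]
  apply finsum_congr
  intro i
  rw [mul_add, rs_add_f]

theorem WW_smul_f (c : ℂ) (f : LaurentSeries ℂ) (u v : V) :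
    WW A (c • f) u v = c • WW A f u v := by
  unfold WW
  rw [smul_finsum' c (WW_fin A f u v)]
  apply finsum_congr
  intro i
  rw [← HahnSeries.C_mul_eq_smul, mul_left_comm, HahnSeries.C_mul_eq_smul, rs_smul_f]

theorem WW_add_u (f : LaurentSeries ℂ) (u u' v : V) :
    WW A f (u + u') v = WW A f u v + WW A f u' v := by
  unfold WW
  rw [← finsum_add_distrib (WW_fin A f u v) (WW_fin A f u' v)]
  apply finsum_congr
  intro i
  rw [map_add, rs_add_u]

theorem WW_smul_u (f : LaurentSeries ℂ) (c : ℂ) (u v : V) :
    WW A f (c • u) v = c • WW A f u v := by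
  unfold WW
  rw [smul_finsum' c (WW_fin A f u v)]
  apply finsum_congr
  intro i
  rw [map_smul, rs_smul_u]

theorem WW_add_v (f : LaurentSeries ℂ) (u v v' : V) :
    WW A f u (v + v') = WW A f u v + WW A f u v' := by
  unfold WW
  rw [← finsum_add_distrib (WW_fin A f u v) (WW_fin A f u v')]
  apply finsum_congr
  intro i
  rw [rs_add_v]

theorem WW_smul_v (f : LaurentSeries ℂ) (c : ℂ) (u v : V) :
    WW A f u (c • v) = c • WW A f u v := by
  unfold WW
  rw [smul_finsum' c (WW_fin A f u v)]
  apply finsum_congr
  intro i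
  rw [rs_smul_v]

/-- `WW` as a linear map in the last argument. -/
noncomputable def WWv (f : LaurentSeries ℂ) (u : V) : V →ₗ[ℂ] V where
  toFun := WW A f u
  map_add' := WW_add_v A f u
  map_smul' := fun c v => WW_smul_v A f c u v

/-- `WW` as a linear map in all arguments. -/
noncomputable def WWL : LaurentSeries ℂ →ₗ[ℂ] V →ₗ[ℂ] V →ₗ[ℂ] V :=
  LinearMap.mk₂ ℂ (fun f u => WWv A f u)
    (fun f g u => by ext v; exact WW_add_f A f g u v)
    (fun c f u => by ext v; exact WW_smul_f A c f u v)
    (fun f u u' => by ext v; exact WW_add_u A f u u' v)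
    (fun c f u => by ext v; exact WW_smul_u A f c u v)

theorem WWL_apply (f : LaurentSeries ℂ) (u v : V) : WWL A f u v = WW A f u v := rfl

theorem WW_of_mem (φ : LaurentSeries ℂ) (a : ℤ) (u v : V) (hu : u ∈ A.gr a) :
    WW A φ u v = rs A ((1 + xL) ^ (a - 1) * φ) u v := by
  unfold WW
  rw [finsum_eq_single _ a]
  · rw [hcomp_of_mem A.internal a a u hu, if_pos rfl]
  · intro n hn
    rw [hcomp_of_mem A.internal n a u hu, if_neg (Ne.symm hn), rs_zero_u]

/-- Bilinear induction over homogeneous vectors. -/
theorem hom_ind {P : V → Prop} (v : V) (h0 : P 0) (hadd : ∀ x y, P x → P y → P (x + y))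
    (hh : ∀ n : ℤ, ∀ x ∈ A.gr n, P x) : P v := by
  have hv : v ∈ ⨆ n, A.gr n := by
    rw [A.internal.submodule_iSup_eq_top]
    exact Submodule.mem_top
  exact Submodule.iSup_induction (fun n => A.gr n) (motive := P) hv (fun n x hx => hh n x hx) h0 hadd

section al

variable {A}

theorem al0_spec (h : CFT A) (v : V) : pr A 0 v = al0 A v • A.vac := by
  have hex : ∃ f : Module.Dual ℂ V, ∀ v, pr A 0 v = f v • A.vac := by
    obtain ⟨g, hg⟩ := LinearMap.exists_leftInverse_of_injective (LinearMap.toSpanSingleton ℂ V A.vac)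
      (LinearMap.ker_eq_bot.2 (by
        intro a b hab
        simp only [LinearMap.toSpanSingleton_apply] at hab
        have : (a - b) • A.vac = 0 := by rw [sub_smul, hab, sub_self]
        rcases smul_eq_zero.1 this with h1 | h1
        · exact sub_eq_zero.1 h1
        · exact absurd h1 h.nt))
    refine ⟨g ∘ₗ pr A 0, fun v => ?_⟩
    have h1 : pr A 0 v ∈ Submodule.span ℂ {A.vac} := by
      rw [← h.zero]
      exact hcomp_mem A.internal 0 v
    obtain ⟨c, hc⟩ := Submodule.mem_span_singleton.1 h1
    have h2 : g (LinearMap.toSpanSingleton ℂ V A.vac c) = c := by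
      have := congrArg (fun f => f c) hg
      simpa using this
    rw [LinearMap.toSpanSingleton_apply] at h2
    rw [LinearMap.comp_apply, ← hc, h2]
  unfold al0
  rw [dif_pos hex]
  exact hex.choose_spec v

theorem al0_vac (h : CFT A) : al0 A A.vac = 1 := by
  have h1 := al0_spec h A.vac
  have h2 : pr A 0 A.vac = A.vac := by
    rw [hcomp_of_mem A.internal 0 0 _ (by rw [h.zero]; exact Submodule.mem_span_singleton_self _),
      if_pos rfl]
  rw [h2] at h1
  have h3 : (al0 A A.vac - 1) • A.vac = 0 := by rw [sub_smul, ← h1, one_smul, sub_self]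
  rcases smul_eq_zero.1 h3 with h4 | h4
  · exact sub_eq_zero.1 h4
  · exact absurd h4 h.nt

theorem al0_of_mem (h : CFT A) (n : ℤ) (hn : n ≠ 0) (v : V) (hv : v ∈ A.gr n) : al0 A v = 0 := by
  have h1 := al0_spec h v
  rw [hcomp_of_mem A.internal 0 n v hv, if_neg hn] at h1
  rcases smul_eq_zero.1 h1.symm with h4 | h4
  · exact h4
  · exact absurd h4 h.nt

end al

section modules

variable {A} {M : Type u} [AddCommGroup M] [Module ℂ M] (X : AdmissibleModule A M)

theorem zm_fin (v : V) : (Function.support fun a : ℤ => X.Y (pr A a v) (a - 1)).Finite := by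
  refine (hcomp_fin A.internal v).subset ?_
  intro n hn
  rw [Function.mem_support] at hn
  intro h1
  apply hn
  show X.Y (pr A n v) (n - 1) = 0
  rw [h1, map_zero, Pi.zero_apply]

/-- The zero mode as a linear map. -/
noncomputable def zmL : V →ₗ[ℂ] Module.End ℂ M where
  toFun := zm X
  map_add' u v := by
    unfold zm
    rw [← finsum_add_distrib (zm_fin X u) (zm_fin X v)]
    apply finsum_congr
    intro i
    rw [map_add, map_add, Pi.add_apply]
  map_smul' c v := by
    unfold zm
    rw [RingHom.id_apply, smul_finsum' c (zm_fin X v)]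
    apply finsum_congr
    intro i
    rw [map_smul, map_smul, Pi.smul_apply]

theorem zmL_apply (v : V) : zmL X v = zm X v := rfl

theorem zm_of_mem (a : ℤ) (v : V) (hv : v ∈ A.gr a) : zm X v = X.Y v (a - 1) := by
  unfold zm
  rw [finsum_eq_single _ a]
  · rw [hcomp_of_mem A.internal a a v hv, if_pos rfl]
  · intro n hn
    rw [hcomp_of_mem A.internal n a v hv, if_neg (Ne.symm hn), map_zero, Pi.zero_apply]

theorem zm_gr (v : V) (n : ℤ) (x : M) (hx : x ∈ X.gr n) : zm X v x ∈ X.gr n := by
  rw [← zmL_apply]
  refine hom_ind A (P := fun v => zmL X v x ∈ X.gr n) v ?_ ?_ ?_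
  · simp
  · intro a b ha hb
    rw [map_add, LinearMap.add_apply]
    exact add_mem ha hb
  · intro a y hy
    rw [zmL_apply, zm_of_mem X a y hy]
    have := X.graded a (a - 1) n y x hy hx
    have e : n + a - (a - 1) - 1 = n := by ring
    rwa [e] at this

/-- The trace on the piece of degree `n` as a linear map. -/
noncomputable def trgL (n : ℤ) : Module.End ℂ M →ₗ[ℂ] ℂ where
  toFun := trg X n
  map_add' f g := by
    unfold trg
    rw [← map_add]
    congr 1
    ext x
    simp
  map_smul' c f := by
    unfold trg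
    rw [RingHom.id_apply, ← map_smul]
    congr 1
    ext x
    simp

theorem trgL_apply (n : ℤ) (f : Module.End ℂ M) : trgL X n f = trg X n f := rfl

end modules

section series

variable {A} {D : Module.End ℂ V} (t : TMod A D)

/-- The trace function as a linear map. -/
noncomputable def ZsL : V →ₗ[ℂ] PowerSeries ℂ where
  toFun := Zs t
  map_add' u v := by
    ext n
    unfold Zs
    rw [map_add, PowerSeries.coeff_mk, PowerSeries.coeff_mk, PowerSeries.coeff_mk, ← zmL_apply,
      ← zmL_apply, ← zmL_apply, ← trgL_apply, ← trgL_apply, ← trgL_apply, map_add, map_add]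
  map_smul' c v := by
    ext n
    unfold Zs
    rw [RingHom.id_apply, PowerSeries.coeff_smul, PowerSeries.coeff_mk, PowerSeries.coeff_mk,
      ← zmL_apply, ← zmL_apply, ← trgL_apply, ← trgL_apply, map_smul, map_smul]

theorem ZsL_apply (v : V) : ZsL t v = Zs t v := rfl

/-- The trace function with `D` inserted as a linear map. -/
noncomputable def TsL : V →ₗ[ℂ] PowerSeries ℂ where
  toFun := Ts t
  map_add' u v := by
    ext n
    unfold Ts
    rw [map_add, PowerSeries.coeff_mk, PowerSeries.coeff_mk, PowerSeries.coeff_mk, ← zmL_apply,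
      ← zmL_apply, ← zmL_apply, ← trgL_apply, ← trgL_apply, ← trgL_apply, map_add, add_mul, map_add]
  map_smul' c v := by
    ext n
    unfold Ts
    rw [RingHom.id_apply, PowerSeries.coeff_smul, PowerSeries.coeff_mk, PowerSeries.coeff_mk,
      ← zmL_apply, ← zmL_apply, ← trgL_apply, ← trgL_apply, map_smul, smul_mul_assoc, map_smul]

theorem TsL_apply (v : V) : TsL t v = Ts t v := rfl

end series

end Pool.Agent.DERV
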