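import Pool.Agent.DERV.EKC

/-!
# Project DERV, part II: bracket modes of the vacuum and of the conformal vector
-/

set_option autoImplicit false

universe u

open Finset

namespace Pool.Agent.DERV

open Pool.Agent.VOAut
open UpperHalfPlane hiding I
open scoped Nat ArithmeticFunction.sigma Manifold

variable {V : Type u} [AddCommGroup V] [Module ℂ V]

variable (A : VOA V)

theorem vac_mem : A.vac ∈ A.gr 0 := by
  rw [A.mem_gr, A.creation A.om 1 (by norm_num)]
  simp

theorem om_mem : A.om ∈ A.gr 2 := by
  rw [A.mem_gr]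
  have h := A.virasoro 0 (-2) A.vac
  have e1 : (0 : ℤ) + 1 = 1 := by norm_num
  have e2 : (-2 : ℤ) + 1 = -1 := by norm_num
  have e3 : (0 : ℤ) + -2 + 1 = -1 := by norm_num
  rw [e1, e2, e3, A.creation_neg_one, A.creation A.om 1 (by norm_num), map_zero, sub_zero,
    if_neg (by norm_num), zero_smul, add_zero] at h
  rw [h]
  congr 1
  push_cast
  norm_num

theorem br_vac (n : ℤ) (v : V) : br A n A.vac v = if n = -1 then v else 0 := by
  unfold br
  rw [WW_of_mem A _ 0 A.vac v (vac_mem A)]
  unfold rs
  rw [finsum_eq_single _ (-1)]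
  · rw [A.vacuum, if_pos rfl, zero_sub, res_Lg]
    split_ifs
    · rw [one_smul]
    · rw [zero_smul]
  · intro i hi
    rw [A.vacuum, if_neg hi, smul_zero]

theorem br_omt (n : ℤ) (v : V) : br A n (omt A) v =
    br A n A.om v - (if n = -1 then (A.c / 24) • v else 0) := by
  have h1 : br A n (omt A) v = br A n A.om v - (A.c / 24) • br A n A.vac v := by
    rw [← brL_apply, ← brL_apply, ← brL_apply]
    unfold omt
    rw [map_sub, map_smul, LinearMap.sub_apply, LinearMap.smul_apply]
  rw [h1, br_vac]
  split_ifs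
  · rfl
  · rw [smul_zero]

end Pool.Agent.DERV
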