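import Pool.Agent.DERV.CRS
import Pool.Agent.DERV.BRV

/-!
# Project DERV, part II: commutator with the bracket degree operator
-/

set_option autoImplicit false

universe u

open Finset

namespace Pool.Agent.DERV

open Pool.Agent.VOAut
open UpperHalfPlane hiding I
open scoped Nat ArithmeticFunction.sigma Manifold

variable {V : Type u} [AddCommGroup V] [Module ℂ V]

/-- The series `(1 + x) log (1 + x)`. -/
noncomputable def brc1_phi : LaurentSeries ℂ := (1 + xL) * Lg

theorem brc1_dphi : dL brc1_phi = 1 + Lg := by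
  unfold brc1_phi
  rw [dL_mul, dL_y, dL_Lg]
  ring

theorem brc1_ddphi : dL (dL brc1_phi) = (1 + xL) ^ (-1 : ℤ) := by
  rw [brc1_dphi, dL_add, dL_one, zero_add, y_inv_eq]

theorem brc1_succ (i : ℕ) (f : LaurentSeries ℂ) :
    dL (LaurentSeries.hasseDeriv ℂ i f) = cc ((i : ℂ) + 1) * LaurentSeries.hasseDeriv ℂ (i + 1) f := by
  unfold dL
  rw [LaurentSeries.derivative_apply, LaurentSeries.hasseDeriv_comp]
  rw [Nat.choose_one_right, Nat.add_comm 1 i, cc_mul, ← Nat.cast_smul_eq_nsmul ℂ]
  push_cast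
  rfl

theorem brc1_ex (i : ℕ) : ∃ c : ℂ, LaurentSeries.hasseDeriv ℂ (i + 2) brc1_phi =
    cc c * (1 + xL) ^ (-(i : ℤ) - 1) := by
  induction i with
  | zero =>
    have h1 := brc1_succ 1 brc1_phi
    have h2 : LaurentSeries.hasseDeriv ℂ 1 brc1_phi = dL brc1_phi := by
      unfold dL
      rw [LaurentSeries.derivative_apply]
    rw [h2, brc1_ddphi] at h1
    refine ⟨1 / 2, ?_⟩
    have e : -((0 : ℕ) : ℤ) - 1 = -1 := by norm_num
    rw [e, h1, ← mul_assoc, ← map_mul]
    have e2 : (1 / 2 : ℂ) * (((1 : ℕ) : ℂ) + 1) = 1 := by norm_num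
    rw [e2, map_one, one_mul]
  | succ i ih =>
    obtain ⟨c, hc⟩ := ih
    have h1 := brc1_succ (i + 2) brc1_phi
    rw [hc, dL_cc_mul, dL_y_zpow] at h1
    refine ⟨(((i + 2 : ℕ) : ℂ) + 1)⁻¹ * (c * ((-(i : ℤ) - 1 : ℤ) : ℂ)), ?_⟩
    have hne : (((i + 2 : ℕ) : ℂ) + 1) ≠ 0 := by exact_mod_cast Nat.succ_ne_zero (i + 2)
    have e : -((i + 1 : ℕ) : ℤ) - 1 = -(i : ℤ) - 1 - 1 := by push_cast; ring
    have e3 : i + 1 + 2 = i + 2 + 1 := by ring
    rw [e, e3, map_mul, map_mul, mul_assoc, mul_assoc, h1, ← mul_assoc, ← map_mul,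
      inv_mul_cancel₀ hne, map_one, one_mul]

theorem brc1_hasse (i : ℕ) (hi : 2 ≤ i) : LaurentSeries.hasseDeriv ℂ i brc1_phi =
    cc (brc1_phi.coeff i) * (1 + xL) ^ (1 - (i : ℤ)) := by
  obtain ⟨k, rfl⟩ : ∃ k, i = k + 2 := ⟨i - 2, by omega⟩
  obtain ⟨c, hc⟩ := brc1_ex k
  have h1 := congrArg (fun f : LaurentSeries ℂ => f.coeff 0) hc
  simp only [LaurentSeries.hasseDeriv_coeff, coeff_cc_mul, zero_add] at h1
  rw [(LD_y_zpow _).2, mul_one] at h1
  have h2 : Ring.choose (((k + 2 : ℕ) : ℤ)) (k + 2) = 1 := by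
    rw [Ring.choose_natCast, Nat.choose_self]
    rfl
  rw [h2, one_zsmul] at h1
  rw [h1, hc]
  congr 2
  push_cast
  ring

theorem brc1_coeff_nonpos (i : ℤ) (hi : i ≤ 0) : brc1_phi.coeff i = 0 := by
  have h : OG (0 + 1) brc1_phi := (LD_y.mul LD_Lg).1
  exact h i (by omega)

theorem brc1_coeff_one : brc1_phi.coeff 1 = 1 := by
  have h : brc1_phi.coeff (0 + 1) = 1 := (LD_y.mul LD_Lg).2
  rwa [zero_add] at h

variable (A : VOA V)

theorem brc1_L0b (v : V) : L0b A v = rs A brc1_phi A.om v := by
  rw [L0b_apply, br_omt, if_neg (by norm_num), sub_zero]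
  unfold br
  rw [WW_of_mem A _ 2 _ _ (om_mem A), zpow_one]
  unfold brc1_phi
  norm_num

theorem comm_L0b (n : ℤ) (u v : V) : L0b A (br A n u v) =
    br A n (L0b A u) v + br A n u (L0b A v) - ((n : ℂ) + 1) • br A n u v := by
  refine hom_ind A (P := fun u => L0b A (br A n u v) =
    br A n (L0b A u) v + br A n u (L0b A v) - ((n : ℂ) + 1) • br A n u v) u ?_ ?_ ?_
  · simp only [← brL_apply, map_zero, LinearMap.zero_apply, smul_zero, add_zero, sub_zero]
  · intro x y hx hy
    simp only [← brL_apply, map_add, LinearMap.add_apply, smul_add] at hx hy ⊢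
    rw [hx, hy]
    abel
  · intro a u hu
    obtain ⟨I0, hI0⟩ := A.trunc_nat A.om u 0
    set I := max I0 2 with hI
    have hI1 : ∀ i : ℕ, I ≤ i → A.Y A.om i u = 0 := by
      intro i hi
      have := hI0 i (by omega)
      rwa [zero_add] at this
    set g : LaurentSeries ℂ := (1 + xL) ^ (a - 1) * Lg ^ n with hg
    have hbr : ∀ w, br A n u w = rs A g u w := by
      intro w
      unfold br
      rw [WW_of_mem A _ a u w hu]
    have hmem : ∀ i : ℕ, A.Y A.om i u ∈ A.gr (a + 2 - i - 1) := fun i =>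
      A.graded 2 i a A.om u (om_mem A) hu
    have hL : L0b A u = ∑ i ∈ range I, brc1_phi.coeff i • A.Y A.om i u := by
      rw [brc1_L0b]
      unfold rs
      have hs : (Function.support fun i : ℤ => brc1_phi.coeff i • A.Y A.om i u) ⊆
          (((range I).map Nat.castEmbedding : Finset ℤ) : Set ℤ) := by
        intro i hi
        rw [Function.mem_support] at hi
        rw [Finset.mem_coe, Finset.mem_map]
        have h1 : 0 < i := by
          by_contra h
          apply hi
          rw [brc1_coeff_nonpos i (not_lt.1 h), zero_smul]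
        refine ⟨i.toNat, ?_, ?_⟩
        · rw [Finset.mem_range]
          by_contra h
          apply hi
          have := hI1 i.toNat (not_lt.1 h)
          rw [Int.toNat_of_nonneg h1.le] at this
          rw [this, smul_zero]
        · simp [Int.toNat_of_nonneg h1.le]
      rw [finsum_eq_sum_of_support_subset _ hs, Finset.sum_map]
      rfl
    have h1 : br A n (L0b A u) v = ∑ i ∈ range I,
        rs A (cc (brc1_phi.coeff i) * (1 + xL) ^ (1 - (i : ℤ)) * g) (A.Y A.om i u) v := by
      rw [hL, ← brL_apply, map_sum, LinearMap.sum_apply]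
      apply Finset.sum_congr rfl
      intro i _
      rw [map_smul, LinearMap.smul_apply, brL_apply]
      unfold br
      rw [WW_of_mem A _ _ _ _ (hmem i), mul_assoc, rs_cc]
      congr 2
      rw [hg, ← mul_assoc, ← zpow_add₀ y_ne]
      congr 2
      ring
    have h2 := comm_rs A brc1_phi g A.om u v I hI1
    have h3 : ∑ i ∈ range I, rs A (LaurentSeries.hasseDeriv ℂ i brc1_phi * g) (A.Y A.om i u) v -
        ∑ i ∈ range I,
          rs A (cc (brc1_phi.coeff i) * (1 + xL) ^ (1 - (i : ℤ)) * g) (A.Y A.om i u) v =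
        -(((n : ℂ) + 1) • rs A g u v) := by
      rw [← Finset.sum_sub_distrib]
      have hsub : range 2 ⊆ range I := Finset.range_subset_range.2 (by omega)
      rw [← Finset.sum_subset hsub]
      · rw [Finset.sum_range_succ, Finset.sum_range_one]
        have e0 : brc1_phi.coeff ((0 : ℕ) : ℤ) = 0 := brc1_coeff_nonpos 0 le_rfl
        have e1 : brc1_phi.coeff ((1 : ℕ) : ℤ) = 1 := brc1_coeff_one
        have e2 : LaurentSeries.hasseDeriv ℂ 1 brc1_phi = 1 + Lg := by
          rw [← brc1_dphi]
          unfold dL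
          rw [LaurentSeries.derivative_apply]
        have e3 : LaurentSeries.hasseDeriv ℂ 0 brc1_phi = brc1_phi := by
          rw [LaurentSeries.hasseDeriv_zero]
          rfl
        have e4 : A.Y A.om ((1 : ℕ) : ℤ) u = (a : ℂ) • u := by
          have := (A.mem_gr a u).1 hu
          exact_mod_cast this
        have e5 : A.Y A.om ((0 : ℕ) : ℤ) u = A.Y A.om 0 u := rfl
        rw [e0, e1, e2, e3, e4, e5, map_zero, zero_mul, zero_mul, rs_zero_f, sub_zero, rs_L1,
          map_one, one_mul, rs_smul_u, rs_smul_u]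
        have e6 : (1 + xL : LaurentSeries ℂ) ^ (1 - ((1 : ℕ) : ℤ)) = 1 := by simp
        rw [e6, one_mul]
        have e7 : dL (brc1_phi * g) = cc ((n : ℂ) + 1) * g + cc (a : ℂ) * (Lg * g) := by
          have e8 : (1 + xL) * dL g = cc ((a - 1 : ℤ) : ℂ) * g +
              cc (n : ℂ) * ((1 + xL) ^ (a - 1) * Lg ^ (n - 1)) := by
            rw [hg, dL_mul, dL_y_zpow, mul_add]
            have e9 : (1 + xL : LaurentSeries ℂ) * (1 + xL) ^ (a - 1 - 1) = (1 + xL) ^ (a - 1) := by
              have := zpow_add₀ y_ne 1 (a - 1 - 1)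
              rw [zpow_one] at this
              rw [← this]
              congr 1
              ring
            have e10 := dL_Lg_zpow n
            linear_combination (cc ((a - 1 : ℤ) : ℂ) * Lg ^ n) * e9 +
              ((1 + xL) ^ (a - 1)) * e10
          have e11 : Lg * Lg ^ (n - 1) = Lg ^ n := by
            have := zpow_add₀ Lg_ne 1 (n - 1)
            rw [zpow_one] at this
            rw [← this]
            congr 1
            ring
          rw [dL_mul, brc1_dphi]
          unfold brc1_phi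
          push_cast at e8
          rw [map_sub, map_one] at e8
          rw [map_add, map_one]
          linear_combination Lg * e8 + (cc (n : ℂ) * (1 + xL) ^ (a - 1)) * e11
        rw [e7, rs_add_f, rs_cc, rs_cc, add_mul, one_mul, rs_add_f]
        module
      · intro i _ hi
        rw [Finset.mem_range, not_lt] at hi
        rw [brc1_hasse i hi, sub_self]
    rw [hbr v, hbr (L0b A v), h1, brc1_L0b, brc1_L0b]
    have h4 : rs A brc1_phi A.om (rs A g u v) = rs A g u (rs A brc1_phi A.om v) +
        ∑ i ∈ range I, rs A (LaurentSeries.hasseDeriv ℂ i brc1_phi * g) (A.Y A.om i u) v := by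
      rw [← h2]
      abel
    rw [h4, sub_eq_iff_eq_add.1 h3]
    abel

end Pool.Agent.DERV
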