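import Pool.Agent.DERV.BRV

/-!
# Project DERV, part II: leading terms of the bracket modes
-/

set_option autoImplicit false

universe u

open Finset

namespace Pool.Agent.DERV

open Pool.Agent.VOAut
open UpperHalfPlane hiding I
open scoped Nat ArithmeticFunction.sigma Manifold

variable {V : Type u} [AddCommGroup V] [Module ℂ V]

variable (A : VOA V)

theorem low_gr_le {m n : ℤ} (h : m < n) : A.gr m ≤ lowg A n := by
  unfold lowg
  exact le_iSup₂_of_le m h le_rfl

theorem low_mono {m n : ℤ} (h : m ≤ n) : lowg A m ≤ lowg A n := by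
  unfold lowg
  exact iSup₂_le fun k hk => le_iSup₂_of_le k (lt_of_lt_of_le hk h) le_rfl

/-- Series of order at least `N`. -/
theorem low_rs {N : ℤ} {f : LaurentSeries ℂ} (hf : OG N f) (a b : ℤ) (u v : V) (hu : u ∈ A.gr a)
    (hv : v ∈ A.gr b) : rs A f u v ∈ lowg A (a + b - N) := by
  unfold rs
  refine finsum_induction (p := fun x => x ∈ lowg A (a + b - N)) (Submodule.zero_mem _)
    (fun x y hx hy => Submodule.add_mem _ hx hy) ?_
  intro i
  by_cases hi : i < N
  · rw [hf i hi, zero_smul]
    exact Submodule.zero_mem _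
  · refine Submodule.smul_mem _ _ (low_gr_le A (m := b + a - i - 1) (by omega) ?_)
    exact A.graded a i b u v hu hv

theorem low_LD (n a : ℤ) : LD n ((1 + xL) ^ (a - 1) * Lg ^ n) := by
  have := (LD_y_zpow (a - 1)).mul (LD_Lg_zpow n)
  rwa [zero_add] at this

theorem br_lead (n a b : ℤ) (u v : V) (hu : u ∈ A.gr a) (hv : v ∈ A.gr b) :
    br A n u v - A.Y u n v ∈ lowg A (a + b - n - 1) := by
  have h1 := low_LD n a
  unfold br
  rw [WW_of_mem A _ a u v hu]
  have h2 : A.Y u n v = rs A (HahnSeries.single n 1) u v := by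
    rw [rs_single, one_smul]
  rw [h2, ← rs_sub_f]
  have h3 : OG (n + 1) ((1 + xL) ^ (a - 1) * Lg ^ n - HahnSeries.single n 1) := by
    intro i hi
    rw [HahnSeries.coeff_sub]
    by_cases h : i = n
    · subst h
      rw [h1.2, HahnSeries.coeff_single_same, sub_self]
    · rw [h1.1 i (by omega), HahnSeries.coeff_single_of_ne h, sub_zero]
  have h4 := low_rs A h3 a b u v hu hv
  have e : a + b - n - 1 = a + b - (n + 1) := by ring
  rw [e]
  exact h4

theorem br_low (n a b : ℤ) (u v : V) (hu : u ∈ A.gr a) (hv : v ∈ A.gr b) :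
    br A n u v ∈ lowg A (a + b - n) := by
  unfold br
  rw [WW_of_mem A _ a u v hu]
  exact low_rs A (low_LD n a).1 a b u v hu hv

theorem L0b_tri (n : ℤ) (v : V) (hv : v ∈ A.gr n) : L0b A v - (n : ℂ) • v ∈ lowg A n := by
  rw [L0b_apply, br_omt, if_neg (by norm_num), sub_zero, ← (A.mem_gr n v).1 hv]
  have h := br_lead A 1 2 n A.om v (om_mem A) hv
  have e : (2 : ℤ) + n - 1 - 1 = n := by ring
  rwa [e] at h

end Pool.Agent.DERV
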