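import Pool.Agent.DERV.BRC1
import Pool.Agent.DERV.LOW

/-!
# Project DERV, part II: the bracket grading
-/

set_option autoImplicit false

universe u

open Finset

namespace Pool.Agent.DERV

open Pool.Agent.VOAut
open UpperHalfPlane hiding I
open scoped Nat ArithmeticFunction.sigma Manifold

variable {V : Type u} [AddCommGroup V] [Module ℂ V]

variable {A : VOA V}

/-- `y L`. -/
theorem brc2_phi (i : ℤ) : ((1 + xL) ^ ((2 : ℤ) - 1) * Lg ^ (1 : ℤ)).coeff i =
    Lg.coeff i + Lg.coeff (i - 1) := by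
  have e : (2 : ℤ) - 1 = 1 := by norm_num
  rw [e, zpow_one, zpow_one, add_mul, one_mul, HahnSeries.coeff_add]
  unfold xL
  rw [HahnSeries.coeff_single_mul, one_mul]

theorem brc2_phi_neg (i : ℤ) (hi : i ≤ 0) :
    ((1 + xL) ^ ((2 : ℤ) - 1) * Lg ^ (1 : ℤ)).coeff i = 0 := by
  rw [brc2_phi, LD_Lg.1 i (by omega), LD_Lg.1 (i - 1) (by omega), add_zero]

theorem brc2_phi_one : ((1 + xL) ^ ((2 : ℤ) - 1) * Lg ^ (1 : ℤ)).coeff 1 = 1 := by
  rw [brc2_phi, LD_Lg.2, LD_Lg.1 (1 - 1) (by norm_num), add_zero]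

theorem brc2_phi_three : ((1 + xL) ^ ((2 : ℤ) - 1) * Lg ^ (1 : ℤ)).coeff 3 = -(1 / 6) := by
  have h3 := Lg_coeff_nat 3
  have h2 := Lg_coeff_nat 2
  rw [PowerSeries.coeff_log, if_neg (by norm_num)] at h3 h2
  have e : (3 : ℤ) - 1 = 2 := by norm_num
  rw [brc2_phi, e]
  push_cast at h2 h3
  rw [h2, h3]
  norm_num

theorem brc2_om (A : VOA V) (i : ℤ) (hi : 2 ≤ i) :
    A.Y A.om i A.om = (if i = 3 then A.c / 2 else 0) • A.vac := by
  have h := A.virasoro (i - 1) (-2) A.vac
  have e1 : i - 1 + 1 = i := by ring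
  have e2 : (-2 : ℤ) + 1 = -1 := by norm_num
  rw [e1, e2, A.creation_neg_one, A.creation A.om i (by omega), map_zero, sub_zero,
    A.creation A.om (i - 1 + -2 + 1) (by omega), smul_zero, zero_add] at h
  rw [h]
  by_cases h3 : i = 3
  · subst h3
    rw [if_pos (by norm_num), if_pos rfl]
    congr 1
    push_cast
    ring
  · rw [if_neg (by omega), if_neg h3]

theorem brc2_br_om (A : VOA V) (v : V) : br A 1 A.om v =
    rs A ((1 + xL) ^ ((2 : ℤ) - 1) * Lg ^ (1 : ℤ)) A.om v := by
  unfold br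
  rw [WW_of_mem A _ 2 A.om v (om_mem A)]

theorem brc2_om_vac (A : VOA V) : br A 1 A.om A.vac = 0 := by
  rw [brc2_br_om]
  unfold rs
  rw [← finsum_zero (α := ℤ)]
  apply finsum_congr
  intro i
  by_cases hi : i ≤ 0
  · rw [brc2_phi_neg i hi, zero_smul]
  · rw [A.creation A.om i (by omega), smul_zero]

theorem brc2_om_om (A : VOA V) : br A 1 A.om A.om = (2 : ℂ) • A.om - (A.c / 12) • A.vac := by
  rw [brc2_br_om]
  unfold rs
  rw [finsum_eq_sum_of_support_subset (s := {1, 3})]
  · rw [Finset.sum_pair (by norm_num), brc2_phi_one, brc2_phi_three,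
      brc2_om A 3 (by norm_num), if_pos rfl, one_smul, (A.mem_gr 2 A.om).1 (om_mem A), smul_smul,
      sub_eq_add_neg, ← _root_.neg_smul]
    congr 2
    ring
  · intro i hi
    rw [Function.mem_support] at hi
    by_contra hn
    apply hi
    simp only [Finset.coe_insert, Finset.coe_singleton, Set.mem_insert_iff,
      Set.mem_singleton_iff, not_or] at hn
    by_cases h0 : i ≤ 0
    · rw [brc2_phi_neg i h0, zero_smul]
    · rw [brc2_om A i (by omega), if_neg hn.2, zero_smul, smul_zero]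

theorem L0b_omt (h : CFT A) : L0b A (omt A) = (2 : ℂ) • omt A := by
  rw [L0b_apply, br_omt, if_neg (by norm_num), sub_zero]
  have h1 : br A 1 A.om (omt A) = br A 1 A.om A.om - (A.c / 24) • br A 1 A.om A.vac := by
    rw [← brL_apply, ← brL_apply, ← brL_apply]
    unfold omt
    rw [map_sub, map_smul]
  rw [h1, brc2_om_vac, brc2_om_om, smul_zero, sub_zero]
  unfold omt
  rw [smul_sub, smul_smul]
  congr 2
  ring

theorem omt_brg (h : CFT A) : omt A ∈ brg A 2 := by
  unfold brg
  rw [Module.End.mem_eigenspace_iff, L0b_omt h]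
  norm_num

theorem brc2_low (h : CFT A) (N : ℕ) :
    lowg A (N : ℤ) ≤ ⨆ (m : ℤ) (_ : m < (N : ℤ)), brg A m := by
  induction N with
  | zero =>
    unfold lowg
    apply iSup₂_le
    intro m hm
    rw [h.neg m (by simpa using hm)]
    exact bot_le
  | succ N ih =>
    set P : Submodule ℂ V := ⨆ (m : ℤ) (_ : m < (N : ℤ)), brg A m with hP
    have hPQ : P ≤ ⨆ (m : ℤ) (_ : m < ((N + 1 : ℕ) : ℤ)), brg A m := by
      apply iSup₂_le
      intro m hm
      exact le_iSup₂_of_le m (by push_cast; omega) le_rfl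
    have hsol : P ≤ P.map (L0b A - algebraMap ℂ (Module.End ℂ V) (N : ℂ)) := by
      conv_lhs => rw [hP]
      apply iSup₂_le
      intro m hm w hw
      have hne : ((m : ℂ) - (N : ℂ)) ≠ 0 := by
        rw [sub_ne_zero]
        intro he
        have : m = (N : ℤ) := by exact_mod_cast he
        omega
      refine ⟨((m : ℂ) - (N : ℂ))⁻¹ • w, P.smul_mem _ ?_, ?_⟩
      · exact (le_iSup₂_of_le (f := fun (m : ℤ) (_ : m < (N : ℤ)) => brg A m) m hm le_rfl) hw
      · have h1 : L0b A w = (m : ℂ) • w := Module.End.mem_eigenspace_iff.1 hw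
        rw [LinearMap.sub_apply, map_smul, h1, Module.algebraMap_end_apply, smul_smul, smul_smul,
          ← sub_smul]
        have e : ((m : ℂ) - N)⁻¹ * m - N * ((m : ℂ) - N)⁻¹ = 1 := by
          field_simp
        rw [e, one_smul]
    unfold lowg
    apply iSup₂_le
    intro m hm v hv
    rcases lt_or_eq_of_le (show m ≤ (N : ℤ) by push_cast at hm; omega) with h1 | h1
    · apply hPQ
      apply ih
      exact (le_iSup₂_of_le (f := fun (m : ℤ) (_ : m < (N : ℤ)) => A.gr m) m h1 le_rfl) hv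
    · subst h1
      have h2 := hsol (ih (L0b_tri A (N : ℤ) v hv))
      obtain ⟨w, hw, hw2⟩ := h2
      have h3 : v - w ∈ brg A (N : ℤ) := by
        unfold brg
        rw [Module.End.mem_eigenspace_iff]
        rw [LinearMap.sub_apply, Module.algebraMap_end_apply] at hw2
        rw [map_sub, smul_sub]
        push_cast at hw2 ⊢
        rw [sub_eq_sub_iff_sub_eq_sub]
        exact hw2.symm
      have h4 : v = (v - w) + w := by abel
      rw [h4]
      refine add_mem ?_ (hPQ hw)
      exact (le_iSup₂_of_le (f := fun (m : ℤ) (_ : m < ((N + 1 : ℕ) : ℤ)) => brg A m) (N : ℤ)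
        (by push_cast; omega) le_rfl) h3

theorem brc2_top (h : CFT A) : ⨆ n : ℤ, brg A n = ⊤ := by
  rw [eq_top_iff, ← A.internal.submodule_iSup_eq_top]
  apply iSup_le
  intro n
  have h1 : A.gr n ≤ lowg A (((n + 1).toNat : ℕ) : ℤ) := by
    unfold lowg
    have := Int.self_le_toNat (n + 1)
    exact le_iSup₂_of_le n (by omega) le_rfl
  refine h1.trans ((brc2_low h _).trans ?_)
  apply iSup₂_le
  intro m _
  exact le_iSup (fun n => brg A n) m

theorem brg_int (h : CFT A) : DirectSum.IsInternal (brg A) := by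
  rw [DirectSum.isInternal_submodule_iff_iSupIndep_and_iSup_eq_top]
  refine ⟨?_, brc2_top h⟩
  have h1 := Module.End.eigenspaces_iSupIndep (L0b A)
  have h2 : Function.Injective (fun n : ℤ => (n : ℂ)) := Int.cast_injective
  exact h1.comp h2

theorem br_brg (a b n : ℤ) (u v : V) (hu : u ∈ brg A a) (hv : v ∈ brg A b) :
    br A n u v ∈ brg A (a + b - n - 1) := by
  have h1 : L0b A u = (a : ℂ) • u := Module.End.mem_eigenspace_iff.1 hu
  have h2 : L0b A v = (b : ℂ) • v := Module.End.mem_eigenspace_iff.1 hv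
  unfold brg
  rw [Module.End.mem_eigenspace_iff, comm_L0b, h1, h2]
  have e1 : br A n ((a : ℂ) • u) v = (a : ℂ) • br A n u v := WW_smul_u A _ _ u v
  have e2 : br A n u ((b : ℂ) • v) = (b : ℂ) • br A n u v := WW_smul_v A _ _ u v
  rw [e1, e2, ← add_smul, ← sub_smul]
  congr 1
  push_cast
  ring

theorem brg_ind (h : CFT A) {P : V → Prop} (v : V) (h0 : P 0)
    (hadd : ∀ x y, P x → P y → P (x + y)) (hh : ∀ n : ℤ, ∀ x ∈ brg A n, P x) : P v := by
  have hv : v ∈ ⨆ n, brg A n := by
    rw [brc2_top h]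
    exact Submodule.mem_top
  exact Submodule.iSup_induction (fun n => brg A n) (motive := P) hv (fun n x hx => hh n x hx)
    h0 hadd

end Pool.Agent.DERV
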