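import Pool.Agent.DERV.CV4

/-!
# Project DERV, part II: the relations for q^lam f(q)
-/

set_option autoImplicit false

universe u

open Finset

namespace Pool.Agent.DERV

open Pool.Agent.VOAut
open UpperHalfPlane hiding I
open scoped Nat ArithmeticFunction.sigma Manifold

variable {V : Type u} [AddCommGroup V] [Module ℂ V]

variable (A : VOA V)

theorem Cv_SS (c : ℕ → ℂ) (s : ℤ) (e : ℕ → PowerSeries ℂ) (he : ∀ j, Cv (e j))
    (F : V →ₗ[ℂ] PowerSeries ℂ) (hF : ∀ v, Cv (F v)) (u v : V) : Cv (SS A c s e F u v) := by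
  obtain ⟨K, h⟩ := SS_range A s u v
  rw [h _ c e F K le_rfl]
  exact Cv.sum _ _ fun j _ => ((he j).mul (hF _)).smul _

theorem cv6_sum (lam : ℂ) {ι : Type*} (s : Finset ι) (f : ι → PowerSeries ℂ)
    (hf : ∀ i ∈ s, Cv (f i)) : EX lam (∑ i ∈ s, f i) = ∑ i ∈ s, EX lam (f i) := by
  classical
  induction s using Finset.induction_on with
  | empty => rw [Finset.sum_empty, Finset.sum_empty, EX_zero]
  | insert a s ha ih =>
    rw [Finset.sum_insert ha, Finset.sum_insert ha,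
      EX_add lam (hf a (Finset.mem_insert_self a s))
        (Cv.sum s f fun i hi => hf i (Finset.mem_insert_of_mem hi)),
      ih fun i hi => hf i (Finset.mem_insert_of_mem hi)]

theorem SS_EX (lam : ℂ) (c : ℕ → ℂ) (s : ℤ) (e : ℕ → PowerSeries ℂ) (he : ∀ j, Cv (e j))
    (F : V →ₗ[ℂ] PowerSeries ℂ) (hF : ∀ v, Cv (F v)) (S : V →ₗ[ℂ] (ℍ → ℂ))
    (hS : ∀ v, S v = EX lam (F v)) (u v : V) :
    SS A c s (fun j => evH (e j)) S u v = EX lam (SS A c s e F u v) := by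
  obtain ⟨K, h⟩ := SS_range A s u v
  rw [h _ c e F K le_rfl, h _ c (fun j => evH (e j)) S K le_rfl,
    cv6_sum lam _ _ fun j _ => ((he j).mul (hF _)).smul _]
  apply Finset.sum_congr rfl
  intro j _
  rw [EX_smul, ← EX_mul lam (hF _) (he j), hS]

theorem Cv_df2 (e : ℕ → PowerSeries ℂ) (he : ∀ j, Cv (e j))
    (F : V →ₗ[ℂ] PowerSeries ℂ) (hF : ∀ v, Cv (F v)) (u v : V) : Cv (df2 A e F u v) :=
  (hF _).add (Cv_SS A _ _ e he F hF u v)

theorem df2_EX (lam : ℂ) (e : ℕ → PowerSeries ℂ) (he : ∀ j, Cv (e j))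
    (F : V →ₗ[ℂ] PowerSeries ℂ) (hF : ∀ v, Cv (F v)) (S : V →ₗ[ℂ] (ℍ → ℂ))
    (hS : ∀ v, S v = EX lam (F v)) (u v : V) :
    df2 A (fun j => evH (e j)) S u v = EX lam (df2 A e F u v) := by
  unfold df2
  rw [EX_add lam (hF _) (Cv_SS A _ _ e he F hF u v), SS_EX A lam _ _ e he F hF S hS, hS]

theorem Cv_df3 (e : ℕ → PowerSeries ℂ) (he : ∀ j, Cv (e j))
    (F : V →ₗ[ℂ] PowerSeries ℂ) (hF : ∀ v, Cv (F v)) (v : V) : Cv (df3 A e F v) :=
  (hF _).sub (Cv_SS A _ _ e he F hF (omt A) v)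

theorem df3_EX (lam : ℂ) (e : ℕ → PowerSeries ℂ) (he : ∀ j, Cv (e j))
    (F : V →ₗ[ℂ] PowerSeries ℂ) (hF : ∀ v, Cv (F v)) (S : V →ₗ[ℂ] (ℍ → ℂ))
    (hS : ∀ v, S v = EX lam (F v)) (v : V) :
    df3 A (fun j => evH (e j)) S v = EX lam (df3 A e F v) := by
  unfold df3
  rw [EX_sub lam (hF _) (Cv_SS A _ _ e he F hF (omt A) v), SS_EX A lam _ _ e he F hF S hS, hS]

end Pool.Agent.DERV
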