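import Pool.Agent.DERV.FGN1
import Pool.Agent.DERV.LOW

/-!
# Project DERV, part II: finite generation
-/

set_option autoImplicit false

universe u

open Finset

namespace Pool.Agent.DERV

open Pool.Agent.VOAut
open UpperHalfPlane hiding I
open scoped Nat ArithmeticFunction.sigma Manifold

variable {V : Type u} [AddCommGroup V] [Module ℂ V]

/-- Expressions generated by the values at `w i` and the defects. -/
def fgn2_P (A : VOA V) {d : ℕ} (w : Fin d → V)
    (Φ : ∀ (B : Type) [CommRing B] [Algebra ℂ B], (ℕ → B) → (V →ₗ[ℂ] B) → B) : Prop :=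
  ∃ (g : Fin d → MvPolynomial ℕ ℂ) (L : List (MvPolynomial ℕ ℂ × V × V)),
    ∀ (B : Type) [CommRing B] [Algebra ℂ B] (e : ℕ → B) (S : V →ₗ[ℂ] B),
      Φ B e S = ∑ i, MvPolynomial.aeval e (g i) * S (w i) +
        (L.map fun x => MvPolynomial.aeval e x.1 * df2 A e S x.2.1 x.2.2).sum

section

variable {A : VOA V} {d : ℕ} {w : Fin d → V}

theorem fgn2_zero : fgn2_P A w (fun _ _ _ _ _ => 0) :=
  ⟨fun _ => 0, [], fun B _ _ e S => by simp⟩

theorem fgn2_add {Φ Ψ : ∀ (B : Type) [CommRing B] [Algebra ℂ B], (ℕ → B) → (V →ₗ[ℂ] B) → B}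
    (h1 : fgn2_P A w Φ) (h2 : fgn2_P A w Ψ) :
    fgn2_P A w (fun B _ _ e S => Φ B e S + Ψ B e S) := by
  obtain ⟨g, L, h⟩ := h1
  obtain ⟨g', L', h'⟩ := h2
  refine ⟨fun i => g i + g' i, L ++ L', fun B _ _ e S => ?_⟩
  beta_reduce
  try beta_reduce at h
  rw [h B e S, h' B e S, List.map_append, List.sum_append]
  simp only [map_add, add_mul, Finset.sum_add_distrib]
  ring

theorem fgn2_mul {Φ : ∀ (B : Type) [CommRing B] [Algebra ℂ B], (ℕ → B) → (V →ₗ[ℂ] B) → B}
    (p : MvPolynomial ℕ ℂ) (h1 : fgn2_P A w Φ) :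
    fgn2_P A w (fun B _ _ e S => MvPolynomial.aeval e p * Φ B e S) := by
  obtain ⟨g, L, h⟩ := h1
  refine ⟨fun i => p * g i, L.map (fun x => (p * x.1, x.2)), fun B _ _ e S => ?_⟩
  beta_reduce
  try beta_reduce at h
  rw [h B e S, List.map_map, mul_add, Finset.mul_sum, ← List.sum_map_mul_left]
  congr 1
  · apply Finset.sum_congr rfl
    intro i _
    rw [map_mul, mul_assoc]
  · congr 1
    apply List.map_congr_left
    intro x _
    simp only [Function.comp_apply, map_mul, mul_assoc]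

theorem fgn2_smul {Φ : ∀ (B : Type) [CommRing B] [Algebra ℂ B], (ℕ → B) → (V →ₗ[ℂ] B) → B}
    (c : ℂ) (h1 : fgn2_P A w Φ) : fgn2_P A w (fun B _ _ e S => c • Φ B e S) := by
  obtain ⟨g, L, h⟩ := fgn2_mul (MvPolynomial.C c) h1
  refine ⟨g, L, fun B _ _ e S => ?_⟩
  beta_reduce
  try beta_reduce at h
  rw [← h B e S, MvPolynomial.aeval_C, Algebra.smul_def]

theorem fgn2_sub {Φ Ψ : ∀ (B : Type) [CommRing B] [Algebra ℂ B], (ℕ → B) → (V →ₗ[ℂ] B) → B}
    (h1 : fgn2_P A w Φ) (h2 : fgn2_P A w Ψ) :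
    fgn2_P A w (fun B _ _ e S => Φ B e S - Ψ B e S) := by
  obtain ⟨g, L, h⟩ := fgn2_add h1 (fgn2_smul (-1) h2)
  refine ⟨g, L, fun B _ _ e S => ?_⟩
  beta_reduce
  try beta_reduce at h
  rw [← h B e S]
  simp [sub_eq_add_neg]

theorem fgn2_sum {Φ : ℕ → ∀ (B : Type) [CommRing B] [Algebra ℂ B], (ℕ → B) → (V →ₗ[ℂ] B) → B}
    (h1 : ∀ j, fgn2_P A w (Φ j)) (K : ℕ) :
    fgn2_P A w (fun B _ _ e S => ∑ j ∈ range K, Φ j B e S) := by
  induction K with
  | zero =>
    obtain ⟨g, L, h⟩ := fgn2_zero (A := A) (w := w)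
    refine ⟨g, L, fun B _ _ e S => ?_⟩
    beta_reduce
    try beta_reduce at h
    rw [← h B e S, Finset.range_zero, Finset.sum_empty]
  | succ K ih =>
    obtain ⟨g, L, h⟩ := fgn2_add ih (h1 K)
    refine ⟨g, L, fun B _ _ e S => ?_⟩
    beta_reduce
    try beta_reduce at h
    rw [← h B e S, Finset.sum_range_succ]

theorem fgn2_df2 (u v : V) : fgn2_P A w (fun _ _ _ e S => df2 A e S u v) :=
  ⟨fun _ => 0, [(1, u, v)], fun B _ _ e S => by simp⟩

theorem fgn2_w (i : Fin d) : fgn2_P A w (fun _ _ _ _ S => S (w i)) := by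
  classical
  refine ⟨fun j => if j = i then 1 else 0, [], fun B _ _ e S => ?_⟩
  beta_reduce
  try beta_reduce at h
  rw [Finset.sum_eq_single i]
  · simp
  · intro j _ hj
    simp [hj]
  · intro h
    exact absurd (Finset.mem_univ _) h

/-- The set of vectors for which the claim holds, as a submodule. -/
def fgn2_U (A : VOA V) {d : ℕ} (w : Fin d → V) : Submodule ℂ V where
  carrier := {v | fgn2_P A w (fun _ _ _ _ S => S v)}
  zero_mem' := by
    obtain ⟨g, L, h⟩ := fgn2_zero (A := A) (w := w)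
    refine ⟨g, L, fun B _ _ e S => ?_⟩
    beta_reduce
    try beta_reduce at h
    rw [← h B e S]
    exact map_zero S
  add_mem' := by
    intro x y hx hy
    obtain ⟨g, L, h⟩ := fgn2_add hx hy
    refine ⟨g, L, fun B _ _ e S => ?_⟩
    beta_reduce
    try beta_reduce at h
    rw [← h B e S, map_add]
  smul_mem' := by
    intro c x hx
    obtain ⟨g, L, h⟩ := fgn2_smul c hx
    refine ⟨g, L, fun B _ _ e S => ?_⟩
    beta_reduce
    try beta_reduce at h
    rw [← h B e S, map_smul]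

theorem fgn2_SS (c : ℕ → ℂ) (s : ℤ) (u v : V) (h : ∀ j : ℕ, br A (2 * j + s) u v ∈ fgn2_U A w) :
    fgn2_P A w (fun _ _ _ e S => SS A c s e S u v) := by
  obtain ⟨K, hK⟩ := SS_range A s u v
  have h1 : ∀ j : ℕ, fgn2_P A w (fun _ _ _ e S => c j • (e j * S (br A (2 * j + s) u v))) := by
    intro j
    have h2 : fgn2_P A w (fun _ _ _ _ S => S (br A (2 * j + s) u v)) := h j
    obtain ⟨g, L, h3⟩ := fgn2_smul (c j) (fgn2_mul (MvPolynomial.X j) h2)
    refine ⟨g, L, fun B _ _ e S => ?_⟩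
    beta_reduce
    try beta_reduce at h
    rw [← h3 B e S]
    beta_reduce
    rw [MvPolynomial.aeval_X]
  obtain ⟨g, L, h4⟩ := fgn2_sum h1 K
  refine ⟨g, L, fun B _ _ e S => ?_⟩
  beta_reduce
  try beta_reduce at h
  rw [← h4 B e S, hK B c e S K le_rfl]

end

theorem fgn2_low {A : VOA V} {d : ℕ} {w : Fin d → V} {N : ℤ}
    (hN : ∀ n : ℤ, N ≤ n → ∀ v ∈ A.gr n,
      v ∈ Submodule.span ℂ {x : V | ∃ (a b : ℤ) (p q : V), p ∈ A.gr a ∧ q ∈ A.gr b ∧
        a + b + 1 = n ∧ x = A.Y p (-2) q})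
    (hw : lowg A N ≤ fgn2_U A w) (k : ℕ) : lowg A (N + k) ≤ fgn2_U A w := by
  induction k with
  | zero => simpa using hw
  | succ k ih =>
    unfold lowg
    refine iSup₂_le fun m hm => ?_
    by_cases hmk : m < N + k
    · exact (low_gr_le A hmk).trans ih
    · have hmk' : m = N + k := by push_cast at hm; omega
      intro v hv
      have h1 := hN m (by omega) v hv
      refine (Submodule.span_le (p := fgn2_U A w)).2 ?_ h1
      rintro x ⟨a, b, p, q, hp, hq, hab, rfl⟩
      have h2 : br A (-2) p q ∈ fgn2_U A w := by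
        have h3 : fgn2_P A w (fun _ _ _ e S => SS A (fun j => 2 * j + 1) 0 e S p q) := by
          refine fgn2_SS _ 0 p q fun j => ?_
          refine ih (low_mono A ?_ (br_low A (2 * j + 0) a b p q hp hq))
          omega
        obtain ⟨g, L, h4⟩ := fgn2_sub (fgn2_df2 p q) h3
        refine ⟨g, L, fun B _ _ e S => ?_⟩
        beta_reduce
        try beta_reduce at h
        rw [← h4 B e S]
        unfold df2
        ring
      have h5 : br A (-2) p q - A.Y p (-2) q ∈ fgn2_U A w := by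
        refine ih (low_mono A ?_ (br_lead A (-2) a b p q hp hq))
        omega
      have h6 := Submodule.sub_mem _ h2 h5
      rwa [sub_sub_cancel] at h6

theorem fg {A : VOA V} (h : CFT A) (hc : C2 A) : ∃ (d : ℕ) (w : Fin d → V),
    (∀ v : V, ∃ (g : Fin d → MvPolynomial ℕ ℂ) (L : List (MvPolynomial ℕ ℂ × V × V)),
      ∀ (B : Type) [CommRing B] [Algebra ℂ B] (e : ℕ → B) (S : V →ₗ[ℂ] B),
        S v = ∑ i, MvPolynomial.aeval e (g i) * S (w i) +
          (L.map fun x => MvPolynomial.aeval e x.1 * df2 A e S x.2.1 x.2.2).sum) ∧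
    (∀ v : V, ∃ (g : Fin d → MvPolynomial ℕ ℂ) (L : List (MvPolynomial ℕ ℂ × V × V)),
      ∀ (B : Type) [CommRing B] [Algebra ℂ B] (e : ℕ → B) (S : V →ₗ[ℂ] B),
        df3 A e S v = ∑ i, MvPolynomial.aeval e (g i) * S (w i) +
          (L.map fun x => MvPolynomial.aeval e x.1 * df2 A e S x.2.1 x.2.2).sum) := by
  obtain ⟨N, hN⟩ := c2_split hc
  -- the sum of the pieces of weight less than `N` is finite dimensional
  have hfin : FiniteDimensional ℂ (lowg A N) := by
    have h1 : lowg A N ≤ (Finset.Ico 0 N).sup A.gr := by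
      unfold lowg
      refine iSup₂_le fun m hm => ?_
      by_cases h0 : 0 ≤ m
      · exact Finset.le_sup (f := A.gr) (Finset.mem_Ico.2 ⟨h0, hm⟩)
      · rw [h.neg m (by omega)]
        exact bot_le
    have : ∀ m, FiniteDimensional ℂ (A.gr m) := A.findim
    have h2 : FiniteDimensional ℂ ((Finset.Ico 0 N).sup A.gr : Submodule ℂ V) := by
      infer_instance
    exact Submodule.finiteDimensional_of_le h1
  obtain ⟨d, s, hs⟩ := Module.Finite.exists_fin (R := ℂ) (M := lowg A N)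
  let w : Fin d → V := fun i => (s i : V)
  have hw : lowg A N ≤ fgn2_U A w := by
    have h1 : lowg A N = Submodule.span ℂ (Set.range w) := by
      have h2 := congrArg (Submodule.map (lowg A N).subtype) hs
      rw [Submodule.map_span, ← Set.range_comp, Submodule.map_subtype_top] at h2
      exact h2.symm
    rw [h1, Submodule.span_le]
    rintro x ⟨i, rfl⟩
    exact fgn2_w i
  have hall : ∀ v : V, v ∈ fgn2_U A w := by
    intro v
    refine hom_ind A (P := fun v => v ∈ fgn2_U A w) v (Submodule.zero_mem _)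
      (fun x y hx hy => Submodule.add_mem _ hx hy) ?_
    intro n x hx
    refine fgn2_low hN hw (n - N + 1).toNat (low_gr_le A ?_ hx)
    have := Int.self_le_toNat (n - N + 1)
    omega
  refine ⟨d, w, fun v => hall v, fun v => ?_⟩
  have h1 : fgn2_P A w (fun _ _ _ e S => SS A (fun _ => 1) 1 e S (omt A) v) :=
    fgn2_SS _ 1 _ _ fun j => hall _
  have h2 : fgn2_P A w (fun _ _ _ _ S => S (br A (-1) (omt A) v)) := hall _
  exact fgn2_sub h2 h1

end Pool.Agent.DERV
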