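import Pool.Agent.DERV.CV3

/-!
# Project DERV, part II: uniqueness of solutions
-/

set_option autoImplicit false

universe u

open Finset

namespace Pool.Agent.DERV

open Pool.Agent.VOAut
open UpperHalfPlane hiding I
open scoped Nat ArithmeticFunction.sigma Manifold

variable {V : Type u} [AddCommGroup V] [Module ℂ V]

theorem grw1_deriv {F : ℍ → ℂ} (hF : Hol F) {z : ℂ} (hz : 0 < z.im) :
    HasDerivAt (F ∘ ofComplex) (2 * Real.pi * Complex.I * DH F (ofComplex z)) z := by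
  have h1 := (cv3_diff hF ⟨z, hz⟩).hasDerivAt
  have h2 : DH F (ofComplex z) = kap * deriv (F ∘ ofComplex) z := by
    rw [ofComplex_apply_of_im_pos hz]
    rfl
  have h3 : 2 * Real.pi * Complex.I * DH F (ofComplex z) = deriv (F ∘ ofComplex) z := by
    rw [h2]
    linear_combination (deriv (F ∘ ofComplex) z) * cv3_kap
  rw [h3]
  exact h1

/-- derivative along a straight line -/
theorem grw1_path {F : ℍ → ℂ} (hF : Hol F) (a v : ℂ) (t : ℝ) (ht : 0 < (a + t * v).im) :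
    HasDerivAt (fun t : ℝ => F (ofComplex (a + t * v)))
      (2 * Real.pi * Complex.I * DH F (ofComplex (a + t * v)) * v) t := by
  have h1 : HasDerivAt (fun t : ℝ => a + (t : ℂ) * v) v t := by
    have h2 := ((hasDerivAt_id t).ofReal_comp.mul_const v).const_add a
    simpa using h2
  exact (grw1_deriv hF ht).comp t h1

theorem grw1_cont {F : ℍ → ℂ} (hF : Continuous F) (a v : ℂ) (t : ℝ)
    (ht : 0 < (a + t * v).im) : ContinuousAt (fun t : ℝ => F (ofComplex (a + t * v))) t := by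
  have h1 : ContinuousAt (fun t : ℝ => a + (t : ℂ) * v) t := by fun_prop
  have h2 : ContinuousAt ofComplex (a + (t : ℂ) * v) :=
    (mdifferentiableAt_ofComplex ht).continuousAt
  exact hF.continuousAt.comp (ContinuousAt.comp (f := fun t : ℝ => a + (t : ℂ) * v) h2 h1)

theorem ode_uniq {d : ℕ} (M : Fin d → Fin d → ℍ → ℂ) (hM : ∀ i j, Continuous (M i j))
    (y : Fin d → ℍ → ℂ) (hy : ∀ i, Hol (y i)) (h : ∀ i, DH (y i) = ∑ j, M i j * y j)
    (τ0 : ℍ) (h0 : ∀ i, y i τ0 = 0) : ∀ i, y i = 0 := by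
  suffices hmain : ∀ τ : ℍ, ∀ i, y i τ = 0 by
    intro i
    ext τ
    exact hmain τ i
  intro τ
  have hpos : ∀ t : ℝ, t ∈ Set.Icc (0 : ℝ) 1 →
      0 < ((τ0 : ℂ) + t * ((τ : ℂ) - τ0)).im := by
    intro t ht
    have e1 : ((τ0 : ℂ) + t * ((τ : ℂ) - τ0)).im = (1 - t) * τ0.im + t * τ.im := by
      simp [Complex.mul_im]
      ring
    rw [e1]
    have h1 := τ0.im_pos
    have h2 := τ.im_pos
    rcases lt_or_eq_of_le ht.2 with h3 | h3
    · have : 0 < (1 - t) * τ0.im := mul_pos (by linarith) h1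
      have : 0 ≤ t * τ.im := mul_nonneg ht.1 h2.le
      linarith
    · rw [h3]
      linarith
  -- bound for the matrix
  obtain ⟨C, hC⟩ : ∃ C : ℝ, ∀ t ∈ Set.Icc (0 : ℝ) 1,
      ‖(∑ i, ∑ j, ‖M i j (ofComplex ((τ0 : ℂ) + t * ((τ : ℂ) - τ0)))‖ : ℝ)‖ ≤ C := by
    refine isCompact_Icc.exists_bound_of_continuousOn fun t ht => ContinuousAt.continuousWithinAt ?_
    refine tendsto_finsetSum _ fun i _ => tendsto_finsetSum _ fun j _ => ?_
    exact (grw1_cont (hM i j) _ _ t (hpos t ht)).norm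
  have hC0 : 0 ≤ C := (norm_nonneg _).trans (hC 0 ⟨le_rfl, zero_le_one⟩)
  have hMC : ∀ t ∈ Set.Icc (0 : ℝ) 1, ∀ i j,
      ‖M i j (ofComplex ((τ0 : ℂ) + t * ((τ : ℂ) - τ0)))‖ ≤ C := by
    intro t ht i j
    have h1 := hC t ht
    rw [Real.norm_of_nonneg (Finset.sum_nonneg fun i _ => Finset.sum_nonneg fun j _ =>
      norm_nonneg _)] at h1
    refine le_trans ?_ h1
    refine (Finset.single_le_sum
      (f := fun j => ‖M i j (ofComplex ((τ0 : ℂ) + t * ((τ : ℂ) - τ0)))‖)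
      (fun j _ => norm_nonneg _) (Finset.mem_univ j)).trans ?_
    exact Finset.single_le_sum
      (f := fun i => ∑ j, ‖M i j (ofComplex ((τ0 : ℂ) + t * ((τ : ℂ) - τ0)))‖)
      (fun i _ => Finset.sum_nonneg fun j _ => norm_nonneg _) (Finset.mem_univ i)
  obtain ⟨f, hf⟩ : ∃ f : ℝ → Fin d → ℂ, f = fun (t : ℝ) (i : Fin d) =>
      y i (ofComplex ((τ0 : ℂ) + (t : ℂ) * ((τ : ℂ) - τ0))) := ⟨_, rfl⟩
  obtain ⟨f', hf'⟩ : ∃ f' : ℝ → Fin d → ℂ, f' = fun (t : ℝ) (i : Fin d) =>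
      2 * Real.pi * Complex.I * DH (y i) (ofComplex ((τ0 : ℂ) + (t : ℂ) * ((τ : ℂ) - τ0))) *
        ((τ : ℂ) - τ0) := ⟨_, rfl⟩
  have hder : ∀ t ∈ Set.Icc (0 : ℝ) 1, HasDerivAt f (f' t) t := by
    intro t ht
    rw [hf, hf']
    exact hasDerivAt_pi.mpr fun i => grw1_path (hy i) _ _ t (hpos t ht)
  have key := norm_le_gronwallBound_of_norm_deriv_right_le (f := f) (f' := f') (δ := 0)
    (K := 2 * Real.pi * (d * C) * ‖(τ : ℂ) - τ0‖) (ε := 0) (a := 0) (b := 1)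
    (fun t ht => (hder t ht).continuousAt.continuousWithinAt)
    (fun t ht => (hder t ⟨ht.1, ht.2.le⟩).hasDerivWithinAt)
    (by
      have h1 : f 0 = 0 := by
        rw [hf]
        ext i
        have h2 : (τ0 : ℂ) + ((0 : ℝ) : ℂ) * ((τ : ℂ) - τ0) = τ0 := by simp
        show y i (ofComplex ((τ0 : ℂ) + ((0 : ℝ) : ℂ) * ((τ : ℂ) - τ0))) = 0
        rw [h2, ofComplex_apply, h0]
      rw [h1, norm_zero])
    (fun t ht => by
      have ht' : t ∈ Set.Icc (0 : ℝ) 1 := ⟨ht.1, ht.2.le⟩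
      rw [add_zero]
      refine (pi_norm_le_iff_of_nonneg (by positivity)).mpr fun i => ?_
      have e1 : f' t i = 2 * Real.pi * Complex.I *
        (∑ j, M i j (ofComplex ((τ0 : ℂ) + t * ((τ : ℂ) - τ0))) * f t j) * ((τ : ℂ) - τ0) := by
        rw [hf', hf]
        show 2 * Real.pi * Complex.I * DH (y i) (ofComplex ((τ0 : ℂ) + t * ((τ : ℂ) - τ0))) *
          ((τ : ℂ) - τ0) = _
        rw [h i, Finset.sum_apply]
        rfl
      have e2 : ‖∑ j, M i j (ofComplex ((τ0 : ℂ) + t * ((τ : ℂ) - τ0))) * f t j‖ ≤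
          d * C * ‖f t‖ := by
        refine (norm_sum_le _ _).trans ?_
        refine (Finset.sum_le_card_nsmul _ _ (C * ‖f t‖) fun j _ => ?_).trans ?_
        · rw [norm_mul]
          exact mul_le_mul (hMC t ht' i j) (norm_le_pi_norm _ j) (norm_nonneg _) hC0
        · rw [Finset.card_univ, Fintype.card_fin, nsmul_eq_mul, mul_assoc]
      rw [e1, norm_mul, norm_mul, norm_mul, norm_mul, Complex.norm_I, Complex.norm_real,
        Real.norm_of_nonneg Real.pi_pos.le]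
      simp only [Complex.norm_ofNat, mul_one]
      have h5 : 0 ≤ 2 * Real.pi := by positivity
      calc 2 * Real.pi * ‖∑ j, M i j (ofComplex ((τ0 : ℂ) + t * ((τ : ℂ) - τ0))) * f t j‖ *
            ‖(τ : ℂ) - τ0‖ ≤ 2 * Real.pi * (d * C * ‖f t‖) * ‖(τ : ℂ) - τ0‖ :=
            mul_le_mul_of_nonneg_right (mul_le_mul_of_nonneg_left e2 h5) (norm_nonneg _)
        _ = 2 * Real.pi * (d * C) * ‖(τ : ℂ) - τ0‖ * ‖f t‖ := by ring)
    1 ⟨zero_le_one, le_rfl⟩
  rw [gronwallBound_ε0_δ0] at key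
  have h6 : f 1 = 0 := norm_le_zero_iff.mp key
  intro i
  have h7 : f 1 i = 0 := by rw [h6]; rfl
  rw [hf] at h7
  have h8 : (τ0 : ℂ) + ((1 : ℝ) : ℂ) * ((τ : ℂ) - τ0) = τ := by
    push_cast
    ring
  have h9 : y i (ofComplex ((τ0 : ℂ) + ((1 : ℝ) : ℂ) * ((τ : ℂ) - τ0))) = 0 := h7
  rw [h8, ofComplex_apply] at h9
  exact h9

end Pool.Agent.DERV
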