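import Pool.Agent.DERV.CCT
import Pool.Agent.DERV.FGN2
import Pool.Agent.DERV.GRW1
import Pool.Agent.DERV.CV6

/-!
# Project DERV, part II: finiteness of the space of solutions
-/

set_option autoImplicit false

universe u

open Finset

namespace Pool.Agent.DERV

open Pool.Agent.VOAut
open UpperHalfPlane hiding I
open scoped Nat ArithmeticFunction.sigma Manifold

variable {V : Type u} [AddCommGroup V] [Module ℂ V]

/-- The space of solutions. -/
def CC (A : VOA V) : Submodule ℂ (V →ₗ[ℂ] (ℍ → ℂ)) where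
  carrier := {S | InCC A S}
  add_mem' ha hb := InCC_add ha hb
  zero_mem' := InCC_zero
  smul_mem' c _ ha := InCC_smul c ha

private theorem ccf_cont (p : MvPolynomial ℕ ℂ) :
    Continuous (MvPolynomial.aeval EH p : ℍ → ℂ) := by
  have h1 : (MvPolynomial.aeval EH p : ℍ → ℂ) = evH (MvPolynomial.aeval Ek p) :=
    (evH_aeval Ek Cv_Ek p).symm
  rw [h1]
  exact Hol_cont (evH_hol (Cv_aeval Ek Cv_Ek p))

private theorem ccf_sum0 {A : VOA V} {S : V →ₗ[ℂ] (ℍ → ℂ)} (hS : InCC A S)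
    (L : List (MvPolynomial ℕ ℂ × V × V)) :
    (L.map fun x => (MvPolynomial.aeval EH x.1 : ℍ → ℂ) * df2 A EH S x.2.1 x.2.2).sum = 0 := by
  induction L with
  | nil => rfl
  | cons x L ih => rw [List.map_cons, List.sum_cons, ih, hS.c2, mul_zero, add_zero]

private theorem ccf_zero {A : VOA V} {d : ℕ} {w : Fin d → V}
    (h1 : ∀ v : V, ∃ (g : Fin d → MvPolynomial ℕ ℂ) (L : List (MvPolynomial ℕ ℂ × V × V)),
      ∀ (B : Type) [CommRing B] [Algebra ℂ B] (e : ℕ → B) (S : V →ₗ[ℂ] B),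
        S v = ∑ i, MvPolynomial.aeval e (g i) * S (w i) +
          (L.map fun x => MvPolynomial.aeval e x.1 * df2 A e S x.2.1 x.2.2).sum)
    (h2 : ∀ v : V, ∃ (g : Fin d → MvPolynomial ℕ ℂ) (L : List (MvPolynomial ℕ ℂ × V × V)),
      ∀ (B : Type) [CommRing B] [Algebra ℂ B] (e : ℕ → B) (S : V →ₗ[ℂ] B),
        df3 A e S v = ∑ i, MvPolynomial.aeval e (g i) * S (w i) +
          (L.map fun x => MvPolynomial.aeval e x.1 * df2 A e S x.2.1 x.2.2).sum)
    {S : V →ₗ[ℂ] (ℍ → ℂ)} (hS : InCC A S) (h0 : ∀ i, S (w i) UpperHalfPlane.I = 0) (v : V) :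
    S v = 0 := by
  choose g L hg using fun i : Fin d => h2 (w i)
  have hy : ∀ i, S (w i) = 0 := by
    refine ode_uniq (fun i j => (MvPolynomial.aeval EH (g i j) : ℍ → ℂ))
      (fun i j => ccf_cont (g i j)) (fun i => S (w i)) (fun i => hS.md (w i)) ?_
      UpperHalfPlane.I h0
    intro i
    have e1 := hg i (ℍ → ℂ) EH S
    rw [ccf_sum0 hS, add_zero, hS.c3] at e1
    exact e1
  obtain ⟨g', L', hg'⟩ := h1 v
  have e2 := hg' (ℍ → ℂ) EH S
  rw [ccf_sum0 hS, add_zero] at e2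
  rw [e2]
  apply Finset.sum_eq_zero
  intro i _
  rw [hy i, mul_zero]

theorem CC_fd {A : VOA V} (h : CFT A) (hc : C2 A) : FiniteDimensional ℂ (CC A) := by
  obtain ⟨d, w, h1, h2⟩ := fg h hc
  let ev : CC A →ₗ[ℂ] (Fin d → ℂ) :=
    { toFun := fun S i => S.1 (w i) UpperHalfPlane.I
      map_add' := fun S T => rfl
      map_smul' := fun c S => rfl }
  have hinj : Function.Injective ev := by
    rintro ⟨S1, hS1⟩ ⟨S2, hS2⟩ h12
    have hS1' : InCC A S1 := hS1
    have hS2' : InCC A S2 := hS2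
    have hS' : InCC A (S1 + (-1 : ℂ) • S2) := InCC_add hS1' (InCC_smul (-1) hS2')
    have h0 : ∀ i, (S1 + (-1 : ℂ) • S2) (w i) UpperHalfPlane.I = 0 := by
      intro i
      have e1 : S1 (w i) UpperHalfPlane.I = S2 (w i) UpperHalfPlane.I := congrFun h12 i
      change S1 (w i) UpperHalfPlane.I + (-1 : ℂ) * S2 (w i) UpperHalfPlane.I = 0
      rw [e1]
      ring
    apply Subtype.ext
    apply LinearMap.ext
    intro v
    funext t
    have e2 : S1 v t + (-1 : ℂ) * S2 v t = 0 := congrFun (ccf_zero h1 h2 hS' h0 v) t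
    change S1 v t = S2 v t
    linear_combination e2
  exact Module.Finite.of_injective ev hinj

end Pool.Agent.DERV
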