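import Pool.Agent.DERV.EKC

/-!
# Project DERV, part II: holomorphic functions on the upper half plane
-/

set_option autoImplicit false

universe u

open Finset

namespace Pool.Agent.DERV

open Pool.Agent.VOAut
open UpperHalfPlane hiding I
open scoped Nat ArithmeticFunction.sigma Manifold

variable {V : Type u} [AddCommGroup V] [Module ℂ V]

theorem cv3_eventually (F : ℍ → ℂ) (G : ℂ → ℂ) (h : ∀ τ : ℍ, F τ = G τ) (τ : ℍ) :
    (F ∘ ofComplex) =ᶠ[nhds (τ : ℂ)] G := by
  filter_upwards [isOpen_upperHalfPlaneSet.mem_nhds τ.im_pos] with z hz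
  show F (ofComplex z) = G z
  rw [ofComplex_apply_of_im_pos hz, h]

theorem cv3_deriv (F : ℍ → ℂ) (G : ℂ → ℂ) (h : ∀ τ : ℍ, F τ = G τ) (τ : ℍ) :
    DH F τ = kap * deriv G τ := by
  show (2 * (Real.pi : ℂ) * Complex.I)⁻¹ * deriv (F ∘ ofComplex) τ = _
  rw [(cv3_eventually F G h τ).deriv_eq]
  rfl

theorem cv3_hol (F : ℍ → ℂ) (G : ℂ → ℂ) (h : ∀ τ : ℍ, F τ = G τ)
    (hG : ∀ z, DifferentiableAt ℂ G z) : Hol F := fun τ =>
  mdifferentiableAt_iff.mpr ((cv3_eventually F G h τ).differentiableAt_iff.mpr (hG _))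

theorem cv3_diff {F : ℍ → ℂ} (hF : Hol F) (τ : ℍ) : DifferentiableAt ℂ (F ∘ ofComplex) τ :=
  mdifferentiableAt_iff.mp (hF τ)

theorem DH_add {F G : ℍ → ℂ} (hF : Hol F) (hG : Hol G) : DH (F + G) = DH F + DH G :=
  Derivative.normalizedDerivOfComplex_add F G hF hG

theorem DH_sub {F G : ℍ → ℂ} (hF : Hol F) (hG : Hol G) : DH (F - G) = DH F - DH G :=
  Derivative.normalizedDerivOfComplex_sub F G hF hG

theorem DH_mul {F G : ℍ → ℂ} (hF : Hol F) (hG : Hol G) : DH (F * G) = DH F * G + F * DH G :=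
  Derivative.normalizedDerivOfComplex_mul F G hF hG

theorem DH_smul (c : ℂ) {F : ℍ → ℂ} (hF : Hol F) : DH (c • F) = c • DH F :=
  Derivative.normalizedDerivOfComplex_smul c F hF

theorem DH_zero : DH 0 = 0 :=
  Derivative.normalizedDerivOfComplex_const 0

theorem DH_tau : DH tau = fun _ => kap := by
  ext τ
  rw [cv3_deriv tau (fun z => z) (fun _ => rfl) τ, deriv_id'', mul_one]

theorem cv3_kap : kap * (2 * Real.pi * Complex.I) = 1 := by
  unfold kap
  exact inv_mul_cancel₀ Complex.two_pi_I_ne_zero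

theorem DH_exl (lam : ℂ) : DH (exl lam) = lam • exl lam := by
  ext τ
  rw [cv3_deriv (exl lam) (fun z => Complex.exp (2 * Real.pi * Complex.I * lam * z))
    (fun _ => rfl) τ]
  have h1 : HasDerivAt (fun z : ℂ => Complex.exp (2 * Real.pi * Complex.I * lam * z))
      (Complex.exp (2 * Real.pi * Complex.I * lam * τ) *
        (2 * Real.pi * Complex.I * lam * 1)) (τ : ℂ) :=
    ((hasDerivAt_id (τ : ℂ)).const_mul (2 * (Real.pi : ℂ) * Complex.I * lam)).cexp
  rw [h1.deriv, Pi.smul_apply, smul_eq_mul]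
  unfold exl
  linear_combination
    (lam * Complex.exp (2 * Real.pi * Complex.I * lam * τ)) * cv3_kap

theorem Hol_tau : Hol tau :=
  cv3_hol tau (fun z => z) (fun _ => rfl) fun _ => differentiableAt_id

theorem Hol_exl (lam : ℂ) : Hol (exl lam) :=
  cv3_hol (exl lam) (fun z => Complex.exp (2 * Real.pi * Complex.I * lam * z))
    (fun _ => rfl) fun _ => (differentiableAt_id.const_mul _).cexp

theorem Hol_zero : Hol 0 :=
  cv3_hol 0 (fun _ => 0) (fun _ => rfl) fun _ => differentiableAt_const _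

theorem Hol_add {F G : ℍ → ℂ} (hF : Hol F) (hG : Hol G) : Hol (F + G) := fun τ =>
  mdifferentiableAt_iff.mpr ((cv3_diff hF τ).add (cv3_diff hG τ))

theorem Hol_sub {F G : ℍ → ℂ} (hF : Hol F) (hG : Hol G) : Hol (F - G) := fun τ =>
  mdifferentiableAt_iff.mpr ((cv3_diff hF τ).sub (cv3_diff hG τ))

theorem Hol_mul {F G : ℍ → ℂ} (hF : Hol F) (hG : Hol G) : Hol (F * G) := fun τ =>
  mdifferentiableAt_iff.mpr ((cv3_diff hF τ).mul (cv3_diff hG τ))

theorem Hol_smul (c : ℂ) {F : ℍ → ℂ} (hF : Hol F) : Hol (c • F) := fun τ =>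
  mdifferentiableAt_iff.mpr ((cv3_diff hF τ).const_smul c)

theorem Hol_sum {ι : Type*} (s : Finset ι) (F : ι → ℍ → ℂ) (hF : ∀ i ∈ s, Hol (F i)) :
    Hol (∑ i ∈ s, F i) := by
  classical
  induction s using Finset.induction_on with
  | empty => rw [Finset.sum_empty]; exact Hol_zero
  | insert a s ha ih =>
    rw [Finset.sum_insert ha]
    exact Hol_add (hF a (Finset.mem_insert_self a s))
      (ih fun i hi => hF i (Finset.mem_insert_of_mem hi))

theorem Hol_DH {F : ℍ → ℂ} (hF : Hol F) : Hol (DH F) :=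
  Derivative.normalizedDerivOfComplex_mdifferentiable hF

theorem Hol_cont {F : ℍ → ℂ} (hF : Hol F) : Continuous F :=
  MDifferentiable.continuous hF

theorem exl_add (a b : ℂ) : exl (a + b) = exl a * exl b := by
  ext τ
  rw [Pi.mul_apply]
  unfold exl
  rw [← Complex.exp_add]
  congr 1
  ring

theorem exl_zero : exl 0 = 1 := by
  ext τ
  unfold exl
  rw [mul_zero, zero_mul, Complex.exp_zero]
  rfl

theorem exl_T (lam : ℂ) (τ : ℍ) :
    exl lam ((1 : ℝ) +ᵥ τ) = Complex.exp (2 * Real.pi * Complex.I * lam) * exl lam τ := by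
  unfold exl
  rw [← Complex.exp_add, UpperHalfPlane.coe_vadd]
  congr 1
  push_cast
  ring

theorem exl_bdd (lam : ℂ) : ∃ C : ℝ, ∀ τ : ℍ, 1 ≤ τ.im → 0 ≤ τ.re → τ.re ≤ 1 →
    ‖exl lam τ‖ ≤ C * Real.exp (C * τ.im) := by
  obtain ⟨C, hC⟩ : ∃ C : ℝ, C = 1 + 2 * Real.pi * (|lam.re| + |lam.im|) := ⟨_, rfl⟩
  have hpi := Real.pi_pos
  have hC1 : 1 ≤ C := by
    rw [hC]
    have : 0 ≤ 2 * Real.pi * (|lam.re| + |lam.im|) := by positivity
    linarith
  refine ⟨C, fun τ h1 h2 h3 => ?_⟩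
  unfold exl
  rw [Complex.norm_exp]
  have h4 : (2 * Real.pi * Complex.I * lam * τ).re =
      -(2 * Real.pi) * (lam.re * τ.im + lam.im * τ.re) := by
    simp [Complex.mul_re, Complex.mul_im]
    ring
  rw [h4]
  have h5 : -(2 * Real.pi) * (lam.re * τ.im + lam.im * τ.re) ≤ C * τ.im := by
    have e1 : -(lam.re * τ.im) ≤ |lam.re| * τ.im := by
      have := neg_abs_le lam.re
      nlinarith
    have e2 : -(lam.im * τ.re) ≤ |lam.im| * τ.im := by
      have := neg_abs_le lam.im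
      have h6 := abs_nonneg lam.im
      nlinarith
    rw [hC]
    nlinarith
  calc Real.exp (-(2 * Real.pi) * (lam.re * τ.im + lam.im * τ.re))
      ≤ Real.exp (C * τ.im) := Real.exp_le_exp.mpr h5
    _ = 1 * Real.exp (C * τ.im) := (one_mul _).symm
    _ ≤ C * Real.exp (C * τ.im) := mul_le_mul_of_nonneg_right hC1 (Real.exp_nonneg _)

end Pool.Agent.DERV
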