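import Pool.Agent.DERV.CV1

/-!
# Project DERV, part II: evaluation of convergent power series: analysis
-/

set_option autoImplicit false

universe u

open Finset

namespace Pool.Agent.DERV

open Pool.Agent.VOAut
open UpperHalfPlane hiding I
open scoped Nat ArithmeticFunction.sigma Manifold

variable {V : Type u} [AddCommGroup V] [Module ℂ V]

/-- The terms of the series. -/
noncomputable def CV5T (f : PowerSeries ℂ) (n : ℕ) (z : ℂ) : ℂ :=
  PowerSeries.coeff n f * Complex.exp (2 * Real.pi * Complex.I * z) ^ n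

theorem CV5_norm (z : ℂ) :
    ‖Complex.exp (2 * Real.pi * Complex.I * z)‖ = Real.exp (-(2 * Real.pi * z.im)) := by
  rw [Complex.norm_exp]
  have h1 : (2 * (Real.pi : ℂ) * Complex.I * z) =
      ((2 * Real.pi : ℝ) : ℂ) * (Complex.I * z) := by push_cast; ring
  rw [h1, Complex.re_ofReal_mul, Complex.I_mul_re]
  congr 1
  ring

theorem CV5_hd (f : PowerSeries ℂ) (n : ℕ) (z : ℂ) :
    HasDerivAt (CV5T f n) ((2 * Real.pi * Complex.I) * CV5T (th f) n z) z := by
  have h1 : HasDerivAt (fun z : ℂ => 2 * Real.pi * Complex.I * z) (2 * Real.pi * Complex.I) z := by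
    simpa using (hasDerivAt_id z).const_mul (2 * Real.pi * Complex.I)
  have h2 := ((h1.cexp).pow n).const_mul (PowerSeries.coeff n f)
  refine h2.congr_deriv ?_
  unfold CV5T
  rw [coeff_th]
  rcases Nat.eq_zero_or_pos n with h | h
  · subst h
    simp
  · obtain ⟨k, rfl⟩ : ∃ k, n = k + 1 := ⟨n - 1, by omega⟩
    rw [Nat.add_sub_cancel, pow_succ]
    ring

theorem CV5_bound (f : PowerSeries ℂ) (ε : ℝ) (n : ℕ) (z : ℂ) (hz : ε < z.im) :
    ‖CV5T f n z‖ ≤ ‖PowerSeries.coeff n f‖ * Real.exp (-(2 * Real.pi * ε)) ^ n := by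
  unfold CV5T
  rw [norm_mul, norm_pow, CV5_norm]
  refine mul_le_mul_of_nonneg_left (pow_le_pow_left₀ (Real.exp_pos _).le ?_ n) (norm_nonneg _)
  apply Real.exp_le_exp.2
  nlinarith [Real.pi_pos]

theorem CV5_sum {f : PowerSeries ℂ} (hf : Cv f) {ε : ℝ} (hε : 0 < ε) :
    Summable fun n : ℕ => ‖PowerSeries.coeff n f‖ * Real.exp (-(2 * Real.pi * ε)) ^ n := by
  apply hf _ (Real.exp_pos _).le
  rw [Real.exp_lt_one_iff]
  have := mul_pos (mul_pos two_pos Real.pi_pos) hε
  linarith

theorem CV5_open (ε : ℝ) : IsOpen {z : ℂ | ε < z.im} :=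
  isOpen_lt continuous_const Complex.continuous_im

theorem CV5_diff {f : PowerSeries ℂ} (hf : Cv f) {ε : ℝ} (hε : 0 < ε) :
    DifferentiableOn ℂ (fun z => ∑' n, CV5T f n z) {z : ℂ | ε < z.im} :=
  Complex.differentiableOn_tsum_of_summable_norm (CV5_sum hf hε)
    (fun n z _ => (CV5_hd f n z).differentiableAt.differentiableWithinAt) (CV5_open ε)
    fun n z hz => CV5_bound f ε n z hz

theorem CV5_comp (f : PowerSeries ℂ) (z : ℂ) (hz : 0 < z.im) :
    (evH f ∘ ofComplex) z = ∑' n, CV5T f n z := by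
  rw [Function.comp_apply, ofComplex_apply_of_im_pos hz]
  rfl

theorem evH_hol {f : PowerSeries ℂ} (hf : Cv f) : Hol (evH f) := by
  unfold Hol
  rw [UpperHalfPlane.mdifferentiable_iff]
  intro z hz
  have hz' : 0 < z.im := hz
  have h1 : z.im / 2 < z.im := by linarith
  have h2 : DifferentiableAt ℂ (fun z => ∑' n, CV5T f n z) z :=
    (CV5_diff hf (half_pos hz')).differentiableAt ((CV5_open _).mem_nhds h1)
  refine (h2.congr_of_eventuallyEq ?_).differentiableWithinAt
  filter_upwards [(CV5_open 0).mem_nhds hz'] with w hw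
  exact CV5_comp f w hw

theorem DH_evH {f : PowerSeries ℂ} (hf : Cv f) : DH (evH f) = evH (th f) := by
  funext τ
  unfold DH Derivative.normalizedDerivOfComplex
  have hz' : 0 < (τ : ℂ).im := τ.im_pos
  have h1 : (τ : ℂ).im / 2 < (τ : ℂ).im := by linarith
  have h2 := Complex.hasSum_deriv_of_summable_norm (CV5_sum hf (half_pos hz'))
    (fun n z _ => (CV5_hd f n z).differentiableAt.differentiableWithinAt) (CV5_open _)
    (fun n z hz => CV5_bound f _ n z hz) h1
  have h3 : deriv (evH f ∘ ofComplex) (τ : ℂ) = deriv (fun z => ∑' n, CV5T f n z) (τ : ℂ) := by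
    apply Filter.EventuallyEq.deriv_eq
    filter_upwards [(CV5_open 0).mem_nhds hz'] with w hw
    exact CV5_comp f w hw
  rw [h3, ← h2.tsum_eq]
  have h4 : ∀ n : ℕ, deriv (CV5T f n) (τ : ℂ) = (2 * Real.pi * Complex.I) * CV5T (th f) n τ :=
    fun n => (CV5_hd f n τ).deriv
  rw [tsum_congr h4, tsum_mul_left, ← mul_assoc, inv_mul_cancel₀ Complex.two_pi_I_ne_zero, one_mul]
  rfl

theorem CV5_shift {h : PowerSeries ℂ} (hh : Cv h) :
    Cv (PowerSeries.mk fun n => PowerSeries.coeff (n + 1) h) := by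
  intro r h0 h1
  have hr' : 0 < (r + 1) / 2 := by linarith
  have h2 := hh ((r + 1) / 2) hr'.le (by linarith)
  have h3 := ((summable_nat_add_iff 1).2 h2).mul_right ((r + 1) / 2)⁻¹
  refine Summable.of_nonneg_of_le (fun n => mul_nonneg (norm_nonneg _) (pow_nonneg h0 n)) ?_ h3
  intro n
  rw [PowerSeries.coeff_mk, pow_succ, ← mul_assoc, mul_assoc _ ((r + 1) / 2) _,
    mul_inv_cancel₀ hr'.ne', mul_one]
  exact mul_le_mul_of_nonneg_left (pow_le_pow_left₀ h0 (by linarith) n) (norm_nonneg _)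

theorem CV5_step {h : PowerSeries ℂ} (hh : Cv h)
    (h0 : ∀ q : ℝ, 0 < q → q < 1 → ∑' n : ℕ, PowerSeries.coeff n h * (q : ℂ) ^ n = 0) :
    PowerSeries.coeff 0 h = 0 ∧ ∀ q : ℝ, 0 < q → q < 1 →
      ∑' n : ℕ, PowerSeries.coeff n (PowerSeries.mk fun n => PowerSeries.coeff (n + 1) h) *
        (q : ℂ) ^ n = 0 := by
  have hs : ∀ (k : PowerSeries ℂ), Cv k → ∀ q : ℝ, 0 < q → q < 1 →
      Summable fun n : ℕ => PowerSeries.coeff n k * (q : ℂ) ^ n := by
    intro k hk q hq0 hq1
    apply Summable.of_norm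
    refine (hk q hq0.le hq1).congr fun n => ?_
    rw [norm_mul, norm_pow, Complex.norm_real, Real.norm_of_nonneg hq0.le]
  have key : ∀ q : ℝ, 0 < q → q < 1 → PowerSeries.coeff 0 h +
      q * ∑' n : ℕ, PowerSeries.coeff n (PowerSeries.mk fun n => PowerSeries.coeff (n + 1) h) *
        (q : ℂ) ^ n = 0 := by
    intro q hq0 hq1
    rw [← h0 q hq0 hq1, (hs h hh q hq0 hq1).tsum_eq_zero_add, pow_zero, mul_one, ← tsum_mul_left]
    congr 2
    funext n
    rw [PowerSeries.coeff_mk, pow_succ]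
    ring
  have hz : PowerSeries.coeff 0 h = 0 := by
    have hk := CV5_shift hh
    have hK := hk (1 / 2) (by norm_num) (by norm_num)
    have hle : ∀ q : ℝ, 0 < q → q ≤ 1 / 2 → ‖PowerSeries.coeff 0 h‖ ≤
        q * ∑' n : ℕ, ‖PowerSeries.coeff n
          (PowerSeries.mk fun n => PowerSeries.coeff (n + 1) h)‖ * (1 / 2 : ℝ) ^ n := by
      intro q hq0 hq1
      have h1 := eq_neg_of_add_eq_zero_left (key q hq0 (by linarith))
      rw [h1, norm_neg, norm_mul, Complex.norm_real, Real.norm_of_nonneg hq0.le]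
      refine mul_le_mul_of_nonneg_left ?_ hq0.le
      have h2 : Summable fun n : ℕ => ‖PowerSeries.coeff n
          (PowerSeries.mk fun n => PowerSeries.coeff (n + 1) h) * (q : ℂ) ^ n‖ := by
        refine (hk q hq0.le (by linarith)).congr fun n => ?_
        rw [norm_mul, norm_pow, Complex.norm_real, Real.norm_of_nonneg hq0.le]
      refine (norm_tsum_le_tsum_norm h2).trans (h2.tsum_le_tsum (fun n => ?_) hK)
      rw [norm_mul, norm_pow, Complex.norm_real, Real.norm_of_nonneg hq0.le]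
      exact mul_le_mul_of_nonneg_left (pow_le_pow_left₀ hq0.le hq1 n) (norm_nonneg _)
    set K := ∑' n : ℕ, ‖PowerSeries.coeff n
          (PowerSeries.mk fun n => PowerSeries.coeff (n + 1) h)‖ * (1 / 2 : ℝ) ^ n with hKd
    have hK0 : 0 ≤ K := tsum_nonneg fun n => mul_nonneg (norm_nonneg _) (by positivity)
    by_contra hne
    have hpos : 0 < ‖PowerSeries.coeff 0 h‖ := norm_pos_iff.2 hne
    have h5 := hle (min (1 / 2) (‖PowerSeries.coeff 0 h‖ / (2 * (K + 1))))
      (lt_min (by norm_num) (div_pos hpos (by linarith))) (min_le_left _ _)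
    have h6 : min (1 / 2) (‖PowerSeries.coeff 0 h‖ / (2 * (K + 1))) * K ≤
        ‖PowerSeries.coeff 0 h‖ / (2 * (K + 1)) * (K + 1) :=
      mul_le_mul (min_le_right _ _) (by linarith) hK0 (div_nonneg hpos.le (by linarith))
    have h7 : ‖PowerSeries.coeff 0 h‖ / (2 * (K + 1)) * (K + 1) = ‖PowerSeries.coeff 0 h‖ / 2 := by
      field_simp
    linarith
  refine ⟨hz, fun q hq0 hq1 => ?_⟩
  have h1 := key q hq0 hq1
  rw [hz, zero_add] at h1
  rcases mul_eq_zero.1 h1 with h2 | h2
  · exact absurd (Complex.ofReal_eq_zero.1 h2) hq0.ne'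
  · exact h2

theorem CV5_zero (m : ℕ) : ∀ {h : PowerSeries ℂ}, Cv h →
    (∀ q : ℝ, 0 < q → q < 1 → ∑' n : ℕ, PowerSeries.coeff n h * (q : ℂ) ^ n = 0) →
    PowerSeries.coeff m h = 0 := by
  induction m with
  | zero => intro h hh h0; exact (CV5_step hh h0).1
  | succ m ih =>
    intro h hh h0
    have := ih (CV5_shift hh) (CV5_step hh h0).2
    rwa [PowerSeries.coeff_mk] at this

theorem evH_inj {f g : PowerSeries ℂ} (hf : Cv f) (hg : Cv g) (h : evH f = evH g) : f = g := by
  have key : ∀ q : ℝ, 0 < q → q < 1 →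
      ∑' n : ℕ, PowerSeries.coeff n (f - g) * (q : ℂ) ^ n = 0 := by
    intro q hq0 hq1
    have hlog : 0 < -Real.log q / (2 * Real.pi) :=
      div_pos (neg_pos.2 (Real.log_neg hq0 hq1)) (mul_pos two_pos Real.pi_pos)
    have him : 0 < (((-Real.log q / (2 * Real.pi) : ℝ) : ℂ) * Complex.I).im := by
      rw [Complex.im_ofReal_mul, Complex.I_im, mul_one]
      exact hlog
    have hexp : Complex.exp (2 * Real.pi * Complex.I *
        (((-Real.log q / (2 * Real.pi) : ℝ) : ℂ) * Complex.I)) = (q : ℂ) := by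
      have e1 : 2 * (Real.pi : ℂ) * Complex.I *
          (((-Real.log q / (2 * Real.pi) : ℝ) : ℂ) * Complex.I) = ((Real.log q : ℝ) : ℂ) := by
        have hpi : (Real.pi : ℂ) ≠ 0 := Complex.ofReal_ne_zero.2 Real.pi_ne_zero
        push_cast
        field_simp
        rw [Complex.I_sq]
        ring
      rw [e1, ← Complex.ofReal_exp, Real.exp_log hq0]
    have hs : ∀ (k : PowerSeries ℂ), Cv k →
        Summable fun n : ℕ => PowerSeries.coeff n k * (q : ℂ) ^ n := by
      intro k hk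
      apply Summable.of_norm
      refine (hk q hq0.le hq1).congr fun n => ?_
      rw [norm_mul, norm_pow, Complex.norm_real, Real.norm_of_nonneg hq0.le]
    have hev := congrFun h ⟨((-Real.log q / (2 * Real.pi) : ℝ) : ℂ) * Complex.I, him⟩
    unfold evH at hev
    change ∑' n : ℕ, PowerSeries.coeff n f * Complex.exp (2 * Real.pi * Complex.I *
        (((-Real.log q / (2 * Real.pi) : ℝ) : ℂ) * Complex.I)) ^ n =
      ∑' n : ℕ, PowerSeries.coeff n g * Complex.exp (2 * Real.pi * Complex.I *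
        (((-Real.log q / (2 * Real.pi) : ℝ) : ℂ) * Complex.I)) ^ n at hev
    rw [hexp] at hev
    have e2 : ∀ n : ℕ, PowerSeries.coeff n (f - g) * (q : ℂ) ^ n =
        PowerSeries.coeff n f * (q : ℂ) ^ n - PowerSeries.coeff n g * (q : ℂ) ^ n := by
      intro n
      rw [map_sub, sub_mul]
    rw [tsum_congr e2, (hs f hf).tsum_sub (hs g hg), hev, sub_self]
  have h1 : f - g = 0 := by
    ext m
    rw [map_zero]
    exact CV5_zero m (hf.sub hg) key
  exact sub_eq_zero.1 h1

end Pool.Agent.DERV
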