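import Pool.Agent.DERV.CV2
import Pool.Agent.DERV.CV3
import Pool.Agent.DERV.CV5

/-!
# Project DERV, part II: Eisenstein series: convergence
-/

set_option autoImplicit false

universe u

open Finset

namespace Pool.Agent.DERV

open Pool.Agent.VOAut
open UpperHalfPlane hiding I
open scoped Nat ArithmeticFunction.sigma Manifold

variable {V : Type u} [AddCommGroup V] [Module ℂ V]

theorem Cv_Ek (j : ℕ) : Cv (Ek j) := by
  apply Cv_of_bd
  intro r hr0 hr1
  have ht := tendsto_pow_const_mul_const_pow_of_abs_lt_one (2 * j + 2)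
    (r := r) (by rw [abs_of_nonneg hr0]; exact hr1)
  obtain ⟨C, hC⟩ := ht.bddAbove_range
  refine ⟨max (‖bk j‖) (2 * C), fun n => ?_⟩
  rcases Nat.eq_zero_or_pos n with rfl | hn
  · rw [Ek_zero, norm_neg, pow_zero, mul_one]
    exact le_max_left _ _
  · apply le_trans _ (le_max_right _ _)
    rw [Ek_pos j n (by omega), norm_mul, norm_div, Complex.norm_natCast, Complex.norm_natCast]
    have h1 : ((n : ℝ) ^ (2 * j + 2)) * r ^ n ≤ C := hC ⟨n, rfl⟩
    have h2 : ((σ (2 * j + 1) n : ℕ) : ℝ) ≤ (n : ℝ) ^ (2 * j + 2) := by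
      exact_mod_cast ArithmeticFunction.sigma_le_pow_succ (2 * j + 1) n
    have h3 : (1 : ℝ) ≤ ((2 * j + 1)! : ℕ) := by exact_mod_cast Nat.factorial_pos _
    have h4 : ‖(2 : ℂ)‖ / ((2 * j + 1)! : ℕ) ≤ 2 := by
      rw [Complex.norm_ofNat]
      exact div_le_self (by norm_num) h3
    have h5 : 0 ≤ r ^ n := pow_nonneg hr0 n
    calc ‖(2 : ℂ)‖ / ((2 * j + 1)! : ℕ) * ((σ (2 * j + 1) n : ℕ) : ℝ) * r ^ n
        ≤ 2 * (n : ℝ) ^ (2 * j + 2) * r ^ n := by
          apply mul_le_mul_of_nonneg_right _ h5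
          exact mul_le_mul h4 h2 (Nat.cast_nonneg _) (by norm_num)
      _ = 2 * ((n : ℝ) ^ (2 * j + 2) * r ^ n) := by ring
      _ ≤ 2 * C := by linarith

theorem EH_T (j : ℕ) : Tf (EH j) = EH j := by
  funext τ
  exact evH_T (Ek j) τ

theorem EH_hol (j : ℕ) : Hol (EH j) := evH_hol (Cv_Ek j)

theorem EH_tsum (j : ℕ) (τ : ℍ) : EH j τ = -bk j + 2 / ((2 * j + 1)! : ℕ) *
    ∑' n : ℕ+, (σ (2 * j + 1) n : ℂ) * Complex.exp (2 * Real.pi * Complex.I * τ) ^ (n : ℕ) := by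
  have hs : Summable fun n : ℕ => PowerSeries.coeff n (Ek j) *
      Complex.exp (2 * Real.pi * Complex.I * τ) ^ n := by
    apply Summable.of_norm
    have := Cv_Ek j ‖Complex.exp (2 * Real.pi * Complex.I * τ)‖ (norm_nonneg _)
      (UpperHalfPlane.norm_exp_two_pi_I_lt_one τ)
    refine this.congr fun n => ?_
    rw [norm_mul, norm_pow]
  show (∑' n : ℕ, PowerSeries.coeff n (Ek j) *
    Complex.exp (2 * Real.pi * Complex.I * τ) ^ n) = _
  rw [hs.tsum_eq_zero_add, Ek_zero, pow_zero, mul_one, ← tsum_pnat_eq_tsum_succ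
    (f := fun n : ℕ => PowerSeries.coeff n (Ek j) *
      Complex.exp (2 * Real.pi * Complex.I * τ) ^ n), ← tsum_mul_left]
  congr 1
  apply tsum_congr
  intro n
  rw [Ek_pos j n n.ne_zero]
  ring

end Pool.Agent.DERV
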