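import Pool.Agent.DERV.CV3
import Pool.Agent.DERV.EIS1

/-!
# Project DERV, part II: translation of solutions
-/

set_option autoImplicit false

universe u

open Finset

namespace Pool.Agent.DERV

open Pool.Agent.VOAut
open UpperHalfPlane hiding I
open scoped Nat ArithmeticFunction.sigma Manifold

variable {V : Type u} [AddCommGroup V] [Module ℂ V]

variable {A : VOA V} {D : Module.End ℂ V}

theorem Tl_apply (S : V →ₗ[ℂ] (ℍ → ℂ)) (v : V) (τ : ℍ) : Tl S v τ = S v ((1 : ℝ) +ᵥ τ) := rfl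

theorem Tf_apply (F : ℍ → ℂ) (τ : ℍ) : Tf F τ = F ((1 : ℝ) +ᵥ τ) := rfl

theorem Tf_mul (F G : ℍ → ℂ) : Tf (F * G) = Tf F * Tf G := rfl

theorem cct_eq (F : ℍ → ℂ) {z : ℂ} (hz : 0 < z.im) :
    (Tf F ∘ ofComplex) z = (F ∘ ofComplex) (z + 1) := by
  have hz' : 0 < (z + 1).im := by simpa using hz
  rw [Function.comp_apply, Function.comp_apply, ofComplex_apply_of_im_pos hz,
    ofComplex_apply_of_im_pos hz', Tf_apply]
  congr 1
  ext
  rw [coe_vadd]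
  push_cast
  ring

theorem Tf_hol {F : ℍ → ℂ} (hF : Hol F) : Hol (Tf F) := by
  unfold Hol at hF ⊢
  rw [UpperHalfPlane.mdifferentiable_iff] at hF ⊢
  have h1 : DifferentiableOn ℂ (fun z : ℂ => (F ∘ ofComplex) (z + 1)) {z | 0 < z.im} := by
    refine hF.comp (differentiableOn_id.add_const (1 : ℂ)) ?_
    intro z hz
    simpa using hz
  refine h1.congr ?_
  intro z hz
  exact cct_eq F hz

theorem DH_Tf {F : ℍ → ℂ} (hF : Hol F) : DH (Tf F) = Tf (DH F) := by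
  ext τ
  rw [Tf_apply]
  show (2 * Real.pi * Complex.I)⁻¹ * deriv (Tf F ∘ ofComplex) τ =
    (2 * Real.pi * Complex.I)⁻¹ * deriv (F ∘ ofComplex) (((1 : ℝ) +ᵥ τ : ℍ) : ℂ)
  have h1 : (Tf F ∘ ofComplex) =ᶠ[nhds (τ : ℂ)] fun z => (F ∘ ofComplex) (z + 1) := by
    filter_upwards [isOpen_upperHalfPlaneSet.mem_nhds τ.im_pos] with z hz
    exact cct_eq F hz
  rw [h1.deriv_eq, deriv_comp_add_const, coe_vadd]
  congr 2
  push_cast
  ring

theorem cct_SS (c : ℕ → ℂ) (s : ℤ) (e : ℕ → ℍ → ℂ) (he : ∀ j, Tf (e j) = e j)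
    (S : V →ₗ[ℂ] (ℍ → ℂ)) (u v : V) :
    SS A c s e (Tl S) u v = Tf (SS A c s e S u v) := by
  obtain ⟨K, h⟩ := SS_range A s u v
  rw [h _ c e _ K le_rfl, h _ c e _ K le_rfl, map_sum]
  apply Finset.sum_congr rfl
  intro j _
  rw [map_smul, Tf_mul, he]
  rfl

theorem cct_df2 (S : V →ₗ[ℂ] (ℍ → ℂ)) (u v : V) :
    df2 A EH (Tl S) u v = Tf (df2 A EH S u v) := by
  unfold df2
  rw [cct_SS _ _ _ EH_T, map_add]
  rfl

theorem cct_df3 (S : V →ₗ[ℂ] (ℍ → ℂ)) (v : V) :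
    df3 A EH (Tl S) v = Tf (df3 A EH S v) := by
  unfold df3
  rw [cct_SS _ _ _ EH_T, map_sub]
  rfl

theorem InCC_T {S : V →ₗ[ℂ] (ℍ → ℂ)} (hS : InCC A S) : InCC A (Tl S) where
  md v := Tf_hol (hS.md v)
  c1 u v := by
    show Tf (S (br A 0 u v)) = 0
    rw [hS.c1, map_zero]
  c2 u v := by rw [cct_df2, hS.c2, map_zero]
  c3 v := by
    rw [cct_df3, hS.c3]
    exact (DH_Tf (hS.md v)).symm

theorem DA_T {Z T W : V →ₗ[ℂ] (ℍ → ℂ)} (hW : DA A D Z T W) :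
    DA A D (Tl Z) (Tl T) (Tl W) where
  md v := Tf_hol (hW.md v)
  d1 u v := by
    show Tf (W (br A 0 u v)) = kap • Tf (Z (br A 1 (D u) v))
    rw [hW.d1, map_smul]
  d2 u v := by
    rw [cct_df2, hW.d2, cct_SS _ _ _ EH_T, map_smul, map_add]
    rfl
  d3 v := by
    rw [cct_df3, hW.d3, map_add, map_smul, ← DH_Tf (hW.md v)]
    rfl

theorem Tl_inj (S : V →ₗ[ℂ] (ℍ → ℂ)) (h : Tl S = 0) : S = 0 := by
  ext v τ
  have h1 : Tl S v ((-1 : ℝ) +ᵥ τ) = 0 := by rw [h]; rfl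
  rw [Tl_apply] at h1
  have h2 : (1 : ℝ) +ᵥ ((-1 : ℝ) +ᵥ τ) = τ := by
    rw [vadd_vadd]
    norm_num
  rw [h2] at h1
  exact h1

theorem InCC_zero : InCC A 0 where
  md v := Hol_zero
  c1 u v := rfl
  c2 u v := by
    unfold df2
    rw [SS_zeroS]
    simp
  c3 v := by
    unfold df3
    rw [SS_zeroS]
    simp only [LinearMap.zero_apply, sub_zero]
    exact DH_zero.symm

theorem InCC_add {S T : V →ₗ[ℂ] (ℍ → ℂ)} (hS : InCC A S) (hT : InCC A T) : InCC A (S + T) where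
  md v := Hol_add (hS.md v) (hT.md v)
  c1 u v := by rw [LinearMap.add_apply, hS.c1, hT.c1, add_zero]
  c2 u v := by rw [df2_addS, hS.c2, hT.c2, add_zero]
  c3 v := by rw [df3_addS, hS.c3, hT.c3, LinearMap.add_apply, DH_add (hS.md v) (hT.md v)]

theorem InCC_smul (c : ℂ) {S : V →ₗ[ℂ] (ℍ → ℂ)} (hS : InCC A S) : InCC A (c • S) where
  md v := Hol_smul c (hS.md v)
  c1 u v := by rw [LinearMap.smul_apply, hS.c1, smul_zero]
  c2 u v := by rw [df2_smulS, hS.c2, smul_zero]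
  c3 v := by rw [df3_smulS, hS.c3, LinearMap.smul_apply, DH_smul c (hS.md v)]

/-- The difference of two solutions of the inhomogeneous relations. -/
theorem DA_sub {Z T W W' : V →ₗ[ℂ] (ℍ → ℂ)} (hW : DA A D Z T W) (hW' : DA A D Z T W') :
    InCC A (W - W') where
  md v := Hol_sub (hW.md v) (hW'.md v)
  c1 u v := by rw [LinearMap.sub_apply, hW.d1, hW'.d1, sub_self]
  c2 u v := by rw [df2_subS, hW.d2, hW'.d2, sub_self]
  c3 v := by
    rw [df3_subS, hW.d3, hW'.d3, LinearMap.sub_apply, DH_sub (hW.md v) (hW'.md v)]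
    abel

theorem DA_smul (c : ℂ) {Z T W : V →ₗ[ℂ] (ℍ → ℂ)} (hW : DA A D Z T W) :
    DA A D (c • Z) (c • T) (c • W) where
  md v := Hol_smul c (hW.md v)
  d1 u v := by
    rw [LinearMap.smul_apply, LinearMap.smul_apply, hW.d1, smul_comm]
  d2 u v := by
    rw [df2_smulS, hW.d2, SS_smulS, LinearMap.smul_apply, ← smul_add, smul_comm]
  d3 v := by
    rw [df3_smulS, hW.d3, LinearMap.smul_apply, LinearMap.smul_apply, DH_smul c (hW.md v),
      smul_add, smul_comm c kap]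

theorem DA_addCC {Z T W S : V →ₗ[ℂ] (ℍ → ℂ)} (hW : DA A D Z T W) (hS : InCC A S) :
    DA A D Z T (W + S) where
  md v := Hol_add (hW.md v) (hS.md v)
  d1 u v := by rw [LinearMap.add_apply, hW.d1, hS.c1, add_zero]
  d2 u v := by rw [df2_addS, hW.d2, hS.c2, add_zero]
  d3 v := by
    rw [df3_addS, hW.d3, hS.c3, LinearMap.add_apply, DH_add (hW.md v) (hS.md v)]
    abel

end Pool.Agent.DERV
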