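import Pool.Agent.DERV.CV1

/-!
# Project DERV, part II: convergence of formal solutions
-/

set_option autoImplicit false

universe u

open Finset

namespace Pool.Agent.DERV

open Pool.Agent.VOAut
open UpperHalfPlane hiding I
open scoped Nat ArithmeticFunction.sigma Manifold

variable {V : Type u} [AddCommGroup V] [Module ℂ V]

private theorem ocv_coeff {d : ℕ} (M : Fin d → Fin d → PowerSeries ℂ)
    (b : Fin d → PowerSeries ℂ) (lam : ℂ) (y : Fin d → PowerSeries ℂ)
    (hy : ∀ i, th (y i) + lam • y i = ∑ j, M i j * y j + b i) (i : Fin d) (n : ℕ) :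
    ((n : ℂ) + lam) * PowerSeries.coeff n (y i) =
      (∑ j, ∑ k ∈ Finset.range (n + 1), PowerSeries.coeff k (M i j) *
        PowerSeries.coeff (n - k) (y j)) + PowerSeries.coeff n (b i) := by
  have h := congrArg (PowerSeries.coeff n) (hy i)
  rw [map_add, map_add, map_sum] at h
  have h1 : PowerSeries.coeff n (th (y i)) = (n : ℂ) * PowerSeries.coeff n (y i) := by
    simp [th]
  have h2 : PowerSeries.coeff n (lam • y i) = lam * PowerSeries.coeff n (y i) := by
    simp
  rw [h1, h2] at h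
  rw [add_mul, h]
  congr 1
  apply Finset.sum_congr rfl
  intro j _
  rw [PowerSeries.coeff_mul, Finset.Nat.sum_antidiagonal_eq_sum_range_succ
    (fun k l => PowerSeries.coeff k (M i j) * PowerSeries.coeff l (y j))]

theorem ode_cv {d : ℕ} (M : Fin d → Fin d → PowerSeries ℂ) (hM : ∀ i j, Cv (M i j))
    (b : Fin d → PowerSeries ℂ) (hb : ∀ i, Cv (b i)) (lam : ℂ) (y : Fin d → PowerSeries ℂ)
    (hy : ∀ i, th (y i) + lam • y i = ∑ j, M i j * y j + b i) : ∀ i, Cv (y i) := by
  intro i₀
  apply Cv_of_bd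
  intro r hr0 hr1
  set Y : ℕ → ℝ := fun n => ∑ i, ‖PowerSeries.coeff n (y i)‖ * r ^ n with hY
  set m : ℕ → ℝ := fun k => ∑ i, ∑ j, ‖PowerSeries.coeff k (M i j)‖ * r ^ k with hm
  set bb : ℕ → ℝ := fun n => ∑ i, ‖PowerSeries.coeff n (b i)‖ * r ^ n with hbb
  have hr : ∀ n : ℕ, 0 ≤ r ^ n := fun n => pow_nonneg hr0 n
  have hY0 : ∀ n, 0 ≤ Y n := fun n => Finset.sum_nonneg
    (fun i _ => mul_nonneg (norm_nonneg _) (hr n))
  have hm0 : ∀ n, 0 ≤ m n := fun n => Finset.sum_nonneg (fun i _ => Finset.sum_nonneg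
    (fun j _ => mul_nonneg (norm_nonneg _) (hr n)))
  have hb0 : ∀ n, 0 ≤ bb n := fun n => Finset.sum_nonneg
    (fun i _ => mul_nonneg (norm_nonneg _) (hr n))
  have hms : Summable m := summable_sum (fun i _ => summable_sum (fun j _ => hM i j r hr0 hr1))
  have hbs : Summable bb := summable_sum (fun i _ => hb i r hr0 hr1)
  set mm : ℝ := ∑' k, m k with hmm
  set β : ℝ := ∑' k, bb k with hβ
  have hmm0 : 0 ≤ mm := tsum_nonneg hm0
  have hβ0 : 0 ≤ β := tsum_nonneg hb0
  have hbβ : ∀ n, bb n ≤ β := fun n => hbs.le_tsum n (fun k _ => hb0 k)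
  have hmsum : ∀ n : ℕ, ∑ k ∈ Finset.range n, m k ≤ mm :=
    fun n => hms.sum_le_tsum _ (fun k _ => hm0 k)
  -- the main inequality
  have key : ∀ n : ℕ, ((n : ℝ) - ‖lam‖) * Y n ≤
      (∑ k ∈ Finset.range (n + 1), m k * Y (n - k)) + β := by
    intro n
    have e1 : ∀ i, ((n : ℝ) - ‖lam‖) * (‖PowerSeries.coeff n (y i)‖ * r ^ n) ≤
        (∑ j, ∑ k ∈ Finset.range (n + 1), (‖PowerSeries.coeff k (M i j)‖ * r ^ k) *
          (‖PowerSeries.coeff (n - k) (y j)‖ * r ^ (n - k)))
          + ‖PowerSeries.coeff n (b i)‖ * r ^ n := by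
      intro i
      have e2 : ((n : ℝ) - ‖lam‖) ≤ ‖(n : ℂ) + lam‖ := by
        have h1 := norm_sub_le ((n : ℂ) + lam) lam
        rw [add_sub_cancel_right] at h1
        have h2 : ‖(n : ℂ)‖ = (n : ℝ) := by simp
        rw [h2] at h1
        linarith
      have e3 : ‖(n : ℂ) + lam‖ * ‖PowerSeries.coeff n (y i)‖ ≤
          (∑ j, ∑ k ∈ Finset.range (n + 1), ‖PowerSeries.coeff k (M i j)‖ *
          ‖PowerSeries.coeff (n - k) (y j)‖) + ‖PowerSeries.coeff n (b i)‖ := by
        rw [← norm_mul, ocv_coeff M b lam y hy i n]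
        refine (norm_add_le _ _).trans (add_le_add ?_ le_rfl)
        refine (norm_sum_le _ _).trans (Finset.sum_le_sum (fun j _ => ?_))
        refine (norm_sum_le _ _).trans (Finset.sum_le_sum (fun k _ => ?_))
        rw [norm_mul]
      have e4 : (∑ j, ∑ k ∈ Finset.range (n + 1), (‖PowerSeries.coeff k (M i j)‖ * r ^ k) *
          (‖PowerSeries.coeff (n - k) (y j)‖ * r ^ (n - k)))
          + ‖PowerSeries.coeff n (b i)‖ * r ^ n =
          ((∑ j, ∑ k ∈ Finset.range (n + 1), ‖PowerSeries.coeff k (M i j)‖ *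
          ‖PowerSeries.coeff (n - k) (y j)‖) + ‖PowerSeries.coeff n (b i)‖) * r ^ n := by
        rw [add_mul, Finset.sum_mul]
        congr 1
        apply Finset.sum_congr rfl
        intro j _
        rw [Finset.sum_mul]
        apply Finset.sum_congr rfl
        intro k hk
        have hkn : k ≤ n := Nat.lt_succ_iff.1 (Finset.mem_range.1 hk)
        have h3 : r ^ n = r ^ k * r ^ (n - k) := by
          rw [← pow_add]
          congr 1
          omega
        rw [h3]
        ring
      rw [e4, ← mul_assoc]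
      apply mul_le_mul_of_nonneg_right _ (hr n)
      exact (mul_le_mul_of_nonneg_right e2 (norm_nonneg _)).trans e3
    have e5 := Finset.sum_le_sum (fun i (_ : i ∈ Finset.univ) => e1 i)
    rw [← Finset.mul_sum, Finset.sum_add_distrib] at e5
    refine e5.trans (add_le_add ?_ (hbβ n))
    -- exchange of the sums
    have e6 : ∀ i, (∑ j, ∑ k ∈ Finset.range (n + 1), (‖PowerSeries.coeff k (M i j)‖ * r ^ k) *
          (‖PowerSeries.coeff (n - k) (y j)‖ * r ^ (n - k))) =
        ∑ k ∈ Finset.range (n + 1), ∑ j, (‖PowerSeries.coeff k (M i j)‖ * r ^ k) *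
          (‖PowerSeries.coeff (n - k) (y j)‖ * r ^ (n - k)) := fun i => Finset.sum_comm
    simp_rw [e6]
    rw [Finset.sum_comm]
    apply Finset.sum_le_sum
    intro k _
    simp only [hm]
    rw [Finset.sum_mul]
    apply Finset.sum_le_sum
    intro i _
    rw [Finset.sum_mul]
    apply Finset.sum_le_sum
    intro j _
    apply mul_le_mul_of_nonneg_left _ (mul_nonneg (norm_nonneg _) (hr k))
    exact Finset.single_le_sum (f := fun j => ‖PowerSeries.coeff (n - k) (y j)‖ * r ^ (n - k))
      (fun j _ => mul_nonneg (norm_nonneg _) (hr _)) (Finset.mem_univ j)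
  obtain ⟨N0, hN0⟩ := exists_nat_ge (‖lam‖ + 2 * mm + 1)
  set C : ℝ := β + ∑ n ∈ Finset.range N0, Y n with hC
  have hCβ : β ≤ C := by
    have : 0 ≤ ∑ n ∈ Finset.range N0, Y n := Finset.sum_nonneg (fun n _ => hY0 n)
    linarith
  have hC0 : 0 ≤ C := hβ0.trans hCβ
  have bound : ∀ n, Y n ≤ C := by
    intro n
    induction n using Nat.strong_induction_on with
    | _ n ih =>
      by_cases hn : n < N0
      · have h1 := Finset.single_le_sum (f := Y) (fun k _ => hY0 k) (Finset.mem_range.2 hn)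
        linarith
      · push Not at hn
        have hn' : ‖lam‖ + 2 * mm + 1 ≤ (n : ℝ) := hN0.trans (by exact_mod_cast hn)
        have h1 := key n
        rw [Finset.sum_range_succ'] at h1
        have h2 : ∑ k ∈ Finset.range n, m (k + 1) * Y (n - (k + 1)) ≤
            C * ∑ k ∈ Finset.range n, m (k + 1) := by
          rw [Finset.mul_sum]
          apply Finset.sum_le_sum
          intro k hk
          have hk' := Finset.mem_range.1 hk
          rw [mul_comm C]
          exact mul_le_mul_of_nonneg_left (ih _ (by omega)) (hm0 _)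
        have h3 := hmsum (n + 1)
        rw [Finset.sum_range_succ'] at h3
        have h4 : ∑ k ∈ Finset.range n, m (k + 1) ≤ mm := by linarith [hm0 0]
        have h5 : C * ∑ k ∈ Finset.range n, m (k + 1) ≤ C * mm :=
          mul_le_mul_of_nonneg_left h4 hC0
        have h6 : m 0 ≤ mm := by
          have : 0 ≤ ∑ k ∈ Finset.range n, m (k + 1) := Finset.sum_nonneg (fun k _ => hm0 _)
          linarith
        rw [Nat.sub_zero] at h1
        have h7 : (mm + 1) * Y n ≤ ((n : ℝ) - ‖lam‖ - m 0) * Y n :=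
          mul_le_mul_of_nonneg_right (by linarith) (hY0 n)
        have h8 : (mm + 1) * Y n ≤ (mm + 1) * C := by
          have : ((n : ℝ) - ‖lam‖ - m 0) * Y n = ((n : ℝ) - ‖lam‖) * Y n - m 0 * Y n := by ring
          nlinarith
        exact le_of_mul_le_mul_left h8 (by linarith)
  refine ⟨C, fun n => ?_⟩
  have h1 := Finset.single_le_sum (f := fun i => ‖PowerSeries.coeff n (y i)‖ * r ^ n)
    (fun i _ => mul_nonneg (norm_nonneg _) (hr n)) (Finset.mem_univ i₀)
  exact h1.trans (bound n)

end Pool.Agent.DERV
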