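import Pool.Agent.DERV.FGN2
import Pool.Agent.DERV.OCV
import Pool.Agent.DERV.CV6
import Pool.Agent.DERV.EIS1

/-!
# Project DERV, part II: convergence of the graded traces
-/

set_option autoImplicit false

universe u

open Finset

namespace Pool.Agent.DERV

open Pool.Agent.VOAut
open UpperHalfPlane hiding I
open scoped Nat ArithmeticFunction.sigma Manifold

variable {V : Type u} [AddCommGroup V] [Module ℂ V]

theorem cnv_list {X : Type*} (L : List X) (F : X → PowerSeries ℂ) (hF : ∀ x, Cv (F x)) :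
    Cv (L.map F).sum := by
  induction L with
  | nil =>
    rw [List.map_nil, List.sum_nil]
    exact Cv_zero
  | cons a L ih =>
    rw [List.map_cons, List.sum_cons]
    exact (hF a).add ih

/-- Convergence from the two systems of relations. -/
theorem cnv_main {A : VOA V} (h : CFT A) (hc : C2 A) (lam : ℂ)
    (T : V →ₗ[ℂ] PowerSeries ℂ) (hT : ∀ v, df3 A Ek T v = th (T v) + lam • T v)
    (h2 : ∀ u v, Cv (df2 A Ek T u v)) : ∀ v, Cv (T v) := by
  obtain ⟨d, w, hw1, hw2⟩ := fg h hc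
  have hlist : ∀ L : List (MvPolynomial ℕ ℂ × V × V),
      Cv (L.map fun x => MvPolynomial.aeval Ek x.1 * df2 A Ek T x.2.1 x.2.2).sum := fun L =>
    cnv_list L _ fun x => (Cv_aeval Ek Cv_Ek x.1).mul (h2 x.2.1 x.2.2)
  choose g L hgL using fun i => hw2 (w i)
  let b : Fin d → PowerSeries ℂ := fun i =>
    ((L i).map fun x => MvPolynomial.aeval Ek x.1 * df2 A Ek T x.2.1 x.2.2).sum
  let M : Fin d → Fin d → PowerSeries ℂ := fun i j => MvPolynomial.aeval Ek (g i j)
  have e : ∀ i, df3 A Ek T (w i) = ∑ j, M i j * T (w j) + b i := fun i =>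
    hgL i (PowerSeries ℂ) Ek T
  have hb : ∀ i, Cv (b i) := fun i => hlist (L i)
  have hM : ∀ i j, Cv (M i j) := fun i j => Cv_aeval Ek Cv_Ek (g i j)
  clear_value b M
  have hy : ∀ i, Cv (T (w i)) := by
    refine ode_cv M hM b hb lam (fun i => T (w i)) ?_
    intro i
    rw [← hT (w i)]
    exact e i
  intro v
  obtain ⟨g', L', h'⟩ := hw1 v
  have e' := h' (PowerSeries ℂ) Ek T
  rw [e']
  refine Cv.add (Cv.sum _ _ fun i _ => ?_) (hlist L')
  exact (Cv_aeval Ek Cv_Ek (g' i)).mul (hy i)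

theorem Z_cv {A : VOA V} (h : CFT A) (hc : C2 A) (lam : ℂ) (Z : V →ₗ[ℂ] PowerSeries ℂ)
    (hZ : IsF A lam Z) : ∀ v, Cv (Z v) :=
  cnv_main h hc lam Z hZ.c3 fun u v => by
    rw [hZ.c2]
    exact Cv_zero

theorem T_cv {A : VOA V} {D : Module.End ℂ V} (h : CFT A) (hc : C2 A) (lam : ℂ)
    (Z T : V →ₗ[ℂ] PowerSeries ℂ) (hZ : ∀ v, Cv (Z v)) (hT : IsG A D lam Z T) :
    ∀ v, Cv (T v) :=
  cnv_main h hc lam T hT.t4 fun u v => by
    rw [hT.t3]
    exact Cv_SS A _ _ _ (fun j => Cv_th (Cv_Ek j)) Z hZ (D u) v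

end Pool.Agent.DERV
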