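import Pool.Agent.DERV.STP2

/-!
# Project DERV, part II: the strip lemma, exact form
-/

set_option autoImplicit false

universe u

open Finset

namespace Pool.Agent.DERV

open Pool.Agent.VOAut
open UpperHalfPlane hiding I
open scoped Nat ArithmeticFunction.sigma Manifold

variable {V : Type u} [AddCommGroup V] [Module ℂ V]

variable {A : VOA V} {D : Module.End ℂ V}

theorem stp3_van {f : PowerSeries ℂ} (h : ∀ N, Van N f) : f = 0 := by
  ext n
  rw [h (n + 1) n (Nat.lt_succ_self n), map_zero]

theorem stp3_van_zero (N : ℕ) : Van N 0 := fun _ _ => map_zero _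

theorem stp3_bound (p : Pack A D) (lam : ℂ) :
    ∃ M : ℕ, ∀ (j : Fin (p.n + 1)) (m : ℕ), lamt (p.t j) = lam + m → m < M := by
  classical
  have h1 : ∀ j : Fin (p.n + 1), ∃ M : ℕ, ∀ m : ℕ, lamt (p.t j) = lam + m → m < M := by
    intro j
    by_cases h : ∃ m : ℕ, lamt (p.t j) = lam + m
    · obtain ⟨m, hm⟩ := h
      refine ⟨m + 1, fun m' hm' => ?_⟩
      rw [hm] at hm'
      have h2 : (m : ℂ) = m' := by linear_combination hm'
      have h3 : m = m' := by exact_mod_cast h2
      omega
    · push Not at h
      exact ⟨0, fun m hm => absurd hm (h m)⟩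
  choose M hM using h1
  refine ⟨Finset.univ.sup M + 1, fun j m hm => ?_⟩
  have h2 := hM j m hm
  have h3 : M j ≤ Finset.univ.sup M := Finset.le_sup (Finset.mem_univ j)
  omega

theorem strip_full (p : Pack A D) (lam : ℂ)
    (f g : V →ₗ[ℂ] PowerSeries ℂ)
    (f1 : ∀ u v, f (br A 0 u v) = 0) (f2 : ∀ u v, df2 A Ek f u v = 0)
    (f3 : ∀ v, df3 A Ek f v = th (f v) + lam • f v + kap • g v) (hg : IsF A lam g) :
    g = 0 ∧ ∃ (d : Fin (p.n + 1) → ℂ) (m : Fin (p.n + 1) → ℕ),
      (∀ j, d j ≠ 0 → lamt (p.t j) = lam + m j) ∧
      ∀ v, f v = ∑ j, d j • (PowerSeries.X ^ m j * Zs (p.t j) v) := by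
  have key := fun N : ℕ => strip p lam f g N
    (fun u v => by rw [f1]; exact stp3_van_zero N)
    (fun u v => by rw [hg.c1]; exact stp3_van_zero N)
    (fun u v => by rw [f2]; exact stp3_van_zero N)
    (fun u v => by rw [hg.c2]; exact stp3_van_zero N)
    (fun v => by rw [f3, sub_self]; exact stp3_van_zero N)
    (fun v => by rw [hg.c3, sub_self]; exact stp3_van_zero N)
  have hg0 : g = 0 := by
    apply LinearMap.ext
    intro v
    exact stp3_van (fun N => (key N).1 v)
  refine ⟨hg0, ?_⟩
  obtain ⟨M, hM⟩ := stp3_bound p lam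
  obtain ⟨-, d, m, hd, hf⟩ := key M
  refine ⟨d, m, fun j hj => (hd j hj).1, ?_⟩
  have hR := stp2_R_isF p lam d m (fun j hj => (hd j hj).1)
  have hF : ∀ k, ∀ v, Van (M + k) ((f - stp2_R p d m) v) := by
    intro k
    induction k with
    | zero =>
      intro v
      rw [LinearMap.sub_apply, stp2_R_apply]
      exact hf v
    | succ k ih =>
      obtain ⟨-, d', hd', h'⟩ := step p lam (f - stp2_R p d m) 0 (M + k) ih
        (fun v => stp3_van_zero _)
        (fun u v => by
          rw [LinearMap.sub_apply, hR.c1, f1, sub_zero]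
          exact stp3_van_zero _)
        (fun u v => stp3_van_zero _)
        (fun u v => by
          rw [df2_subS, hR.c2, f2, sub_zero]
          exact stp3_van_zero _)
        (fun u v => by
          rw [(stp2_isF_zero lam).c2]
          exact stp3_van_zero _)
        (fun v => by
          have e : df3 A Ek (f - stp2_R p d m) v - (th ((f - stp2_R p d m) v) +
              lam • (f - stp2_R p d m) v + kap • (0 : V →ₗ[ℂ] PowerSeries ℂ) v) = 0 := by
            rw [df3_subS, hR.c3, f3, hg0, LinearMap.sub_apply, map_sub, smul_sub,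
              LinearMap.zero_apply, smul_zero]
            abel
          rw [e]
          exact stp3_van_zero _)
        (fun v => by
          rw [(stp2_isF_zero lam).c3, sub_self]
          exact stp3_van_zero _)
      have hd0 : ∀ j, d' j = 0 := by
        intro j
        by_contra hj
        have := hM j (M + k) (by
          have := hd' j hj
          exact_mod_cast this)
        omega
      intro v i hi
      have hi' : i < M + k + 1 := hi
      rcases Nat.lt_succ_iff_lt_or_eq.1 hi' with h | h
      · exact ih v i h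
      · rw [h, h' v]
        apply Finset.sum_eq_zero
        intro j _
        rw [hd0 j, zero_mul]
  intro v
  have h1 : (f - stp2_R p d m) v = 0 := by
    apply stp3_van
    intro N
    exact stp2_Van_mono (Nat.le_add_left N M) (hF N v)
  rw [LinearMap.sub_apply, stp2_R_apply, sub_eq_zero] at h1
  exact h1

end Pool.Agent.DERV
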