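import Pool.Agent.DERV.CV6
import Pool.Agent.DERV.EIS1

/-!
# Project DERV, part II: analytic relations from formal relations
-/

set_option autoImplicit false

universe u

open Finset

namespace Pool.Agent.DERV

open Pool.Agent.VOAut
open UpperHalfPlane hiding I
open scoped Nat ArithmeticFunction.sigma Manifold

variable {V : Type u} [AddCommGroup V] [Module ℂ V]

variable {A : VOA V} {D : Module.End ℂ V}

theorem InCC_EXL (lam : ℂ) (F : V →ₗ[ℂ] PowerSeries ℂ) (hF : ∀ v, Cv (F v)) (h : IsF A lam F) :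
    InCC A (EXL lam F hF) where
  md v := EX_hol lam (hF v)
  c1 u v := by rw [EXL_apply, h.c1, EX_zero]
  c2 u v := by
    have e := df2_EX A lam Ek Cv_Ek F hF (EXL lam F hF) (fun v => rfl) u v
    rw [h.c2, EX_zero] at e
    exact e
  c3 v := by
    have e := df3_EX A lam Ek Cv_Ek F hF (EXL lam F hF) (fun v => rfl) v
    rw [h.c3, ← DH_EX lam (hF v)] at e
    exact e

theorem IsF_of_InCC (lam : ℂ) (F : V →ₗ[ℂ] PowerSeries ℂ) (hF : ∀ v, Cv (F v))
    (S : V →ₗ[ℂ] (ℍ → ℂ)) (hS : ∀ v, S v = EX lam (F v)) (h : InCC A S) : IsF A lam F where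
  c1 u v := by
    apply EX_inj lam (hF _) Cv_zero
    rw [← hS, h.c1, EX_zero]
  c2 u v := by
    apply EX_inj lam (Cv_df2 A Ek Cv_Ek F hF u v) Cv_zero
    rw [← df2_EX A lam Ek Cv_Ek F hF S hS u v, EX_zero]
    exact h.c2 u v
  c3 v := by
    apply EX_inj lam (Cv_df3 A Ek Cv_Ek F hF v) ((Cv_th (hF v)).add ((hF v).smul lam))
    rw [← df3_EX A lam Ek Cv_Ek F hF S hS v, ← DH_EX lam (hF v), ← hS v]
    exact h.c3 v

theorem TA_EXL (lam : ℂ) (Z T : V →ₗ[ℂ] PowerSeries ℂ) (hZ : ∀ v, Cv (Z v)) (hT : ∀ v, Cv (T v))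
    (h : IsG A D lam Z T) : TA A D (EXL lam Z hZ) (EXL lam T hT) where
  mdz v := EX_hol lam (hZ v)
  md v := EX_hol lam (hT v)
  t1 u v := by
    have e := SS_EX A lam (fun _ => 1) 1 Ek Cv_Ek Z hZ (EXL lam Z hZ) (fun v => rfl) (D u) v
    rw [EXL_apply, h.t1, EX_sub lam (hZ _) (Cv_SS A _ _ _ Cv_Ek Z hZ _ _), ← e]
    rfl
  t3 u v := by
    have e := df2_EX A lam Ek Cv_Ek T hT (EXL lam T hT) (fun v => rfl) u v
    rw [h.t3, ← SS_EX A lam (fun _ => 1) 1 (fun j => th (Ek j)) (fun j => Cv_th (Cv_Ek j)) Z hZ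
      (EXL lam Z hZ) (fun v => rfl) (D u) v] at e
    have e2 : (fun j => DH (EH j)) = fun j => evH (th (Ek j)) := by
      funext j
      exact DH_evH (Cv_Ek j)
    rw [e2]
    exact e
  t4 v := by
    have e := df3_EX A lam Ek Cv_Ek T hT (EXL lam T hT) (fun v => rfl) v
    rw [h.t4, ← DH_EX lam (hT v)] at e
    exact e

theorem TA_zero : TA A D 0 0 where
  mdz v := Hol_zero
  md v := Hol_zero
  t1 u v := by
    rw [SS_zeroS]
    simp
  t3 u v := by
    unfold df2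
    rw [SS_zeroS, SS_zeroS]
    simp
  t4 v := by
    unfold df3
    rw [SS_zeroS]
    simp only [LinearMap.zero_apply, sub_zero]
    exact DH_zero.symm

theorem TA_add {Z T Z' T' : V →ₗ[ℂ] (ℍ → ℂ)} (h : TA A D Z T) (h' : TA A D Z' T') :
    TA A D (Z + Z') (T + T') where
  mdz v := Hol_add (h.mdz v) (h'.mdz v)
  md v := Hol_add (h.md v) (h'.md v)
  t1 u v := by
    rw [LinearMap.add_apply, LinearMap.add_apply, SS_addS, h.t1, h'.t1]
    abel
  t3 u v := by rw [df2_addS, SS_addS, h.t3, h'.t3]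
  t4 v := by rw [df3_addS, h.t4, h'.t4, LinearMap.add_apply, DH_add (h.md v) (h'.md v)]

theorem TA_smul (c : ℂ) {Z T : V →ₗ[ℂ] (ℍ → ℂ)} (h : TA A D Z T) : TA A D (c • Z) (c • T) where
  mdz v := Hol_smul c (h.mdz v)
  md v := Hol_smul c (h.md v)
  t1 u v := by rw [LinearMap.smul_apply, LinearMap.smul_apply, SS_smulS, h.t1, smul_sub]
  t3 u v := by rw [df2_smulS, SS_smulS, h.t3]
  t4 v := by rw [df3_smulS, h.t4, LinearMap.smul_apply, DH_smul c (h.md v)]

theorem TA_sum {ι : Type} (s : Finset ι) (c : ι → ℂ) (Z T : ι → V →ₗ[ℂ] (ℍ → ℂ))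
    (h : ∀ i ∈ s, TA A D (Z i) (T i)) :
    TA A D (∑ i ∈ s, c i • Z i) (∑ i ∈ s, c i • T i) := by
  classical
  induction s using Finset.induction_on with
  | empty =>
    rw [Finset.sum_empty, Finset.sum_empty]
    exact TA_zero
  | insert a s ha ih =>
    rw [Finset.sum_insert ha, Finset.sum_insert ha]
    exact TA_add (TA_smul (c a) (h a (Finset.mem_insert_self a s)))
      (ih (fun i hi => h i (Finset.mem_insert_of_mem hi)))

end Pool.Agent.DERV
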