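import Pool.Agent.DERV.EXPN
import Pool.Agent.DERV.STP3
import Pool.Agent.DERV.TAN
import Pool.Agent.DERV.CCT
import Pool.Agent.DERV.CNV

/-!
# Project DERV, part II: generalised translation eigenvectors
-/

set_option autoImplicit false

universe u

open Finset

namespace Pool.Agent.DERV

open Pool.Agent.VOAut
open UpperHalfPlane hiding I
open scoped Nat ArithmeticFunction.sigma Manifold

variable {V : Type u} [AddCommGroup V] [Module ℂ V]

theorem ccg_exp_sub (lam : ℂ) (n : ℕ) :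
    Complex.exp (2 * Real.pi * Complex.I * (lam - n)) =
      Complex.exp (2 * Real.pi * Complex.I * lam) := by
  have h1 : 2 * (Real.pi : ℂ) * Complex.I * (lam - n) =
      2 * Real.pi * Complex.I * lam - n * (2 * Real.pi * Complex.I) := by ring
  rw [h1, Complex.exp_sub, Complex.exp_nat_mul_two_pi_mul_I, div_one]

theorem ccg_exp_add (lam : ℂ) (n : ℕ) :
    Complex.exp (2 * Real.pi * Complex.I * (lam + n)) =
      Complex.exp (2 * Real.pi * Complex.I * lam) := by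
  have h1 : 2 * (Real.pi : ℂ) * Complex.I * (lam + n) =
      2 * Real.pi * Complex.I * lam + n * (2 * Real.pi * Complex.I) := by ring
  rw [h1, Complex.exp_add, Complex.exp_nat_mul_two_pi_mul_I, mul_one]

theorem ccg_EX_sum (lam : ℂ) {ι : Type} (s : Finset ι) (f : ι → PowerSeries ℂ)
    (hf : ∀ i, Cv (f i)) : EX lam (∑ i ∈ s, f i) = ∑ i ∈ s, EX lam (f i) := by
  classical
  induction s using Finset.induction_on with
  | empty => rw [Finset.sum_empty, Finset.sum_empty, EX_zero]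
  | insert a s ha ih =>
    rw [Finset.sum_insert ha, Finset.sum_insert ha,
      EX_add lam (hf a) (Cv.sum s f fun i _ => hf i), ih]

theorem cc_gen {A : VOA V} {D : Module.End ℂ V} (h : CFT A) (hc : C2 A)
    (p : Pack A D) (S : V →ₗ[ℂ] (ℍ → ℂ)) (hS : InCC A S) (mu : ℂ) (hmu : mu ≠ 0)
    (hT : Tl (Tl S - mu • S) = mu • (Tl S - mu • S)) :
    ∃ c : Fin (p.n + 1) → ℂ,
      (∀ j, c j ≠ 0 → Complex.exp (2 * Real.pi * Complex.I * lamt (p.t j)) = mu) ∧
      ∀ v, S v = ∑ j, c j • EX (lamt (p.t j)) (Zs (p.t j) v) := by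
  -- the two functions
  obtain ⟨g, hg⟩ : ∃ g : V →ₗ[ℂ] (ℍ → ℂ), g = mu⁻¹ • (Tl S - mu • S) := ⟨_, rfl⟩
  have hgS : ∀ v τ, S v ((1 : ℝ) +ᵥ τ) = mu * S v τ + mu * g v τ := by
    intro v τ
    rw [hg]
    have h1 : (mu⁻¹ • (Tl S - mu • S)) v τ = mu⁻¹ * (Tl S v τ - mu * S v τ) := rfl
    rw [h1, Tl_apply]
    field_simp
    ring
  have hgT : ∀ v τ, g v ((1 : ℝ) +ᵥ τ) = mu * g v τ := by
    intro v τ
    have h1 : Tl g = mu • g := by
      rw [hg, map_smul, hT, smul_comm]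
    have h2 : Tl g v τ = (mu • g) v τ := by rw [h1]
    rw [Tl_apply] at h2
    exact h2
  have hgC : InCC A g := by
    have e1 : g = mu⁻¹ • (Tl S + (-mu) • S) := by
      rw [hg]
      congr 1
      ext v τ
      show Tl S v τ - mu * S v τ = Tl S v τ + (-mu) * S v τ
      ring
    rw [e1]
    exact InCC_smul _ (InCC_add (InCC_T hS) (InCC_smul _ hS))
  obtain ⟨f, hf⟩ : ∃ f : V →ₗ[ℂ] (ℍ → ℂ), f = S - LinearMap.mulLeft ℂ tau ∘ₗ g := ⟨_, rfl⟩
  have hfv : ∀ v, f v = S v - tau * g v := by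
    intro v
    rw [hf]
    rfl
  have hfT : ∀ v τ, f v ((1 : ℝ) +ᵥ τ) = mu * f v τ := by
    intro v τ
    have h1 : ∀ w : ℍ, f v w = S v w - (w : ℂ) * g v w := by
      intro w
      rw [hfv]
      rfl
    rw [h1, h1, hgS, hgT]
    have h2 : (((1 : ℝ) +ᵥ τ : ℍ) : ℂ) = 1 + (τ : ℂ) := by
      rw [UpperHalfPlane.coe_vadd]
      push_cast
      ring
    rw [h2]
    ring
  have hfH : ∀ v, Hol (f v) := by
    intro v
    rw [hfv]
    exact Hol_sub (hS.md v) (Hol_mul Hol_tau (hgC.md v))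
  have hf1 : ∀ u v, f (br A 0 u v) = 0 := by
    intro u v
    rw [hfv, hS.c1, hgC.c1, mul_zero, sub_zero]
  have hf2 : ∀ u v, df2 A EH f u v = 0 := by
    intro u v
    rw [hf, df2_subS, df2_mulS, hS.c2, hgC.c2, mul_zero, sub_zero]
  have hf3 : ∀ v, df3 A EH f v = DH (f v) + kap • g v := by
    intro v
    have h1 : df3 A EH f v = DH (S v) - tau * DH (g v) := by
      rw [hf, df3_subS, df3_mulS, hS.c3, hgC.c3]
    have h2 : DH (f v) = DH (S v) - (DH tau * g v + tau * DH (g v)) := by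
      rw [hfv, DH_sub (hS.md v) (Hol_mul Hol_tau (hgC.md v)), DH_mul Hol_tau (hgC.md v)]
    have h3 : DH tau * g v = kap • g v := by
      rw [DH_tau]
      rfl
    rw [h1, h2, h3]
    abel
  -- the exponent
  obtain ⟨lam, hlam⟩ : ∃ lam : ℂ, Complex.exp (2 * Real.pi * Complex.I * lam) = mu := by
    refine ⟨(2 * Real.pi * Complex.I)⁻¹ * Complex.log mu, ?_⟩
    rw [← mul_assoc, mul_inv_cancel₀, one_mul, Complex.exp_log hmu]
    exact Complex.two_pi_I_ne_zero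
  obtain ⟨N1, G, hGc, hG⟩ := expn h hc lam g hgC.md (fun v τ => by rw [hgT, hlam])
    (fun _ _ => 0) (fun _ _ => Cv_zero) (fun u v => by rw [hgC.c2, EX_zero])
    (fun _ => 0) (fun _ => Cv_zero) (fun v => by rw [hgC.c3, EX_zero, add_zero])
  obtain ⟨N2, F, hFc, hF⟩ := expn h hc (lam - N1) f hfH
    (fun v τ => by rw [hfT, ccg_exp_sub, hlam])
    (fun _ _ => 0) (fun _ _ => Cv_zero) (fun u v => by rw [hf2, EX_zero])
    (fun v => kap • G v) (fun v => (hGc v).smul _) (fun v => by rw [hf3, EX_smul, hG])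
  obtain ⟨lam2, hlam2⟩ : ∃ lam2 : ℂ, lam2 = lam - N1 - N2 := ⟨_, rfl⟩
  rw [← hlam2] at hF
  obtain ⟨G', hG'⟩ : ∃ G' : V →ₗ[ℂ] PowerSeries ℂ,
      G' = LinearMap.mulLeft ℂ ((PowerSeries.X : PowerSeries ℂ) ^ N2) ∘ₗ G := ⟨_, rfl⟩
  have hG'v : ∀ v, G' v = PowerSeries.X ^ N2 * G v := by
    intro v
    rw [hG']
    rfl
  have hG'c : ∀ v, Cv (G' v) := by
    intro v
    rw [hG'v]
    exact (Cv_X.pow N2).mul (hGc v)
  have hgE : ∀ v, g v = EX lam2 (G' v) := by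
    intro v
    rw [hG'v, EX_X lam2 N2 (hGc v), hG v]
    congr 1
    rw [hlam2]
    ring
  have hG'F : IsF A lam2 G' := IsF_of_InCC lam2 G' hG'c g hgE hgC
  have hEH : (EH : ℕ → ℍ → ℂ) = fun j => evH (Ek j) := rfl
  have F1 : ∀ u v, F (br A 0 u v) = 0 := by
    intro u v
    apply EX_inj lam2 (hFc _) Cv_zero
    rw [← hF, hf1, EX_zero]
  have F2 : ∀ u v, df2 A Ek F u v = 0 := by
    intro u v
    apply EX_inj lam2 (Cv_df2 A Ek Cv_Ek F hFc u v) Cv_zero
    rw [← df2_EX A lam2 Ek Cv_Ek F hFc f hF, ← hEH, hf2, EX_zero]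
  have F3 : ∀ v, df3 A Ek F v = th (F v) + lam2 • F v + kap • G' v := by
    intro v
    have c1 : Cv (th (F v) + lam2 • F v) := (Cv_th (hFc v)).add ((hFc v).smul _)
    have c2 : Cv (kap • G' v) := (hG'c v).smul _
    apply EX_inj lam2 (Cv_df3 A Ek Cv_Ek F hFc v) (c1.add c2)
    rw [← df3_EX A lam2 Ek Cv_Ek F hFc f hF, ← hEH, hf3, EX_add lam2 c1 c2, EX_smul,
      ← DH_EX lam2 (hFc v), ← hF, ← hgE]
  obtain ⟨hG0, d, m, hd, hFd⟩ := strip_full p lam2 F G' F1 F2 F3 hG'F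
  refine ⟨d, ?_, ?_⟩
  · intro j hj
    rw [hd j hj, ccg_exp_add, hlam2, ccg_exp_sub, ccg_exp_sub, hlam]
  · intro v
    have hg0 : g v = 0 := by
      rw [hgE, hG0, LinearMap.zero_apply, EX_zero]
    have hZ : ∀ j, Cv (Zs (p.t j) v) := fun j =>
      Z_cv h hc (lamt (p.t j)) (ZsL (p.t j)) (Zs_isF (p.t j)) v
    have hSf : S v = f v := by
      rw [hfv, hg0, mul_zero, sub_zero]
    rw [hSf, hF, hFd, ccg_EX_sum lam2 _ _ fun j => ((Cv_X.pow (m j)).mul (hZ j)).smul _]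
    apply Finset.sum_congr rfl
    intro j _
    rw [EX_smul, EX_X lam2 (m j) (hZ j)]
    by_cases hj : d j = 0
    · rw [hj, zero_smul, zero_smul]
    · rw [hd j hj]

end Pool.Agent.DERV
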