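import Pool.Agent.DERV.CCG
import Pool.Agent.DERV.CCF

/-!
# Project DERV, part II: the trace functions span the space of solutions
-/

set_option autoImplicit false

universe u

open Finset

namespace Pool.Agent.DERV

open Pool.Agent.VOAut
open UpperHalfPlane hiding I
open scoped Nat ArithmeticFunction.sigma Manifold

variable {V : Type u} [AddCommGroup V] [Module ℂ V]

/-- A finite dimensional invariant space is contained in a submodule if its generalised eigenvectors
are. -/
theorem ccs_abs {M : Type*} [AddCommGroup M] [Module ℂ M] (C : Submodule ℂ M)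
    (hfd : FiniteDimensional ℂ C) (T : M →ₗ[ℂ] M) (hT : ∀ x ∈ C, T x ∈ C)
    (hinj : ∀ x, T x = 0 → x = 0) (Q : ℂ → M → Prop) (hQ0 : ∀ mu, Q mu 0)
    (hstep : ∀ mu : ℂ, mu ≠ 0 → ∀ x ∈ C, Q mu (T x - mu • x) → Q mu x)
    (P : Submodule ℂ M) (hP : ∀ mu x, Q mu x → x ∈ P) : ∀ x ∈ C, x ∈ P := by
  set T' : Module.End ℂ C := LinearMap.restrict T hT with hT'
  have hgen : ∀ mu : ℂ, mu ≠ 0 → ∀ (k : ℕ) (x : C),
      ((T' - mu • (1 : Module.End ℂ C)) ^ k) x = 0 → Q mu (x : M) := by
    intro mu hmu k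
    induction k with
    | zero =>
      intro x hx
      rw [pow_zero, Module.End.one_apply] at hx
      rw [hx, Submodule.coe_zero]
      exact hQ0 mu
    | succ k ih =>
      intro x hx
      rw [pow_succ, Module.End.mul_apply] at hx
      exact hstep mu hmu _ x.2 (ih _ hx)
  have key : (⊤ : Submodule ℂ C) ≤ P.comap C.subtype := by
    rw [← Module.End.iSup_maxGenEigenspace_eq_top T']
    refine iSup_le fun mu => ?_
    intro x hx
    rw [Module.End.mem_maxGenEigenspace] at hx
    obtain ⟨k, hk⟩ := hx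
    by_cases hmu : mu = 0
    · rw [hmu, zero_smul, sub_zero] at hk
      have hinj' : Function.Injective T' := by
        refine (injective_iff_map_eq_zero _).2 fun y hy => ?_
        exact Subtype.ext (hinj _ (congrArg Subtype.val hy))
      have h2 : Function.Injective (T' ^ k) := by
        rw [Module.End.coe_pow]
        exact hinj'.iterate k
      have hx0 : x = 0 := h2 (by rw [hk, map_zero])
      rw [hx0]
      exact Submodule.zero_mem _
    · exact hP mu _ (hgen mu hmu k x hk)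
  intro x hx
  exact key (Submodule.mem_top (x := (⟨x, hx⟩ : C)))

/-- The span of the trace functions. -/
noncomputable def ccs_SP {A : VOA V} {D : Module.End ℂ V} (p : Pack A D) :
    Submodule ℂ (V →ₗ[ℂ] (ℍ → ℂ)) where
  carrier := {S | ∃ c : Fin (p.n + 1) → ℂ, ∀ v, S v = ∑ j, c j • EX (lamt (p.t j)) (Zs (p.t j) v)}
  add_mem' := by
    rintro S T ⟨c, hc⟩ ⟨d, hd⟩
    refine ⟨fun j => c j + d j, fun v => ?_⟩
    rw [LinearMap.add_apply, hc v, hd v, ← Finset.sum_add_distrib]
    refine Finset.sum_congr rfl fun j _ => ?_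
    rw [add_smul]
  zero_mem' := by
    refine ⟨fun _ => 0, fun v => ?_⟩
    rw [LinearMap.zero_apply]
    symm
    refine Finset.sum_eq_zero fun j _ => ?_
    rw [zero_smul]
  smul_mem' := by
    rintro a S ⟨c, hc⟩
    refine ⟨fun j => a * c j, fun v => ?_⟩
    rw [LinearMap.smul_apply, hc v, Finset.smul_sum]
    refine Finset.sum_congr rfl fun j _ => ?_
    rw [mul_smul]

/-- Translation of a combination of trace functions with one multiplier. -/
theorem ccs_eig {A : VOA V} {D : Module.End ℂ V} (p : Pack A D) (mu : ℂ)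
    (c : Fin (p.n + 1) → ℂ)
    (hc : ∀ j, c j ≠ 0 → Complex.exp (2 * Real.pi * Complex.I * lamt (p.t j)) = mu)
    (S : V →ₗ[ℂ] (ℍ → ℂ)) (hS : ∀ v, S v = ∑ j, c j • EX (lamt (p.t j)) (Zs (p.t j) v)) :
    Tl S = mu • S := by
  refine LinearMap.ext fun v => ?_
  funext τ
  rw [Tl_apply, LinearMap.smul_apply, Pi.smul_apply, hS v, Finset.sum_apply, Finset.sum_apply,
    Finset.smul_sum]
  refine Finset.sum_congr rfl fun j _ => ?_
  rw [Pi.smul_apply, Pi.smul_apply, EX_T]
  by_cases h0 : c j = 0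
  · rw [h0, zero_smul, zero_smul, smul_zero]
  · rw [hc j h0, smul_eq_mul, smul_eq_mul, smul_eq_mul]
    ring

theorem cc_span {A : VOA V} {D : Module.End ℂ V} (h : CFT A) (hc : C2 A)
    (p : Pack A D) (S : V →ₗ[ℂ] (ℍ → ℂ)) (hS : InCC A S) :
    ∃ c : Fin (p.n + 1) → ℂ, ∀ v, S v = ∑ j, c j • EX (lamt (p.t j)) (Zs (p.t j) v) := by
  have key := ccs_abs (CC A) (CC_fd h hc) Tl (fun _ hx => InCC_T hx) Tl_inj
    (fun mu S => ∃ c : Fin (p.n + 1) → ℂ,
      (∀ j, c j ≠ 0 → Complex.exp (2 * Real.pi * Complex.I * lamt (p.t j)) = mu) ∧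
      ∀ v, S v = ∑ j, c j • EX (lamt (p.t j)) (Zs (p.t j) v)) ?_ ?_ (ccs_SP p) ?_
  · exact key S hS
  · intro mu
    refine ⟨fun _ => 0, fun j hj => absurd rfl hj, fun v => ?_⟩
    symm
    rw [LinearMap.zero_apply]
    refine Finset.sum_eq_zero fun j _ => ?_
    rw [zero_smul]
  · rintro mu hmu x hx ⟨c, hc1, hc2⟩
    exact cc_gen h hc p _ hx mu hmu (ccs_eig p mu c hc1 _ hc2)
  · rintro mu x ⟨c, -, hc2⟩
    exact ⟨c, hc2⟩

end Pool.Agent.DERV
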