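import Pool.Agent.DERV.FGN1
import Pool.Agent.VOAut.Faithful
import Pool.Agent.VOAut.AutFin

/-!
# Project DERV: `V_0 = ℂ 1` implies `V_n = 0` for `n < 0`; automorphisms and generation
-/

set_option autoImplicit false

universe u

open Finset

namespace Pool.Agent.DERV

open Pool.Agent.VOAut

variable {V : Type u} [AddCommGroup V] [Module ℂ V]

/-- If `V_0 = ℂ 1` then there are no negative weights. -/
theorem neg_of_zero (A : VOA V) (h0 : A.gr 0 = Submodule.span ℂ {A.vac}) (n : ℤ) (hn : n < 0) :
    A.gr n = ⊥ := by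
  by_contra hne
  obtain ⟨N, hN⟩ := A.bounded
  obtain ⟨m, hm, hmin⟩ := Int.exists_least_of_bdd (P := fun n => A.gr n ≠ ⊥)
    ⟨N, fun z hz => by
      by_contra hc
      exact hz (hN z (not_le.1 hc))⟩ ⟨n, hne⟩
  have hm0 : m < 0 := lt_of_le_of_lt (hmin n hne) hn
  obtain ⟨v, hv, hv0⟩ := Submodule.exists_mem_ne_zero_of_ne_bot hm
  have hlow : A.gr (m - 1) = ⊥ := by
    by_contra hc
    have := hmin _ hc
    omega
  -- powers of `L(-1)`
  set w : ℕ → V := fun k => ((A.Y A.om 0) ^ k) v with hw
  have hws : ∀ k, w (k + 1) = A.Y A.om 0 (w k) := by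
    intro k
    rw [hw]
    show ((A.Y A.om 0) ^ (k + 1)) v = A.Y A.om 0 (((A.Y A.om 0) ^ k) v)
    rw [pow_succ']
    rfl
  have hwg : ∀ k : ℕ, w k ∈ A.gr (m + k) := by
    intro k
    induction k with
    | zero => simpa [hw] using hv
    | succ k ih =>
      rw [hws]
      have h1 := A.graded 2 0 (m + k) A.om (w k) A.om_mem ih
      have e : m + (k : ℤ) + 2 - 0 - 1 = m + ((k + 1 : ℕ) : ℤ) := by push_cast; ring
      rwa [e] at h1
  have hL1v : A.Y A.om 2 v = 0 := by
    have h1 := A.graded 2 2 m A.om v A.om_mem hv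
    have e : m + 2 - 2 - 1 = m - 1 := by ring
    rw [e, hlow, Submodule.mem_bot] at h1
    exact h1
  have hcom : ∀ x : V, A.Y A.om 2 (A.Y A.om 0 x) =
      A.Y A.om 0 (A.Y A.om 2 x) + (2 : ℂ) • A.Y A.om 1 x := by
    intro x
    have h1 := A.virasoro 1 (-1) x
    have e1 : (1 : ℤ) + 1 = 2 := by norm_num
    have e2 : (-1 : ℤ) + 1 = 0 := by norm_num
    have e3 : (1 : ℤ) + -1 + 1 = 1 := by norm_num
    have e4 : (1 : ℤ) + -1 = 0 := by norm_num
    rw [e1, e2, e3, if_pos e4] at h1
    push_cast at h1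
    have e5 : ((1 : ℂ) ^ 3 - 1) / 12 * A.c = 0 := by ring
    have e6 : (1 : ℂ) - -1 = 2 := by norm_num
    rw [e5, zero_smul, add_zero, e6] at h1
    rw [← h1]
    abel
  have hrec : ∀ k : ℕ, A.Y A.om 2 (w (k + 1)) = (((k : ℂ) + 1) * (2 * m + k)) • w k := by
    intro k
    induction k with
    | zero =>
      have h1 : w 1 = A.Y A.om 0 v := by rw [hws]; simp [hw]
      have h2 : w 0 = v := by simp [hw]
      rw [zero_add, h1, h2, hcom, hL1v, map_zero, zero_add, (A.mem_gr m v).1 hv, smul_smul]
      congr 1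
      push_cast
      ring
    | succ k ih =>
      rw [hws (k + 1), hcom, ih, map_smul, ← hws, (A.mem_gr _ _).1 (hwg (k + 1)), smul_smul,
        ← add_smul]
      congr 1
      push_cast
      ring
  have hne0 : ∀ k : ℕ, (k : ℤ) ≤ -2 * m → w k ≠ 0 := by
    intro k
    induction k with
    | zero =>
      intro _
      simpa [hw] using hv0
    | succ k ih =>
      intro hk hz
      push_cast at hk
      have h1 := hrec k
      rw [hz, map_zero] at h1
      rcases smul_eq_zero.1 h1.symm with h2 | h2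
      · rcases mul_eq_zero.1 h2 with h3 | h3
        · have h4 : ((k + 1 : ℕ) : ℂ) = 0 := by push_cast; exact h3
          rw [Nat.cast_eq_zero] at h4
          omega
        · have h4 : ((2 * m + k : ℤ) : ℂ) = 0 := by push_cast; exact h3
          rw [Int.cast_eq_zero] at h4
          omega
      · exact ih (by omega) h2
  obtain ⟨p, hp⟩ : ∃ p : ℕ, (p : ℤ) = -m := ⟨(-m).toNat, by omega⟩
  have h1 : w p ∈ A.gr 0 := by
    have := hwg p
    rwa [show m + (p : ℤ) = 0 by omega] at this
  rw [h0, Submodule.mem_span_singleton] at h1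
  obtain ⟨c, hc⟩ := h1
  apply hne0 (p + 1) (by push_cast; omega)
  rw [hws, ← hc, map_smul, A.creation A.om 0 le_rfl, smul_zero]

/-- `C_2`-cofinite algebras of CFT type are generated by a finite sum of homogeneous pieces. -/
theorem c2_gen {A : VOA V} (hneg : ∀ n : ℤ, n < 0 → A.gr n = ⊥) (hc : C2 A) :
    ∃ U : Submodule ℂ V, FiniteDimensional ℂ U ∧ (∀ g : A.AG, ∀ u ∈ U, g.1 u ∈ U) ∧
      ∀ P : Submodule ℂ V, A.vac ∈ P → U ≤ P →
        (∀ u ∈ P, ∀ v ∈ P, ∀ n : ℤ, A.Y u n v ∈ P) → P = ⊤ := by
  obtain ⟨N, hN⟩ := c2_split hc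
  refine ⟨⨆ n : Finset.Ico (0 : ℤ) N, A.gr n, ?_, ?_, ?_⟩
  · have : ∀ n : ℤ, FiniteDimensional ℂ (A.gr n) := A.findim
    exact Submodule.finiteDimensional_iSup _
  · intro g u hu
    refine Submodule.iSup_induction (fun n : Finset.Ico (0 : ℤ) N => A.gr n)
      (motive := fun u => g.1 u ∈ ⨆ n : Finset.Ico (0 : ℤ) N, A.gr n) hu ?_ ?_ ?_
    · intro n x hx
      exact Submodule.mem_iSup_of_mem n (A.aut_gr g n x hx)
    · rw [map_zero]
      exact zero_mem _
    · intro x y hx hy
      rw [map_add]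
      exact add_mem hx hy
  · intro P _ hU hP
    have h1 : ∀ (k : ℕ) (n : ℤ), n < k → ∀ v ∈ A.gr n, v ∈ P := by
      intro k
      induction k with
      | zero =>
        intro n hn v hv
        rw [hneg n (by simpa using hn), Submodule.mem_bot] at hv
        rw [hv]
        exact zero_mem _
      | succ k ih =>
        intro n hn v hv
        by_cases h2 : n < N
        · by_cases h : n < 0
          · rw [hneg n h, Submodule.mem_bot] at hv
            rw [hv]
            exact zero_mem _
          · exact hU (Submodule.mem_iSup_of_mem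
              (⟨n, Finset.mem_Ico.2 ⟨by omega, h2⟩⟩ : Finset.Ico (0 : ℤ) N) hv)
        · refine Submodule.span_le.2 ?_ (hN n (by omega) v hv)
          rintro x ⟨a, b, p, q, hp, hq, hab, rfl⟩
          by_cases ha : a < 0
          · rw [hneg a ha, Submodule.mem_bot] at hp
            rw [hp]
            simp
          by_cases hb : b < 0
          · rw [hneg b hb, Submodule.mem_bot] at hq
            rw [hq]
            simp
          exact hP p (ih a (by push_cast at hn; omega) p hp) q
            (ih b (by push_cast at hn; omega) q hq) _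
    rw [eq_top_iff]
    intro v _
    refine hom_ind A (P := fun v => v ∈ P) v (zero_mem _) (fun _ _ ha hb => add_mem ha hb) ?_
    intro n v hv
    exact h1 (n.toNat + 1) n (by omega) v hv

end Pool.Agent.DERV
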