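import Pool.Agent.DERV.REL

/-!
# Project DERV, part II: commutator formula for residues
-/

set_option autoImplicit false

universe u

open Finset

namespace Pool.Agent.DERV

open Pool.Agent.VOAut
open UpperHalfPlane hiding I
open scoped Nat ArithmeticFunction.sigma Manifold

variable {V : Type u} [AddCommGroup V] [Module ℂ V]

variable (A : VOA V)

theorem crs_bound (F : ℕ → ℤ) (I : ℕ) : ∃ N : ℤ, ∀ i < I, F i ≤ N := by
  induction I with
  | zero => exact ⟨0, fun i hi => absurd hi (Nat.not_lt_zero i)⟩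
  | succ I ih =>
    obtain ⟨N, hN⟩ := ih
    refine ⟨max N (F I), fun i hi => ?_⟩
    rcases Nat.lt_succ_iff_lt_or_eq.1 hi with h | h
    · exact (hN i h).trans (le_max_left _ _)
    · rw [h]
      exact le_max_right _ _

theorem crs_OG_hasse (k : ℕ) {N : ℤ} {f : LaurentSeries ℂ} (hf : OG N f) :
    OG (N - k) (LaurentSeries.hasseDeriv ℂ k f) := by
  intro i hi
  rw [LaurentSeries.hasseDeriv_coeff, hf (i + k) (by omega), smul_zero]

theorem crs_hasse_cc (k : ℕ) (c : ℂ) (f : LaurentSeries ℂ) :
    LaurentSeries.hasseDeriv ℂ k (cc c * f) = cc c * LaurentSeries.hasseDeriv ℂ k f := by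
  ext i
  rw [coeff_cc_mul, LaurentSeries.hasseDeriv_coeff, LaurentSeries.hasseDeriv_coeff, coeff_cc_mul,
    zsmul_eq_mul, zsmul_eq_mul]
  ring

theorem crs_mono (c c' : ℂ) (m n : ℤ) (u v w : V) (I : ℕ)
    (hI : ∀ i : ℕ, I ≤ i → A.Y u i v = 0) :
    rs A (cc c * HahnSeries.single m 1) u (rs A (cc c' * HahnSeries.single n 1) v w)
      - rs A (cc c' * HahnSeries.single n 1) v (rs A (cc c * HahnSeries.single m 1) u w) =
      ∑ i ∈ range I, rs A (LaurentSeries.hasseDeriv ℂ i (cc c * HahnSeries.single m 1)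
        * (cc c' * HahnSeries.single n 1)) (A.Y u i v) w := by
  obtain ⟨K, h1, h2⟩ := ((A.comm_ev u v w m n).and (Filter.eventually_ge_atTop I)).exists
  have h3 : ∑ i ∈ range I, ((Ring.choose m i : ℤ) : ℂ) • A.Y (A.Y u i v) (m + n - i) w =
      ∑ i ∈ range K, ((Ring.choose m i : ℤ) : ℂ) • A.Y (A.Y u i v) (m + n - i) w := by
    apply Finset.sum_subset (Finset.range_subset_range.2 h2)
    intro i _ hi
    rw [Finset.mem_range, not_lt] at hi
    rw [hI i hi, map_zero, Pi.zero_apply, LinearMap.zero_apply, smul_zero]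
  rw [← h3] at h1
  simp only [rs_cc, rs_single, one_smul]
  rw [map_smul, map_smul, smul_comm c' c, ← smul_sub,
    ← smul_sub, h1, Finset.smul_sum, Finset.smul_sum]
  apply Finset.sum_congr rfl
  intro i _
  rw [crs_hasse_cc, LaurentSeries.hasseDeriv_single, mul_mul_mul_comm, ← map_mul,
    HahnSeries.single_mul_single, rs_cc, rs_single, smul_smul, smul_smul, smul_smul]
  have e : m + n - (i : ℤ) = m - i + n := by ring
  rw [e]
  congr 1
  simp

theorem comm_rs (f g : LaurentSeries ℂ) (u v w : V) (I : ℕ)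
    (hI : ∀ i : ℕ, I ≤ i → A.Y u i v = 0) :
    rs A f u (rs A g v w) - rs A g v (rs A f u w) =
      ∑ i ∈ range I, rs A (LaurentSeries.hasseDeriv ℂ i f * g) (A.Y u i v) w := by
  rw [← sub_eq_zero]
  choose N hN using fun i : ℕ => rs_van A (A.Y u i v) w
  obtain ⟨N1, hN1⟩ := rs_van A u (rs A g v w)
  obtain ⟨N2, hN2⟩ := rs_van A u w
  obtain ⟨N3, hN3⟩ := crs_bound (fun i => N i + i - g.order) I
  refine apx (fun f => rs A f u (rs A g v w) - rs A g v (rs A f u w) -
      ∑ i ∈ range I, rs A (LaurentSeries.hasseDeriv ℂ i f * g) (A.Y u i v) w)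
      (max N1 (max N2 N3)) ?_ ?_ ?_ f
  · intro a b
    simp only [rs_add_f, rs_add_v, map_add, add_mul, Finset.sum_add_distrib]
    abel
  · intro a ha
    rw [hN1 a (ha.mono (le_max_left _ _)),
      hN2 a (ha.mono ((le_max_left _ _).trans (le_max_right _ _))), Finset.sum_eq_zero, sub_zero,
      zero_sub, neg_eq_zero]
    · exact map_zero (rsv A g v)
    · intro i hi
      apply hN i
      have h1 : OG (N3 - i) (LaurentSeries.hasseDeriv ℂ i a) :=
        crs_OG_hasse i (ha.mono ((le_max_right _ _).trans (le_max_right _ _)))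
      have h2 := h1.mul (OG_order g)
      apply h2.mono
      have h3 : N i + i - g.order ≤ N3 := hN3 i (Finset.mem_range.1 hi)
      omega
  · intro c m
    set a : LaurentSeries ℂ := cc c * HahnSeries.single m 1 with ha
    obtain ⟨M1, hM1⟩ := rs_van A v w
    obtain ⟨M2, hM2⟩ := rs_van A v (rs A a u w)
    obtain ⟨M3, hM3⟩ := crs_bound (fun i => N i - (LaurentSeries.hasseDeriv ℂ i a).order) I
    refine apx (fun g => rs A a u (rs A g v w) - rs A g v (rs A a u w) -
      ∑ i ∈ range I, rs A (LaurentSeries.hasseDeriv ℂ i a * g) (A.Y u i v) w)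
      (max M1 (max M2 M3)) ?_ ?_ ?_ g
    · intro b b'
      simp only [rs_add_f, rs_add_v, mul_add, Finset.sum_add_distrib]
      abel
    · intro b hb
      rw [hM1 b (hb.mono (le_max_left _ _)),
        hM2 b (hb.mono ((le_max_left _ _).trans (le_max_right _ _))), Finset.sum_eq_zero, sub_zero,
        sub_zero]
      · exact map_zero (rsv A a u)
      · intro i hi
        apply hN i
        have h2 := (OG_order (LaurentSeries.hasseDeriv ℂ i a)).mul
          (hb.mono ((le_max_right _ _).trans (le_max_right _ _)))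
        apply h2.mono
        have h3 : N i - (LaurentSeries.hasseDeriv ℂ i a).order ≤ M3 :=
          hM3 i (Finset.mem_range.1 hi)
        omega
    · intro c' n
      rw [sub_eq_zero, ha]
      exact crs_mono A c c' m n u v w I hI

theorem rs_L1 (f : LaurentSeries ℂ) (u v : V) :
    rs A f (A.Y A.om 0 u) v = -rs A (dL f) u v := by
  unfold rs
  rw [← finsum_neg_distrib, ← finsum_comp_equiv (Equiv.addRight (1 : ℤ))]
  apply finsum_congr
  intro i
  rw [Equiv.coe_addRight, coeff_dL, A.translation]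
  simp only [LinearMap.smul_apply, smul_smul, add_sub_cancel_right]
  rw [← _root_.neg_smul]
  congr 1
  push_cast
  ring

end Pool.Agent.DERV
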