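import Pool.Agent.DERV.EKC

/-!
# Project DERV, part II: convergent power series
-/

set_option autoImplicit false

universe u

open Finset

namespace Pool.Agent.DERV

open Pool.Agent.VOAut
open UpperHalfPlane hiding I
open scoped Nat ArithmeticFunction.sigma Manifold

variable {V : Type u} [AddCommGroup V] [Module ℂ V]

theorem Cv_zero : Cv 0 := by
  intro r _ _
  have : (fun n : ℕ => ‖PowerSeries.coeff n (0 : PowerSeries ℂ)‖ * r ^ n) = fun _ => 0 := by
    funext n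
    rw [map_zero, norm_zero, zero_mul]
  rw [this]
  exact summable_zero

theorem CV1_fin (f : PowerSeries ℂ) (N : ℕ) (h : ∀ n, N ≤ n → PowerSeries.coeff n f = 0) : Cv f := by
  intro r _ _
  apply summable_of_ne_finset_zero (s := Finset.range N)
  intro n hn
  rw [Finset.mem_range, not_lt] at hn
  rw [h n hn, norm_zero, zero_mul]

theorem Cv_one : Cv 1 := by
  apply CV1_fin _ 1
  intro n hn
  rw [PowerSeries.coeff_one, if_neg (by omega)]

theorem Cv_X : Cv PowerSeries.X := by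
  apply CV1_fin _ 2
  intro n hn
  rw [PowerSeries.coeff_X, if_neg (by omega)]

theorem Cv.add {f g : PowerSeries ℂ} (hf : Cv f) (hg : Cv g) : Cv (f + g) := by
  intro r h0 h1
  refine Summable.of_nonneg_of_le (fun n => mul_nonneg (norm_nonneg _) (pow_nonneg h0 n)) ?_
    ((hf r h0 h1).add (hg r h0 h1))
  intro n
  rw [← add_mul, map_add]
  exact mul_le_mul_of_nonneg_right (norm_add_le _ _) (pow_nonneg h0 n)

theorem Cv.smul {f : PowerSeries ℂ} (c : ℂ) (hf : Cv f) : Cv (c • f) := by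
  intro r h0 h1
  refine ((hf r h0 h1).mul_left ‖c‖).congr ?_
  intro n
  rw [PowerSeries.coeff_smul, smul_eq_mul, norm_mul, mul_assoc]

theorem Cv.neg {f : PowerSeries ℂ} (hf : Cv f) : Cv (-f) := by
  have := hf.smul (-1)
  rwa [neg_one_smul] at this

theorem Cv.sub {f g : PowerSeries ℂ} (hf : Cv f) (hg : Cv g) : Cv (f - g) := by
  rw [sub_eq_add_neg]
  exact hf.add hg.neg

theorem Cv.mul {f g : PowerSeries ℂ} (hf : Cv f) (hg : Cv g) : Cv (f * g) := by
  intro r h0 h1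
  have hn : ∀ (k : PowerSeries ℂ) (n : ℕ),
      ‖PowerSeries.coeff n k * (r : ℂ) ^ n‖ = ‖PowerSeries.coeff n k‖ * r ^ n := by
    intro k n
    rw [norm_mul, norm_pow, Complex.norm_real, Real.norm_of_nonneg h0]
  have h2 : Summable fun n : ℕ => ‖PowerSeries.coeff n f * (r : ℂ) ^ n‖ :=
    (hf r h0 h1).congr fun n => (hn f n).symm
  have h3 : Summable fun n : ℕ => ‖PowerSeries.coeff n g * (r : ℂ) ^ n‖ :=
    (hg r h0 h1).congr fun n => (hn g n).symm
  refine (summable_norm_sum_mul_antidiagonal_of_summable_norm h2 h3).congr ?_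
  intro n
  rw [← hn (f * g) n, PowerSeries.coeff_mul, Finset.sum_mul]
  congr 1
  apply Finset.sum_congr rfl
  intro kl hkl
  rw [← Finset.HasAntidiagonal.mem_antidiagonal.1 hkl, pow_add]
  ring

theorem Cv.pow {f : PowerSeries ℂ} (hf : Cv f) (n : ℕ) : Cv (f ^ n) := by
  induction n with
  | zero => rw [pow_zero]; exact Cv_one
  | succ n ih => rw [pow_succ]; exact ih.mul hf

theorem Cv.sum {ι : Type*} (s : Finset ι) (f : ι → PowerSeries ℂ) (hf : ∀ i ∈ s, Cv (f i)) :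
    Cv (∑ i ∈ s, f i) := by
  classical
  induction s using Finset.induction_on with
  | empty => rw [Finset.sum_empty]; exact Cv_zero
  | insert a s ha ih =>
    rw [Finset.sum_insert ha]
    exact (hf a (Finset.mem_insert_self a s)).add
      (ih fun i hi => hf i (Finset.mem_insert_of_mem hi))

theorem Cv_of_bd (f : PowerSeries ℂ)
    (h : ∀ r : ℝ, 0 ≤ r → r < 1 → ∃ C : ℝ, ∀ n : ℕ, ‖PowerSeries.coeff n f‖ * r ^ n ≤ C) :
    Cv f := by
  intro r h0 h1
  obtain ⟨C, hC⟩ := h ((r + 1) / 2) (by linarith) (by linarith)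
  have hr' : 0 < (r + 1) / 2 := by linarith
  have hq0 : 0 ≤ r / ((r + 1) / 2) := div_nonneg h0 hr'.le
  have hq1 : r / ((r + 1) / 2) < 1 := by
    rw [div_lt_one hr']; linarith
  refine Summable.of_nonneg_of_le (fun n => mul_nonneg (norm_nonneg _) (pow_nonneg h0 n)) ?_
    ((summable_geometric_of_lt_one hq0 hq1).mul_left C)
  intro n
  have e : r ^ n = ((r + 1) / 2) ^ n * (r / ((r + 1) / 2)) ^ n := by
    rw [← mul_pow, mul_div_cancel₀ _ hr'.ne']
  calc ‖PowerSeries.coeff n f‖ * r ^ n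
      = (‖PowerSeries.coeff n f‖ * ((r + 1) / 2) ^ n) * (r / ((r + 1) / 2)) ^ n := by
        rw [mul_assoc, ← e]
    _ ≤ C * (r / ((r + 1) / 2)) ^ n := mul_le_mul_of_nonneg_right (hC n) (pow_nonneg hq0 n)

theorem CV1_bd {f : PowerSeries ℂ} (hf : Cv f) {r : ℝ} (h0 : 0 ≤ r) (h1 : r < 1) :
    ∃ C : ℝ, 0 ≤ C ∧ ∀ n : ℕ, ‖PowerSeries.coeff n f‖ * r ^ n ≤ C := by
  refine ⟨∑' n : ℕ, ‖PowerSeries.coeff n f‖ * r ^ n,
    tsum_nonneg fun n => mul_nonneg (norm_nonneg _) (pow_nonneg h0 n), fun n => ?_⟩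
  exact (hf r h0 h1).le_tsum n fun m _ => mul_nonneg (norm_nonneg _) (pow_nonneg h0 m)

theorem Cv_th {f : PowerSeries ℂ} (hf : Cv f) : Cv (th f) := by
  apply Cv_of_bd
  intro r h0 h1
  have hr' : 0 < (r + 1) / 2 := by linarith
  obtain ⟨C, hC0, hC⟩ := CV1_bd hf (r := (r + 1) / 2) hr'.le (by linarith)
  have hq0 : 0 ≤ r / ((r + 1) / 2) := div_nonneg h0 hr'.le
  have hq1 : r / ((r + 1) / 2) < 1 := by
    rw [div_lt_one hr']; linarith
  have hs : Summable fun n : ℕ => (n : ℝ) ^ 1 * (r / ((r + 1) / 2)) ^ n :=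
    summable_pow_mul_geometric_of_norm_lt_one 1 (by rwa [Real.norm_of_nonneg hq0])
  refine ⟨C * ∑' n : ℕ, (n : ℝ) ^ 1 * (r / ((r + 1) / 2)) ^ n, fun n => ?_⟩
  have h2 : (n : ℝ) ^ 1 * (r / ((r + 1) / 2)) ^ n ≤ ∑' n : ℕ, (n : ℝ) ^ 1 * (r / ((r + 1) / 2)) ^ n :=
    hs.le_tsum n fun m _ => mul_nonneg (pow_nonneg (Nat.cast_nonneg m) 1) (pow_nonneg hq0 m)
  have e : r ^ n = ((r + 1) / 2) ^ n * (r / ((r + 1) / 2)) ^ n := by
    rw [← mul_pow, mul_div_cancel₀ _ hr'.ne']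
  rw [coeff_th, norm_mul, Complex.norm_natCast]
  calc (n : ℝ) * ‖PowerSeries.coeff n f‖ * r ^ n
      = (‖PowerSeries.coeff n f‖ * ((r + 1) / 2) ^ n) * ((n : ℝ) ^ 1 * (r / ((r + 1) / 2)) ^ n) := by
        rw [e]; ring
    _ ≤ C * ∑' n : ℕ, (n : ℝ) ^ 1 * (r / ((r + 1) / 2)) ^ n :=
        mul_le_mul (hC n) h2
          (mul_nonneg (pow_nonneg (Nat.cast_nonneg n) 1) (pow_nonneg hq0 n)) hC0

theorem Cv_aeval (e : ℕ → PowerSeries ℂ) (he : ∀ j, Cv (e j)) (p : MvPolynomial ℕ ℂ) :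
    Cv (MvPolynomial.aeval e p) := by
  induction p using MvPolynomial.induction_on with
  | C a =>
    rw [MvPolynomial.aeval_C, Algebra.algebraMap_eq_smul_one]
    exact Cv_one.smul a
  | add p q hp hq => rw [map_add]; exact hp.add hq
  | mul_X p n hp => rw [map_mul, MvPolynomial.aeval_X]; exact hp.mul (he n)

end Pool.Agent.DERV
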