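import Pool.Agent.DERV.CV1

/-!
# Project DERV, part II: evaluation of convergent power series: algebra
-/

set_option autoImplicit false

universe u

open Finset

namespace Pool.Agent.DERV

open Pool.Agent.VOAut
open UpperHalfPlane hiding I
open scoped Nat ArithmeticFunction.sigma Manifold

variable {V : Type u} [AddCommGroup V] [Module ℂ V]

theorem CV2_lt (τ : ℍ) : ‖Complex.exp (2 * Real.pi * Complex.I * τ)‖ < 1 :=
  UpperHalfPlane.norm_exp_two_pi_I_lt_one τ

theorem CV2_nsum {f : PowerSeries ℂ} (hf : Cv f) (τ : ℍ) :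
    Summable fun n : ℕ => ‖PowerSeries.coeff n f * Complex.exp (2 * Real.pi * Complex.I * τ) ^ n‖ := by
  refine (hf _ (norm_nonneg _) (CV2_lt τ)).congr ?_
  intro n
  rw [norm_mul, norm_pow]

theorem CV2_sum {f : PowerSeries ℂ} (hf : Cv f) (τ : ℍ) :
    Summable fun n : ℕ => PowerSeries.coeff n f * Complex.exp (2 * Real.pi * Complex.I * τ) ^ n :=
  (CV2_nsum hf τ).of_norm

theorem evH_zero : evH 0 = 0 := by
  funext τ
  unfold evH
  have : (fun n : ℕ => PowerSeries.coeff n (0 : PowerSeries ℂ) *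
      Complex.exp (2 * Real.pi * Complex.I * τ) ^ n) = fun _ => 0 := by
    funext n
    rw [map_zero, zero_mul]
  rw [this, tsum_zero]
  rfl

theorem evH_one : evH 1 = 1 := by
  funext τ
  unfold evH
  rw [tsum_eq_single 0]
  · rw [PowerSeries.coeff_one, if_pos rfl, pow_zero, one_mul]
    rfl
  · intro n hn
    rw [PowerSeries.coeff_one, if_neg hn, zero_mul]

theorem evH_X (τ : ℍ) : evH PowerSeries.X τ = Complex.exp (2 * Real.pi * Complex.I * τ) := by
  unfold evH
  rw [tsum_eq_single 1]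
  · rw [PowerSeries.coeff_X, if_pos rfl, pow_one, one_mul]
  · intro n hn
    rw [PowerSeries.coeff_X, if_neg hn, zero_mul]

theorem evH_add {f g : PowerSeries ℂ} (hf : Cv f) (hg : Cv g) : evH (f + g) = evH f + evH g := by
  funext τ
  show evH (f + g) τ = evH f τ + evH g τ
  unfold evH
  rw [← (CV2_sum hf τ).tsum_add (CV2_sum hg τ)]
  congr 1
  funext n
  rw [map_add, add_mul]

theorem evH_smul (c : ℂ) (f : PowerSeries ℂ) : evH (c • f) = c • evH f := by
  funext τ
  show evH (c • f) τ = c * evH f τ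
  unfold evH
  rw [← tsum_mul_left]
  congr 1
  funext n
  rw [PowerSeries.coeff_smul, smul_eq_mul, mul_assoc]

theorem evH_mul {f g : PowerSeries ℂ} (hf : Cv f) (hg : Cv g) : evH (f * g) = evH f * evH g := by
  funext τ
  show evH (f * g) τ = evH f τ * evH g τ
  unfold evH
  rw [tsum_mul_tsum_eq_tsum_sum_antidiagonal_of_summable_norm (CV2_nsum hf τ) (CV2_nsum hg τ)]
  congr 1
  funext n
  rw [PowerSeries.coeff_mul, Finset.sum_mul]
  apply Finset.sum_congr rfl
  intro kl hkl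
  rw [← Finset.HasAntidiagonal.mem_antidiagonal.1 hkl, pow_add]
  ring

theorem evH_aeval (e : ℕ → PowerSeries ℂ) (he : ∀ j, Cv (e j)) (p : MvPolynomial ℕ ℂ) :
    evH (MvPolynomial.aeval e p) = MvPolynomial.aeval (fun j => evH (e j)) p := by
  induction p using MvPolynomial.induction_on with
  | C a =>
    rw [MvPolynomial.aeval_C, MvPolynomial.aeval_C, Algebra.algebraMap_eq_smul_one, evH_smul,
      evH_one, Algebra.algebraMap_eq_smul_one]
  | add p q hp hq =>
    rw [map_add, map_add, evH_add (Cv_aeval e he p) (Cv_aeval e he q), hp, hq]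
  | mul_X p n hp =>
    rw [map_mul, map_mul, MvPolynomial.aeval_X, MvPolynomial.aeval_X,
      evH_mul (Cv_aeval e he p) (he n), hp]

theorem evH_T (f : PowerSeries ℂ) (τ : ℍ) : evH f ((1 : ℝ) +ᵥ τ) = evH f τ := by
  unfold evH
  have : Complex.exp (2 * Real.pi * Complex.I * (((1 : ℝ) +ᵥ τ : ℍ) : ℂ)) =
      Complex.exp (2 * Real.pi * Complex.I * (τ : ℂ)) := by
    rw [UpperHalfPlane.coe_vadd, mul_add, Complex.exp_add, Complex.ofReal_one, mul_one,
      Complex.exp_two_pi_mul_I, one_mul]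
  rw [this]

theorem evH_bdd {f : PowerSeries ℂ} (hf : Cv f) : ∃ C : ℝ, ∀ τ : ℍ, 1 ≤ τ.im → ‖evH f τ‖ ≤ C := by
  have hr0 : 0 ≤ Real.exp (-(2 * Real.pi)) := (Real.exp_pos _).le
  have hr1 : Real.exp (-(2 * Real.pi)) < 1 := by
    rw [Real.exp_lt_one_iff]
    linarith [Real.pi_pos]
  refine ⟨∑' n : ℕ, ‖PowerSeries.coeff n f‖ * Real.exp (-(2 * Real.pi)) ^ n, fun τ hτ => ?_⟩
  have hq : ‖Complex.exp (2 * Real.pi * Complex.I * τ)‖ ≤ Real.exp (-(2 * Real.pi)) := by
    rw [Complex.norm_exp]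
    apply Real.exp_le_exp.2
    have : (2 * (Real.pi : ℂ) * Complex.I * (τ : ℂ)).re = -(2 * Real.pi * τ.im) := by
      have h1 : (2 * (Real.pi : ℂ) * Complex.I * (τ : ℂ)) =
          ((2 * Real.pi : ℝ) : ℂ) * (Complex.I * (τ : ℂ)) := by push_cast; ring
      rw [h1, Complex.re_ofReal_mul, Complex.I_mul_re, UpperHalfPlane.coe_im]
      ring
    rw [this]
    nlinarith [Real.pi_pos]
  unfold evH
  refine (norm_tsum_le_tsum_norm (CV2_nsum hf τ)).trans ?_
  refine (CV2_nsum hf τ).tsum_le_tsum (fun n => ?_) (hf _ hr0 hr1)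
  rw [norm_mul, norm_pow]
  exact mul_le_mul_of_nonneg_left (pow_le_pow_left₀ (norm_nonneg _) hq n) (norm_nonneg _)

end Pool.Agent.DERV
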