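import Pool.Agent.DERV.CV2
import Pool.Agent.DERV.CV3
import Pool.Agent.DERV.CV5

/-!
# Project DERV, part II: the functions q^lam f(q)
-/

set_option autoImplicit false

universe u

open Finset

namespace Pool.Agent.DERV

open Pool.Agent.VOAut
open UpperHalfPlane hiding I
open scoped Nat ArithmeticFunction.sigma Manifold

variable {V : Type u} [AddCommGroup V] [Module ℂ V]

theorem EX_eq (lam : ℂ) (f : PowerSeries ℂ) : EX lam f = exl lam * evH f := rfl

theorem EX_add (lam : ℂ) {f g : PowerSeries ℂ} (hf : Cv f) (hg : Cv g) :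
    EX lam (f + g) = EX lam f + EX lam g := by
  rw [EX_eq, EX_eq, EX_eq, evH_add hf hg, mul_add]

theorem EX_sub (lam : ℂ) {f g : PowerSeries ℂ} (hf : Cv f) (hg : Cv g) :
    EX lam (f - g) = EX lam f - EX lam g := by
  rw [sub_eq_add_neg, EX_add lam hf hg.neg]
  have h1 : -g = (-1 : ℂ) • g := by rw [neg_one_smul]
  rw [h1, EX_eq lam ((-1 : ℂ) • g), evH_smul, mul_smul_comm, ← EX_eq, neg_one_smul,
    ← sub_eq_add_neg]

theorem EX_smul (lam c : ℂ) (f : PowerSeries ℂ) : EX lam (c • f) = c • EX lam f := by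
  rw [EX_eq, evH_smul, mul_smul_comm, ← EX_eq]

theorem EX_zero (lam : ℂ) : EX lam 0 = 0 := by
  rw [EX_eq, evH_zero, mul_zero]

theorem EX_mul (lam : ℂ) {f g : PowerSeries ℂ} (hf : Cv f) (hg : Cv g) :
    evH g * EX lam f = EX lam (g * f) := by
  rw [EX_eq, EX_eq, evH_mul hg hf, mul_left_comm]

theorem EX_hol (lam : ℂ) {f : PowerSeries ℂ} (hf : Cv f) : Hol (EX lam f) := by
  rw [EX_eq]
  exact Hol_mul (Hol_exl lam) (evH_hol hf)

theorem DH_EX (lam : ℂ) {f : PowerSeries ℂ} (hf : Cv f) :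
    DH (EX lam f) = EX lam (th f + lam • f) := by
  rw [EX_eq, DH_mul (Hol_exl lam) (evH_hol hf), DH_exl, DH_evH hf,
    EX_add lam (Cv_th hf) (hf.smul lam), EX_smul, EX_eq, EX_eq, smul_mul_assoc, add_comm]

theorem EX_T (lam : ℂ) (f : PowerSeries ℂ) (τ : ℍ) :
    EX lam f ((1 : ℝ) +ᵥ τ) = Complex.exp (2 * Real.pi * Complex.I * lam) * EX lam f τ := by
  unfold EX
  rw [exl_T, evH_T, mul_assoc]

theorem cv4_X (n : ℕ) : evH (PowerSeries.X ^ n) = exl n := by
  induction n with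
  | zero => rw [pow_zero, evH_one, Nat.cast_zero, exl_zero]
  | succ n ih =>
    rw [pow_succ, evH_mul (Cv_X.pow n) Cv_X, ih, Nat.cast_succ, exl_add]
    congr 1
    ext τ
    rw [evH_X]
    unfold exl
    rw [mul_one]

theorem EX_X (lam : ℂ) (n : ℕ) {f : PowerSeries ℂ} (hf : Cv f) :
    EX lam (PowerSeries.X ^ n * f) = EX (lam + n) f := by
  rw [EX_eq, EX_eq, evH_mul (Cv_X.pow n) hf, cv4_X, exl_add, mul_assoc]

theorem EX_inj (lam : ℂ) {f g : PowerSeries ℂ} (hf : Cv f) (hg : Cv g)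
    (h : EX lam f = EX lam g) : f = g := by
  apply evH_inj hf hg
  ext τ
  have h1 := congrFun h τ
  exact mul_left_cancel₀ (Complex.exp_ne_zero _) h1

/-- `EX` applied to a linear family of convergent series. -/
noncomputable def EXL (lam : ℂ) (F : V →ₗ[ℂ] PowerSeries ℂ) (hF : ∀ v, Cv (F v)) :
    V →ₗ[ℂ] (ℍ → ℂ) where
  toFun v := EX lam (F v)
  map_add' u v := by rw [map_add, EX_add lam (hF u) (hF v)]
  map_smul' c v := by rw [map_smul, EX_smul]; rfl

theorem EXL_apply (lam : ℂ) (F : V →ₗ[ℂ] PowerSeries ℂ) (hF : ∀ v, Cv (F v)) (v : V) :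
    EXL lam F hF v = EX lam (F v) := rfl

end Pool.Agent.DERV
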