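import Pool.Agent.DERV.BRV

/-!
# Project DERV, part II: derivations
-/

set_option autoImplicit false

universe u

open Finset

namespace Pool.Agent.DERV

open Pool.Agent.VOAut
open UpperHalfPlane hiding I
open scoped Nat ArithmeticFunction.sigma Manifold

variable {V : Type u} [AddCommGroup V] [Module ℂ V]

variable {A : VOA V} {D : Module.End ℂ V}

theorem D_vac (hD : IsDer A D) : D A.vac = 0 := by
  have h := hD.leib A.vac (-1) A.vac
  rw [A.vacuum, A.vacuum, if_pos rfl, if_pos rfl, A.creation_neg_one] at h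
  exact left_eq_add.1 h

theorem D_gr (hD : IsDer A D) (n : ℤ) (v : V) (hv : v ∈ A.gr n) : D v ∈ A.gr n := by
  rw [A.mem_gr] at hv ⊢
  have h := hD.leib A.om 1 v
  rw [hv, hD.om, map_zero, Pi.zero_apply, LinearMap.zero_apply, zero_add, map_smul] at h
  exact h.symm

theorem D_pr (hD : IsDer A D) (n : ℤ) (v : V) : D (pr A n v) = pr A n (D v) := by
  refine hom_ind A (P := fun v => D (pr A n v) = pr A n (D v)) v ?_ ?_ ?_
  · simp only [map_zero]
  · intro x y hx hy
    rw [map_add, map_add, map_add, map_add, hx, hy]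
  · intro m x hx
    rw [hcomp_of_mem A.internal n m x hx, hcomp_of_mem A.internal n m _ (D_gr hD m x hx)]
    split_ifs
    · rfl
    · rw [map_zero]

/-- Derivations and the sums `rs`. -/
theorem D_rs (hD : IsDer A D) (f : LaurentSeries ℂ) (u v : V) :
    D (rs A f u v) = rs A f (D u) v + rs A f u (D v) := by
  unfold rs
  rw [← LinearMap.toAddMonoidHom_coe, AddMonoidHom.map_finsum _ (rs_fin A f u v),
    ← finsum_add_distrib (rs_fin A f _ _) (rs_fin A f _ _)]
  apply finsum_congr
  intro i
  rw [LinearMap.toAddMonoidHom_coe, map_smul, hD.leib, smul_add]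

theorem D_WW (hD : IsDer A D) (f : LaurentSeries ℂ) (u v : V) :
    D (WW A f u v) = WW A f (D u) v + WW A f u (D v) := by
  unfold WW
  rw [← LinearMap.toAddMonoidHom_coe, AddMonoidHom.map_finsum _ (WW_fin A f u v),
    ← finsum_add_distrib (WW_fin A f _ _) (WW_fin A f _ _)]
  apply finsum_congr
  intro i
  rw [LinearMap.toAddMonoidHom_coe, D_rs hD, D_pr hD]

theorem D_br (hD : IsDer A D) (n : ℤ) (u v : V) :
    D (br A n u v) = br A n (D u) v + br A n u (D v) :=
  D_WW hD _ u v

theorem D_omt (hD : IsDer A D) : D (omt A) = 0 := by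
  unfold omt
  rw [map_sub, map_smul, D_vac hD, hD.om, smul_zero, sub_zero]

theorem D_brg (hD : IsDer A D) (n : ℤ) (v : V) (hv : v ∈ brg A n) : D v ∈ brg A n := by
  unfold brg at hv ⊢
  rw [Module.End.mem_eigenspace_iff] at hv ⊢
  rw [L0b_apply] at hv ⊢
  have h := D_br hD 1 (omt A) v
  rw [hv, D_omt hD, map_smul] at h
  have h0 : br A 1 0 v = 0 := WW_zero_u A _ v
  rw [h0, zero_add] at h
  exact h.symm

theorem zm_D (hD : IsDer A D) (t : TMod A D) (v : V) :
    zm t.X (D v) = t.DM * zm t.X v - zm t.X v * t.DM := by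
  refine hom_ind A (P := fun v => zm t.X (D v) = t.DM * zm t.X v - zm t.X v * t.DM) v ?_ ?_ ?_
  · rw [map_zero, ← zmL_apply, map_zero, mul_zero, zero_mul, sub_zero]
  · intro x y hx hy
    rw [← zmL_apply] at hx hy ⊢
    rw [← zmL_apply] at hx hy ⊢
    rw [map_add, map_add, map_add, hx, hy, mul_add, add_mul]
    abel
  · intro a x hx
    rw [zm_of_mem t.X a x hx, zm_of_mem t.X a _ (D_gr hD a x hx)]
    ext y
    rw [LinearMap.sub_apply, Module.End.mul_apply, Module.End.mul_apply, t.DM_der]
    abel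

end Pool.Agent.DERV
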