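import Pool.Agent.VOAut.Basic
import Pool.Agent.VOAut.Split

/-!
# Project DERV: shared definitions

Derivations of rational, `C_2`-cofinite vertex operator algebras with `V_0 = ℂ 1`, `V_1 = 0`.
-/

set_option autoImplicit false

universe u

open Finset

namespace Pool.Agent.DERV

open Pool.Agent.VOAut

variable {V : Type u} [AddCommGroup V] [Module ℂ V]

/-- `C_2`-cofiniteness. -/
def C2 (A : VOA V) : Prop :=
  FiniteDimensional ℂ (V ⧸ Submodule.span ℂ {x : V | ∃ u v : V, x = A.Y u (-2) v})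

/-- `V_n = 0` for `n < 0` and `V_0 = ℂ 1 ≠ 0`. -/
structure CFT (A : VOA V) : Prop where
  neg : ∀ n : ℤ, n < 0 → A.gr n = ⊥
  zero : A.gr 0 = Submodule.span ℂ {A.vac}
  nt : A.vac ≠ 0

/-- Derivations that fix the conformal vector. -/
structure IsDer (A : VOA V) (D : Module.End ℂ V) : Prop where
  leib : ∀ (u : V) (n : ℤ) (w : V), D (A.Y u n w) = A.Y (D u) n w + A.Y u n (D w)
  om : D A.om = 0

/-- Projection to `V_n`. -/
noncomputable abbrev pr (A : VOA V) (n : ℤ) : V →ₗ[ℂ] V := hcomp A.internal n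

open Classical in
/-- The coefficient of the vacuum in the weight zero component. -/
noncomputable def al0 (A : VOA V) : Module.Dual ℂ V :=
  if h : ∃ f : Module.Dual ℂ V, ∀ v, pr A 0 v = f v • A.vac then h.choose else 0

/-- The Laurent series `x`. -/
noncomputable def xL : LaurentSeries ℂ := HahnSeries.single 1 1

/-- The Laurent series `log (1 + x)`. -/
noncomputable def Lg : LaurentSeries ℂ := ((PowerSeries.log ℂ : PowerSeries ℂ) : LaurentSeries ℂ)

/-- Derivative of Laurent series. -/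
noncomputable def dL (f : LaurentSeries ℂ) : LaurentSeries ℂ := LaurentSeries.derivative ℂ f

/-- `R(f; u, v) = Res_x f(x) Y(u, x) v = ∑ f_i u_i v`. -/
noncomputable def rs (A : VOA V) (f : LaurentSeries ℂ) (u v : V) : V :=
  ∑ᶠ i : ℤ, f.coeff i • A.Y u i v

/-- `W(φ)(u, v) = ∑_a R((1 + x) ^ (a - 1) φ; pr_a u, v)`. -/
noncomputable def WW (A : VOA V) (φ : LaurentSeries ℂ) (u v : V) : V :=
  ∑ᶠ a : ℤ, rs A ((1 + xL) ^ (a - 1) * φ) (pr A a u) v

/-- The bracket modes `u[n] v`. -/
noncomputable def br (A : VOA V) (n : ℤ) (u v : V) : V := WW A (Lg ^ n) u v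

/-- `(1 + x) / x`, so that `WW A phs u v = u * v`. -/
noncomputable def phs : LaurentSeries ℂ := (1 + xL) * xL⁻¹

/-- `(1 + x) / x ^ 2`, so that `WW A pho u v = u ∘ v`. -/
noncomputable def pho : LaurentSeries ℂ := (1 + xL) * xL⁻¹ * xL⁻¹

/-- Trace functionals: `α (u ∘ v) = 0` and `α (u[0] v) = 0`. -/
def IsTF (A : VOA V) (α : Module.Dual ℂ V) : Prop :=
  (∀ u v, α (WW A pho u v) = 0) ∧ (∀ u v, α (WW A 1 u v) = 0)

section modules

variable {A : VOA V} {M : Type u} [AddCommGroup M] [Module ℂ M] (X : AdmissibleModule A M)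

/-- The zero mode `o(v)` on an admissible module. -/
noncomputable def zm (v : V) : Module.End ℂ M := ∑ᶠ a : ℤ, X.Y (pr A a v) (a - 1)

/-- The trace of the degree zero part of an endomorphism on the piece of degree `n`. -/
noncomputable def trg (n : ℤ) (f : Module.End ℂ M) : ℂ :=
  LinearMap.trace ℂ (X.gr n)
    (((hcomp X.internal n) ∘ₗ f ∘ₗ (X.gr n).subtype).codRestrict (X.gr n)
      (fun _ => hcomp_mem X.internal n _))

end modules

/-- The data needed for the trace functions of one module. -/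
structure TMod (A : VOA V) (D : Module.End ℂ V) where
  /-- the space -/
  M : Type u
  /-- additive group -/
  [grp : AddCommGroup M]
  /-- module structure -/
  [mod : Module ℂ M]
  /-- the admissible module -/
  X : AdmissibleModule A M
  fd : ∀ n, FiniteDimensional ℂ (X.gr n)
  /-- the lowest conformal weight -/
  h : ℂ
  L0 : ∀ (n : ℤ) (x : M), x ∈ X.gr n → X.Y A.om 1 x = (h + n) • x
  /-- the implementer of `D` -/
  DM : Module.End ℂ M
  DM_gr : ∀ (n : ℤ) (x : M), x ∈ X.gr n → DM x ∈ X.gr n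
  DM_der : ∀ (u : V) (n : ℤ) (x : M), DM (X.Y u n x) = X.Y (D u) n x + X.Y u n (DM x)

attribute [instance] TMod.grp TMod.mod

/-- The graded trace of `o(v)`. -/
noncomputable def Zs {A : VOA V} {D : Module.End ℂ V} (t : TMod A D) (v : V) : PowerSeries ℂ :=
  PowerSeries.mk fun n => trg t.X n (zm t.X v)

/-- The graded trace of `o(v) D`. -/
noncomputable def Ts {A : VOA V} {D : Module.End ℂ V} (t : TMod A D) (v : V) : PowerSeries ℂ :=
  PowerSeries.mk fun n => trg t.X n (zm t.X v * t.DM)

/-- A complete set of modules: `t 0` is the vacuum module, the traces on the lowest pieces form a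
basis of the space of trace functionals. -/
structure Pack (A : VOA V) (D : Module.End ℂ V) where
  /-- number of modules minus one -/
  n : ℕ
  /-- the modules -/
  t : Fin (n + 1) → TMod A D
  h0 : (t 0).h = 0
  tr0 : ∀ v, trg (t 0).X 0 (zm (t 0).X v) = al0 A v
  span : ∀ α, IsTF A α → ∃ c : Fin (n + 1) → ℂ, ∀ v, α v = ∑ j, c j * trg (t j).X 0 (zm (t j).X v)
  indep : ∀ c : Fin (n + 1) → ℂ, (∀ v, ∑ j, c j * trg (t j).X 0 (zm (t j).X v) = 0) → c = 0

/-- `1 / (2 π i)`. -/
noncomputable def kap : ℂ := (2 * Real.pi * Complex.I)⁻¹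

/-- Output of the analytic part. -/
structure IsAlpha (A : VOA V) (D : Module.End ℂ V) (α : Module.Dual ℂ V) : Prop where
  P1 : ∀ u v, α (WW A pho u v) = kap * al0 A (WW A (pho * Lg) (D u) v)
  P2 : ∀ u v, α (WW A 1 u v) = kap * al0 A (WW A Lg (D u) v)

end Pool.Agent.DERV
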