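import Pool.Agent.DERV.BAS

/-!
# Project DERV, part II: shared definitions
-/

set_option autoImplicit false

universe u

open Finset

namespace Pool.Agent.DERV

open Pool.Agent.VOAut
open UpperHalfPlane hiding I
open scoped Nat ArithmeticFunction.sigma Manifold

variable {V : Type u} [AddCommGroup V] [Module ℂ V]

/-- The conformal vector of the bracket structure. -/
noncomputable def omt (A : VOA V) : V := A.om - (A.c / 24) • A.vac

/-- `v ↦ ω̃[1] v`. -/
noncomputable def L0b (A : VOA V) : Module.End ℂ V := WWL A (Lg ^ (1 : ℤ)) (omt A)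

/-- The homogeneous pieces of the bracket grading. -/
noncomputable def brg (A : VOA V) (n : ℤ) : Submodule ℂ V := Module.End.eigenspace (L0b A) (n : ℂ)

section rel

variable (A : VOA V) {B : Type} [CommRing B] [Algebra ℂ B]

/-- `∑ c_j e_j S (u[2 j + s] v)`. -/
noncomputable def SS (c : ℕ → ℂ) (s : ℤ) (e : ℕ → B) (S : V →ₗ[ℂ] B) (u v : V) : B :=
  ∑ᶠ j : ℕ, c j • (e j * S (br A (2 * j + s) u v))

/-- The left side of the second relation. -/
noncomputable def df2 (e : ℕ → B) (S : V →ₗ[ℂ] B) (u v : V) : B :=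
  S (br A (-2) u v) + SS A (fun j => 2 * j + 1) 0 e S u v

/-- The left side of the third relation. -/
noncomputable def df3 (e : ℕ → B) (S : V →ₗ[ℂ] B) (v : V) : B :=
  S (br A (-1) (omt A) v) - SS A (fun _ => 1) 1 e S (omt A) v

end rel

/-! ## Formal side -/

/-- `q d / d q`. -/
noncomputable def th : PowerSeries ℂ →ₗ[ℂ] PowerSeries ℂ where
  toFun f := PowerSeries.mk fun n => (n : ℂ) * PowerSeries.coeff n f
  map_add' f g := by ext n; simp [mul_add]
  map_smul' c f := by ext n; simp [mul_left_comm]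

/-- The Eisenstein series of weight `2 j + 2` as a power series in `q`. -/
noncomputable def Ek (j : ℕ) : PowerSeries ℂ :=
  PowerSeries.mk fun m =>
    if m = 0 then -((bernoulli (2 * j + 2) : ℚ) : ℂ) / ((2 * j + 2)! : ℕ)
    else 2 / ((2 * j + 1)! : ℕ) * ((σ (2 * j + 1) m : ℕ) : ℂ)

/-- The relations for the graded traces. -/
structure IsF (A : VOA V) (lam : ℂ) (Z : V →ₗ[ℂ] PowerSeries ℂ) : Prop where
  c1 : ∀ u v, Z (br A 0 u v) = 0
  c2 : ∀ u v, df2 A Ek Z u v = 0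
  c3 : ∀ v, df3 A Ek Z v = th (Z v) + lam • Z v

/-- The relations for the graded traces with `D` inserted. -/
structure IsG (A : VOA V) (D : Module.End ℂ V) (lam : ℂ) (Z T : V →ₗ[ℂ] PowerSeries ℂ) : Prop where
  t1 : ∀ u v, T (br A 0 u v) = Z (br A (-1) (D u) v) - SS A (fun _ => 1) 1 Ek Z (D u) v
  t3 : ∀ u v, df2 A Ek T u v = SS A (fun _ => 1) 1 (fun j => th (Ek j)) Z (D u) v
  t4 : ∀ v, df3 A Ek T v = th (T v) + lam • T v

/-- `h - c / 24`. -/
noncomputable def lamt {A : VOA V} {D : Module.End ℂ V} (t : TMod A D) : ℂ := t.h - A.c / 24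

/-! ## Analytic side -/

/-- Convergence on the open unit disc. -/
def Cv (f : PowerSeries ℂ) : Prop :=
  ∀ r : ℝ, 0 ≤ r → r < 1 → Summable fun n : ℕ => ‖PowerSeries.coeff n f‖ * r ^ n

/-- Evaluation at `q = exp (2 π i τ)`. -/
noncomputable def evH (f : PowerSeries ℂ) (τ : ℍ) : ℂ :=
  ∑' n : ℕ, PowerSeries.coeff n f * Complex.exp (2 * Real.pi * Complex.I * τ) ^ n

/-- `exp (2 π i lam τ)`. -/
noncomputable def exl (lam : ℂ) (τ : ℍ) : ℂ := Complex.exp (2 * Real.pi * Complex.I * lam * τ)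

/-- `q ^ lam f (q)`. -/
noncomputable def EX (lam : ℂ) (f : PowerSeries ℂ) : ℍ → ℂ := fun τ => exl lam τ * evH f τ

/-- The Eisenstein series as functions. -/
noncomputable def EH (j : ℕ) : ℍ → ℂ := evH (Ek j)

/-- The function `τ`. -/
noncomputable def tau : ℍ → ℂ := fun τ => (τ : ℂ)

/-- `(2 π i)⁻¹ d / d τ`. -/
noncomputable def DH (F : ℍ → ℂ) : ℍ → ℂ := Derivative.normalizedDerivOfComplex F

/-- Holomorphic functions on the upper half plane. -/
def Hol (F : ℍ → ℂ) : Prop := MDiff F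

/-- The space of solutions of the homogeneous relations. -/
structure InCC (A : VOA V) (S : V →ₗ[ℂ] (ℍ → ℂ)) : Prop where
  md : ∀ v, Hol (S v)
  c1 : ∀ u v, S (br A 0 u v) = 0
  c2 : ∀ u v, df2 A EH S u v = 0
  c3 : ∀ v, df3 A EH S v = DH (S v)

/-- The relations for the trace functions with `D` inserted. -/
structure TA (A : VOA V) (D : Module.End ℂ V) (Z T : V →ₗ[ℂ] (ℍ → ℂ)) : Prop where
  mdz : ∀ v, Hol (Z v)
  md : ∀ v, Hol (T v)
  t1 : ∀ u v, T (br A 0 u v) = Z (br A (-1) (D u) v) - SS A (fun _ => 1) 1 EH Z (D u) v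
  t3 : ∀ u v, df2 A EH T u v = SS A (fun _ => 1) 1 (fun j => DH (EH j)) Z (D u) v
  t4 : ∀ v, df3 A EH T v = DH (T v)

/-- The relations for `W`. -/
structure DA (A : VOA V) (D : Module.End ℂ V) (Z T W : V →ₗ[ℂ] (ℍ → ℂ)) : Prop where
  md : ∀ v, Hol (W v)
  d1 : ∀ u v, W (br A 0 u v) = kap • Z (br A 1 (D u) v)
  d2 : ∀ u v, df2 A EH W u v =
    kap • (Z (br A (-1) (D u) v) + SS A (fun j => 2 * j + 1) 1 EH Z (D u) v)
  d3 : ∀ v, df3 A EH W v = DH (W v) + kap • T v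

/-- Translation `τ ↦ τ + 1` on functions. -/
noncomputable def Tf : (ℍ → ℂ) →ₗ[ℂ] (ℍ → ℂ) := LinearMap.funLeft ℂ ℂ fun τ : ℍ => (1 : ℝ) +ᵥ τ

/-- Translation `τ ↦ τ + 1`. -/
noncomputable def Tl : (V →ₗ[ℂ] (ℍ → ℂ)) →ₗ[ℂ] (V →ₗ[ℂ] (ℍ → ℂ)) :=
  LinearMap.llcomp ℂ V (ℍ → ℂ) (ℍ → ℂ) Tf

/-- `τ ^ (- n) F (- 1 / τ)`. -/
noncomputable def Sop (n : ℤ) : (ℍ → ℂ) →ₗ[ℂ] (ℍ → ℂ) where
  toFun F τ := (τ : ℂ) ^ (-n) * F (ModularGroup.S • τ)
  map_add' F G := by ext τ; simp [mul_add]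
  map_smul' c F := by ext τ; simp [mul_left_comm]

end Pool.Agent.DERV
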