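import Pool.Agent.DERV.EIS1

/-!
# Project DERV, part II: Eisenstein series: inversion
-/

set_option autoImplicit false

universe u

open Finset

namespace Pool.Agent.DERV

open Pool.Agent.VOAut
open UpperHalfPlane hiding I
open scoped Nat ArithmeticFunction.sigma Manifold

variable {V : Type u} [AddCommGroup V] [Module ℂ V]

theorem eis2_two_pi_I_ne : (2 * Real.pi * Complex.I : ℂ) ≠ 0 := by
  simp [Real.pi_ne_zero]

/-- `2 ζ (2 m) = - (2 π i) ^ (2 m) B_(2 m) / (2 m)!`. -/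
theorem eis2_zeta (j : ℕ) : 2 * riemannZeta ((2 * j + 2 : ℕ) : ℂ) =
    (2 * Real.pi * Complex.I) ^ (2 * j + 2) * (-bk j) := by
  have h := riemannZeta_two_mul_nat (k := j + 1) (Nat.succ_ne_zero j)
  have e1 : ((2 * j + 2 : ℕ) : ℂ) = 2 * ((j + 1 : ℕ) : ℂ) := by push_cast; ring
  have e2 : 2 * (j + 1) = 2 * j + 2 := by ring
  have e3 : 2 * (j + 1) - 1 = 2 * j + 1 := by omega
  rw [e1, h, e3]
  unfold bk
  rw [e2]
  have h4 : (2 * Real.pi * Complex.I : ℂ) ^ (2 * j + 2) =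
      (-1) ^ (j + 1) * (2 : ℂ) ^ (2 * j + 2) * (Real.pi : ℂ) ^ (2 * j + 2) := by
    have : (2 * j + 2) = 2 * (j + 1) := by ring
    rw [mul_pow, mul_pow, this, pow_mul Complex.I, Complex.I_sq]
    ring
  rw [h4]
  ring

/-- The Eisenstein series of weight at least `4` as a lattice sum. -/
theorem eis2_tsum (j : ℕ) (hj : 1 ≤ j) (τ : ℍ) :
    ∑' v, EisensteinSeries.eisSummand ((2 * j + 2 : ℕ) : ℤ) v τ =
      (2 * Real.pi * Complex.I) ^ (2 * j + 2) * EH j τ := by
  have h := tsum_eisSummand_eq_tsum_sigma_mul_cexp_pow (k := 2 * j + 2) (by omega)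
    ⟨j + 1, by ring⟩ τ
  have e3 : 2 * j + 2 - 1 = 2 * j + 1 := by omega
  rw [h, eis2_zeta, EH_tsum, e3]
  have hev : Even (2 * j + 2) := ⟨j + 1, by ring⟩
  have h5 : (-2 * Real.pi * Complex.I : ℂ) ^ (2 * j + 2) =
      (2 * Real.pi * Complex.I) ^ (2 * j + 2) := by
    rw [show (-2 * Real.pi * Complex.I : ℂ) = -(2 * Real.pi * Complex.I) by ring, hev.neg_pow]
  rw [h5]
  ring

theorem eis2_slash (k : ℕ) (hk : 3 ≤ k) (τ : ℍ) :
    ∑' v, EisensteinSeries.eisSummand (k : ℤ) v (ModularGroup.S • τ) =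
      (τ : ℂ) ^ k * ∑' v, EisensteinSeries.eisSummand (k : ℤ) v τ := by
  rw [tsum_eisSummand_eq_riemannZeta_mul_eisensteinSeries hk,
    tsum_eisSummand_eq_riemannZeta_mul_eisensteinSeries hk]
  have h := SlashInvariantForm.slash_action_eqn_SL''
    (EisensteinSeries.eisensteinSeriesSIF (N := 1) 0 (k : ℤ)) (γ := ModularGroup.S)
    (by rw [CongruenceSubgroup.Gamma_one_top]; exact Subgroup.mem_top _) τ
  rw [EisensteinSeries.eisensteinSeriesSIF_apply, EisensteinSeries.eisensteinSeriesSIF_apply,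
    ModularGroup.denom_S, zpow_natCast] at h
  rw [h]
  ring

theorem EH_S (j : ℕ) (τ : ℍ) : EH j (ModularGroup.S • τ) =
    (τ : ℂ) ^ (2 * j + 2) * EH j τ - (if j = 0 then kap * (τ : ℂ) else 0) := by
  rcases Nat.eq_zero_or_pos j with rfl | hj
  · rw [if_pos rfl]
    have hG : ∀ z : ℍ, EisensteinSeries.G2 z = (2 * Real.pi * Complex.I) ^ 2 * EH 0 z := by
      intro z
      rw [EisensteinSeries.G2_eq_tsum_cexp, EH_tsum]
      have hz := eis2_zeta 0
      norm_num at hz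
      have hI : (2 * Real.pi * Complex.I : ℂ) ^ 2 = -(4 * (Real.pi : ℂ) ^ 2) := by
        rw [mul_pow, Complex.I_sq]; ring
      rw [hI] at hz ⊢
      norm_num
      rw [hz]
      ring
    have h := EisensteinSeries.G2_S_transform τ
    have hτ : (τ : ℂ) ≠ 0 := UpperHalfPlane.ne_zero τ
    rw [hG, hG] at h
    have hk : kap * (2 * Real.pi * Complex.I) = 1 := inv_mul_cancel₀ eis2_two_pi_I_ne
    have hne := eis2_two_pi_I_ne
    have h2 : (2 * Real.pi * Complex.I) ^ 2 * EH 0 (ModularGroup.S • τ) =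
        (τ : ℂ) ^ 2 * ((2 * Real.pi * Complex.I) ^ 2 * EH 0 τ) -
          2 * Real.pi * Complex.I * τ := by
      rw [h]
      field_simp
      ring
    apply mul_left_cancel₀ (pow_ne_zero 2 hne)
    rw [h2]
    linear_combination (2 * Real.pi * Complex.I * (τ : ℂ)) * hk
  · rw [if_neg (by omega), sub_zero]
    have h := eis2_slash (2 * j + 2) (by omega) τ
    rw [eis2_tsum j hj, eis2_tsum j hj] at h
    apply mul_left_cancel₀ (pow_ne_zero (2 * j + 2) eis2_two_pi_I_ne)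
    rw [h]
    ring

end Pool.Agent.DERV
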