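import Pool.Agent.DERV.REL

/-!
# Project DERV, part II: coefficients of the Eisenstein series (complete)
-/

set_option autoImplicit false

universe u

open Finset

namespace Pool.Agent.DERV

open Pool.Agent.VOAut
open UpperHalfPlane hiding I
open scoped Nat ArithmeticFunction.sigma Manifold

variable {V : Type u} [AddCommGroup V] [Module ℂ V]

/-- `B_(2 j + 2) / (2 j + 2)!`. -/
noncomputable def bk (j : ℕ) : ℂ := ((bernoulli (2 * j + 2) : ℚ) : ℂ) / ((2 * j + 2)! : ℕ)

theorem Ek_zero (j : ℕ) : (PowerSeries.coeff 0 (Ek j) : ℂ) = -bk j := by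
  unfold Ek bk
  rw [PowerSeries.coeff_mk, if_pos rfl, neg_div]

theorem Ek_pos (j m : ℕ) (hm : m ≠ 0) :
    (PowerSeries.coeff m (Ek j) : ℂ) = 2 / ((2 * j + 1)! : ℕ) * ((σ (2 * j + 1) m : ℕ) : ℂ) := by
  unfold Ek
  rw [PowerSeries.coeff_mk, if_neg hm]

theorem coeff_th (n : ℕ) (f : PowerSeries ℂ) :
    (PowerSeries.coeff n (th f) : ℂ) = (n : ℂ) * PowerSeries.coeff n f := by
  show (PowerSeries.coeff n (PowerSeries.mk fun n => (n : ℂ) * PowerSeries.coeff n f) : ℂ) = _
  rw [PowerSeries.coeff_mk]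

/-- The coefficients below `N` vanish. -/
def Van (N : ℕ) (f : PowerSeries ℂ) : Prop := ∀ i < N, (PowerSeries.coeff i f : ℂ) = 0

/-- The function `τ⁻¹`. -/
noncomputable def taui : ℍ → ℂ := fun τ => (τ : ℂ)⁻¹

theorem WW_one (A : VOA V) (u v : V) : WW A 1 u v = br A 0 u v := by
  unfold br
  rw [zpow_zero]

theorem WW_Lg (A : VOA V) (u v : V) : WW A Lg u v = br A 1 u v := by
  unfold br
  rw [zpow_one]

/-- Weights smaller than `n`. -/
def lowg (A : VOA V) (n : ℤ) : Submodule ℂ V := ⨆ (m : ℤ) (_ : m < n), A.gr m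

end Pool.Agent.DERV
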