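import Pool.Agent.DERV.CV3

/-!
# Project DERV, part II: growth of solutions
-/

set_option autoImplicit false

universe u

open Finset

namespace Pool.Agent.DERV

open Pool.Agent.VOAut
open UpperHalfPlane hiding I
open scoped Nat ArithmeticFunction.sigma Manifold

variable {V : Type u} [AddCommGroup V] [Module ℂ V]

theorem grw2_deriv {F : ℍ → ℂ} (hF : Hol F) {z : ℂ} (hz : 0 < z.im) :
    HasDerivAt (F ∘ ofComplex) (2 * Real.pi * Complex.I * DH F (ofComplex z)) z := by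
  have h1 := (cv3_diff hF ⟨z, hz⟩).hasDerivAt
  have h2 : DH F (ofComplex z) = kap * deriv (F ∘ ofComplex) z := by
    rw [ofComplex_apply_of_im_pos hz]
    rfl
  have h3 : 2 * Real.pi * Complex.I * DH F (ofComplex z) = deriv (F ∘ ofComplex) z := by
    rw [h2]
    linear_combination (deriv (F ∘ ofComplex) z) * cv3_kap
  rw [h3]
  exact h1

/-- derivative along a vertical line -/
theorem grw2_path {F : ℍ → ℂ} (hF : Hol F) (x t : ℝ) (ht : 0 < t) :
    HasDerivAt (fun t : ℝ => F (ofComplex (x + t * Complex.I)))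
      (2 * Real.pi * Complex.I * DH F (ofComplex (x + t * Complex.I)) * Complex.I) t := by
  have h1 : HasDerivAt (fun t : ℝ => (x : ℂ) + (t : ℂ) * Complex.I) Complex.I t := by
    have h2 := ((hasDerivAt_id t).ofReal_comp.mul_const Complex.I).const_add (x : ℂ)
    simpa using h2
  have h3 : 0 < ((x : ℂ) + (t : ℂ) * Complex.I).im := by simpa using ht
  exact (grw2_deriv hF h3).comp t h1

theorem grw2_im (x t : ℝ) (ht : 0 < t) : (ofComplex (x + t * Complex.I)).im = t := by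
  have h3 : 0 < ((x : ℂ) + (t : ℂ) * Complex.I).im := by simpa using ht
  rw [ofComplex_apply_of_im_pos h3]
  show ((x : ℂ) + (t : ℂ) * Complex.I).im = t
  simp

theorem grw2_re (x t : ℝ) (ht : 0 < t) : (ofComplex (x + t * Complex.I)).re = x := by
  have h3 : 0 < ((x : ℂ) + (t : ℂ) * Complex.I).im := by simpa using ht
  rw [ofComplex_apply_of_im_pos h3]
  show ((x : ℂ) + (t : ℂ) * Complex.I).re = x
  simp

/-- bound on the segment `Im = 1`, `0 ≤ Re ≤ 1` -/
theorem grw2_seg {F : ℍ → ℂ} (hF : Hol F) :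
    ∃ δ : ℝ, ∀ x ∈ Set.Icc (0 : ℝ) 1, ‖F (ofComplex (x + (1 : ℝ) * Complex.I))‖ ≤ δ := by
  refine isCompact_Icc.exists_bound_of_continuousOn
    (f := fun x : ℝ => F (ofComplex (x + (1 : ℝ) * Complex.I))) fun x _ =>
      ContinuousAt.continuousWithinAt ?_
  have h1 : ContinuousAt (fun x : ℝ => (x : ℂ) + ((1 : ℝ) : ℂ) * Complex.I) x := by fun_prop
  have h3 : 0 < ((x : ℂ) + ((1 : ℝ) : ℂ) * Complex.I).im := by simp
  have h2 : ContinuousAt ofComplex ((x : ℂ) + ((1 : ℝ) : ℂ) * Complex.I) :=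
    (mdifferentiableAt_ofComplex h3).continuousAt
  exact (Hol_cont hF).continuousAt.comp
    (ContinuousAt.comp (f := fun x : ℝ => (x : ℂ) + ((1 : ℝ) : ℂ) * Complex.I) h2 h1)

theorem ode_growth {d : ℕ} (M : Fin d → Fin d → ℍ → ℂ) (C : ℝ)
    (hM : ∀ i j τ, 1 ≤ τ.im → ‖M i j τ‖ ≤ C) (b : Fin d → ℍ → ℂ)
    (hb : ∀ i τ, 1 ≤ τ.im → 0 ≤ τ.re → τ.re ≤ 1 → ‖b i τ‖ ≤ C * Real.exp (C * τ.im))
    (y : Fin d → ℍ → ℂ) (hy : ∀ i, Hol (y i)) (h : ∀ i, DH (y i) = ∑ j, M i j * y j + b i) :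
    ∃ C' : ℝ, ∀ i τ, 1 ≤ τ.im → 0 ≤ τ.re → τ.re ≤ 1 → ‖y i τ‖ ≤ C' * Real.exp (C' * τ.im) := by
  choose δ' hδ' using fun i => grw2_seg (hy i)
  obtain ⟨δ, hδ⟩ : ∃ δ : ℝ, δ = ∑ i, |δ' i| := ⟨_, rfl⟩
  have hδ0 : 0 ≤ δ := by rw [hδ]; exact Finset.sum_nonneg fun i _ => abs_nonneg _
  have hδi : ∀ i, ∀ x ∈ Set.Icc (0 : ℝ) 1,
      ‖y i (ofComplex (x + (1 : ℝ) * Complex.I))‖ ≤ δ := fun i x hx =>
    (hδ' i x hx).trans ((le_abs_self _).trans (by
      rw [hδ]
      exact Finset.single_le_sum (f := fun i => |δ' i|) (fun i _ => abs_nonneg _)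
        (Finset.mem_univ i)))
  obtain ⟨K, hK⟩ : ∃ K : ℝ, K = 2 * Real.pi * (d * |C|) + 1 := ⟨_, rfl⟩
  have hpi := Real.pi_pos
  have hCa := abs_nonneg C
  have hK1 : 1 ≤ K := by
    rw [hK]
    have : 0 ≤ 2 * Real.pi * (d * |C|) := by positivity
    linarith
  obtain ⟨C', hC'⟩ : ∃ C' : ℝ, C' = δ + 2 * Real.pi * |C| + K + |C| := ⟨_, rfl⟩
  have h2C : 0 ≤ 2 * Real.pi * |C| := by positivity
  refine ⟨C', fun i τ h1 h2 h3 => ?_⟩
  obtain ⟨T, hT⟩ : ∃ T : ℝ, T = τ.im := ⟨_, rfl⟩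
  obtain ⟨x, hx⟩ : ∃ x : ℝ, x = τ.re := ⟨_, rfl⟩
  rw [← hT] at h1 ⊢
  rw [← hx] at h2 h3
  obtain ⟨f, hf⟩ : ∃ f : ℝ → Fin d → ℂ, f = fun (t : ℝ) (i : Fin d) =>
      y i (ofComplex (x + (t : ℂ) * Complex.I)) := ⟨_, rfl⟩
  obtain ⟨f', hf'⟩ : ∃ f' : ℝ → Fin d → ℂ, f' = fun (t : ℝ) (i : Fin d) =>
      2 * Real.pi * Complex.I * DH (y i) (ofComplex (x + (t : ℂ) * Complex.I)) *
        Complex.I := ⟨_, rfl⟩
  have hder : ∀ t ∈ Set.Icc (1 : ℝ) T, HasDerivAt f (f' t) t := by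
    intro t ht
    rw [hf, hf']
    exact hasDerivAt_pi.mpr fun i => grw2_path (hy i) x t (by linarith [ht.1])
  obtain ⟨ε, hε⟩ : ∃ ε : ℝ, ε = 2 * Real.pi * |C| * Real.exp (|C| * T) := ⟨_, rfl⟩
  have hε0 : 0 ≤ ε := by rw [hε]; positivity
  have key := norm_le_gronwallBound_of_norm_deriv_right_le (f := f) (f' := f') (δ := δ)
    (K := K) (ε := ε) (a := 1) (b := T)
    (fun t ht => (hder t ht).continuousAt.continuousWithinAt)
    (fun t ht => (hder t ⟨ht.1, ht.2.le⟩).hasDerivWithinAt)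
    (by
      refine (pi_norm_le_iff_of_nonneg hδ0).mpr fun i => ?_
      rw [hf]
      exact hδi i x ⟨h2, h3⟩)
    (fun t ht => by
      have ht0 : 0 < t := by linarith [ht.1]
      have him : (ofComplex (x + (t : ℂ) * Complex.I)).im = t := grw2_im x t ht0
      have hre : (ofComplex (x + (t : ℂ) * Complex.I)).re = x := grw2_re x t ht0
      have hft : 0 ≤ ‖f t‖ := norm_nonneg _
      refine (pi_norm_le_iff_of_nonneg (by positivity)).mpr fun i => ?_
      have e1 : f' t i = 2 * Real.pi * Complex.I *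
        ((∑ j, M i j (ofComplex (x + (t : ℂ) * Complex.I)) * f t j) +
          b i (ofComplex (x + (t : ℂ) * Complex.I))) * Complex.I := by
        rw [hf', hf]
        show 2 * Real.pi * Complex.I * DH (y i) (ofComplex (x + (t : ℂ) * Complex.I)) *
          Complex.I = _
        rw [h i, Pi.add_apply, Finset.sum_apply]
        rfl
      have e2 : ‖∑ j, M i j (ofComplex (x + (t : ℂ) * Complex.I)) * f t j‖ ≤
          d * |C| * ‖f t‖ := by
        refine (norm_sum_le _ _).trans ?_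
        refine (Finset.sum_le_card_nsmul _ _ (|C| * ‖f t‖) fun j _ => ?_).trans ?_
        · rw [norm_mul]
          exact mul_le_mul ((hM i j _ (by rw [him]; exact ht.1)).trans (le_abs_self C))
            (norm_le_pi_norm _ j) (norm_nonneg _) hCa
        · rw [Finset.card_univ, Fintype.card_fin, nsmul_eq_mul, mul_assoc]
      have e3 : ‖b i (ofComplex (x + (t : ℂ) * Complex.I))‖ ≤ |C| * Real.exp (|C| * T) := by
        refine (hb i _ (by rw [him]; exact ht.1) (by rw [hre]; exact h2)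
          (by rw [hre]; exact h3)).trans ?_
        rw [him]
        refine mul_le_mul (le_abs_self C) (Real.exp_le_exp.mpr ?_) (Real.exp_nonneg _) hCa
        calc C * t ≤ |C| * t := mul_le_mul_of_nonneg_right (le_abs_self C) ht0.le
          _ ≤ |C| * T := mul_le_mul_of_nonneg_left ht.2.le hCa
      rw [e1, norm_mul, norm_mul, norm_mul, norm_mul, Complex.norm_I, Complex.norm_real,
        Real.norm_of_nonneg Real.pi_pos.le]
      simp only [Complex.norm_ofNat, mul_one]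
      have h5 : 0 ≤ 2 * Real.pi := by positivity
      calc 2 * Real.pi * ‖(∑ j, M i j (ofComplex (x + (t : ℂ) * Complex.I)) * f t j) +
            b i (ofComplex (x + (t : ℂ) * Complex.I))‖
          ≤ 2 * Real.pi * (d * |C| * ‖f t‖ + |C| * Real.exp (|C| * T)) :=
            mul_le_mul_of_nonneg_left ((norm_add_le _ _).trans (add_le_add e2 e3)) h5
        _ = (K - 1) * ‖f t‖ + ε := by rw [hK, hε]; ring
        _ ≤ K * ‖f t‖ + ε := by linarith)
    T ⟨h1, le_rfl⟩
  have hτ : ofComplex (x + (T : ℂ) * Complex.I) = τ := by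
    have e1 : (x : ℂ) + (T : ℂ) * Complex.I = (τ : ℂ) := by
      rw [hx, hT]
      exact Complex.re_add_im (τ : ℂ)
    rw [e1, ofComplex_apply]
  have e4 : ‖y i τ‖ ≤ ‖f T‖ := by
    have e5 : y i τ = f T i := by
      rw [hf]
      show y i τ = y i (ofComplex (x + (T : ℂ) * Complex.I))
      rw [hτ]
    rw [e5]
    exact norm_le_pi_norm _ i
  have hK0 : K ≠ 0 := by linarith
  rw [gronwallBound_of_K_ne_0 hK0] at key
  have h6 : Real.exp (K * (T - 1)) ≤ Real.exp (K * T) := Real.exp_le_exp.mpr (by nlinarith)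
  have h7 : ε / K * (Real.exp (K * (T - 1)) - 1) ≤ ε * Real.exp (K * T) := by
    have h8 : ε / K ≤ ε := div_le_self hε0 hK1
    have h9 : 0 ≤ Real.exp (K * (T - 1)) - 1 := by
      have : 1 ≤ Real.exp (K * (T - 1)) := Real.one_le_exp (by nlinarith)
      linarith
    exact mul_le_mul h8 (by linarith) h9 hε0
  have h10 : Real.exp (K * T) ≤ Real.exp (C' * T) * Real.exp (-(|C| * T)) := by
    rw [← Real.exp_add]
    refine Real.exp_le_exp.mpr ?_
    have : (K + |C|) * T ≤ C' * T := mul_le_mul_of_nonneg_right (by rw [hC']; linarith)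
      (by linarith)
    linarith
  have h11 : Real.exp (-(|C| * T)) ≤ 1 := Real.exp_le_one_iff.mpr (by
    have : 0 ≤ |C| * T := mul_nonneg hCa (by linarith)
    linarith)
  have h12 : Real.exp (|C| * T) * Real.exp (-(|C| * T)) = 1 := by
    rw [← Real.exp_add, add_neg_cancel, Real.exp_zero]
  have hE := Real.exp_nonneg (C' * T)
  calc ‖y i τ‖ ≤ ‖f T‖ := e4
    _ ≤ δ * Real.exp (K * (T - 1)) + ε / K * (Real.exp (K * (T - 1)) - 1) := key
    _ ≤ δ * Real.exp (K * T) + ε * Real.exp (K * T) :=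
        add_le_add (mul_le_mul_of_nonneg_left h6 hδ0) h7
    _ ≤ δ * (Real.exp (C' * T) * Real.exp (-(|C| * T))) +
        ε * (Real.exp (C' * T) * Real.exp (-(|C| * T))) :=
        add_le_add (mul_le_mul_of_nonneg_left h10 hδ0) (mul_le_mul_of_nonneg_left h10 hε0)
    _ ≤ δ * Real.exp (C' * T) + 2 * Real.pi * |C| * Real.exp (C' * T) := by
        refine add_le_add (mul_le_mul_of_nonneg_left ?_ hδ0) (le_of_eq ?_)
        · exact mul_le_of_le_one_right hE h11
        · rw [hε]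
          linear_combination (2 * Real.pi * |C| * Real.exp (C' * T)) * h12
    _ ≤ C' * Real.exp (C' * T) := by
        rw [← add_mul]
        exact mul_le_mul_of_nonneg_right (by rw [hC']; linarith) hE

end Pool.Agent.DERV
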