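import Pool.Agent.DERV.CV4

/-!
# Project DERV, part II: q-expansions
-/

set_option autoImplicit false

universe u

open Finset

namespace Pool.Agent.DERV

open Pool.Agent.VOAut
open UpperHalfPlane hiding I
open scoped Nat ArithmeticFunction.sigma Manifold

variable {V : Type u} [AddCommGroup V] [Module ℂ V]

theorem qex_qParam (τ : ℍ) :
    Function.Periodic.qParam 1 (τ : ℂ) = Complex.exp (2 * Real.pi * Complex.I * τ) := by
  unfold Function.Periodic.qParam
  rw [Complex.ofReal_one, div_one]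

theorem qex_per {G : ℍ → ℂ} (hT : ∀ τ : ℍ, G ((1 : ℝ) +ᵥ τ) = G τ) :
    Function.Periodic (G ∘ ofComplex) (1 : ℝ) := by
  intro w
  by_cases hw : 0 < w.im
  · have h1 : 0 < (w + (1 : ℝ)).im := by simpa using hw
    simp only [Function.comp_apply, ofComplex_apply_of_im_pos h1, ofComplex_apply_of_im_pos hw]
    rw [← hT ⟨w, hw⟩]
    congr 1
    ext
    simp [add_comm]
  · have h1 : (w + (1 : ℝ)).im ≤ 0 := by simpa using hw
    have h2 : w.im ≤ 0 := not_lt.mp hw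
    simp only [Function.comp_apply, ofComplex_apply_of_im_nonpos h1,
      ofComplex_apply_of_im_nonpos h2]

theorem qex_nat {G : ℍ → ℂ} (hT : ∀ τ : ℍ, G ((1 : ℝ) +ᵥ τ) = G τ) (n : ℕ) (τ : ℍ) :
    G ((n : ℝ) +ᵥ τ) = G τ := by
  induction n with
  | zero => rw [Nat.cast_zero, zero_vadd]
  | succ n ih =>
    rw [← ih, ← hT ((n : ℝ) +ᵥ τ), vadd_vadd]
    congr 2
    push_cast
    ring

theorem qex_int {G : ℍ → ℂ} (hT : ∀ τ : ℍ, G ((1 : ℝ) +ᵥ τ) = G τ) (n : ℤ) (τ : ℍ) :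
    G ((n : ℝ) +ᵥ τ) = G τ := by
  obtain ⟨m, rfl | rfl⟩ := n.eq_nat_or_neg
  · simpa using qex_nat hT m τ
  · rw [← qex_nat hT m ((((-(m : ℤ) : ℤ)) : ℝ) +ᵥ τ), vadd_vadd]
    congr 1
    simp

theorem qexp (F : ℍ → ℂ) (hF : Hol F) (hT : ∀ τ : ℍ, F ((1 : ℝ) +ᵥ τ) = F τ) (C : ℝ)
    (hg : ∀ τ : ℍ, 1 ≤ τ.im → 0 ≤ τ.re → τ.re ≤ 1 → ‖F τ‖ ≤ C * Real.exp (C * τ.im)) :
    ∃ (N : ℕ) (f : PowerSeries ℂ), Cv f ∧ F = EX (-(N : ℂ)) f := by
  obtain ⟨N, hN⟩ := exists_nat_ge (|C| / (2 * Real.pi))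
  have hpi : 0 < 2 * Real.pi := by positivity
  have hN' : |C| ≤ 2 * Real.pi * N := by
    rw [div_le_iff₀ hpi] at hN
    linarith
  set G : ℍ → ℂ := exl (N : ℂ) * F with hG
  have hGhol : Hol G := Hol_mul (Hol_exl _) hF
  have hGT : ∀ τ : ℍ, G ((1 : ℝ) +ᵥ τ) = G τ := by
    intro τ
    have h1 : Complex.exp (2 * Real.pi * Complex.I * (N : ℂ)) = 1 := by
      rw [show (2 * Real.pi * Complex.I * (N : ℂ)) = ((N : ℤ) : ℂ) * (2 * Real.pi * Complex.I) by
        push_cast; ring]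
      exact Complex.exp_int_mul_two_pi_mul_I N
    show exl (N : ℂ) ((1 : ℝ) +ᵥ τ) * F ((1 : ℝ) +ᵥ τ) = exl (N : ℂ) τ * F τ
    rw [exl_T, h1, hT, one_mul]
  have hGb : ∀ τ : ℍ, 1 ≤ τ.im → ‖G τ‖ ≤ |C| := by
    intro τ hτ
    have h1 : G τ = G (((-⌊τ.re⌋ : ℤ) : ℝ) +ᵥ τ) := (qex_int hGT _ τ).symm
    rw [h1]
    set z : ℍ := ((-⌊τ.re⌋ : ℤ) : ℝ) +ᵥ τ with hz
    have him : z.im = τ.im := by rw [hz, vadd_im]
    have hre : z.re = Int.fract τ.re := by
      rw [hz, vadd_re]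
      push_cast
      unfold Int.fract
      ring
    have h2 := hg z (by rw [him]; exact hτ) (by rw [hre]; exact Int.fract_nonneg _)
      (by rw [hre]; exact (Int.fract_lt_one _).le)
    show ‖exl (N : ℂ) z * F z‖ ≤ |C|
    rw [norm_mul]
    have h3 : ‖exl (N : ℂ) z‖ = Real.exp (-(2 * Real.pi * N * z.im)) := by
      unfold exl
      rw [Complex.norm_exp]
      congr 1
      simp
    have hpos : 0 < z.im := z.im_pos
    have h4 : C * Real.exp (C * z.im) ≤ |C| * Real.exp (2 * Real.pi * N * z.im) := by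
      have h5 : C * z.im ≤ 2 * Real.pi * N * z.im :=
        mul_le_mul_of_nonneg_right ((le_abs_self C).trans hN') hpos.le
      calc C * Real.exp (C * z.im) ≤ |C| * Real.exp (C * z.im) :=
            mul_le_mul_of_nonneg_right (le_abs_self C) (Real.exp_pos _).le
        _ ≤ |C| * Real.exp (2 * Real.pi * N * z.im) :=
            mul_le_mul_of_nonneg_left (Real.exp_le_exp.mpr h5) (abs_nonneg C)
    rw [h3]
    calc Real.exp (-(2 * Real.pi * N * z.im)) * ‖F z‖
        ≤ Real.exp (-(2 * Real.pi * N * z.im)) * (|C| * Real.exp (2 * Real.pi * N * z.im)) :=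
          mul_le_mul_of_nonneg_left (h2.trans h4) (Real.exp_pos _).le
      _ = |C| * (Real.exp (-(2 * Real.pi * N * z.im)) * Real.exp (2 * Real.pi * N * z.im)) := by
          ring
      _ = |C| := by rw [← Real.exp_add, neg_add_cancel, Real.exp_zero, mul_one]
  have hbdd : IsBoundedAtImInfty G := by
    rw [isBoundedAtImInfty_iff]
    exact ⟨|C|, 1, fun τ hτ => hGb τ hτ⟩
  have hper := qex_per hGT
  refine ⟨N, qExpansion 1 G, ?_, ?_⟩
  · intro r hr0 hr1
    have h1 := (hasSum_qExpansion_of_norm_lt one_pos hper hGhol hbdd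
      (q := (r : ℂ)) (by rw [Complex.norm_real, Real.norm_of_nonneg hr0]; exact hr1)).summable.norm
    refine h1.congr fun n => ?_
    rw [norm_smul, norm_pow, Complex.norm_real, Real.norm_of_nonneg hr0]
  · ext τ
    have h1 := (hasSum_qExpansion one_pos hper hGhol hbdd τ).tsum_eq
    have h2 : evH (qExpansion 1 G) τ = G τ := by
      rw [← h1]
      unfold evH
      apply tsum_congr
      intro n
      rw [smul_eq_mul, qex_qParam]
    show F τ = exl (-(N : ℂ)) τ * evH (qExpansion 1 G) τ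
    rw [h2]
    show F τ = exl (-(N : ℂ)) τ * (exl (N : ℂ) τ * F τ)
    have h3 : exl (-(N : ℂ)) τ * exl (N : ℂ) τ = 1 := by
      have h4 := congrFun (exl_add (-(N : ℂ)) (N : ℂ)) τ
      rw [neg_add_cancel, exl_zero] at h4
      exact h4.symm
    rw [← mul_assoc, h3, one_mul]

end Pool.Agent.DERV
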