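import Pool.Agent.DERV.FGN2
import Pool.Agent.DERV.GRW2
import Pool.Agent.DERV.QEX
import Pool.Agent.DERV.EIS1

/-!
# Project DERV, part II: expansions of solutions
-/

set_option autoImplicit false

universe u

open Finset

namespace Pool.Agent.DERV

open Pool.Agent.VOAut
open UpperHalfPlane hiding I
open scoped Nat ArithmeticFunction.sigma Manifold

variable {V : Type u} [AddCommGroup V] [Module ℂ V]

theorem expn_sum {ι : Type*} (s : Finset ι) (lam : ℂ) (F : ι → PowerSeries ℂ)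
    (hF : ∀ i, Cv (F i)) : EX lam (∑ i ∈ s, F i) = ∑ i ∈ s, EX lam (F i) := by
  classical
  induction s using Finset.induction_on with
  | empty => simp [EX_zero]
  | insert a s ha ih =>
    rw [Finset.sum_insert ha, Finset.sum_insert ha,
      EX_add lam (hF a) (Cv.sum s F fun i _ => hF i), ih]

theorem expn_aeval (p : MvPolynomial ℕ ℂ) :
    MvPolynomial.aeval EH p = evH (MvPolynomial.aeval Ek p) :=
  (evH_aeval Ek Cv_Ek p).symm

theorem expn_list (lam : ℂ) (r2 : V → V → PowerSeries ℂ) (hr2 : ∀ u v, Cv (r2 u v))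
    (D : V → V → ℍ → ℂ) (hD : ∀ u v, D u v = EX lam (r2 u v))
    (L : List (MvPolynomial ℕ ℂ × V × V)) :
    Cv ((L.map fun x => MvPolynomial.aeval Ek x.1 * r2 x.2.1 x.2.2).sum) ∧
    (L.map fun x => MvPolynomial.aeval EH x.1 * D x.2.1 x.2.2).sum =
      EX lam ((L.map fun x => MvPolynomial.aeval Ek x.1 * r2 x.2.1 x.2.2).sum) := by
  induction L with
  | nil => exact ⟨by simpa using Cv_zero, by simp [EX_zero]⟩
  | cons x L ih =>
    have h1 : Cv (MvPolynomial.aeval Ek x.1) := Cv_aeval Ek Cv_Ek x.1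
    have h2 : Cv (MvPolynomial.aeval Ek x.1 * r2 x.2.1 x.2.2) := h1.mul (hr2 _ _)
    simp only [List.map_cons, List.sum_cons]
    refine ⟨h2.add ih.1, ?_⟩
    rw [EX_add lam h2 ih.1, ← ih.2, ← EX_mul lam (hr2 _ _) h1, hD, expn_aeval]

/-- bound for `q ^ lam g(q)` -/
theorem expn_bdd (lam : ℂ) {g : PowerSeries ℂ} (hg : Cv g) : ∃ C : ℝ, 0 ≤ C ∧
    ∀ τ : ℍ, 1 ≤ τ.im → 0 ≤ τ.re → τ.re ≤ 1 → ‖EX lam g τ‖ ≤ C * Real.exp (C * τ.im) := by
  obtain ⟨C1, h1⟩ := exl_bdd lam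
  obtain ⟨C2, h2⟩ := evH_bdd hg
  refine ⟨|C1| * |C2| + |C1|, by positivity, fun τ t1 t2 t3 => ?_⟩
  have him : 0 ≤ τ.im := by linarith
  have e1 : ‖exl lam τ‖ ≤ |C1| * Real.exp (|C1| * τ.im) := by
    refine (h1 τ t1 t2 t3).trans ?_
    refine mul_le_mul (le_abs_self _) ?_ (Real.exp_pos _).le (abs_nonneg _)
    exact Real.exp_le_exp.2 (mul_le_mul_of_nonneg_right (le_abs_self _) him)
  have e2 : ‖evH g τ‖ ≤ |C2| := (h2 τ t1).trans (le_abs_self _)
  have e3 : EX lam g τ = exl lam τ * evH g τ := rfl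
  rw [e3, norm_mul]
  calc ‖exl lam τ‖ * ‖evH g τ‖ ≤ (|C1| * Real.exp (|C1| * τ.im)) * |C2| :=
        mul_le_mul e1 e2 (norm_nonneg _) (by positivity)
    _ = |C1| * |C2| * Real.exp (|C1| * τ.im) := by ring
    _ ≤ (|C1| * |C2| + |C1|) * Real.exp ((|C1| * |C2| + |C1|) * τ.im) := by
        refine mul_le_mul ?_ (Real.exp_le_exp.2 (mul_le_mul_of_nonneg_right ?_ him))
          (Real.exp_pos _).le (by positivity)
        · have := abs_nonneg C1
          linarith
        · have : 0 ≤ |C1| * |C2| := by positivity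
          linarith

theorem expn {A : VOA V} (h : CFT A) (hc : C2 A) (lam : ℂ) (f : V →ₗ[ℂ] (ℍ → ℂ))
    (md : ∀ v, Hol (f v))
    (hT : ∀ v τ, f v ((1 : ℝ) +ᵥ τ) = Complex.exp (2 * Real.pi * Complex.I * lam) * f v τ)
    (r2 : V → V → PowerSeries ℂ) (hr2 : ∀ u v, Cv (r2 u v))
    (h2 : ∀ u v, df2 A EH f u v = EX lam (r2 u v))
    (r3 : V → PowerSeries ℂ) (hr3 : ∀ v, Cv (r3 v))
    (h3 : ∀ v, df3 A EH f v = DH (f v) + EX lam (r3 v)) :
    ∃ (N : ℕ) (F : V →ₗ[ℂ] PowerSeries ℂ), (∀ v, Cv (F v)) ∧ ∀ v, f v = EX (lam - N) (F v) := by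
  obtain ⟨d, w, hw2, hw3⟩ := fg h hc
  choose g L hg using hw2
  choose g3 L3 hg3 using hw3
  -- the relations in terms of convergent series
  let Q : V → PowerSeries ℂ := fun v =>
    ((L v).map fun x => MvPolynomial.aeval Ek x.1 * r2 x.2.1 x.2.2).sum
  let Q3 : V → PowerSeries ℂ := fun v =>
    ((L3 v).map fun x => MvPolynomial.aeval Ek x.1 * r2 x.2.1 x.2.2).sum
  have hQ : ∀ v, Cv (Q v) := fun v => (expn_list lam r2 hr2 (df2 A EH f) h2 (L v)).1
  have hQ3 : ∀ v, Cv (Q3 v) := fun v => (expn_list lam r2 hr2 (df2 A EH f) h2 (L3 v)).1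
  have hP : ∀ p : MvPolynomial ℕ ℂ, Cv (MvPolynomial.aeval Ek p) := Cv_aeval Ek Cv_Ek
  have hf : ∀ v, f v = ∑ i, evH (MvPolynomial.aeval Ek (g v i)) * f (w i) + EX lam (Q v) := by
    intro v
    have e := hg v (ℍ → ℂ) EH f
    rw [(expn_list lam r2 hr2 (df2 A EH f) h2 (L v)).2] at e
    simp only [expn_aeval] at e
    exact e
  have hf3 : ∀ v, df3 A EH f v =
      ∑ i, evH (MvPolynomial.aeval Ek (g3 v i)) * f (w i) + EX lam (Q3 v) := by
    intro v
    have e := hg3 v (ℍ → ℂ) EH f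
    rw [(expn_list lam r2 hr2 (df2 A EH f) h2 (L3 v)).2] at e
    simp only [expn_aeval] at e
    exact e
  have hode : ∀ i, DH (f (w i)) = ∑ j, evH (MvPolynomial.aeval Ek (g3 (w i) j)) * f (w j) +
      EX lam (Q3 (w i) - r3 (w i)) := by
    intro i
    have e := h3 (w i)
    rw [hf3] at e
    rw [EX_sub lam (hQ3 _) (hr3 _)]
    have e2 : DH (f (w i)) = (DH (f (w i)) + EX lam (r3 (w i))) - EX lam (r3 (w i)) := by abel
    rw [e2, ← e]
    abel
  -- the bounds
  have hM : ∀ i j, ∃ C : ℝ, ∀ τ : ℍ, 1 ≤ τ.im →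
      ‖evH (MvPolynomial.aeval Ek (g3 (w i) j)) τ‖ ≤ C := fun i j => evH_bdd (hP _)
  choose CM hCM using hM
  have hB : ∀ i, ∃ C : ℝ, 0 ≤ C ∧ ∀ τ : ℍ, 1 ≤ τ.im → 0 ≤ τ.re → τ.re ≤ 1 →
      ‖EX lam (Q3 (w i) - r3 (w i)) τ‖ ≤ C * Real.exp (C * τ.im) :=
    fun i => expn_bdd lam ((hQ3 _).sub (hr3 _))
  choose CB hCB0 hCB using hB
  set C : ℝ := ∑ i, ∑ j, |CM i j| + ∑ i, CB i with hC
  have hC1 : ∀ i j, CM i j ≤ C := by
    intro i j
    have a1 : |CM i j| ≤ ∑ j, |CM i j| :=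
      Finset.single_le_sum (f := fun j => |CM i j|) (fun _ _ => abs_nonneg _) (mem_univ j)
    have a2 : ∑ j, |CM i j| ≤ ∑ i, ∑ j, |CM i j| :=
      Finset.single_le_sum (f := fun i => ∑ j, |CM i j|)
        (fun _ _ => Finset.sum_nonneg fun _ _ => abs_nonneg _) (mem_univ i)
    have a3 : 0 ≤ ∑ i, CB i := Finset.sum_nonneg fun i _ => hCB0 i
    linarith [le_abs_self (CM i j)]
  have hC2 : ∀ i, CB i ≤ C := by
    intro i
    have a1 : CB i ≤ ∑ i, CB i := Finset.single_le_sum (fun i _ => hCB0 i) (mem_univ i)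
    have a2 : 0 ≤ ∑ i, ∑ j, |CM i j| :=
      Finset.sum_nonneg fun _ _ => Finset.sum_nonneg fun _ _ => abs_nonneg _
    linarith
  obtain ⟨C', hC'⟩ := ode_growth (fun i j => evH (MvPolynomial.aeval Ek (g3 (w i) j))) C
    (fun i j τ t => (hCM i j τ t).trans (hC1 i j))
    (fun i => EX lam (Q3 (w i) - r3 (w i)))
    (fun i τ t1 t2 t3 => by
      have him : 0 ≤ τ.im := by linarith
      have hCi : 0 ≤ C := (hCB0 i).trans (hC2 i)
      exact (hCB i τ t1 t2 t3).trans (mul_le_mul (hC2 i)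
        (Real.exp_le_exp.2 (mul_le_mul_of_nonneg_right (hC2 i) him)) (Real.exp_pos _).le hCi))
    (fun i => f (w i)) (fun i => md _) hode
  -- expansions of the finitely many functions
  obtain ⟨E1, hE1⟩ := exl_bdd (-lam)
  have hexp : ∀ i, ∃ (N : ℕ) (ps : PowerSeries ℂ), Cv ps ∧
      exl (-lam) * f (w i) = EX (-(N : ℂ)) ps := by
    intro i
    refine qexp _ (Hol_mul (Hol_exl _) (md _)) ?_ (|E1| * |C'| + |E1| + |C'|) ?_
    · intro τ
      simp only [Pi.mul_apply]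
      rw [exl_T, hT]
      have e : Complex.exp (2 * Real.pi * Complex.I * -lam) *
          Complex.exp (2 * Real.pi * Complex.I * lam) = 1 := by
        rw [← Complex.exp_add]
        simp
      calc _ = (Complex.exp (2 * Real.pi * Complex.I * -lam) *
          Complex.exp (2 * Real.pi * Complex.I * lam)) * (exl (-lam) τ * f (w i) τ) := by ring
        _ = _ := by rw [e, one_mul]
    · intro τ t1 t2 t3
      have him : 0 ≤ τ.im := by linarith
      have k1 : ‖exl (-lam) τ‖ ≤ |E1| * Real.exp (|E1| * τ.im) := by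
        refine (hE1 τ t1 t2 t3).trans (mul_le_mul (le_abs_self _) ?_ (Real.exp_pos _).le
          (abs_nonneg _))
        exact Real.exp_le_exp.2 (mul_le_mul_of_nonneg_right (le_abs_self _) him)
      have k2 : ‖f (w i) τ‖ ≤ |C'| * Real.exp (|C'| * τ.im) := by
        refine (hC' i τ t1 t2 t3).trans (mul_le_mul (le_abs_self _) ?_ (Real.exp_pos _).le
          (abs_nonneg _))
        exact Real.exp_le_exp.2 (mul_le_mul_of_nonneg_right (le_abs_self _) him)
      simp only [Pi.mul_apply, norm_mul]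
      calc ‖exl (-lam) τ‖ * ‖f (w i) τ‖
          ≤ (|E1| * Real.exp (|E1| * τ.im)) * (|C'| * Real.exp (|C'| * τ.im)) :=
            mul_le_mul k1 k2 (norm_nonneg _) (by positivity)
        _ = |E1| * |C'| * Real.exp ((|E1| + |C'|) * τ.im) := by
            rw [add_mul, Real.exp_add]; ring
        _ ≤ _ := by
            refine mul_le_mul ?_ (Real.exp_le_exp.2 (mul_le_mul_of_nonneg_right ?_ him))
              (Real.exp_pos _).le (by positivity)
            · have := abs_nonneg E1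
              have := abs_nonneg C'
              linarith
            · have : 0 ≤ |E1| * |C'| := by positivity
              linarith
  choose Ni ps hps hNps using hexp
  set N : ℕ := ∑ i, Ni i with hN
  have hNi : ∀ i, Ni i ≤ N := fun i =>
    Finset.single_le_sum (fun i _ => Nat.zero_le (Ni i)) (mem_univ i)
  let Ps : Fin d → PowerSeries ℂ := fun i => PowerSeries.X ^ (N - Ni i) * ps i
  have hPs : ∀ i, Cv (Ps i) := fun i => (Cv_X.pow _).mul (hps i)
  have hfw : ∀ i, f (w i) = EX (lam - N) (Ps i) := by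
    intro i
    have e1 : EX (lam - N) (Ps i) = EX (lam - N + (N - Ni i : ℕ)) (ps i) := EX_X _ _ (hps i)
    have e2 : lam - (N : ℂ) + ((N - Ni i : ℕ) : ℂ) = lam + -(Ni i : ℂ) := by
      rw [Nat.cast_sub (hNi i)]; ring
    rw [e1, e2, EX_eq, exl_add, mul_assoc, ← EX_eq, ← hNps i, ← mul_assoc, ← exl_add]
    rw [add_neg_cancel, exl_zero, one_mul]
  -- all vectors
  have hall : ∀ v, ∃ G : PowerSeries ℂ, Cv G ∧ f v = EX (lam - N) G := by
    intro v
    refine ⟨∑ i, MvPolynomial.aeval Ek (g v i) * Ps i + PowerSeries.X ^ N * Q v,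
      (Cv.sum _ _ fun i _ => (hP _).mul (hPs i)).add ((Cv_X.pow _).mul (hQ v)), ?_⟩
    rw [EX_add _ (Cv.sum _ _ fun i _ => (hP _).mul (hPs i)) ((Cv_X.pow _).mul (hQ v)),
      expn_sum _ _ _ (fun i => (hP _).mul (hPs i)), EX_X _ _ (hQ v), sub_add_cancel]
    conv_lhs => rw [hf v]
    congr 1
    refine Finset.sum_congr rfl fun i _ => ?_
    rw [hfw i, EX_mul _ (hPs i) (hP _)]
  choose G hG hfG using hall
  refine ⟨N, ⟨⟨G, ?_⟩, ?_⟩, hG, hfG⟩
  · intro u v
    refine EX_inj (lam - N) (hG _) ((hG _).add (hG _)) ?_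
    rw [← hfG, map_add, EX_add _ (hG _) (hG _), ← hfG, ← hfG]
  · intro c v
    refine EX_inj (lam - N) (hG _) ((hG _).smul c) ?_
    simp only [RingHom.id_apply]
    rw [← hfG, map_smul, EX_smul, ← hfG]

end Pool.Agent.DERV
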