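import Pool.Agent.DERV.CCS

/-!
# Project DERV, part II: the translation eigenvector
-/

set_option autoImplicit false

universe u

open Finset

namespace Pool.Agent.DERV

open Pool.Agent.VOAut
open UpperHalfPlane hiding I
open scoped Nat ArithmeticFunction.sigma Manifold

variable {V : Type u} [AddCommGroup V] [Module ℂ V]

/-- Translation of the function of a graded trace. -/
theorem ext1_T (lam : ℂ) (F : V →ₗ[ℂ] PowerSeries ℂ) (hF : ∀ v, Cv (F v)) :
    Tl (EXL lam F hF) = Complex.exp (2 * Real.pi * Complex.I * lam) • EXL lam F hF := by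
  refine LinearMap.ext fun v => ?_
  funext τ
  rw [Tl_apply, EXL_apply, EX_T]
  rfl

theorem ext1_sum {A : VOA V} {ι : Type} (s : Finset ι) (S : ι → V →ₗ[ℂ] (ℍ → ℂ))
    (hS : ∀ i ∈ s, InCC A (S i)) : InCC A (∑ i ∈ s, S i) := by
  classical
  induction s using Finset.induction_on with
  | empty => rw [Finset.sum_empty]; exact InCC_zero
  | insert a s ha ih =>
    rw [Finset.sum_insert ha]
    exact InCC_add (hS a (Finset.mem_insert_self a s))
      (ih fun i hi => hS i (Finset.mem_insert_of_mem hi))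

/-- The part of the construction of `f` and `g` that solves the translation equation. -/
theorem ext1_solve {A : VOA V} {D : Module.End ℂ V} (h : CFT A) (hc : C2 A)
    (p : Pack A D) (hZ : ∀ j v, Cv (ZsL (p.t j) v)) (mu : ℂ) (W : V →ₗ[ℂ] (ℍ → ℂ))
    (hR : InCC A (Tl W - mu • W)) :
    ∃ R1 R0 : V →ₗ[ℂ] (ℍ → ℂ), InCC A R1 ∧ InCC A R0 ∧ Tl R0 = mu • R0 ∧
      Tl (W + (-1 : ℂ) • R1) = mu • (W + (-1 : ℂ) • R1) + R0 := by
  classical
  obtain ⟨r, hr⟩ := cc_span h hc p _ hR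
  set Z : Fin (p.n + 1) → V →ₗ[ℂ] (ℍ → ℂ) := fun j => EXL (lamt (p.t j)) (ZsL (p.t j)) (hZ j)
    with hZdef
  set m : Fin (p.n + 1) → ℂ := fun j => Complex.exp (2 * Real.pi * Complex.I * lamt (p.t j))
    with hm
  have hZT : ∀ j, Tl (Z j) = m j • Z j := fun j => ext1_T _ _ _
  have hZC : ∀ j, InCC A (Z j) := fun j => InCC_EXL _ _ _ (Zs_isF (p.t j))
  have hR' : Tl W - mu • W = ∑ j, r j • Z j := by
    refine LinearMap.ext fun v => ?_
    rw [hr v, LinearMap.sum_apply]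
    rfl
  set a : Fin (p.n + 1) → ℂ := fun j => if m j = mu then 0 else r j / (m j - mu) with ha
  set b : Fin (p.n + 1) → ℂ := fun j => if m j = mu then r j else 0 with hb
  refine ⟨∑ j, a j • Z j, ∑ j, b j • Z j, ext1_sum _ _ fun j _ => InCC_smul _ (hZC j),
    ext1_sum _ _ fun j _ => InCC_smul _ (hZC j), ?_, ?_⟩
  · rw [map_sum, Finset.smul_sum]
    refine Finset.sum_congr rfl fun j _ => ?_
    rw [map_smul, hZT j]
    by_cases hj : m j = mu
    · rw [hj, smul_comm]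
    · have : b j = 0 := if_neg hj
      rw [this, zero_smul, zero_smul, smul_zero]
  · have e1 : Tl W = mu • W + ∑ j, r j • Z j := by
      rw [← hR']
      abel
    have e2 : Tl (∑ j, a j • Z j) = mu • (∑ j, a j • Z j) + (∑ j, r j • Z j - ∑ j, b j • Z j) := by
      rw [map_sum, Finset.smul_sum, ← Finset.sum_sub_distrib, ← Finset.sum_add_distrib]
      refine Finset.sum_congr rfl fun j _ => ?_
      have hs : a j * m j + b j = mu * a j + r j := by
        by_cases hj : m j = mu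
        · have h1 : a j = 0 := if_pos hj
          have h2 : b j = r j := if_pos hj
          rw [h1, h2]
          ring
        · have h1 : a j = r j / (m j - mu) := if_neg hj
          have h2 : b j = 0 := if_neg hj
          have h3 : m j - mu ≠ 0 := sub_ne_zero.2 hj
          rw [h1, h2]
          field_simp
          ring
      have h4 : (a j * m j) • Z j + b j • Z j = (mu * a j) • Z j + r j • Z j := by
        rw [← add_smul, ← add_smul, hs]
      rw [map_smul, hZT j, smul_smul, smul_smul, ← add_sub_assoc, ← h4, add_sub_cancel_right]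
    rw [map_add, map_smul, e1, e2]
    module

theorem ext1 {A : VOA V} {D : Module.End ℂ V} (h : CFT A) (hc : C2 A)
    (p : Pack A D) (hZ : ∀ j v, Cv (ZsL (p.t j) v)) (hT : ∀ j v, Cv (TsL (p.t j) v))
    (W : V →ₗ[ℂ] (ℍ → ℂ)) (hW : DA A D (EXL (lamt (p.t 0)) (ZsL (p.t 0)) (hZ 0))
      (EXL (lamt (p.t 0)) (TsL (p.t 0)) (hT 0)) W) :
    ∃ f g : V →ₗ[ℂ] (ℍ → ℂ), InCC A g ∧ (∀ v, Hol (f v)) ∧
      (∀ v τ, g v ((1 : ℝ) +ᵥ τ) =
        Complex.exp (2 * Real.pi * Complex.I * lamt (p.t 0)) * g v τ) ∧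
      (∀ v τ, f v ((1 : ℝ) +ᵥ τ) =
        Complex.exp (2 * Real.pi * Complex.I * lamt (p.t 0)) * f v τ) ∧
      (∀ u v, f (br A 0 u v) = kap • EX (lamt (p.t 0)) (Zs (p.t 0) (br A 1 (D u) v))) ∧
      (∀ u v, df2 A EH f u v = kap • EX (lamt (p.t 0)) (Zs (p.t 0) (br A (-1) (D u) v)
        + SS A (fun j => 2 * j + 1) 1 Ek (ZsL (p.t 0)) (D u) v)) ∧
      (∀ v, df3 A EH f v = DH (f v) + kap • (g v + EX (lamt (p.t 0)) (Ts (p.t 0) v))) := by
  set mu : ℂ := Complex.exp (2 * Real.pi * Complex.I * lamt (p.t 0)) with hmu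
  have hmu0 : mu ≠ 0 := Complex.exp_ne_zero _
  have hR : InCC A (Tl W - mu • W) := by
    have h1 := DA_T hW
    rw [ext1_T, ext1_T] at h1
    exact DA_sub h1 (DA_smul mu hW)
  obtain ⟨R1, R0, hR1, hR0, hR0T, hWT⟩ := ext1_solve h hc p hZ mu W hR
  set W0 : V →ₗ[ℂ] (ℍ → ℂ) := W + (-1 : ℂ) • R1 with hW0
  have hDA := DA_addCC hW (InCC_smul (-1) hR1)
  rw [← hW0] at hDA
  set g : V →ₗ[ℂ] (ℍ → ℂ) := mu⁻¹ • R0 with hg
  have hgC : InCC A g := InCC_smul _ hR0
  set f : V →ₗ[ℂ] (ℍ → ℂ) := W0 - LinearMap.mulLeft ℂ tau ∘ₗ g with hf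
  have hfv : ∀ v, f v = W0 v - tau * g v := fun v => rfl
  have hWv : ∀ v τ, W0 v ((1 : ℝ) +ᵥ τ) = mu * W0 v τ + R0 v τ := by
    intro v τ
    rw [← Tl_apply, hWT]
    rfl
  have hRv : ∀ v τ, R0 v ((1 : ℝ) +ᵥ τ) = mu * R0 v τ := by
    intro v τ
    rw [← Tl_apply, hR0T]
    rfl
  have hgv : ∀ v τ, g v τ = mu⁻¹ * R0 v τ := fun v τ => rfl
  have htau : ∀ τ : ℍ, tau ((1 : ℝ) +ᵥ τ) = 1 + tau τ := by
    intro τ
    show (((1 : ℝ) +ᵥ τ : ℍ) : ℂ) = 1 + (τ : ℂ)
    rw [UpperHalfPlane.coe_vadd]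
    push_cast
    rfl
  refine ⟨f, g, hgC, ?_, ?_, ?_, ?_, ?_, ?_⟩
  · intro v
    rw [hfv v]
    exact Hol_sub (hDA.md v) (Hol_mul Hol_tau (hgC.md v))
  · intro v τ
    rw [hgv, hgv, hRv]
    ring
  · intro v τ
    rw [hfv v, Pi.sub_apply, Pi.sub_apply, Pi.mul_apply, Pi.mul_apply, hWv, hgv, hgv, hRv, htau]
    field_simp
    ring
  · intro u v
    rw [hfv, hDA.d1 u v, hgC.c1 u v, mul_zero, sub_zero]
    rfl
  · intro u v
    have e1 : df2 A EH f u v = df2 A EH W0 u v - tau * df2 A EH g u v := by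
      rw [hf, df2_subS, df2_mulS]
    rw [e1, hDA.d2 u v, hgC.c2 u v, mul_zero, sub_zero, EX_add]
    · congr 2
      exact SS_EX A (lamt (p.t 0)) _ 1 Ek Cv_Ek (ZsL (p.t 0)) (hZ 0) _ (fun _ => rfl) (D u) v
    · exact hZ 0 _
    · exact Cv_SS A _ 1 Ek Cv_Ek _ (hZ 0) _ _
  · intro v
    have e1 : df3 A EH f v = df3 A EH W0 v - tau * df3 A EH g v := by
      rw [hf, df3_subS, df3_mulS]
    have e2 : DH (f v) = DH (W0 v) - (DH tau * g v + tau * DH (g v)) := by
      rw [hfv v, DH_sub (hDA.md v) (Hol_mul Hol_tau (hgC.md v)), DH_mul Hol_tau (hgC.md v)]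
    have e3 : DH tau * g v = kap • g v := by
      rw [DH_tau]
      rfl
    rw [e1, hDA.d3 v, hgC.c3 v, e2, e3, EXL_apply]
    show DH (W0 v) + kap • EX (lamt (p.t 0)) (Ts (p.t 0) v) - tau * DH (g v) = _
    rw [smul_add]
    ring

end Pool.Agent.DERV
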