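import Pool.Agent.DERV.SLT
import Pool.Agent.DERV.DER

/-!
# Project DERV, part II: third relation after inversion
-/

set_option autoImplicit false

universe u

open Finset

namespace Pool.Agent.DERV

open Pool.Agent.VOAut
open UpperHalfPlane hiding I
open scoped Nat ArithmeticFunction.sigma Manifold

variable {V : Type u} [AddCommGroup V] [Module ℂ V]

/-- Inversion of the sums `∑ c_j E_j T (x[2 j + s] v)`. -/
theorem slr3_SS {A : VOA V} (h : CFT A) (T : V →ₗ[ℂ] (ℍ → ℂ)) (c : ℕ → ℂ) (s a b : ℤ) (x v : V)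
    (hx : x ∈ brg A a) (hv : v ∈ brg A b) :
    Sop (a + b - s + 1) (SS A c s EH T x v) =
      SS A c s EH (Sl h T) x v - (c 0 * kap) • (taui * Sl h T (br A s x v)) := by
  obtain ⟨K0, hK⟩ := SS_range A s x v
  rw [hK (ℍ → ℂ) c EH T (K0 + 1) (Nat.le_succ _),
    hK (ℍ → ℂ) c EH (Sl h T) (K0 + 1) (Nat.le_succ _), map_sum]
  have h1 : ∀ j ∈ range (K0 + 1), Sop (a + b - s + 1) (c j • (EH j * T (br A (2 * j + s) x v))) =
      c j • (EH j * Sl h T (br A (2 * j + s) x v)) -
        c j • ((if j = 0 then kap • taui else 0) * Sl h T (br A (2 * j + s) x v)) := by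
    intro j _
    have e : a + b - s + 1 = (2 * (j : ℤ) + 2) + (a + b - (2 * j + s) - 1) := by ring
    rw [map_smul, e, Sop_add_wt, Sop_EH, sub_mul, smul_sub,
      Sl_apply h T (a + b - (2 * j + s) - 1) _ (br_brg a b (2 * j + s) x v hx hv)]
  rw [Finset.sum_congr rfl h1, Finset.sum_sub_distrib]
  congr 1
  rw [Finset.sum_eq_single 0]
  · rw [if_pos rfl, smul_mul_assoc, smul_smul]
    congr 4
    simp
  · intro j _ hj
    rw [if_neg hj, zero_mul, smul_zero]
  · intro hj
    exact absurd (Finset.mem_range.2 (Nat.succ_pos K0)) hj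

/-- Inversion of the sums `∑ c_j E'_j T (x[2 j + s] v)`. -/
theorem slr3_SSD {A : VOA V} (h : CFT A) (T : V →ₗ[ℂ] (ℍ → ℂ)) (c : ℕ → ℂ) (s a b : ℤ) (x v : V)
    (hx : x ∈ brg A a) (hv : v ∈ brg A b) :
    Sop (a + b - s + 3) (SS A c s (fun j => DH (EH j)) T x v) =
      SS A c s (fun j => DH (EH j)) (Sl h T) x v
        + kap • (taui * SS A (fun j => (2 * j + 2) * c j) s EH (Sl h T) x v)
        - (c 0 * (kap * kap)) • (taui * taui * Sl h T (br A s x v)) := by
  obtain ⟨K0, hK⟩ := SS_range A s x v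
  rw [hK (ℍ → ℂ) c (fun j => DH (EH j)) T (K0 + 1) (Nat.le_succ _),
    hK (ℍ → ℂ) c (fun j => DH (EH j)) (Sl h T) (K0 + 1) (Nat.le_succ _),
    hK (ℍ → ℂ) (fun j => (2 * j + 2) * c j) EH (Sl h T) (K0 + 1) (Nat.le_succ _), map_sum]
  have h1 : ∀ j ∈ range (K0 + 1),
      Sop (a + b - s + 3) (c j • (DH (EH j) * T (br A (2 * j + s) x v))) =
      c j • (DH (EH j) * Sl h T (br A (2 * j + s) x v)) +
        kap • (taui * (((2 * j + 2) * c j) • (EH j * Sl h T (br A (2 * j + s) x v)))) -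
        c j • ((if j = 0 then (kap * kap) • (taui * taui) else 0) *
          Sl h T (br A (2 * j + s) x v)) := by
    intro j _
    have e : a + b - s + 3 = (2 * (j : ℤ) + 4) + (a + b - (2 * j + s) - 1) := by ring
    rw [map_smul, e, Sop_add_wt, Sop_DEH,
      ← Sl_apply h T (a + b - (2 * j + s) - 1) _ (br_brg a b (2 * j + s) x v hx hv)]
    funext τ
    simp only [Pi.smul_apply, Pi.mul_apply, Pi.add_apply, Pi.sub_apply, smul_eq_mul]
    ring
  rw [Finset.sum_congr rfl h1, Finset.sum_sub_distrib, Finset.sum_add_distrib, ← Finset.smul_sum,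
    ← Finset.mul_sum]
  congr 1
  rw [Finset.sum_eq_single 0]
  · rw [if_pos rfl, smul_mul_assoc, smul_smul]
    congr 4
    simp
  · intro j _ hj
    rw [if_neg hj, zero_mul, smul_zero]
  · intro hj
    exact absurd (Finset.mem_range.2 (Nat.succ_pos K0)) hj

theorem Sl_r3 {A : VOA V} {D : Module.End ℂ V} (h : CFT A)
    (Z T : V →ₗ[ℂ] (ℍ → ℂ)) (hT : TA A D Z T) (v : V) :
    df3 A EH (Sl h T) v = DH (Sl h T v) := by
  refine brg_ind h (P := fun v => df3 A EH (Sl h T) v = DH (Sl h T v)) v ?_ ?_ ?_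
  · show df3L A EH (Sl h T) 0 = DH (Sl h T 0)
    rw [map_zero, map_zero, DH_zero]
  · intro x y hx hy
    show df3L A EH (Sl h T) (x + y) = DH (Sl h T (x + y))
    rw [map_add, map_add, DH_add (Sl_hol h T hT.md x) (Sl_hol h T hT.md y), df3L_apply,
      df3L_apply, hx, hy]
  · intro b x hx
    have h0 := hT.t4 x
    have h1 := congrArg (Sop (b + 2)) h0
    have e1 := slr3_SS h T (fun _ => 1) 1 2 b (omt A) x (omt_brg h) hx
    have e2 : (2 : ℤ) + b - 1 + 1 = b + 2 := by ring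
    rw [e2] at e1
    have e3 := Sl_apply h T (2 + b - (-1) - 1) _ (br_brg 2 b (-1) (omt A) x (omt_brg h) hx)
    have e4 : (2 : ℤ) + b - (-1) - 1 = b + 2 := by ring
    rw [e4] at e3
    have e5 := DH_Sop b (hT.md x)
    have e6 : br A 1 (omt A) x = (b : ℂ) • x := by
      rw [← L0b_apply]
      exact Module.End.mem_eigenspace_iff.1 hx
    have e7 := Sl_apply h T b x hx
    unfold df3 at h1 ⊢
    rw [map_sub, ← e3, e1, e6, map_smul] at h1
    rw [e7] at h1 ⊢
    rw [e5]
    rw [← h1]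
    funext τ
    simp only [Pi.smul_apply, Pi.mul_apply, Pi.sub_apply, smul_eq_mul]
    ring

end Pool.Agent.DERV
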