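import Pool.Agent.DERV.SLR1
import Pool.Agent.DERV.SLR3

/-!
# Project DERV, part II: second relation after inversion
-/

set_option autoImplicit false

universe u

open Finset

namespace Pool.Agent.DERV

open Pool.Agent.VOAut
open UpperHalfPlane hiding I
open scoped Nat ArithmeticFunction.sigma Manifold

variable {V : Type u} [AddCommGroup V] [Module ℂ V]

theorem slr2_hom {A : VOA V} {D : Module.End ℂ V} (h : CFT A) (hD : IsDer A D)
    (Z T : V →ₗ[ℂ] (ℍ → ℂ)) (hT : TA A D Z T) (a b : ℤ) (u v : V) (hu : u ∈ brg A a)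
    (hv : v ∈ brg A b) :
    df2 A EH (Sl h T) u v = tau * SS A (fun _ => 1) 1 (fun j => DH (EH j)) (Sl h Z) (D u) v
      + kap • (Sl h Z (br A (-1) (D u) v)
        + SS A (fun j => 2 * j + 1) 1 EH (Sl h Z) (D u) v) := by
  have hDu := D_brg hD a u hu
  have h1 := congrArg (Sop (a + b + 1)) (hT.t3 u v)
  have e1 := slr3_SS h T (fun j => 2 * (j : ℂ) + 1) 0 a b u v hu hv
  rw [sub_zero] at e1
  have e2 := Sl_apply h T (a + b - (-2) - 1) _ (br_brg a b (-2) u v hu hv)
  have e3 : a + b - (-2) - 1 = a + b + 1 := by ring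
  rw [e3] at e2
  have e4 := slr3_SSD h Z (fun _ => 1) 1 a b (D u) v hDu hv
  have e5 : a + b - 1 + 3 = a + b + 2 := by ring
  rw [e5] at e4
  have e6 := Sop_pred (a + b + 2) (SS A (fun _ => 1) 1 (fun j => DH (EH j)) Z (D u) v)
  have e7 : a + b + 2 - 1 = a + b + 1 := by ring
  rw [e7, e4] at e6
  have e8 := Sl_r1 h hD Z T hT u v
  have e9 : SS A (fun j => 2 * (j : ℂ) + 2) 1 EH (Sl h Z) (D u) v =
      SS A (fun j => 2 * (j : ℂ) + 1) 1 EH (Sl h Z) (D u) v +
        SS A (fun _ => 1) 1 EH (Sl h Z) (D u) v := by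
    rw [← SS_addc]
    congr 1
    funext j
    ring
  have e10 : SS A (fun j => (2 * (j : ℂ) + 2) * 1) 1 EH (Sl h Z) (D u) v =
      SS A (fun j => 2 * (j : ℂ) + 2) 1 EH (Sl h Z) (D u) v := by
    congr 1
    funext j
    ring
  rw [e6, e10, e9] at h1
  unfold df2 at h1 ⊢
  rw [map_add, ← e2, e1, e8] at h1
  have ht := tau_taui
  funext τ
  have h2 := congrFun h1 τ
  have ht' := congrFun ht τ
  simp only [Pi.smul_apply, Pi.mul_apply, Pi.sub_apply, Pi.add_apply, smul_eq_mul,
    Pi.one_apply, Nat.cast_zero, mul_zero, zero_add, one_mul] at h2 ht' ⊢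
  linear_combination h2 +
    (kap * (Sl h Z (br A (-1) (D u) v) τ - SS A (fun _ => 1) 1 EH (Sl h Z) (D u) v τ) +
      kap * (SS A (fun j => 2 * (j : ℂ) + 1) 1 EH (Sl h Z) (D u) v τ +
        SS A (fun _ => 1) 1 EH (Sl h Z) (D u) v τ) -
      kap * kap * taui τ * Sl h Z (br A 1 (D u) v) τ) * ht'

theorem Sl_r2 {A : VOA V} {D : Module.End ℂ V} (h : CFT A) (hD : IsDer A D)
    (Z T : V →ₗ[ℂ] (ℍ → ℂ)) (hT : TA A D Z T) (u v : V) :
    df2 A EH (Sl h T) u v = tau * SS A (fun _ => 1) 1 (fun j => DH (EH j)) (Sl h Z) (D u) v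
      + kap • (Sl h Z (br A (-1) (D u) v)
        + SS A (fun j => 2 * j + 1) 1 EH (Sl h Z) (D u) v) := by
  have key : ∀ x y : V, df2L A EH (Sl h T) x y =
      tau * SSL A (fun _ => 1) 1 (fun j => DH (EH j)) (Sl h Z) (D x) y
      + kap • (Sl h Z (brL A (-1) (D x) y)
        + SSL A (fun j => 2 * j + 1) 1 EH (Sl h Z) (D x) y) := by
    intro x y
    refine brg_ind h (P := fun x => df2L A EH (Sl h T) x y =
      tau * SSL A (fun _ => 1) 1 (fun j => DH (EH j)) (Sl h Z) (D x) y
      + kap • (Sl h Z (brL A (-1) (D x) y)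
        + SSL A (fun j => 2 * j + 1) 1 EH (Sl h Z) (D x) y)) x ?_ ?_ ?_
    · simp only [map_zero, LinearMap.zero_apply, mul_zero, add_zero, smul_zero]
    · intro x x' hx hx'
      simp only [map_add, LinearMap.add_apply, hx, hx', mul_add, smul_add]
      abel
    · intro a x hx
      refine brg_ind h (P := fun y => df2L A EH (Sl h T) x y =
        tau * SSL A (fun _ => 1) 1 (fun j => DH (EH j)) (Sl h Z) (D x) y
        + kap • (Sl h Z (brL A (-1) (D x) y)
          + SSL A (fun j => 2 * j + 1) 1 EH (Sl h Z) (D x) y)) y ?_ ?_ ?_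
      · simp only [map_zero, mul_zero, add_zero, smul_zero]
      · intro y y' hy hy'
        simp only [map_add, hy, hy', mul_add, smul_add]
        abel
      · intro b y hy
        exact slr2_hom h hD Z T hT a b x y hx hy
  exact key u v

end Pool.Agent.DERV
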