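import Pool.Agent.DERV.SLR1
import Pool.Agent.DERV.SLR2
import Pool.Agent.DERV.SLR3
import Pool.Agent.DERV.CCS

/-!
# Project DERV, part II: the function W
-/

set_option autoImplicit false

universe u

open Finset

namespace Pool.Agent.DERV

open Pool.Agent.VOAut
open UpperHalfPlane hiding I
open scoped Nat ArithmeticFunction.sigma Manifold

variable {V : Type u} [AddCommGroup V] [Module ℂ V]

theorem wex_der_zero (A : VOA V) : IsDer A (0 : Module.End ℂ V) where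
  leib u n w := by simp
  om := by simp

theorem wex_TA_zero {A : VOA V} (S : V →ₗ[ℂ] (ℍ → ℂ)) (hS : InCC A S) :
    TA A (0 : Module.End ℂ V) 0 S where
  mdz _ := Hol_zero
  md := hS.md
  t1 u v := by rw [hS.c1, SS_zeroS]; simp
  t3 u v := by rw [hS.c2, SS_zeroS]
  t4 := hS.c3

theorem Sl_CC {A : VOA V} (h : CFT A) (S : V →ₗ[ℂ] (ℍ → ℂ)) (hS : InCC A S) :
    InCC A (Sl h S) where
  md := Sl_hol h S hS.md
  c1 u v := by
    rw [Sl_r1 h (wex_der_zero A) 0 S (wex_TA_zero S hS) u v, Sl_zero, SS_zeroS]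
    simp
  c2 u v := by
    rw [Sl_r2 h (wex_der_zero A) 0 S (wex_TA_zero S hS) u v, Sl_zero, SS_zeroS, SS_zeroS]
    simp
  c3 v := Sl_r3 h 0 S (wex_TA_zero S hS) v

/-- The function `W` from a pair `(Z', T')` whose first component is mapped to `Z`. -/
theorem wex_DA {A : VOA V} {D : Module.End ℂ V} (h : CFT A) (hD : IsDer A D)
    (Z T Z' T' : V →ₗ[ℂ] (ℍ → ℂ)) (hZT : TA A D Z T) (hZT' : TA A D Z' T')
    (hZ : Sl h Z' = Z) :
    DA A D Z T (Sl h T' - LinearMap.mulLeft ℂ tau ∘ₗ T) where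
  md v := Hol_sub (Sl_hol h T' hZT'.md v) (Hol_mul Hol_tau (hZT.md v))
  d1 u v := by
    have h1 := Sl_r1 h hD Z' T' hZT' u v
    rw [hZ] at h1
    rw [LinearMap.sub_apply, LinearMap.comp_apply, LinearMap.mulLeft_apply, h1, hZT.t1]
    abel
  d2 u v := by
    have h1 := Sl_r2 h hD Z' T' hZT' u v
    rw [hZ] at h1
    rw [df2_subS, df2_mulS, h1, hZT.t3]
    abel
  d3 v := by
    have h1 := Sl_r3 h Z' T' hZT' v
    rw [df3_subS, df3_mulS, h1, hZT.t4, LinearMap.sub_apply, LinearMap.comp_apply,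
      LinearMap.mulLeft_apply, DH_sub (Sl_hol h T' hZT'.md v) (Hol_mul Hol_tau (hZT.md v)),
      DH_mul Hol_tau (hZT.md v), DH_tau]
    have h2 : (fun _ : ℍ => kap) * T v = kap • T v := by
      ext τ
      simp
    rw [h2]
    abel

theorem W_ex {A : VOA V} {D : Module.End ℂ V} (h : CFT A) (hc : C2 A) (hD : IsDer A D)
    (p : Pack A D) (hZ : ∀ j v, Cv (ZsL (p.t j) v)) (hT : ∀ j v, Cv (TsL (p.t j) v)) :
    ∃ W : V →ₗ[ℂ] (ℍ → ℂ), DA A D (EXL (lamt (p.t 0)) (ZsL (p.t 0)) (hZ 0))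
      (EXL (lamt (p.t 0)) (TsL (p.t 0)) (hT 0)) W := by
  have hta : ∀ j, TA A D (EXL (lamt (p.t j)) (ZsL (p.t j)) (hZ j))
      (EXL (lamt (p.t j)) (TsL (p.t j)) (hT j)) := fun j =>
    TA_EXL _ _ _ (hZ j) (hT j) (Ts_isG hD (p.t j))
  have hcc : InCC A (EXL (lamt (p.t 0)) (ZsL (p.t 0)) (hZ 0)) :=
    InCC_EXL _ _ (hZ 0) (Zs_isF (p.t 0))
  obtain ⟨s, hs⟩ := cc_span h hc p _ (Sl_CC h _ (Sl_CC h _ (Sl_CC h _ hcc)))
  have hs' : Sl h (Sl h (Sl h (EXL (lamt (p.t 0)) (ZsL (p.t 0)) (hZ 0)))) =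
      ∑ j, s j • EXL (lamt (p.t j)) (ZsL (p.t j)) (hZ j) := by
    ext v : 1
    rw [hs v, LinearMap.sum_apply]
    rfl
  have hsum := TA_sum (A := A) (D := D) univ s
    (fun j => EXL (lamt (p.t j)) (ZsL (p.t j)) (hZ j))
    (fun j => EXL (lamt (p.t j)) (TsL (p.t j)) (hT j)) (fun j _ => hta j)
  rw [← hs'] at hsum
  exact ⟨_, wex_DA h hD _ _ _ _ (hta 0) hsum (Sl_four h _)⟩

end Pool.Agent.DERV
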