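import Pool.Agent.DERV.EXT1
import Pool.Agent.DERV.WEX
import Pool.Agent.DERV.CNV

/-!
# Project DERV, part II: expansions of the translation eigenvector
-/

set_option autoImplicit false

universe u

open Finset

namespace Pool.Agent.DERV

open Pool.Agent.VOAut
open UpperHalfPlane hiding I
open scoped Nat ArithmeticFunction.sigma Manifold

variable {V : Type u} [AddCommGroup V] [Module ℂ V]

theorem ext2_exp (lam : ℂ) (N : ℕ) :
    Complex.exp (2 * Real.pi * Complex.I * (lam - N)) =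
      Complex.exp (2 * Real.pi * Complex.I * lam) := by
  have h1 : (2 * Real.pi * Complex.I * (lam - N) : ℂ) =
      2 * Real.pi * Complex.I * lam - N * (2 * Real.pi * Complex.I) := by ring
  rw [h1, Complex.exp_sub, Complex.exp_nat_mul, Complex.exp_two_pi_mul_I, one_pow, div_one]

theorem ext2 {A : VOA V} {D : Module.End ℂ V} (h : CFT A) (hc : C2 A) (hD : IsDer A D)
    (p : Pack A D) : ∃ (N : ℕ) (f g : V →ₗ[ℂ] PowerSeries ℂ),
      IsF A (lamt (p.t 0) - N) g ∧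
      (∀ u v, f (br A 0 u v) = kap • (PowerSeries.X ^ N * Zs (p.t 0) (br A 1 (D u) v))) ∧
      (∀ u v, df2 A Ek f u v = kap • (PowerSeries.X ^ N * (Zs (p.t 0) (br A (-1) (D u) v)
        + SS A (fun j => 2 * j + 1) 1 Ek (ZsL (p.t 0)) (D u) v))) ∧
      (∀ v, df3 A Ek f v = th (f v) + (lamt (p.t 0) - N) • f v
        + kap • (g v + PowerSeries.X ^ N * Ts (p.t 0) v)) := by
  have hZ : ∀ j v, Cv (ZsL (p.t j) v) := fun j => Z_cv h hc _ _ (Zs_isF (p.t j))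
  have hT : ∀ j v, Cv (TsL (p.t j) v) := fun j => T_cv h hc _ _ _ (hZ j) (Ts_isG hD (p.t j))
  obtain ⟨W, hW⟩ := W_ex h hc hD p hZ hT
  obtain ⟨f, g, hg, hf, gT, fT, f1, f2, f3⟩ := ext1 h hc p hZ hT W hW
  obtain ⟨lam, hlam⟩ : ∃ lam, lam = lamt (p.t 0) := ⟨_, rfl⟩
  rw [← hlam] at gT fT f1 f2 f3 ⊢
  have hZ0 : ∀ v, Cv (Zs (p.t 0) v) := hZ 0
  have hT0 : ∀ v, Cv (Ts (p.t 0) v) := hT 0
  obtain ⟨N1, G, hG, gG⟩ := expn h hc lam g hg.md gT (fun _ _ => 0) (fun _ _ => Cv_zero)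
    (fun u v => by rw [hg.c2, EX_zero]) (fun _ => 0) (fun _ => Cv_zero)
    (fun v => by rw [hg.c3, EX_zero, add_zero])
  have hB : ∀ u v, Cv (Zs (p.t 0) (br A (-1) (D u) v)
        + SS A (fun j => 2 * j + 1) 1 Ek (ZsL (p.t 0)) (D u) v) := fun u v =>
    (hZ0 _).add (Cv_SS _ _ _ _ Cv_Ek _ (hZ 0) _ _)
  have hX : ∀ n : ℕ, Cv (PowerSeries.X ^ n) := fun n => Cv_X.pow n
  have sh1 : ∀ F : PowerSeries ℂ, Cv F → EX lam F = EX (lam - N1) (PowerSeries.X ^ N1 * F) := by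
    intro F hF
    rw [EX_X _ _ hF, sub_add_cancel]
  obtain ⟨N2, F, hF, fF⟩ := expn h hc (lam - N1) f hf
    (fun v τ => by rw [fT, ext2_exp])
    (fun u v => kap • (PowerSeries.X ^ N1 * (Zs (p.t 0) (br A (-1) (D u) v)
        + SS A (fun j => 2 * j + 1) 1 Ek (ZsL (p.t 0)) (D u) v)))
    (fun u v => ((hX N1).mul (hB u v)).smul _)
    (fun u v => by rw [f2, sh1 _ (hB u v), EX_smul])
    (fun v => kap • (G v + PowerSeries.X ^ N1 * Ts (p.t 0) v))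
    (fun v => ((hG v).add ((hX N1).mul (hT0 v))).smul _)
    (fun v => by rw [f3, sh1 _ (hT0 v), EX_smul, EX_add _ (hG v) ((hX N1).mul (hT0 v)), gG])
  obtain ⟨lam2, hlam2⟩ : ∃ lam2, lam2 = lam - ((N1 + N2 : ℕ) : ℂ) := ⟨_, rfl⟩
  have hl2 : lam - N1 - N2 = lam2 := by
    rw [hlam2]
    push_cast
    ring
  have hl1 : lam - N1 = lam2 + N2 := by
    rw [← hl2]
    ring
  have hl0 : lam = lam2 + ((N1 + N2 : ℕ) : ℂ) := by
    rw [hlam2]
    ring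
  rw [hl2] at fF
  rw [hl1] at gG
  have hGL : ∀ v, Cv (((LinearMap.mulLeft ℂ (PowerSeries.X ^ N2 : PowerSeries ℂ)) ∘ₗ G) v) :=
    fun v => (hX N2).mul (hG v)
  have gG2 : ∀ v, g v = EX lam2 (((LinearMap.mulLeft ℂ (PowerSeries.X ^ N2 : PowerSeries ℂ)) ∘ₗ G) v) := by
    intro v
    rw [gG, ← EX_X lam2 N2 (hG v)]
    rfl
  have sh2 : ∀ F : PowerSeries ℂ, Cv F →
      EX lam F = EX lam2 (PowerSeries.X ^ (N1 + N2) * F) := by
    intro F hF
    rw [EX_X _ _ hF, ← hl0]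
  refine ⟨N1 + N2, F, (LinearMap.mulLeft ℂ (PowerSeries.X ^ N2 : PowerSeries ℂ)) ∘ₗ G, ?_, ?_, ?_, ?_⟩
  · rw [← hlam2]
    exact IsF_of_InCC lam2 _ hGL g gG2 hg
  · intro u v
    refine EX_inj lam2 (hF _) (((hX _).mul (hZ0 _)).smul _) ?_
    rw [← fF, f1, sh2 _ (hZ0 _), EX_smul]
  · intro u v
    refine EX_inj lam2 (Cv_df2 _ _ Cv_Ek _ hF _ _) (((hX _).mul (hB u v)).smul _) ?_
    rw [← df2_EX A lam2 Ek Cv_Ek F hF f fF u v]
    have := f2 u v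
    rw [sh2 _ (hB u v), ← EX_smul] at this
    exact this
  · intro v
    rw [← hlam2]
    have c1 : Cv (th (F v) + lam2 • F v) := (Cv_th (hF v)).add ((hF v).smul _)
    have c2 : Cv (((LinearMap.mulLeft ℂ (PowerSeries.X ^ N2 : PowerSeries ℂ)) ∘ₗ G) v +
      PowerSeries.X ^ (N1 + N2) * Ts (p.t 0) v) := (hGL v).add ((hX _).mul (hT0 v))
    refine EX_inj lam2 (Cv_df3 _ _ Cv_Ek _ hF _) (c1.add (c2.smul _)) ?_
    rw [← df3_EX A lam2 Ek Cv_Ek F hF f fF v]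
    have := f3 v
    rw [fF v, DH_EX lam2 (hF v), gG2 v, sh2 _ (hT0 v),
      ← EX_add lam2 (hGL v) ((hX _).mul (hT0 v)), ← EX_smul, ← EX_add lam2 c1 (c2.smul _)] at this
    exact this

end Pool.Agent.DERV
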