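import Pool.Agent.DERV.EKC

/-!
# Project DERV, part II: consequences of C2-cofiniteness
-/

set_option autoImplicit false

universe u

open Finset

namespace Pool.Agent.DERV

open Pool.Agent.VOAut
open UpperHalfPlane hiding I
open scoped Nat ArithmeticFunction.sigma Manifold

variable {V : Type u} [AddCommGroup V] [Module ℂ V]

/-- The span in `c2_split`. -/
private def fgn1_T (A : VOA V) (n : ℤ) : Submodule ℂ V :=
  Submodule.span ℂ {x : V | ∃ (a b : ℤ) (p q : V), p ∈ A.gr a ∧ q ∈ A.gr b ∧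
      a + b + 1 = n ∧ x = A.Y p (-2) q}

private theorem fgn1_proj (A : VOA V) (n : ℤ) (u v : V) : pr A n (A.Y u (-2) v) ∈ fgn1_T A n := by
  refine hom_ind A (P := fun u => ∀ v, pr A n (A.Y u (-2) v) ∈ fgn1_T A n) u ?_ ?_ ?_ v
  · intro v
    simp
  · intro x y hx hy v
    have : A.Y (x + y) (-2) v = A.Y x (-2) v + A.Y y (-2) v := by
      rw [map_add]; rfl
    rw [this, map_add]
    exact Submodule.add_mem _ (hx v) (hy v)
  · intro a p hp v
    refine hom_ind A (P := fun v => pr A n (A.Y p (-2) v) ∈ fgn1_T A n) v ?_ ?_ ?_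
    · simp
    · intro x y hx hy
      rw [map_add, map_add]
      exact Submodule.add_mem _ hx hy
    · intro b q hq
      have h1 := A.graded a (-2) b p q hp hq
      show hcomp A.internal n (A.Y p (-2) q) ∈ fgn1_T A n
      rw [hcomp_of_mem A.internal n _ _ h1]
      split_ifs with h
      · exact Submodule.subset_span ⟨a, b, p, q, hp, hq, by omega, rfl⟩
      · exact Submodule.zero_mem _

theorem c2_split {A : VOA V} (hc : C2 A) : ∃ N : ℤ, ∀ n : ℤ, N ≤ n → ∀ v ∈ A.gr n,
    v ∈ Submodule.span ℂ {x : V | ∃ (a b : ℤ) (p q : V), p ∈ A.gr a ∧ q ∈ A.gr b ∧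
      a + b + 1 = n ∧ x = A.Y p (-2) q} := by
  unfold C2 at hc
  set C := Submodule.span ℂ {x : V | ∃ u v : V, x = A.Y u (-2) v} with hC
  obtain ⟨d, s, hs⟩ := Module.Finite.exists_fin (R := ℂ) (M := V ⧸ C)
  choose t ht using fun i => Submodule.mkQ_surjective C (s i)
  have hbd : ∀ i, ∃ N : ℤ, ∀ n : ℤ, N ≤ n → pr A n (t i) = 0 := by
    intro i
    obtain ⟨M, hM⟩ := (hcomp_fin A.internal (t i)).bddAbove
    refine ⟨M + 1, fun n hn => ?_⟩
    by_contra h
    have := hM h
    omega
  choose Nf hNf using hbd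
  obtain ⟨N, hN⟩ : ∃ N : ℤ, ∀ i, Nf i ≤ N := by
    obtain ⟨M, hM⟩ := (Set.finite_range Nf).bddAbove
    exact ⟨M, fun i => hM (Set.mem_range_self i)⟩
  refine ⟨N, fun n hn v hv => ?_⟩
  have hpv : pr A n v = v := by
    show hcomp A.internal n v = v
    rw [hcomp_of_mem A.internal n n v hv, if_pos rfl]
  have htop : C ⊔ Submodule.span ℂ (Set.range t) = ⊤ := by
    rw [← Submodule.map_mkQ_eq_top, Submodule.map_span, ← hs]
    congr 1
    rw [← Set.range_comp]
    congr 1
    funext i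
    exact ht i
  have hle : C ⊔ Submodule.span ℂ (Set.range t) ≤ (fgn1_T A n).comap (pr A n) := by
    refine sup_le ?_ ?_
    · rw [hC, Submodule.span_le]
      rintro x ⟨u, w, rfl⟩
      exact fgn1_proj A n u w
    · rw [Submodule.span_le]
      rintro x ⟨i, rfl⟩
      show pr A n (t i) ∈ fgn1_T A n
      rw [hNf i n ((hN i).trans hn)]
      exact Submodule.zero_mem _
  rw [htop] at hle
  have h1 : pr A n v ∈ fgn1_T A n := hle Submodule.mem_top
  rw [hpv] at h1
  exact h1

end Pool.Agent.DERV
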