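import Pool.Agent.DERV.P3C

/-!
# Project DERV, part III: the conclusion
-/

set_option autoImplicit false

universe u

open Finset

namespace Pool.Agent.DERV

open Pool.Agent.VOAut
open scoped Nat

variable {V : Type u} [AddCommGroup V] [Module ℂ V] {A : VOA V} {D : Module.End ℂ V}

/-- `beta` as a bilinear map. -/
noncomputable def beL (A : VOA V) (D : Module.End ℂ V) (α : Module.Dual ℂ V) :
    V →ₗ[ℂ] V →ₗ[ℂ] ℂ :=
  (WWL A phs).compr₂ α - kap • (((WWL A (phs * Lg)) ∘ₗ D).compr₂ (al0 A))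

theorem beL_apply (α : Module.Dual ℂ V) (u v : V) : beL A D α u v = be A D α u v := rfl

theorem be_symm_all (h : CFT A) (hD : IsDer A D) (α : Module.Dual ℂ V) (hα : IsAlpha A D α)
    (u v : V) : be A D α u v = be A D α v u := by
  rw [← sub_eq_zero]
  refine hom_ind A (P := fun u => be A D α u v - be A D α v u = 0) u ?_ ?_ ?_
  · rw [← beL_apply, ← beL_apply]; simp
  · intro x y hx hy
    rw [← beL_apply, ← beL_apply] at *
    rw [map_add, LinearMap.add_apply, map_add]
    linear_combination hx + hy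
  intro a u hu
  refine hom_ind A (P := fun v => be A D α u v - be A D α v u = 0) v ?_ ?_ ?_
  · rw [← beL_apply, ← beL_apply]; simp
  · intro x y hx hy
    rw [← beL_apply, ← beL_apply] at *
    rw [map_add, map_add, LinearMap.add_apply]
    linear_combination hx + hy
  intro b v hv
  rw [be_symm h hD α hα a b u v hu hv, sub_self]

theorem nu_act_all (h : CFT A) (hD : IsDer A D) (α : Module.Dual ℂ V) (hα : IsAlpha A D α)
    (a : ℤ) (u v : V) (ha : 1 ≤ a) (hv : v ∈ A.gr a) :
    -nuf A α (rs A ((1 + xL) ^ a * xL ^ (-2 : ℤ)) v u) = (a : ℂ) * be A D α v u := by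
  rw [← sub_eq_zero]
  let P : V →ₗ[ℂ] ℂ := -(nuf A α ∘ₗ rsv A ((1 + xL) ^ a * xL ^ (-2 : ℤ)) v) -
    (a : ℂ) • beL A D α v
  show P u = 0
  refine hom_ind A (P := fun u => P u = 0) u (map_zero P) ?_ ?_
  · intro x y hx hy
    rw [map_add, hx, hy, add_zero]
  intro b u hu
  show -nuf A α (rs A ((1 + xL) ^ a * xL ^ (-2 : ℤ)) v u) - (a : ℂ) * be A D α v u = 0
  rw [nu_act h hD α hα a b u v ha hv hu, sub_self]

theorem rs_vac (f : LaurentSeries ℂ) (hf : OG (-1) f) (v : V) :
    rs A f v A.vac = f.coeff (-1) • v := by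
  unfold rs
  rw [finsum_eq_single _ (-1)]
  · rw [A.creation_neg_one]
  · intro i hi
    by_cases h0 : 0 ≤ i
    · rw [A.creation v i h0, smul_zero]
    · rw [hf i (by omega), zero_smul]

theorem be_vac (hD : IsDer A D) (α : Module.Dual ℂ V) (a : ℤ) (v : V) (hv : v ∈ A.gr a) :
    be A D α v A.vac = α v := by
  rw [be_of_mem hD α a v A.vac hv]
  have h1 : LD (-1) (xL ^ (-1 : ℤ) * (1 + xL) ^ a) := by
    have := (LD_xL.zpow (-1)).mul (LD_y_zpow a)
    simpa using this
  have h2 : LD 0 (xL ^ (-1 : ℤ) * (1 + xL) ^ a * Lg) := by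
    have := h1.mul LD_Lg
    simpa using this
  rw [rs_vac _ h1.1, rs_vac _ (h2.1.mono (by norm_num)), h1.2, h2.1 (-1) (by norm_num), one_smul,
    zero_smul, map_zero]
  ring

/-- The conclusion of part III. -/
theorem D_zero_of (h : CFT A) (hD : IsDer A D) (α : Module.Dual ℂ V) (hα : IsAlpha A D α)
    (e : V) (he0 : al0 A e = 0)
    (he : ∀ a : ℤ, 1 ≤ a → ∀ v ∈ A.gr a, ∀ nu ∈ GG A 1,
      nu (rs A ((1 + xL) ^ a * xL ^ (-2 : ℤ)) v e) =
        nu (rs A ((1 + xL) ^ a * xL ^ (-2 : ℤ)) v A.vac))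
    (hlev : ∀ a : ℤ, ∀ v ∈ A.gr a, ∀ nu ∈ GG A 1,
      nu ∘ₗ rsv A ((1 + xL) ^ a * xL ^ (-2 : ℤ)) v ∈ GG A 0)
    (hnd : ∀ w : V, (∀ (n : ℤ) (v : V), al0 A (A.Y w n v) = 0) → w = 0) : D = 0 := by
  have hnu := nu_mem h hD α hα
  -- `alpha = beta (e, ·)` in positive degrees
  have h1 : ∀ a : ℤ, 1 ≤ a → ∀ v ∈ A.gr a, α v = be A D α e v := by
    intro a ha v hv
    have h2 := he a ha v hv _ hnu
    have h3 := nu_act_all h hD α hα a e v ha hv
    have h4 := nu_act_all h hD α hα a A.vac v ha hv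
    rw [h2, h4] at h3
    have h5 : (a : ℂ) ≠ 0 := by exact_mod_cast (show a ≠ 0 by omega)
    rw [be_symm_all h hD α hα e v, ← mul_left_cancel₀ h5 h3, be_vac hD α a v hv]
  -- `beta (e, ·)` is of level zero
  have h6 : ∀ a : ℤ, beL A D α (pr A a e) ∈ GG A 0 := by
    intro a
    have hm : pr A a e ∈ A.gr a := hcomp_mem A.internal a e
    by_cases ha : 1 ≤ a
    · have h7 := hlev a _ hm _ hnu
      have h8 : beL A D α (pr A a e) = (-(a : ℂ)⁻¹) •
          (nuf A α ∘ₗ rsv A ((1 + xL) ^ a * xL ^ (-2 : ℤ)) (pr A a e)) := by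
        refine LinearMap.ext fun u => ?_
        have h9 := nu_act_all h hD α hα a u _ ha hm
        have h5 : (a : ℂ) ≠ 0 := by exact_mod_cast (show a ≠ 0 by omega)
        have h10 : (nuf A α ∘ₗ rsv A ((1 + xL) ^ a * xL ^ (-2 : ℤ)) (pr A a e)) u =
          nuf A α (rs A ((1 + xL) ^ a * xL ^ (-2 : ℤ)) (pr A a e) u) := rfl
        rw [LinearMap.smul_apply, smul_eq_mul, h10, beL_apply]
        generalize nuf A α (rs A ((1 + xL) ^ a * xL ^ (-2 : ℤ)) (pr A a e) u) = X at h9
        have h11 : (a : ℂ) * (a : ℂ)⁻¹ = 1 := mul_inv_cancel₀ h5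
        linear_combination (-(a : ℂ)⁻¹) * h9 - be A D α (pr A a e) u * h11
      rw [h8]
      exact Submodule.smul_mem _ _ h7
    · have h7 : pr A a e = 0 := by
        by_cases ha0 : a = 0
        · rw [ha0, al0_spec h e, he0, zero_smul]
        · rw [h.neg a (by omega), Submodule.mem_bot] at hm
          exact hm
      rw [h7, map_zero]
      exact Submodule.zero_mem _
  have h11 : beL A D α e ∈ GG A 0 := by
    have h12 := hcomp_sum A.internal e
    rw [← h12, map_finsum _ (hcomp_fin A.internal e)]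
    rw [finsum_eq_sum_of_support_subset (s := (hcomp_fin A.internal e).toFinset)]
    · exact Submodule.sum_mem _ (fun a _ => h6 a)
    · intro a ha
      rw [Function.mem_support] at ha
      rw [Set.Finite.coe_toFinset]
      intro h13
      apply ha
      show beL A D α (hcomp A.internal a e) = 0
      rw [h13, map_zero]
  -- `alpha` kills `O(V)`
  have h14 : ∀ w : V, al0 A w = 0 → α w = be A D α e w := by
    intro w hw
    have h15 : ∀ a : ℤ, α (pr A a w) = be A D α e (pr A a w) := by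
      intro a
      have hm : pr A a w ∈ A.gr a := hcomp_mem A.internal a w
      by_cases ha : 1 ≤ a
      · exact h1 a ha _ hm
      · have h7 : pr A a w = 0 := by
          by_cases ha0 : a = 0
          · rw [ha0, al0_spec h w, hw, zero_smul]
          · rw [h.neg a (by omega), Submodule.mem_bot] at hm
            exact hm
        rw [h7, ← beL_apply, map_zero, map_zero]
    have h12 := hcomp_sum A.internal w
    have h16 : α w = ∑ᶠ a : ℤ, α (pr A a w) := by
      conv_lhs => rw [← h12]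
      rw [map_finsum _ (hcomp_fin A.internal w)]
    have h17 : be A D α e w = ∑ᶠ a : ℤ, be A D α e (pr A a w) := by
      rw [← beL_apply]
      conv_lhs => rw [← h12]
      rw [map_finsum _ (hcomp_fin A.internal w)]
      rfl
    rw [h16, h17]
    exact finsum_congr h15
  have h18 : ∀ (a b : ℤ) (u v : V), u ∈ A.gr a → v ∈ A.gr b →
      al0 A (A.Y (D u) (a + b - 1) v) = 0 := by
    intro a b u v hu hv
    by_cases ha : a < 0
    · rw [h.neg a ha, Submodule.mem_bot] at hu
      rw [hu]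
      simp
    by_cases hb : b < 0
    · rw [h.neg b hb, Submodule.mem_bot] at hv
      rw [hv]
      simp
    push Not at ha hb
    have hp : (1 + xL : LaurentSeries ℂ) ^ (a - 1) * pho = (1 + xL) ^ a * xL ^ (-2 : ℤ) := by
      have e2 : (-2 : ℤ) = -1 + -1 := by norm_num
      unfold pho
      rw [e2, zpow_add₀ xL_ne, zpow_neg_one]
      have : (1 + xL : LaurentSeries ℂ) ^ a = (1 + xL) ^ (a - 1) * (1 + xL) := by
        rw [← zpow_add_one₀ y_ne, sub_add_cancel]
      rw [this]
      ring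
    have h19 : al0 A (WW A pho u v) = 0 := by
      rw [WW_of_mem A _ a u v hu, hp, mul_comm, p3_al0_rs h a b u v hu hv, trm_coeff,
        p3_y_high a _ ha (by omega), zero_mul]
    have h20 := hα.P1 u v
    have h21 : be A D α e (WW A pho u v) = 0 := by
      rw [WW_of_mem A _ a u v hu, hp]
      exact h11 a u hu v a 2 (by omega) (by omega)
    rw [h14 _ h19, h21, WW_of_mem A _ a (D u) v (D_gr hD a u hu), ← mul_assoc, hp,
      p3_al0_rs h a b (D u) v (D_gr hD a u hu) hv] at h20
    have hk : kap ≠ 0 := by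
      unfold kap
      exact inv_ne_zero Complex.two_pi_I_ne_zero
    have hc : ((1 + xL) ^ a * xL ^ (-2 : ℤ) * Lg : LaurentSeries ℂ).coeff (a + b - 1) ≠ 0 := by
      obtain ⟨a', rfl⟩ := Int.eq_ofNat_of_zero_le ha
      obtain ⟨b', rfl⟩ := Int.eq_ofNat_of_zero_le hb
      have e3 : ((1 + xL) ^ (a' : ℤ) * xL ^ (-2 : ℤ) * Lg : LaurentSeries ℂ) =
          xL ^ (-2 : ℤ) * ((1 + xL) ^ (a' : ℤ) * Lg) := by ring
      rw [e3, trm_xL_zpow, HahnSeries.coeff_single_mul, one_mul]
      have e4 : (a' : ℤ) + b' - 1 - -2 = a' + b' + 1 := by ring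
      rw [e4]
      exact p3_ylog_ne a' b'
    rcases mul_eq_zero.1 h20.symm with h22 | h22
    · exact absurd h22 hk
    · rcases mul_eq_zero.1 h22 with h23 | h23
      · exact absurd h23 hc
      · exact h23
  -- conclusion
  refine LinearMap.ext fun u => ?_
  rw [LinearMap.zero_apply]
  refine hom_ind A (P := fun u => D u = 0) u (map_zero D) ?_ ?_
  · intro x y hx hy
    rw [map_add, hx, hy, add_zero]
  intro a u hu
  apply hnd
  intro n v
  refine hom_ind A (P := fun v => al0 A (A.Y (D u) n v) = 0) v ?_ ?_ ?_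
  · simp
  · intro x y hx hy
    rw [map_add, map_add, hx, hy, add_zero]
  intro b v hv
  by_cases hn : n = a + b - 1
  · rw [hn]
    exact h18 a b u v hu hv
  · exact al0_of_mem h (b + a - n - 1) (by omega) _ (A.graded a n b (D u) v (D_gr hD a u hu) hv)

end Pool.Agent.DERV
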