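import Pool.Agent.DERV.TRM
import Pool.Agent.DERV.BRV
import Pool.Agent.VL.MA

/-!
# Project DERV, part III: skew symmetry for functionals
-/

set_option autoImplicit false

universe u

open Finset

namespace Pool.Agent.DERV

open Pool.Agent.VOAut

variable {V : Type u} [AddCommGroup V] [Module ℂ V] {A : VOA V}

/-- Skew symmetry. -/
theorem p3_skew0 (u v : V) (l : ℤ) : A.Y v l u =
    ∑ᶠ i : ℕ, ((-1 : ℂ) ^ (l + i + 1)) • A.Y (A.Y u (l + i) v) (-1 - i) A.vac := by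
  have h := A.jacobi u v A.vac l (-1) 0
  have hr : ∑ᶠ i : ℕ, ((-1 : ℂ) ^ i * ((Ring.choose l i : ℤ) : ℂ)) •
      (A.Y u (-1 + l - i) (A.Y v (0 + i) A.vac) -
        (-1 : ℂ) ^ l • A.Y v (0 + l - i) (A.Y u (-1 + i) A.vac)) =
      -((-1 : ℂ) ^ l • A.Y v l u) := by
    rw [finsum_eq_single _ 0]
    · rw [A.creation v (0 + ((0 : ℕ) : ℤ)) (by simp)]
      have e1 : (-1 : ℤ) + ((0 : ℕ) : ℤ) = -1 := by simp
      have e2 : (0 : ℤ) + l - ((0 : ℕ) : ℤ) = l := by simp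
      rw [e1, e2, A.creation_neg_one, Ring.choose_zero_right]
      simp
    · intro i hi
      rw [A.creation v (0 + (i : ℤ)) (by omega), A.creation u (-1 + (i : ℤ)) (by omega)]
      simp
  rw [hr] at h
  have hne : ((-1 : ℂ) ^ l) ≠ 0 := zpow_ne_zero _ (by norm_num)
  have h1 : A.Y v l u = (-((-1 : ℂ) ^ l)) • (-((-1 : ℂ) ^ l • A.Y v l u)) := by
    rw [smul_neg, neg_smul, neg_neg, smul_smul, ← zpow_add₀ (by norm_num : (-1 : ℂ) ≠ 0),
      Even.neg_one_zpow ⟨l, rfl⟩, one_smul]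
  rw [h1, ← h]
  obtain ⟨N, hN⟩ := A.trunc_nat u v l
  rw [finsum_eq_range _ N (fun i hi => by rw [hN i hi]; simp),
    finsum_eq_range _ N (fun i hi => by rw [hN i hi]; simp), Finset.smul_sum]
  apply Finset.sum_congr rfl
  intro i _
  rw [smul_smul]
  have h2 := Pool.Agent.VL.ma_ch1 i
  have h3 : ((Ring.choose (-1 : ℤ) i : ℤ) : ℂ) = (-1) ^ i := by
    have h4 : ((-1 : ℂ) ^ i) * ((-1 : ℂ) ^ i) = 1 := by
      rw [← pow_add, Even.neg_one_pow ⟨i, rfl⟩]
    calc ((Ring.choose (-1 : ℤ) i : ℤ) : ℂ) = ((-1 : ℂ) ^ i * (-1 : ℂ) ^ i) *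
          ((Ring.choose (-1 : ℤ) i : ℤ) : ℂ) := by rw [h4, one_mul]
      _ = (-1) ^ i * ((-1 : ℂ) ^ i * ((Ring.choose (-1 : ℤ) i : ℤ) : ℂ)) := by ring
      _ = (-1) ^ i := by rw [h2, mul_one]
  rw [h3, add_zero]
  congr 1
  rw [zpow_add₀ (by norm_num : (-1 : ℂ) ≠ 0), zpow_add₀ (by norm_num : (-1 : ℂ) ≠ 0), zpow_one,
    zpow_natCast]
  ring

/-- Coefficients of powers: `(i + 1) C(s, i + 1) = s C(s - 1, i)`. -/
theorem p3_choose_succ (s : ℤ) (i : ℕ) :
    ((i : ℂ) + 1) * ((Ring.choose s (i + 1) : ℤ) : ℂ) = s * ((Ring.choose (s - 1) i : ℤ) : ℂ) := by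
  have h := congrArg (fun f => f.coeff (i : ℤ)) (dL_y_zpow s)
  simp only [coeff_dL, coeff_cc_mul] at h
  have e : ((i : ℤ) + 1) = ((i + 1 : ℕ) : ℤ) := by push_cast; ring
  rw [e, trm_choose, trm_choose] at h
  exact_mod_cast h

theorem p3_al_vac (α : Module.Dual ℂ V) (hα : ∀ w, α (A.Y A.om 0 w) = -α (A.Y A.om 1 w))
    (i : ℕ) : ∀ (n : ℤ) (w : V), w ∈ A.gr n →
    α (A.Y w (-1 - i) A.vac) = ((Ring.choose (-n) i : ℤ) : ℂ) * α w := by
  induction i with
  | zero =>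
    intro n w _
    rw [Ring.choose_zero_right]
    have e : (-1 : ℤ) - ((0 : ℕ) : ℤ) = -1 := by simp
    rw [e, A.creation_neg_one]
    simp
  | succ i ih =>
    intro n w hw
    have h1 := congrArg (fun f => f A.vac) (A.translation w (-1 - (i : ℤ)))
    simp only [LinearMap.smul_apply] at h1
    have hw1 : A.Y A.om 0 w ∈ A.gr (n + 1) := by
      have := A.graded 2 0 n A.om w (om_mem A) hw
      have e : n + 2 - 0 - 1 = n + 1 := by ring
      rwa [e] at this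
    have h2 := ih (n + 1) _ hw1
    rw [h1, map_smul, hα, (A.mem_gr n w).1 hw, map_smul, smul_eq_mul, smul_eq_mul] at h2
    have e1 : (-1 : ℤ) - ((i + 1 : ℕ) : ℤ) = -1 - i - 1 := by push_cast; ring
    rw [e1]
    have h3 := p3_choose_succ (-n) i
    have e2 : -n - 1 = -(n + 1) := by ring
    rw [e2] at h3
    have h4 : ((i : ℂ) + 1) ≠ 0 := by exact_mod_cast Nat.succ_ne_zero i
    apply mul_left_cancel₀ h4
    push_cast at h2 h3 ⊢
    linear_combination h2 - α w * h3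

/-- The case where one side is a single mode. -/
theorem p3_D0 (α : Module.Dual ℂ V) (hα : ∀ w, α (A.Y A.om 0 w) = -α (A.Y A.om 1 w))
    (a b l : ℤ) (u v : V) (hu : u ∈ A.gr a) (hv : v ∈ A.gr b) :
    α (rs A (xL ^ l * (1 + xL) ^ (a + b - 2 - l)) u v) = -(-1 : ℂ) ^ l * α (A.Y v l u) := by
  obtain ⟨N, hN, h⟩ := trm_rs (A := A) l (a + b - 2 - l) u v
  rw [h, p3_skew0 u v l, finsum_eq_range _ N (fun i hi => by rw [hN i hi]; simp), map_sum, map_sum,
    Finset.mul_sum]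
  apply Finset.sum_congr rfl
  intro i _
  rw [map_smul, map_smul, smul_eq_mul, smul_eq_mul,
    p3_al_vac α hα i (b + a - (l + i) - 1) _ (A.graded a (l + i) b u v hu hv)]
  have h1 : ((Ring.choose (a + b - 2 - l) i : ℤ) : ℂ) =
      (-1) ^ i * ((Ring.choose (-(b + a - (l + i) - 1)) i : ℤ) : ℂ) := by
    rw [Ring.choose_neg]
    have e : b + a - (l + (i : ℤ)) - 1 + i - 1 = a + b - 2 - l := by ring
    rw [e]
    rcases Nat.even_or_odd i with hi | hi
    · rw [Int.negOnePow_even _ ((Int.even_coe_nat i).2 hi), hi.neg_one_pow]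
      simp
    · rw [Int.negOnePow_odd _ ((Int.odd_coe_nat i).2 hi), hi.neg_one_pow]
      simp
  rw [h1, zpow_add₀ (by norm_num : (-1 : ℂ) ≠ 0), zpow_add₀ (by norm_num : (-1 : ℂ) ≠ 0), zpow_one,
    zpow_natCast]
  have h5 : ((-1 : ℂ) ^ l) * ((-1 : ℂ) ^ l) = 1 := by
    rw [← zpow_add₀ (by norm_num : (-1 : ℂ) ≠ 0), Even.neg_one_zpow ⟨l, rfl⟩]
  linear_combination -((-1 : ℂ) ^ i * ((Ring.choose (-(b + a - (l + i) - 1)) i : ℤ) : ℂ) *
    α (A.Y u (l + i) v)) * h5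

theorem p3_const (E : ℤ → ℂ) (h : ∀ p, E p = E (p - 1)) (p q : ℤ) : E p = E q := by
  have h0 : ∀ p, E p = E 0 := by
    intro p
    induction p using Int.induction_on with
    | zero => rfl
    | succ k hk =>
      rw [h, add_sub_cancel_right, hk]
    | pred k hk =>
      rw [← h, hk]
  rw [h0 p, h0 q]

/-- Skew symmetry for functionals that satisfy `α L(-1) = - α L(0)`. -/
theorem p3_skew (α : Module.Dual ℂ V) (hα : ∀ w, α (A.Y A.om 0 w) = -α (A.Y A.om 1 w))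
    (a b : ℤ) (u v : V) (hu : u ∈ A.gr a) (hv : v ∈ A.gr b) (l p : ℤ) :
    α (rs A (xL ^ l * (1 + xL) ^ p) u v) =
      -(-1 : ℂ) ^ l * α (rs A (xL ^ l * (1 + xL) ^ (a + b - 2 - p - l)) v u) := by
  obtain ⟨N1, hN1⟩ := rs_van A u v
  obtain ⟨N2, hN2⟩ := rs_van A v u
  have hOG : ∀ l p : ℤ, OG l (xL ^ l * (1 + xL) ^ p) := by
    intro l p
    have h1 : LD l (xL ^ l) := by
      have := LD_xL.zpow l
      rwa [mul_one] at this
    have := (h1.mul (LD_y_zpow p)).1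
    rwa [add_zero] at this
  suffices key : ∀ (k : ℕ) (l : ℤ), max N1 N2 - k ≤ l → ∀ p : ℤ,
      α (rs A (xL ^ l * (1 + xL) ^ p) u v) +
      (-1 : ℂ) ^ l * α (rs A (xL ^ l * (1 + xL) ^ (a + b - 2 - p - l)) v u) = 0 by
    have := key (max N1 N2 - l).toNat l (by have := Int.self_le_toNat (max N1 N2 - l); omega) p
    linear_combination this
  intro k
  induction k with
  | zero =>
    intro l hl p
    rw [hN1 _ ((hOG l p).mono (by push_cast at hl; omega)),
      hN2 _ ((hOG l _).mono (by push_cast at hl; omega))]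
    simp
  | succ k ih =>
    intro l hl p
    have hE : ∀ p, α (rs A (xL ^ l * (1 + xL) ^ p) u v) +
      (-1 : ℂ) ^ l * α (rs A (xL ^ l * (1 + xL) ^ (a + b - 2 - p - l)) v u) =
      α (rs A (xL ^ l * (1 + xL) ^ (p - 1)) u v) +
      (-1 : ℂ) ^ l * α (rs A (xL ^ l * (1 + xL) ^ (a + b - 2 - (p - 1) - l)) v u) := by
      intro p
      have h0 := ih (l + 1) (by push_cast at hl; omega) (p - 1)
      have e1 : (xL ^ l * (1 + xL) ^ p : LaurentSeries ℂ) = xL ^ l * (1 + xL) ^ (p - 1) +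
          xL ^ (l + 1) * (1 + xL) ^ (p - 1) := by
        rw [zpow_add_one₀ xL_ne]
        have : (1 + xL : LaurentSeries ℂ) ^ p = (1 + xL) ^ (p - 1) * (1 + xL) := by
          rw [← zpow_add_one₀ y_ne, sub_add_cancel]
        rw [this]
        ring
      have e2 : (xL ^ l * (1 + xL) ^ (a + b - 2 - (p - 1) - l) : LaurentSeries ℂ) =
          xL ^ l * (1 + xL) ^ (a + b - 2 - p - l) +
          xL ^ (l + 1) * (1 + xL) ^ (a + b - 2 - (p - 1) - (l + 1)) := by
        have e3 : a + b - 2 - (p - 1) - l = (a + b - 2 - p - l) + 1 := by ring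
        have e4 : a + b - 2 - (p - 1) - (l + 1) = a + b - 2 - p - l := by ring
        rw [e3, e4, zpow_add_one₀ xL_ne, zpow_add_one₀ y_ne]
        ring
      rw [e1, e2, rs_add_f, rs_add_f, map_add, map_add]
      rw [zpow_add_one₀ (by norm_num : (-1 : ℂ) ≠ 0)] at h0
      linear_combination h0
    have := p3_const (fun p => α (rs A (xL ^ l * (1 + xL) ^ p) u v) +
      (-1 : ℂ) ^ l * α (rs A (xL ^ l * (1 + xL) ^ (a + b - 2 - p - l)) v u)) hE p (a + b - 2 - l)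
    beta_reduce at this
    rw [this, p3_D0 α hα a b l u v hu hv]
    have e5 : a + b - 2 - (a + b - 2 - l) - l = 0 := by ring
    rw [e5, zpow_zero, mul_one, trm_xL_zpow, rs_single, one_smul]
    ring

theorem p3_al0_L1 (h : CFT A) (n : ℤ) (w : V) (hw : w ∈ A.gr n) (i : ℕ) (hi : 1 ≤ i) :
    al0 A (A.Y w (-1 - i) A.vac) = 0 := by
  by_cases hn : n < 0
  · rw [h.neg n hn, Submodule.mem_bot] at hw
    rw [hw]
    simp
  · apply al0_of_mem h (0 + n - (-1 - i) - 1) (by omega)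
    exact A.graded n (-1 - i) 0 w A.vac hw (vac_mem A)

/-- The vacuum functional is skew symmetric. -/
theorem p3_al0_skew (h : CFT A) (u v : V) (l : ℤ) :
    al0 A (A.Y v l u) = (-1 : ℂ) ^ (l + 1) * al0 A (A.Y u l v) := by
  have h1 : ∀ (w : V) (i : ℕ), 1 ≤ i → al0 A (A.Y w (-1 - i) A.vac) = 0 := by
    intro w i hi
    refine hom_ind A (P := fun w => al0 A (A.Y w (-1 - i) A.vac) = 0) w ?_ ?_ ?_
    · simp
    · intro x y hx hy
      rw [map_add, Pi.add_apply, LinearMap.add_apply, map_add, hx, hy, add_zero]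
    · intro n x hx
      exact p3_al0_L1 h n x hx i hi
  rw [p3_skew0 u v l]
  obtain ⟨N, hN⟩ := A.trunc_nat u v l
  rw [finsum_eq_range _ (N + 1) (fun i hi => by rw [hN i (by omega)]; simp), map_sum,
    Finset.sum_eq_single 0]
  · have e1 : (-1 : ℤ) - ((0 : ℕ) : ℤ) = -1 := by simp
    rw [map_smul, e1, A.creation_neg_one, smul_eq_mul]
    simp
  · intro i _ hi
    rw [map_smul, h1 _ i (by omega), smul_zero]
  · intro h2
    simp at h2

end Pool.Agent.DERV
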