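import Pool.Agent.DERV.EKC

/-!
# Project DERV, part II: products of modes on modules
-/

set_option autoImplicit false

universe u

open Finset

namespace Pool.Agent.DERV

open Pool.Agent.VOAut
open UpperHalfPlane hiding I
open scoped Nat ArithmeticFunction.sigma Manifold

variable {V : Type u} [AddCommGroup V] [Module ℂ V]

variable {A : VOA V} {M : Type u} [AddCommGroup M] [Module ℂ M] (X : AdmissibleModule A M)

theorem trm_coeff_mul_y (f : LaurentSeries ℂ) (k : ℤ) :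
    (f * (1 + xL)).coeff (k + 1) = f.coeff (k + 1) + f.coeff k := by
  rw [mul_add, mul_one, HahnSeries.coeff_add]
  congr 1
  unfold xL
  rw [HahnSeries.coeff_mul_single, mul_one]
  congr 1
  ring

theorem trm_choose (i : ℕ) : ∀ s : ℤ, ((1 + xL : LaurentSeries ℂ) ^ s).coeff i =
    ((Ring.choose s i : ℤ) : ℂ) := by
  induction i with
  | zero =>
    intro s
    rw [Ring.choose_zero_right]
    have := (LD_y_zpow s).2
    push_cast
    exact this
  | succ i ih =>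
    have hstep : ∀ s : ℤ, ((1 + xL : LaurentSeries ℂ) ^ (s + 1)).coeff ((i + 1 : ℕ) : ℤ) -
        ((Ring.choose (s + 1) (i + 1) : ℤ) : ℂ) =
        ((1 + xL : LaurentSeries ℂ) ^ s).coeff ((i + 1 : ℕ) : ℤ) -
        ((Ring.choose s (i + 1) : ℤ) : ℂ) := by
      intro s
      rw [zpow_add_one₀ y_ne]
      push_cast
      rw [trm_coeff_mul_y, ih s, Ring.choose_succ_succ]
      push_cast
      ring
    intro s
    rw [← sub_eq_zero]
    induction s using Int.induction_on with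
    | zero =>
      rw [zpow_zero, HahnSeries.coeff_one, if_neg (by push_cast; omega),
        Ring.choose_zero_pos _ (Nat.succ_pos i)]
      simp
    | succ k hk => rw [hstep, hk]
    | pred k hk =>
      have := hstep (-(k : ℤ) - 1)
      rw [sub_add_cancel, hk] at this
      exact this.symm

theorem trm_xL_zpow (l : ℤ) : xL ^ l = (HahnSeries.single l 1 : LaurentSeries ℂ) := by
  induction l using Int.induction_on with
  | zero => simp
  | succ k hk =>
    rw [zpow_add_one₀ xL_ne, hk]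
    unfold xL
    rw [HahnSeries.single_mul_single, mul_one]
  | pred k hk =>
    rw [zpow_sub_one₀ xL_ne, hk]
    rw [← mul_right_inj' xL_ne, mul_left_comm, mul_inv_cancel₀ xL_ne, mul_one]
    unfold xL
    rw [HahnSeries.single_mul_single, mul_one]
    have e : (1 : ℤ) + (-(k : ℤ) - 1) = -(k : ℤ) := by ring
    rw [e]

theorem trm_coeff (l m k : ℤ) : (xL ^ l * (1 + xL) ^ m : LaurentSeries ℂ).coeff k =
    ((1 + xL : LaurentSeries ℂ) ^ m).coeff (k - l) := by
  rw [trm_xL_zpow, HahnSeries.coeff_single_mul, one_mul]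

/-- `rs` for `x ^ l (1 + x) ^ m`. -/
theorem trm_rs (l m : ℤ) (u v : V) : ∃ N : ℕ, (∀ i : ℕ, N ≤ i → A.Y u (l + i) v = 0) ∧
    rs A (xL ^ l * (1 + xL) ^ m) u v =
      ∑ i ∈ range N, ((Ring.choose m i : ℤ) : ℂ) • A.Y u (l + i) v := by
  obtain ⟨N, hN⟩ := A.trunc_nat u v l
  refine ⟨N, hN, ?_⟩
  unfold rs
  rw [finsum_eq_sum_of_support_subset (s := Finset.Ico l (l + N))]
  · refine Finset.sum_bij' (fun k _ => (k - l).toNat) (fun i _ => l + i) ?_ ?_ ?_ ?_ ?_
    · intro k hk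
      rw [Finset.mem_Ico] at hk
      rw [Finset.mem_range]
      omega
    · intro i hi
      rw [Finset.mem_range] at hi
      rw [Finset.mem_Ico]
      omega
    · intro k hk
      rw [Finset.mem_Ico] at hk
      have := Int.toNat_of_nonneg (show 0 ≤ k - l by omega)
      rw [this]
      ring
    · intro i _
      simp
    · intro k hk
      rw [Finset.mem_Ico] at hk
      have := Int.toNat_of_nonneg (show 0 ≤ k - l by omega)
      rw [trm_coeff, ← trm_choose, this]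
      congr 2
      ring_nf
  · intro k hk
    rw [Function.mem_support] at hk
    rw [Finset.coe_Ico, Set.mem_Ico]
    constructor
    · by_contra h
      apply hk
      rw [trm_coeff, (LD_y_zpow m).1 (k - l) (by omega), zero_smul]
    · by_contra h
      apply hk
      have := hN (k - l).toNat (by omega)
      rw [Int.toNat_of_nonneg (show 0 ≤ k - l by omega), add_sub_cancel] at this
      rw [this, smul_zero]

theorem trm_left (a b l m n : ℤ) (u v : V) (hu : u ∈ A.gr a) (hv : v ∈ A.gr b) (x : M)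
    (h : m + n = a + b - 2 - l) :
    (∑ᶠ i : ℕ, ((Ring.choose m i : ℤ) : ℂ) • X.Y (A.Y u (l + i) v) (m + n - i) x) =
      zm X (rs A (xL ^ l * (1 + xL) ^ m) u v) x := by
  obtain ⟨N, hN, e⟩ := trm_rs (A := A) l m u v
  rw [finsum_eq_range _ N, e, ← zmL_apply, map_sum, LinearMap.sum_apply]
  · apply Finset.sum_congr rfl
    intro i _
    rw [map_smul, LinearMap.smul_apply, zmL_apply, zm_of_mem X _ _ (A.graded a (l + i) b u v hu hv)]
    have e1 : m + n - i = b + a - (l + i) - 1 - 1 := by rw [h]; ring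
    rw [e1]
  · intro i hi
    rw [hN i hi, map_zero, Pi.zero_apply, LinearMap.zero_apply, smul_zero]

theorem zm_comm (a b n : ℤ) (u v : V) (hu : u ∈ A.gr a) (hv : v ∈ A.gr b) (x : M) :
    X.Y u (a - 1 + n) (X.Y v (b - 1 - n) x) - X.Y v (b - 1 - n) (X.Y u (a - 1 + n) x) =
      zm X (WW A ((1 + xL) ^ n) u v) x := by
  have h1 := X.jacobi u v x 0 (a - 1 + n) (b - 1 - n)
  rw [trm_left X a b 0 (a - 1 + n) (b - 1 - n) u v hu hv x (by ring)] at h1
  rw [WW_of_mem A _ a u v hu, ← zpow_add₀ y_ne]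
  rw [zpow_zero, one_mul] at h1
  rw [h1, finsum_eq_single _ 0]
  · simp
  · intro i hi
    rw [Ring.choose_zero_pos _ (Nat.pos_of_ne_zero hi)]
    simp

theorem trm_van (b n : ℤ) (v : V) (hv : v ∈ A.gr b) (i : ℤ) (hn : i < n) (x : M)
    (hx : x ∈ X.gr i) : X.Y v (b - 1 + n) x = 0 := by
  have h1 := X.graded b (b - 1 + n) i v x hv hx
  rw [X.nonneg _ (by omega)] at h1
  exact (Submodule.mem_bot ℂ).1 h1

theorem trm_ch1 (i : ℕ) : (-1 : ℂ) ^ i * ((Ring.choose (-1 : ℤ) i : ℤ) : ℂ) = 1 := by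
  have h1 : Ring.choose (-1 : ℤ) i = (-1) ^ i := by
    rw [Ring.choose_neg', Ring.multichoose_one, Units.smul_def, Int.coe_negOnePow_natCast]
    simp
  rw [h1]
  push_cast
  rw [← mul_pow]
  norm_num

theorem trm_ch2 (i : ℕ) : (-1 : ℂ) ^ i * ((Ring.choose (-2 : ℤ) i : ℤ) : ℂ) = (i : ℂ) + 1 := by
  have h1 : Ring.choose (-2 : ℤ) i = (-1) ^ i * ((i : ℤ) + 1) := by
    rw [Ring.choose_neg', Ring.multichoose_two, Units.smul_def, Int.coe_negOnePow_natCast]
    simp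
  rw [h1]
  push_cast
  rw [← mul_assoc, ← mul_pow]
  norm_num

theorem trm_neg (y : M) : (-1 : ℂ) ^ (-1 : ℤ) • y = -y := by
  have h3 : (-1 : ℂ) ^ (-1 : ℤ) = -1 := by norm_num
  rw [h3]
  exact neg_one_smul ℂ y

theorem trm_pos (y : M) : (-1 : ℂ) ^ (-2 : ℤ) • y = y := by
  have h3 : (-1 : ℂ) ^ (-2 : ℤ) = 1 := by
    norm_num
  rw [h3]
  exact one_smul ℂ y

theorem zm_phs (a b : ℤ) (u v : V) (hu : u ∈ A.gr a) (hv : v ∈ A.gr b) (i : ℕ) (x : M)
    (hx : x ∈ X.gr i) : zm X (WW A phs u v) x = zm X u (zm X v x) +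
      ∑ n ∈ Icc 1 i, (X.Y u (a - 1 - n) (X.Y v (b - 1 + n) x) +
        X.Y v (b - 1 - n) (X.Y u (a - 1 + n) x)) := by
  have h1 := X.jacobi u v x (-1) a (b - 1)
  rw [trm_left X a b (-1) a (b - 1) u v hu hv x (by ring)] at h1
  have e1 : (1 + xL : LaurentSeries ℂ) ^ (a - 1) * phs = xL ^ (-1 : ℤ) * (1 + xL) ^ a := by
    unfold phs
    rw [zpow_neg_one, ← mul_assoc, ← zpow_add_one₀ y_ne, sub_add_cancel, mul_comm]
  have e2 : ∀ j : ℕ, ((-1 : ℂ) ^ j * ((Ring.choose (-1 : ℤ) j : ℤ) : ℂ)) •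
        (X.Y u (a + -1 - j) (X.Y v (b - 1 + j) x) -
          (-1 : ℂ) ^ (-1 : ℤ) • X.Y v (b - 1 + -1 - j) (X.Y u (a + j) x)) =
        X.Y u (a - 1 - j) (X.Y v (b - 1 + j) x) +
          X.Y v (b - 1 - ((j + 1 : ℕ) : ℤ)) (X.Y u (a - 1 + ((j + 1 : ℕ) : ℤ)) x) := by
    intro j
    rw [trm_ch1, one_smul, trm_neg, sub_neg_eq_add]
    have e3 : b - 1 + -1 - (j : ℤ) = b - 1 - ((j + 1 : ℕ) : ℤ) := by push_cast; ring
    have e4 : a + (j : ℤ) = a - 1 + ((j + 1 : ℕ) : ℤ) := by push_cast; ring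
    have e5 : a + -1 - (j : ℤ) = a - 1 - j := by ring
    rw [e3, e4, e5]
  rw [WW_of_mem A _ a u v hu, e1, h1, finsum_eq_range _ (i + 1)]
  · rw [Finset.sum_congr rfl (fun j _ => e2 j), Finset.sum_add_distrib, Finset.sum_range_succ',
      Finset.sum_range_succ (fun j : ℕ => X.Y v (b - 1 - ((j + 1 : ℕ) : ℤ))
        (X.Y u (a - 1 + ((j + 1 : ℕ) : ℤ)) x)),
      trm_van X a ((i + 1 : ℕ) : ℤ) u hu i (by push_cast; omega) x hx, map_zero, add_zero,
      zm_of_mem X a u hu, zm_of_mem X b v hv, Finset.sum_add_distrib]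
    have e6 : ∀ g : ℕ → M, ∑ n ∈ Icc 1 i, g n = ∑ j ∈ range i, g (j + 1) := by
      intro g
      rw [Finset.range_eq_Ico, Finset.sum_Ico_add' (fun n => g n) 0 i 1]
      apply Finset.sum_congr _ (fun _ _ => rfl)
      ext n
      simp only [Finset.mem_Icc, Finset.mem_Ico]
      omega
    rw [e6, e6]
    simp only [Nat.cast_zero, sub_zero, add_zero]
    abel
  · intro j hj
    rw [e2 j, trm_van X b (j : ℤ) v hv i (by omega) x hx,
      trm_van X a ((j + 1 : ℕ) : ℤ) u hu i (by push_cast; omega) x hx, map_zero, map_zero, add_zero]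

theorem zm_pho (a b : ℤ) (u v : V) (hu : u ∈ A.gr a) (hv : v ∈ A.gr b) (i : ℕ) (x : M)
    (hx : x ∈ X.gr i) : zm X (WW A pho u v) x =
      ∑ n ∈ Icc 1 i, (n : ℂ) • (X.Y u (a - 1 - n) (X.Y v (b - 1 + n) x) -
        X.Y v (b - 1 - n) (X.Y u (a - 1 + n) x)) := by
  have h1 := X.jacobi u v x (-2) a b
  rw [trm_left X a b (-2) a b u v hu hv x (by ring)] at h1
  have e1 : (1 + xL : LaurentSeries ℂ) ^ (a - 1) * pho = xL ^ (-2 : ℤ) * (1 + xL) ^ a := by
    unfold pho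
    have e7 : (xL ^ (-2 : ℤ) : LaurentSeries ℂ) = xL⁻¹ * xL⁻¹ := by
      rw [show (-2 : ℤ) = -1 + -1 by norm_num, zpow_add₀ xL_ne, zpow_neg_one]
    rw [e7, mul_assoc (1 + xL), ← mul_assoc, ← zpow_add_one₀ y_ne, sub_add_cancel, mul_comm]
  have e2 : ∀ j : ℕ, ((-1 : ℂ) ^ j * ((Ring.choose (-2 : ℤ) j : ℤ) : ℂ)) •
        (X.Y u (a + -2 - j) (X.Y v (b + j) x) -
          (-1 : ℂ) ^ (-2 : ℤ) • X.Y v (b + -2 - j) (X.Y u (a + j) x)) =
        (((j + 1 : ℕ) : ℂ)) • (X.Y u (a - 1 - ((j + 1 : ℕ) : ℤ))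
          (X.Y v (b - 1 + ((j + 1 : ℕ) : ℤ)) x) -
          X.Y v (b - 1 - ((j + 1 : ℕ) : ℤ)) (X.Y u (a - 1 + ((j + 1 : ℕ) : ℤ)) x)) := by
    intro j
    rw [trm_ch2, trm_pos]
    have e3 : b + -2 - (j : ℤ) = b - 1 - ((j + 1 : ℕ) : ℤ) := by push_cast; ring
    have e4 : a + (j : ℤ) = a - 1 + ((j + 1 : ℕ) : ℤ) := by push_cast; ring
    have e5 : a + -2 - (j : ℤ) = a - 1 - ((j + 1 : ℕ) : ℤ) := by push_cast; ring
    have e6 : b + (j : ℤ) = b - 1 + ((j + 1 : ℕ) : ℤ) := by push_cast; ring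
    rw [e3, e4, e5, e6]
    push_cast
    rfl
  rw [WW_of_mem A _ a u v hu, e1, h1, finsum_eq_range _ i]
  · rw [Finset.sum_congr rfl (fun j _ => e2 j)]
    have e6 : ∀ g : ℕ → M, ∑ n ∈ Icc 1 i, g n = ∑ j ∈ range i, g (j + 1) := by
      intro g
      rw [Finset.range_eq_Ico, Finset.sum_Ico_add' (fun n => g n) 0 i 1]
      apply Finset.sum_congr _ (fun _ _ => rfl)
      ext n
      simp only [Finset.mem_Icc, Finset.mem_Ico]
      omega
    rw [e6]
  · intro j hj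
    rw [e2 j, trm_van X b ((j + 1 : ℕ) : ℤ) v hv i (by push_cast; omega) x hx,
      trm_van X a ((j + 1 : ℕ) : ℤ) u hu i (by push_cast; omega) x hx, map_zero, map_zero,
      sub_zero, smul_zero]

end Pool.Agent.DERV
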