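import Pool.Agent.DERV.FIN2
import Pool.Agent.DERV.P3D
import Pool.Agent.DERV.CFTN
import Pool.Agent.DERVR.ZH
import Pool.Agent.DERVR.ZJ
import Pool.Agent.DERVR.RC
import Pool.Agent.DERVR.ADJ

/-!
# Project DERV: the conclusion
-/

set_option autoImplicit false

universe u

open Finset

namespace Pool.Agent.DERV

open Pool.Agent.VOAut

variable {V : Type u} [AddCommGroup V] [Module ℂ V] {A : VOA V}

theorem fin3_ft (m : ℤ) (M : ℕ) :
    DERVR.ft m M = ((1 + xL) ^ m * xL ^ (-(M : ℤ)) : LaurentSeries ℂ) := by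
  unfold DERVR.ft
  rw [zpow_neg, zpow_natCast, inv_pow]

theorem fin3_le (r : ℤ) (β : Module.Dual ℂ V) (hβ : β ∈ GG A r) : β ∈ DERVR.GG A r := by
  intro a v hv u m M h1 h2
  rw [fin3_ft]
  exact hβ a v hv u m M h1 h2

theorem fin3_ge (r : ℤ) (hr : 0 ≤ r) (β : Module.Dual ℂ V) (hβ : β ∈ DERVR.GG A r) :
    β ∈ GG A r := by
  intro a v hv u m M h1 h2
  obtain ⟨M', rfl⟩ := Int.eq_ofNat_of_zero_le (show 0 ≤ M by omega)
  have h3 := hβ a v hv u m M' h1 h2
  rwa [fin3_ft] at h3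

theorem fin3_level (a : ℤ) (v : V) (hv : v ∈ A.gr a) (nu : Module.Dual ℂ V) (hnu : nu ∈ GG A 1) :
    nu ∘ₗ rsv A ((1 + xL) ^ a * xL ^ (-2 : ℤ)) v ∈ GG A 0 := by
  have h1 := DERVR.ac_level A 1 a a v hv nu (fin3_le 1 nu hnu)
  rw [show (1 : ℤ) + a - a - 1 = 0 by ring] at h1
  have h2 : nu ∘ₗ rsv A ((1 + xL) ^ a * xL ^ (-2 : ℤ)) v = -DERVR.ac A 1 a a v nu := by
    refine LinearMap.ext fun u => ?_
    rw [LinearMap.neg_apply, DERVR.ac_apply]
    have e1 : (a + 1 - a).toNat = 1 := by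
      rw [show a + 1 - a = 1 by ring]
      rfl
    have e2 : ((1 : ℤ) + 1).toNat = 2 := rfl
    rw [e1, e2, Finset.sum_range_one, fin3_ft]
    show nu (rs A ((1 + xL) ^ a * xL ^ (-2 : ℤ)) v u) = _
    have e3 : a + ((0 : ℕ) : ℤ) = a := by simp
    have e4 : (-((2 : ℕ) : ℤ)) = -2 := by norm_num
    rw [e3, e4]
    simp
  rw [h2]
  exact Submodule.neg_mem _ (fin3_ge 0 le_rfl _ h1)

/-- Derivations of `C_2`-cofinite rational vertex operator algebras with `V_0 = ℂ 1`, `V_1 = 0`. -/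
theorem der_zero_cft (h : CFT A) (h1 : A.gr 1 = ⊥) (hc : C2 A) (hR : A.Rational)
    {D : Module.End ℂ V} (hD : IsDer A D) : D = 0 := by
  obtain ⟨p⟩ := DERVR.exists_pack h hc hR hD
  obtain ⟨α, hα⟩ := exists_alpha h hc hD p
  obtain ⟨e, he0, he⟩ := DERVR.exists_e h hc hR h1
  exact D_zero_of h hD α hα e he0 (fun a ha v hv nu hnu => he a ha v hv nu (fin3_le 1 nu hnu))
    fin3_level (DERVR.nondeg h hR)

/-- Finiteness of the automorphism group. -/
theorem aut_finite_of (h0 : A.gr 0 = Submodule.span ℂ {A.vac}) (hc : C2 A) (hR : A.Rational)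
    (h1 : A.gr 1 = ⊥) : Finite {g : V ≃ₗ[ℂ] V // A.IsAut g} := by
  by_cases hv : A.vac = 0
  · have h2 : ∀ v : V, v = 0 := by
      intro v
      have h3 := A.vacuum (-1) v
      rw [if_pos rfl, hv] at h3
      simpa using h3.symm
    have : Subsingleton V := ⟨fun x y => by rw [h2 x, h2 y]⟩
    have : Subsingleton {g : V ≃ₗ[ℂ] V // A.IsAut g} :=
      ⟨fun x y => Subtype.ext (LinearEquiv.ext fun v => Subsingleton.elim _ _)⟩
    infer_instance
  · have h : CFT A := ⟨neg_of_zero A h0, h0, hv⟩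
    obtain ⟨U, hU, hst, hgen⟩ := c2_gen h.neg hc
    exact A.aut_finite U hst hgen (fun D hD hom => der_zero_cft h h1 hc hR ⟨hD, hom⟩)

end Pool.Agent.DERV
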