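import Pool.Agent.DERV.EXT2
import Pool.Agent.DERV.ALP

/-!
# Project DERV, part II: the output of part II
-/

set_option autoImplicit false

universe u

open Finset

namespace Pool.Agent.DERV

open Pool.Agent.VOAut
open UpperHalfPlane hiding I
open scoped Nat ArithmeticFunction.sigma Manifold

variable {V : Type u} [AddCommGroup V] [Module ℂ V]

theorem exists_alpha {A : VOA V} {D : Module.End ℂ V} (h : CFT A) (hc : C2 A) (hD : IsDer A D)
    (p : Pack A D) : ∃ alpha, IsAlpha A D alpha := by
  obtain ⟨N, f, g, hg, f1, f2, f3⟩ := ext2 h hc hD p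
  exact alp p N f g hg f1 f2 f3

end Pool.Agent.DERV
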