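import Pool.Agent.DERV.P3A
import Pool.Agent.DERV.DER
import Pool.Agent.DERV.CRS

/-!
# Project DERV, part III: residues of `alpha`
-/

set_option autoImplicit false

universe u

open Finset

namespace Pool.Agent.DERV

open Pool.Agent.VOAut
open scoped Nat

variable {V : Type u} [AddCommGroup V] [Module ℂ V] {A : VOA V} {D : Module.End ℂ V}

/-- The vacuum functional of a residue. -/
theorem p3_al0_rs (h : CFT A) (a b : ℤ) (u v : V) (hu : u ∈ A.gr a) (hv : v ∈ A.gr b)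
    (f : LaurentSeries ℂ) :
    al0 A (rs A f u v) = f.coeff (a + b - 1) * al0 A (A.Y u (a + b - 1) v) := by
  unfold rs
  have h1 := rs_fin A f u v
  rw [map_finsum (al0 A) h1, finsum_eq_single _ (a + b - 1)]
  · rw [map_smul, smul_eq_mul]
  · intro i hi
    rw [map_smul, al0_of_mem h (b + a - i - 1) (by omega) _ (A.graded a i b u v hu hv), smul_zero]

/-- The derivation is skew for the pairing. -/
theorem p3_pair_D (h : CFT A) (hD : IsDer A D) (a b : ℤ) (u v : V) :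
    al0 A (A.Y (D u) (a + b - 1) v) = -((-1 : ℂ) ^ (a + b) * al0 A (A.Y (D v) (a + b - 1) u)) := by
  have h1 : ∀ w, al0 A (D w) = 0 := by
    intro w
    have h2 := al0_spec h (D w)
    rw [← D_pr hD, al0_spec h w, map_smul, D_vac hD, smul_zero] at h2
    rcases smul_eq_zero.1 h2.symm with h3 | h3
    · exact h3
    · exact absurd h3 h.nt
  have h2 := h1 (A.Y u (a + b - 1) v)
  rw [hD.leib, map_add] at h2
  have h3 := p3_al0_skew h (D v) u (a + b - 1)
  have e : a + b - 1 + 1 = a + b := by ring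
  rw [e] at h3
  rw [h3] at h2
  linear_combination h2

/-- Coefficients of `(1 + x) ^ a log (1 + x)`. -/
theorem p3_ylog (a : ℕ) : ∀ b : ℕ, (((1 + xL) ^ (a : ℤ) * Lg : LaurentSeries ℂ)).coeff (a + b + 1) =
    (-1) ^ b * ((a ! : ℂ) * (b ! : ℂ)) / ((a + b + 1)! : ℕ) := by
  induction a with
  | zero =>
    intro b
    have e : (((0 : ℕ) : ℤ) + b + 1) = ((b + 1 : ℕ) : ℤ) := by push_cast; ring
    rw [e, Nat.cast_zero, zpow_zero, one_mul, Lg_coeff_nat, PowerSeries.coeff_log,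
      if_neg (by omega), eq_ratCast]
    have h1 : ((b : ℂ) + 1) ≠ 0 := by exact_mod_cast Nat.succ_ne_zero b
    have h2 : ((b ! : ℕ) : ℂ) ≠ 0 := by exact_mod_cast Nat.factorial_ne_zero b
    rw [zero_add, Nat.factorial_succ]
    push_cast
    rw [Nat.factorial_zero]
    field_simp
    ring
  | succ a ih =>
    intro b
    have e0 : ((1 + xL) ^ ((a + 1 : ℕ) : ℤ) * Lg : LaurentSeries ℂ) =
        ((1 + xL) ^ (a : ℤ) * Lg) * (1 + xL) := by
      push_cast
      rw [zpow_add_one₀ y_ne]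
      ring
    have e1 : (((a + 1 : ℕ) : ℤ) + b + 1) = ((a : ℤ) + b + 1) + 1 := by push_cast; ring
    rw [e0, e1, trm_coeff_mul_y]
    have h1 := ih (b + 1)
    have h2 := ih b
    have e2 : ((a : ℤ) + ((b + 1 : ℕ) : ℤ) + 1) = (a : ℤ) + b + 1 + 1 := by push_cast; ring
    rw [e2] at h1
    rw [h1, h2]
    have e3 : a + 1 + b + 1 = (a + b + 1) + 1 := by ring
    have e4 : a + (b + 1) + 1 = (a + b + 1) + 1 := by ring
    rw [e3, e4, Nat.factorial_succ (a + b + 1), Nat.factorial_succ a, Nat.factorial_succ b]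
    have h3 : (((a + b + 1)! : ℕ) : ℂ) ≠ 0 := by exact_mod_cast Nat.factorial_ne_zero _
    have h4 : ((a : ℂ) + b + 1 + 1) ≠ 0 := by exact_mod_cast Nat.succ_ne_zero (a + b + 1)
    push_cast
    field_simp
    ring

theorem p3_ylog_ne (a b : ℕ) :
    (((1 + xL) ^ (a : ℤ) * Lg : LaurentSeries ℂ)).coeff (a + b + 1) ≠ 0 := by
  rw [p3_ylog]
  have h1 : (((a + b + 1)! : ℕ) : ℂ) ≠ 0 := by exact_mod_cast Nat.factorial_ne_zero _
  have h2 : ((a ! : ℕ) : ℂ) ≠ 0 := by exact_mod_cast Nat.factorial_ne_zero _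
  have h3 : ((b ! : ℕ) : ℂ) ≠ 0 := by exact_mod_cast Nat.factorial_ne_zero _
  have h4 : ((-1 : ℂ) ^ b) ≠ 0 := pow_ne_zero _ (by norm_num)
  exact div_ne_zero (mul_ne_zero h4 (mul_ne_zero h2 h3)) h1

/-- `(1 + x) ^ a` has no coefficients above `a`. -/
theorem p3_y_high (a n : ℤ) (ha : 0 ≤ a) (hn : a < n) :
    ((1 + xL : LaurentSeries ℂ) ^ a).coeff n = 0 := by
  obtain ⟨k, rfl⟩ := Int.eq_ofNat_of_zero_le ha
  obtain ⟨m, rfl⟩ := Int.eq_ofNat_of_zero_le (show 0 ≤ n by omega)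
  rw [trm_choose, Ring.choose_natCast, Nat.choose_eq_zero_of_lt (by omega)]
  simp

/-- (12.1). -/
theorem p3_alk (h : CFT A) (hD : IsDer A D) (α : Module.Dual ℂ V) (hα : IsAlpha A D α) (k : ℕ) :
    ∀ (a b : ℤ) (u v : V), u ∈ A.gr a → v ∈ A.gr b →
    α (rs A (xL ^ (-2 - (k : ℤ)) * (1 + xL) ^ a) u v) =
      kap * al0 A (rs A (xL ^ (-2 - (k : ℤ)) * (1 + xL) ^ a * Lg) (D u) v) := by
  induction k with
  | zero =>
    intro a b u v hu hv
    have h1 := hα.P1 u v
    rw [WW_of_mem A _ a u v hu, WW_of_mem A _ a (D u) v (D_gr hD a u hu)] at h1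
    have e1 : (1 + xL) ^ (a - 1) * pho = xL ^ (-2 - ((0 : ℕ) : ℤ)) * (1 + xL) ^ a := by
      have e2 : (-2 - ((0 : ℕ) : ℤ)) = -1 + -1 := by norm_num
      unfold pho
      rw [e2, zpow_add₀ xL_ne, zpow_neg_one]
      have : (1 + xL : LaurentSeries ℂ) ^ a = (1 + xL) ^ (a - 1) * (1 + xL) := by
        rw [← zpow_add_one₀ y_ne, sub_add_cancel]
      rw [this]
      ring
    rw [← mul_assoc, e1] at h1
    exact h1
  | succ k ih =>
    intro a b u v hu hv
    by_cases ha : a < 0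
    · rw [h.neg a ha, Submodule.mem_bot] at hu
      rw [hu, map_zero, rs_zero_u, rs_zero_u]
      simp
    by_cases hb : b < 0
    · rw [h.neg b hb, Submodule.mem_bot] at hv
      have e : ∀ f w, rs A f w 0 = 0 := fun f w => by
        rw [← rsL_apply, map_zero]
      rw [hv, e, e]
      simp
    push Not at ha hb
    have hL : A.Y A.om 0 u ∈ A.gr (a + 1) := by
      have := A.graded 2 0 a A.om u (om_mem A) hu
      have e : a + 2 - 0 - 1 = a + 1 := by ring
      rwa [e] at this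
    have h1 := ih (a + 1) b (A.Y A.om 0 u) v hL hv
    have h2 := ih a b u v hu hv
    have hDL : D (A.Y A.om 0 u) = A.Y A.om 0 (D u) := by
      rw [hD.leib, hD.om]
      simp
    rw [hDL, rs_L1, rs_L1] at h1
    set x1 : LaurentSeries ℂ := xL ^ (-2 - (k : ℤ)) with hx1
    set x2 : LaurentSeries ℂ := xL ^ (-2 - ((k + 1 : ℕ) : ℤ)) with hx2
    have hx : x1 = x2 * xL := by
      rw [hx1, hx2, ← zpow_add_one₀ xL_ne]
      congr 1
      push_cast
      ring
    have hdx : dL x1 = cc (-2 - (k : ℂ)) * x2 := by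
      rw [hx1, dL_zpow xL xL_ne, dL_xL, mul_one, hx2]
      push_cast
      congr 2
      ring
    have hy : ((1 + xL) ^ (a + 1) : LaurentSeries ℂ) = (1 + xL) ^ a * (1 + xL) :=
      zpow_add_one₀ y_ne a
    have hdy : dL ((1 + xL) ^ (a + 1) : LaurentSeries ℂ) = cc ((a : ℂ) + 1) * (1 + xL) ^ a := by
      rw [dL_y_zpow, add_sub_cancel_right]
      push_cast
      rfl
    have hd1 : dL (x1 * (1 + xL) ^ (a + 1)) = cc (-2 - (k : ℂ)) * (x2 * (1 + xL) ^ a) +
        cc ((a : ℂ) - 1 - k) * (x1 * (1 + xL) ^ a) := by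
      rw [dL_mul, hdx, hdy, hy, hx]
      simp only [map_sub, map_add, map_neg, map_one, map_ofNat]
      ring
    have hd2 : dL (x1 * (1 + xL) ^ (a + 1) * Lg) = cc (-2 - (k : ℂ)) * (x2 * (1 + xL) ^ a * Lg) +
        cc ((a : ℂ) - 1 - k) * (x1 * (1 + xL) ^ a * Lg) + x1 * (1 + xL) ^ a := by
      rw [dL_mul, hd1, hy]
      linear_combination (x1 * (1 + xL) ^ a) * dL_Lg
    rw [hd1, hd2, rs_add_f, rs_cc, rs_cc, rs_add_f, rs_add_f, rs_cc, rs_cc] at h1
    have h3 : al0 A (rs A (x1 * (1 + xL) ^ a) (D u) v) = 0 := by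
      rw [p3_al0_rs h a b (D u) v (D_gr hD a u hu) hv, hx1, trm_coeff,
        p3_y_high a _ ha (by omega), zero_mul]
    simp only [map_neg, map_add, map_smul, smul_eq_mul, h3] at h1
    have hk : (-2 - (k : ℂ)) ≠ 0 := by
      have : (-2 - (k : ℂ)) = -(((k + 2 : ℕ) : ℂ)) := by push_cast; ring
      rw [this, neg_ne_zero]
      exact_mod_cast Nat.succ_ne_zero (k + 1)
    apply mul_left_cancel₀ hk
    linear_combination -h1 - ((a : ℂ) - 1 - k) * h2

/-- (12.1) in general form. -/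
theorem p3_gen (h : CFT A) (hD : IsDer A D) (α : Module.Dual ℂ V) (hα : IsAlpha A D α)
    (a b : ℤ) (u v : V) (hu : u ∈ A.gr a) (hv : v ∈ A.gr b) (j : ℕ) :
    ∀ l : ℤ, j + l ≤ -2 → α (rs A (xL ^ l * (1 + xL) ^ (a + j)) u v) =
      kap * al0 A (rs A (xL ^ l * (1 + xL) ^ (a + j) * Lg) (D u) v) := by
  induction j with
  | zero =>
    intro l hl
    obtain ⟨k, hk⟩ : ∃ k : ℕ, l = -2 - (k : ℤ) := ⟨(-2 - l).toNat, by push_cast at hl; omega⟩
    have := p3_alk h hD α hα k a b u v hu hv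
    rw [hk, Nat.cast_zero, add_zero]
    exact this
  | succ j ih =>
    intro l hl
    have e1 : (xL ^ l * (1 + xL) ^ (a + ((j + 1 : ℕ) : ℤ)) : LaurentSeries ℂ) =
        xL ^ l * (1 + xL) ^ (a + (j : ℤ)) + xL ^ (l + 1) * (1 + xL) ^ (a + (j : ℤ)) := by
      have e : a + ((j + 1 : ℕ) : ℤ) = a + j + 1 := by push_cast; ring
      rw [e, zpow_add_one₀ y_ne, zpow_add_one₀ xL_ne]
      ring
    rw [e1, add_mul, rs_add_f, rs_add_f, map_add, map_add,
      ih l (by push_cast at hl; omega), ih (l + 1) (by push_cast at hl; omega)]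
    ring

end Pool.Agent.DERV
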