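import Pool.Agent.DERV.P3B

/-!
# Project DERV, part III: the form `beta` and the functional `nu`
-/

set_option autoImplicit false

universe u

open Finset

namespace Pool.Agent.DERV

open Pool.Agent.VOAut
open scoped Nat

variable {V : Type u} [AddCommGroup V] [Module ℂ V]

/-- The conditions of level `r`. -/
def GG (A : VOA V) (r : ℤ) : Submodule ℂ (Module.Dual ℂ V) where
  carrier := {β | ∀ (a : ℤ) (v : V), v ∈ A.gr a → ∀ (u : V) (m M : ℤ), a + r ≤ m → m - M ≤ a - 2 →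
    β (rs A ((1 + xL) ^ m * xL ^ (-M)) v u) = 0}
  add_mem' := by
    intro x y hx hy a v hv u m M h1 h2
    rw [LinearMap.add_apply, hx a v hv u m M h1 h2, hy a v hv u m M h1 h2, add_zero]
  zero_mem' := by
    intro a v _ u m M _ _
    rfl
  smul_mem' := by
    intro c x hx a v hv u m M h1 h2
    rw [LinearMap.smul_apply, hx a v hv u m M h1 h2, smul_zero]

variable {A : VOA V} {D : Module.End ℂ V}

/-- The form `beta`. -/
noncomputable def be (A : VOA V) (D : Module.End ℂ V) (α : Module.Dual ℂ V) (u v : V) : ℂ :=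
  α (WW A phs u v) - kap * al0 A (WW A (phs * Lg) (D u) v)

theorem p3_phs (a : ℤ) : (1 + xL : LaurentSeries ℂ) ^ (a - 1) * phs =
    xL ^ (-1 : ℤ) * (1 + xL) ^ a := by
  unfold phs
  have : (1 + xL : LaurentSeries ℂ) ^ a = (1 + xL) ^ (a - 1) * (1 + xL) := by
    rw [← zpow_add_one₀ y_ne, sub_add_cancel]
  rw [this, zpow_neg_one]
  ring

theorem be_of_mem (hD : IsDer A D) (α : Module.Dual ℂ V) (a : ℤ) (u v : V) (hu : u ∈ A.gr a) :
    be A D α u v = α (rs A (xL ^ (-1 : ℤ) * (1 + xL) ^ a) u v) -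
      kap * al0 A (rs A (xL ^ (-1 : ℤ) * (1 + xL) ^ a * Lg) (D u) v) := by
  unfold be
  rw [WW_of_mem A _ a u v hu, WW_of_mem A _ a (D u) v (D_gr hD a u hu), ← mul_assoc, p3_phs]

theorem p3_a_om (hD : IsDer A D) (α : Module.Dual ℂ V) (hα : IsAlpha A D α) (w : V) :
    α (A.Y A.om 0 w) = -α (A.Y A.om 1 w) := by
  have h1 := hα.P2 A.om w
  rw [hD.om, WW_zero_u, map_zero, mul_zero, WW_of_mem A 1 2 A.om w (om_mem A)] at h1
  have e : ((1 + xL) ^ ((2 : ℤ) - 1) * 1 : LaurentSeries ℂ) = 1 + xL := by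
    have : (2 : ℤ) - 1 = 1 := by norm_num
    rw [this, zpow_one, mul_one]
  have e1 : (1 : LaurentSeries ℂ) = HahnSeries.single 0 1 := by rw [HahnSeries.single_zero_one]
  rw [e, rs_add_f] at h1
  unfold xL at h1
  rw [e1, rs_single, rs_single, one_smul, one_smul, map_add] at h1
  linear_combination h1

theorem p3_vac_gr0 (h : CFT A) (u : V) (hu : u ∈ A.gr 0) : ∃ c : ℂ, u = c • A.vac := by
  rw [h.zero] at hu
  obtain ⟨c, hc⟩ := Submodule.mem_span_singleton.1 hu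
  exact ⟨c, hc.symm⟩

theorem p3_Dgr0 (h : CFT A) (hD : IsDer A D) (u : V) (hu : u ∈ A.gr 0) : D u = 0 := by
  obtain ⟨c, rfl⟩ := p3_vac_gr0 h u hu
  rw [map_smul, D_vac hD, smul_zero]

/-- The coefficient identity behind the symmetry. -/
theorem p3_ylog_symm (a b : ℕ) : (-1 : ℂ) ^ (a + 1 + (b + 1)) *
    (((1 + xL) ^ ((a + 1 : ℕ) : ℤ) * Lg : LaurentSeries ℂ)).coeff (((a + 1 : ℕ) : ℤ) + (b + 1 : ℕ)) =
    -(((1 + xL) ^ (b : ℤ) * Lg : LaurentSeries ℂ)).coeff (((a + 1 : ℕ) : ℤ) + (b + 1 : ℕ)) := by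
  have h1 := p3_ylog (a + 1) b
  have h2 := p3_ylog b (a + 1)
  have e1 : ((a + 1 : ℕ) : ℤ) + b + 1 = ((a + 1 : ℕ) : ℤ) + (b + 1 : ℕ) := by push_cast; ring
  have e2 : (b : ℤ) + (a + 1 : ℕ) + 1 = ((a + 1 : ℕ) : ℤ) + (b + 1 : ℕ) := by push_cast; ring
  rw [e1] at h1
  rw [e2] at h2
  rw [h1, h2]
  have e3 : b + (a + 1) + 1 = a + 1 + b + 1 := by ring
  rw [e3]
  have h4 : ((-1 : ℂ) ^ b) * ((-1 : ℂ) ^ b) = 1 := by
    rw [← pow_add, Even.neg_one_pow ⟨b, rfl⟩]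
  have h5 : (-1 : ℂ) ^ (a + 1 + (b + 1)) * (-1) ^ b = -(-1) ^ (a + 1) := by
    rw [pow_add, pow_succ (-1 : ℂ) b]
    linear_combination (-(-1 : ℂ) ^ (a + 1)) * h4
  linear_combination (((a + 1)! : ℂ) * (b ! : ℂ) / ((a + 1 + b + 1)! : ℕ)) * h5

/-- `beta` is symmetric. -/
theorem be_symm (h : CFT A) (hD : IsDer A D) (α : Module.Dual ℂ V) (hα : IsAlpha A D α) (a b : ℤ)
    (u v : V) (hu : u ∈ A.gr a) (hv : v ∈ A.gr b) : be A D α u v = be A D α v u := by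
  by_cases ha : a < 0
  · rw [h.neg a ha, Submodule.mem_bot] at hu
    unfold be
    rw [hu, map_zero, WW_zero_u, WW_zero_u, WW_zero_v, WW_zero_v]
  by_cases hb : b < 0
  · rw [h.neg b hb, Submodule.mem_bot] at hv
    unfold be
    rw [hv, map_zero, WW_zero_u, WW_zero_u, WW_zero_v, WW_zero_v]
  push Not at ha hb
  rw [be_of_mem hD α a u v hu, be_of_mem hD α b v u hv]
  have hs := p3_skew α (p3_a_om hD α hα) a b u v hu hv (-1) a
  have e1 : a + b - 2 - a - -1 = b - 1 := by ring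
  have e2 : -(-1 : ℂ) ^ (-1 : ℤ) = 1 := by norm_num
  rw [e1, e2, one_mul] at hs
  have hy : (xL ^ (-1 : ℤ) * (1 + xL) ^ (b - 1) : LaurentSeries ℂ) =
      xL ^ (-1 : ℤ) * (1 + xL) ^ b - (1 + xL) ^ (b - 1) := by
    have : (1 + xL : LaurentSeries ℂ) ^ b = (1 + xL) ^ (b - 1) * (1 + xL) := by
      rw [← zpow_add_one₀ y_ne, sub_add_cancel]
    rw [this, zpow_neg_one]
    have hx : (xL⁻¹ * xL : LaurentSeries ℂ) = 1 := inv_mul_cancel₀ xL_ne
    linear_combination (-(1 + xL : LaurentSeries ℂ) ^ (b - 1)) * hx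
  rw [hy, rs_sub_f, map_sub] at hs
  have hP := hα.P2 v u
  rw [WW_of_mem A _ b v u hv, WW_of_mem A _ b (D v) u (D_gr hD b v hv), mul_one] at hP
  rw [hs, hP, p3_al0_rs h a b (D u) v (D_gr hD a u hu) hv, p3_al0_rs h b a (D v) u (D_gr hD b v hv) hu,
    p3_al0_rs h b a (D v) u (D_gr hD b v hv) hu, p3_pair_D h hD a b u v]
  have e3 : b + a - 1 = a + b - 1 := by ring
  rw [e3]
  -- the coefficients
  have hc1 : ∀ s : ℤ, (xL ^ (-1 : ℤ) * (1 + xL) ^ s * Lg : LaurentSeries ℂ).coeff (a + b - 1) =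
      ((1 + xL) ^ s * Lg : LaurentSeries ℂ).coeff (a + b) := by
    intro s
    rw [mul_assoc, trm_xL_zpow, HahnSeries.coeff_single_mul, one_mul]
    congr 1
    ring
  rw [hc1, hc1]
  have hc2 : ((1 + xL) ^ b * Lg : LaurentSeries ℂ).coeff (a + b) =
      ((1 + xL) ^ (b - 1) * Lg : LaurentSeries ℂ).coeff (a + b) +
      ((1 + xL) ^ (b - 1) * Lg : LaurentSeries ℂ).coeff (a + b - 1) := by
    have : ((1 + xL) ^ b * Lg : LaurentSeries ℂ) = ((1 + xL) ^ (b - 1) * Lg) * (1 + xL) := by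
      have : (1 + xL : LaurentSeries ℂ) ^ b = (1 + xL) ^ (b - 1) * (1 + xL) := by
        rw [← zpow_add_one₀ y_ne, sub_add_cancel]
      rw [this]
      ring
    rw [this]
    have e4 : a + b = (a + b - 1) + 1 := by ring
    conv_lhs => rw [e4]
    rw [trm_coeff_mul_y]
    congr 2
    ring
  rw [hc2]
  by_cases ha0 : a = 0
  · -- `u` is a multiple of the vacuum
    have h5 : al0 A (A.Y (D v) (a + b - 1) u) = 0 := by
      have h6 := p3_pair_D h hD a b u v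
      subst ha0
      rw [p3_Dgr0 h hD u hu] at h6
      simp only [map_zero, Pi.zero_apply, LinearMap.zero_apply] at h6
      have h7 : ((-1 : ℂ) ^ (0 + b)) ≠ 0 := zpow_ne_zero _ (by norm_num)
      rcases mul_eq_zero.1 (neg_eq_zero.1 h6.symm) with h8 | h8
      · exact absurd h8 h7
      · exact h8
    rw [h5]
    ring
  by_cases hb0 : b = 0
  · subst hb0
    rw [p3_Dgr0 h hD v hv]
    simp
  obtain ⟨a', rfl⟩ : ∃ a' : ℕ, a = ((a' + 1 : ℕ) : ℤ) := ⟨(a - 1).toNat, by omega⟩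
  obtain ⟨b', rfl⟩ : ∃ b' : ℕ, b = ((b' + 1 : ℕ) : ℤ) := ⟨(b - 1).toNat, by omega⟩
  have h9 := p3_ylog_symm a' b'
  have e5 : ((b' + 1 : ℕ) : ℤ) - 1 = (b' : ℤ) := by push_cast; ring
  rw [e5]
  have e6 : ((-1 : ℂ) ^ (((a' + 1 : ℕ) : ℤ) + ((b' + 1 : ℕ) : ℤ))) =
      (-1 : ℂ) ^ (a' + 1 + (b' + 1)) := by
    rw [← Nat.cast_add, zpow_natCast]
  rw [e6]
  linear_combination (kap * al0 A (A.Y (D v) (((a' + 1 : ℕ) : ℤ) + ((b' + 1 : ℕ) : ℤ) - 1) u)) * h9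

/-- `α L(0)`. -/
noncomputable def nuf (A : VOA V) (α : Module.Dual ℂ V) : Module.Dual ℂ V := α ∘ₗ A.Y A.om 1

theorem p3_L0 (a b : ℤ) (u v : V) (hv : v ∈ A.gr a) (hu : u ∈ A.gr b) (f : LaurentSeries ℂ) :
    A.Y A.om 1 (rs A f v u) = rs A (cc ((a : ℂ) + b - 1) * f - xL * dL f) v u := by
  unfold rs
  rw [map_finsum _ (rs_fin A f v u)]
  apply finsum_congr
  intro i
  rw [map_smul, (A.mem_gr _ _).1 (A.graded a i b v u hv hu), HahnSeries.coeff_sub, coeff_cc_mul]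
  have e : (xL * dL f).coeff i = (i : ℂ) * f.coeff i := by
    unfold xL
    rw [HahnSeries.coeff_single_mul, one_mul, coeff_dL, sub_add_cancel]
    push_cast
    ring
  rw [e, smul_smul]
  congr 1
  push_cast
  ring

theorem p3_al0_euler (h : CFT A) (a b : ℤ) (u v : V) (hv : v ∈ A.gr a) (hu : u ∈ A.gr b)
    (f : LaurentSeries ℂ) : al0 A (rs A (cc ((a : ℂ) + b - 1) * f - xL * dL f) v u) = 0 := by
  rw [← p3_L0 a b u v hv hu]
  have h1 : ∀ w, al0 A (A.Y A.om 1 w) = 0 := by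
    intro w
    refine hom_ind A (P := fun w => al0 A (A.Y A.om 1 w) = 0) w ?_ ?_ ?_
    · simp
    · intro x y hx hy
      rw [map_add, map_add, hx, hy, add_zero]
    · intro n x hx
      rw [(A.mem_gr n x).1 hx, map_smul]
      by_cases hn : n = 0
      · rw [hn]; simp
      · rw [al0_of_mem h n hn x hx, smul_zero]
  exact h1 _

theorem p3_euler (m M : ℤ) (c : ℂ) :
    cc c * ((1 + xL) ^ m * xL ^ (-M)) - xL * dL ((1 + xL) ^ m * xL ^ (-M)) =
    cc (c + M) * (xL ^ (-M) * (1 + xL) ^ m) - cc (m : ℂ) * (xL ^ (1 - M) * (1 + xL) ^ (m - 1)) := by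
  rw [dL_mul, dL_y_zpow, dL_zpow xL xL_ne, dL_xL, mul_one]
  have e1 : (xL ^ (1 - M) : LaurentSeries ℂ) = xL * xL ^ (-M) := by
    rw [← zpow_one_add₀ xL_ne]
    congr 1
  have e2 : (xL * xL ^ (-M - 1) : LaurentSeries ℂ) = xL ^ (-M) := by
    rw [← zpow_one_add₀ xL_ne]
    congr 1
    ring
  rw [e1]
  push_cast
  simp only [map_add, map_neg]
  linear_combination (cc (M : ℂ) * (1 + xL) ^ m) * e2

theorem p3_euler_log (m M : ℤ) (c : ℂ) :
    cc c * ((1 + xL) ^ m * xL ^ (-M) * Lg) - xL * dL ((1 + xL) ^ m * xL ^ (-M) * Lg) =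
    (cc (c + M) * (xL ^ (-M) * (1 + xL) ^ m * Lg) -
      cc (m : ℂ) * (xL ^ (1 - M) * (1 + xL) ^ (m - 1) * Lg)) -
      xL ^ (1 - M) * (1 + xL) ^ (m - 1) := by
  rw [dL_mul ((1 + xL) ^ m * xL ^ (-M)) Lg]
  have h1 := p3_euler m M c
  have e1 : (xL ^ (1 - M) : LaurentSeries ℂ) = xL * xL ^ (-M) := by
    rw [← zpow_one_add₀ xL_ne]
    congr 1
  have e3 : (1 + xL : LaurentSeries ℂ) ^ m = (1 + xL) ^ (m - 1) * (1 + xL) := by
    rw [← zpow_add_one₀ y_ne, sub_add_cancel]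
  have h2 : xL * ((1 + xL) ^ m * xL ^ (-M) * dL Lg) = xL ^ (1 - M) * (1 + xL) ^ (m - 1) := by
    rw [e1, e3]
    linear_combination (xL * (1 + xL) ^ (m - 1) * xL ^ (-M)) * dL_Lg
  linear_combination Lg * h1 - h2

/-- `nu` is of level one. -/
theorem nu_mem (h : CFT A) (hD : IsDer A D) (α : Module.Dual ℂ V) (hα : IsAlpha A D α) :
    nuf A α ∈ GG A 1 := by
  intro a v hv u m M h1 h2
  let P : V →ₗ[ℂ] ℂ := nuf A α ∘ₗ rsv A ((1 + xL) ^ m * xL ^ (-M)) v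
  show P u = 0
  refine hom_ind A (P := fun u => P u = 0) u (map_zero P) ?_ ?_
  · intro x y hx hy
    rw [map_add, hx, hy, add_zero]
  intro b u hu
  show α (A.Y A.om 1 (rs A ((1 + xL) ^ m * xL ^ (-M)) v u)) = 0
  by_cases ha : a < 0
  · rw [h.neg a ha, Submodule.mem_bot] at hv
    rw [hv, rs_zero_u]
    simp
  by_cases hb : b < 0
  · rw [h.neg b hb, Submodule.mem_bot] at hu
    rw [hu]
    have : rs A ((1 + xL) ^ m * xL ^ (-M)) v 0 = 0 := map_zero (rsv A _ v)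
    rw [this]
    simp
  push Not at ha hb
  rw [p3_L0 a b u v hv hu, p3_euler, rs_sub_f, rs_cc, rs_cc, map_sub, map_smul, map_smul]
  obtain ⟨j, hj⟩ : ∃ j : ℕ, m = a + ((j + 1 : ℕ) : ℤ) := ⟨(m - a - 1).toNat, by omega⟩
  have hA1 := p3_gen h hD α hα a b v u hv hu (j + 1) (-M) (by omega)
  have hA2 := p3_gen h hD α hα a b v u hv hu j (1 - M) (by push_cast at hj; omega)
  have ej : a + (j : ℤ) = m - 1 := by push_cast at hj; omega
  rw [← hj] at hA1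
  rw [ej] at hA2
  have h3 := p3_al0_euler h a b u (D v) (D_gr hD a v hv) hu ((1 + xL) ^ m * xL ^ (-M) * Lg)
  rw [p3_euler_log, rs_sub_f, rs_sub_f, rs_cc, rs_cc, map_sub, map_sub, map_smul, map_smul] at h3
  have h4 : al0 A (rs A (xL ^ (1 - M) * (1 + xL) ^ (m - 1)) (D v) u) = 0 := by
    rw [p3_al0_rs h a b (D v) u (D_gr hD a v hv) hu, trm_coeff,
      p3_y_high (m - 1) _ (by omega) (by omega), zero_mul]
  rw [h4] at h3
  simp only [smul_eq_mul] at h3 ⊢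
  rw [hA1, hA2]
  linear_combination kap * h3

/-- The action of the level one functional. -/
theorem nu_act (h : CFT A) (hD : IsDer A D) (α : Module.Dual ℂ V) (hα : IsAlpha A D α)
    (a b : ℤ) (u v : V) (ha : 1 ≤ a) (hv : v ∈ A.gr a) (hu : u ∈ A.gr b) :
    -nuf A α (rs A ((1 + xL) ^ a * xL ^ (-2 : ℤ)) v u) = (a : ℂ) * be A D α v u := by
  by_cases hb : b < 0
  · rw [h.neg b hb, Submodule.mem_bot] at hu
    rw [hu]
    have : rs A ((1 + xL) ^ a * xL ^ (-2 : ℤ)) v 0 = 0 := map_zero (rsv A _ v)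
    unfold be
    rw [this, WW_zero_v, WW_zero_v]
    simp
  push Not at hb
  show -α (A.Y A.om 1 (rs A ((1 + xL) ^ a * xL ^ (-2 : ℤ)) v u)) = _
  rw [p3_L0 a b u v hv hu, p3_euler, rs_sub_f, rs_cc, rs_cc, map_sub, map_smul, map_smul,
    be_of_mem hD α a v u hv]
  have hA := p3_gen h hD α hα a b v u hv hu 0 (-2) (by norm_num)
  rw [Nat.cast_zero, add_zero] at hA
  have hP := hα.P2 v u
  rw [WW_of_mem A _ a v u hv, WW_of_mem A _ a (D v) u (D_gr hD a v hv), mul_one] at hP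
  have e0 : (1 - 2 : ℤ) = -1 := by norm_num
  have hy : (xL ^ (1 - 2 : ℤ) * (1 + xL) ^ (a - 1) : LaurentSeries ℂ) =
      xL ^ (-1 : ℤ) * (1 + xL) ^ a - (1 + xL) ^ (a - 1) := by
    have : (1 + xL : LaurentSeries ℂ) ^ a = (1 + xL) ^ (a - 1) * (1 + xL) := by
      rw [← zpow_add_one₀ y_ne, sub_add_cancel]
    rw [this, e0, zpow_neg_one]
    have hx : (xL⁻¹ * xL : LaurentSeries ℂ) = 1 := inv_mul_cancel₀ xL_ne
    linear_combination (-(1 + xL : LaurentSeries ℂ) ^ (a - 1)) * hx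
  have h3 := p3_al0_euler h a b u (D v) (D_gr hD a v hv) hu ((1 + xL) ^ a * xL ^ (-2 : ℤ) * Lg)
  rw [p3_euler_log, rs_sub_f, rs_sub_f, rs_cc, rs_cc, map_sub, map_sub, map_smul, map_smul] at h3
  have h4 : al0 A (rs A (xL ^ (1 - 2 : ℤ) * (1 + xL) ^ (a - 1)) (D v) u) = 0 := by
    rw [p3_al0_rs h a b (D v) u (D_gr hD a v hv) hu, trm_coeff,
      p3_y_high (a - 1) _ (by omega) (by omega), zero_mul]
  rw [h4, hy, sub_mul, rs_sub_f, map_sub] at h3
  rw [hy, rs_sub_f, map_sub, hA, hP]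
  simp only [smul_eq_mul] at h3 ⊢
  push_cast at h3 ⊢
  linear_combination (-kap) * h3

end Pool.Agent.DERV
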