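import Pool.Agent.DERV.SER0
import Pool.Agent.DERV.Defs2

/-!
# Project DERV, part II: basic facts about the bracket modes and the sums in the relations
-/

set_option autoImplicit false

universe u

open Finset

namespace Pool.Agent.DERV

open Pool.Agent.VOAut

variable {V : Type u} [AddCommGroup V] [Module ℂ V] (A : VOA V)

/-- The bracket modes as bilinear maps. -/
noncomputable def brL (n : ℤ) : V →ₗ[ℂ] V →ₗ[ℂ] V := WWL A (Lg ^ n)

theorem brL_apply (n : ℤ) (u v : V) : brL A n u v = br A n u v := rfl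

theorem L0b_apply (v : V) : L0b A v = br A 1 (omt A) v := rfl

theorem rs_zero_f (u v : V) : rs A 0 u v = 0 := by
  rw [← rsL_apply, map_zero]
  rfl

theorem WW_zero_f (u v : V) : WW A 0 u v = 0 := by
  rw [← WWL_apply, map_zero]
  rfl

theorem rs_cc (c : ℂ) (f : LaurentSeries ℂ) (u v : V) : rs A (cc c * f) u v = c • rs A f u v := by
  rw [cc_mul, rs_smul_f]

theorem WW_cc (c : ℂ) (f : LaurentSeries ℂ) (u v : V) : WW A (cc c * f) u v = c • WW A f u v := by
  rw [cc_mul, WW_smul_f]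

theorem rs_neg_f (f : LaurentSeries ℂ) (u v : V) : rs A (-f) u v = -rs A f u v := by
  rw [← rsL_apply, map_neg]
  rfl

theorem rs_sub_f (f g : LaurentSeries ℂ) (u v : V) :
    rs A (f - g) u v = rs A f u v - rs A g u v := by
  rw [← rsL_apply, map_sub]
  rfl

theorem WW_neg_f (f : LaurentSeries ℂ) (u v : V) : WW A (-f) u v = -WW A f u v := by
  rw [← WWL_apply, map_neg]
  rfl

theorem WW_sub_f (f g : LaurentSeries ℂ) (u v : V) :
    WW A (f - g) u v = WW A f u v - WW A g u v := by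
  rw [← WWL_apply, map_sub]
  rfl

theorem WW_sum_f {ι : Type*} (s : Finset ι) (f : ι → LaurentSeries ℂ) (u v : V) :
    WW A (∑ i ∈ s, f i) u v = ∑ i ∈ s, WW A (f i) u v := by
  rw [← WWL_apply, map_sum, LinearMap.sum_apply, LinearMap.sum_apply]
  rfl

theorem rs_sum_f {ι : Type*} (s : Finset ι) (f : ι → LaurentSeries ℂ) (u v : V) :
    rs A (∑ i ∈ s, f i) u v = ∑ i ∈ s, rs A (f i) u v := by
  rw [← rsL_apply, map_sum, LinearMap.sum_apply, LinearMap.sum_apply]
  rfl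

theorem WW_zero_u (f : LaurentSeries ℂ) (v : V) : WW A f 0 v = 0 := by
  rw [← WWL_apply, map_zero]
  rfl

theorem WW_zero_v (f : LaurentSeries ℂ) (u : V) : WW A f u 0 = 0 := by
  rw [← WWL_apply, map_zero]

/-- Series of high order do not contribute. -/
theorem rs_van (u v : V) : ∃ N : ℤ, ∀ f, OG N f → rs A f u v = 0 := by
  obtain ⟨N, hN⟩ := rs_congr A u v
  refine ⟨N, fun f hf => ?_⟩
  rw [hN f 0 (fun i hi => by rw [hf i hi, HahnSeries.coeff_zero]), rs_zero_f]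

/-- Series of high order do not contribute. -/
theorem WW_van (u v : V) : ∃ N : ℤ, ∀ f, OG N f → WW A f u v = 0 := by
  refine hom_ind A (P := fun u => ∃ N : ℤ, ∀ f, OG N f → WW A f u v = 0) u ?_ ?_ ?_
  · exact ⟨0, fun f _ => WW_zero_u A f v⟩
  · rintro a b ⟨N, hN⟩ ⟨M, hM⟩
    refine ⟨max N M, fun f hf => ?_⟩
    rw [WW_add_u, hN f (hf.mono (le_max_left _ _)), hM f (hf.mono (le_max_right _ _)), add_zero]
  · intro a u hu
    obtain ⟨N, hN⟩ := rs_van A u v
    refine ⟨N, fun f hf => ?_⟩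
    rw [WW_of_mem A f a u v hu]
    apply hN
    have := (LD_y_zpow (a - 1)).1.mul hf
    rwa [zero_add] at this

/-- The bracket modes vanish for large indices. -/
theorem br_zero (u v : V) : ∃ N : ℤ, ∀ n : ℤ, N ≤ n → br A n u v = 0 := by
  obtain ⟨N, hN⟩ := WW_van A u v
  exact ⟨N, fun n hn => hN _ ((LD_Lg_zpow n).1.mono hn)⟩

section SS

variable {B : Type} [CommRing B] [Algebra ℂ B]

theorem SS_range (s : ℤ) (u v : V) : ∃ K0 : ℕ, ∀ (B : Type) [CommRing B] [Algebra ℂ B] (c : ℕ → ℂ)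
    (e : ℕ → B) (S : V →ₗ[ℂ] B) (K : ℕ), K0 ≤ K →
    SS A c s e S u v = ∑ j ∈ range K, c j • (e j * S (br A (2 * j + s) u v)) := by
  obtain ⟨N, hN⟩ := br_zero A u v
  refine ⟨(N - s).toNat, fun B _ _ c e S K hK => ?_⟩
  unfold SS
  apply finsum_eq_range
  intro j hj
  have h1 : N ≤ 2 * (j : ℤ) + s := by
    have := Int.self_le_toNat (N - s)
    omega
  rw [hN _ h1, map_zero, mul_zero, smul_zero]

theorem SS_add_u (c : ℕ → ℂ) (s : ℤ) (e : ℕ → B) (S : V →ₗ[ℂ] B) (u u' v : V) :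
    SS A c s e S (u + u') v = SS A c s e S u v + SS A c s e S u' v := by
  obtain ⟨K1, h1⟩ := SS_range A s (u + u') v
  obtain ⟨K2, h2⟩ := SS_range A s u v
  obtain ⟨K3, h3⟩ := SS_range A s u' v
  rw [h1 B c e S (max K1 (max K2 K3)) (le_max_left _ _),
    h2 B c e S (max K1 (max K2 K3)) (by omega), h3 B c e S (max K1 (max K2 K3)) (by omega),
    ← Finset.sum_add_distrib]
  apply Finset.sum_congr rfl
  intro j _
  rw [← smul_add, ← mul_add, ← map_add]
  congr 3
  exact WW_add_u A _ u u' v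

theorem SS_smul_u (c : ℕ → ℂ) (s : ℤ) (e : ℕ → B) (S : V →ₗ[ℂ] B) (b : ℂ) (u v : V) :
    SS A c s e S (b • u) v = b • SS A c s e S u v := by
  obtain ⟨K1, h1⟩ := SS_range A s (b • u) v
  obtain ⟨K2, h2⟩ := SS_range A s u v
  rw [h1 B c e S (max K1 K2) (le_max_left _ _), h2 B c e S (max K1 K2) (by omega),
    Finset.smul_sum]
  apply Finset.sum_congr rfl
  intro j _
  have e1 : br A (2 * j + s) (b • u) v = b • br A (2 * j + s) u v := WW_smul_u A _ b u v
  rw [e1, map_smul, mul_smul_comm, smul_comm]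

theorem SS_add_v (c : ℕ → ℂ) (s : ℤ) (e : ℕ → B) (S : V →ₗ[ℂ] B) (u v v' : V) :
    SS A c s e S u (v + v') = SS A c s e S u v + SS A c s e S u v' := by
  obtain ⟨K1, h1⟩ := SS_range A s u (v + v')
  obtain ⟨K2, h2⟩ := SS_range A s u v
  obtain ⟨K3, h3⟩ := SS_range A s u v'
  rw [h1 B c e S (max K1 (max K2 K3)) (le_max_left _ _),
    h2 B c e S (max K1 (max K2 K3)) (by omega), h3 B c e S (max K1 (max K2 K3)) (by omega),
    ← Finset.sum_add_distrib]
  apply Finset.sum_congr rfl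
  intro j _
  rw [← smul_add, ← mul_add, ← map_add]
  congr 3
  exact WW_add_v A _ u v v'

theorem SS_smul_v (c : ℕ → ℂ) (s : ℤ) (e : ℕ → B) (S : V →ₗ[ℂ] B) (b : ℂ) (u v : V) :
    SS A c s e S u (b • v) = b • SS A c s e S u v := by
  obtain ⟨K1, h1⟩ := SS_range A s u (b • v)
  obtain ⟨K2, h2⟩ := SS_range A s u v
  rw [h1 B c e S (max K1 K2) (le_max_left _ _), h2 B c e S (max K1 K2) (by omega),
    Finset.smul_sum]
  apply Finset.sum_congr rfl
  intro j _
  have e1 : br A (2 * j + s) u (b • v) = b • br A (2 * j + s) u v := WW_smul_v A _ b u v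
  rw [e1, map_smul, mul_smul_comm, smul_comm]

/-- `SS` as a bilinear map. -/
noncomputable def SSL (c : ℕ → ℂ) (s : ℤ) (e : ℕ → B) (S : V →ₗ[ℂ] B) : V →ₗ[ℂ] V →ₗ[ℂ] B :=
  LinearMap.mk₂ ℂ (SS A c s e S) (SS_add_u A c s e S) (fun b u v => SS_smul_u A c s e S b u v)
    (SS_add_v A c s e S) (fun b u v => SS_smul_v A c s e S b u v)

theorem SSL_apply (c : ℕ → ℂ) (s : ℤ) (e : ℕ → B) (S : V →ₗ[ℂ] B) (u v : V) :
    SSL A c s e S u v = SS A c s e S u v := rfl

/-- `SS` is additive in `S`. -/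
theorem SS_addS (c : ℕ → ℂ) (s : ℤ) (e : ℕ → B) (S T : V →ₗ[ℂ] B) (u v : V) :
    SS A c s e (S + T) u v = SS A c s e S u v + SS A c s e T u v := by
  obtain ⟨K, h⟩ := SS_range A s u v
  rw [h B c e _ K le_rfl, h B c e _ K le_rfl, h B c e _ K le_rfl, ← Finset.sum_add_distrib]
  apply Finset.sum_congr rfl
  intro j _
  rw [LinearMap.add_apply, mul_add, smul_add]

theorem SS_subS (c : ℕ → ℂ) (s : ℤ) (e : ℕ → B) (S T : V →ₗ[ℂ] B) (u v : V) :
    SS A c s e (S - T) u v = SS A c s e S u v - SS A c s e T u v := by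
  obtain ⟨K, h⟩ := SS_range A s u v
  rw [h B c e _ K le_rfl, h B c e _ K le_rfl, h B c e _ K le_rfl, ← Finset.sum_sub_distrib]
  apply Finset.sum_congr rfl
  intro j _
  rw [LinearMap.sub_apply, mul_sub, smul_sub]

/-- `SS` is linear over the ground ring in `S`. -/
theorem SS_mulS (c : ℕ → ℂ) (s : ℤ) (e : ℕ → B) (b : B) (S : V →ₗ[ℂ] B) (u v : V) :
    SS A c s e (LinearMap.mulLeft ℂ b ∘ₗ S) u v = b * SS A c s e S u v := by
  obtain ⟨K, h⟩ := SS_range A s u v
  rw [h B c e _ K le_rfl, h B c e _ K le_rfl, Finset.mul_sum]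
  apply Finset.sum_congr rfl
  intro j _
  rw [LinearMap.comp_apply, LinearMap.mulLeft_apply, mul_smul_comm, mul_left_comm]

theorem SS_smulS (c : ℕ → ℂ) (s : ℤ) (e : ℕ → B) (b : ℂ) (S : V →ₗ[ℂ] B) (u v : V) :
    SS A c s e (b • S) u v = b • SS A c s e S u v := by
  obtain ⟨K, h⟩ := SS_range A s u v
  rw [h B c e _ K le_rfl, h B c e _ K le_rfl, Finset.smul_sum]
  apply Finset.sum_congr rfl
  intro j _
  rw [LinearMap.smul_apply, mul_smul_comm, smul_comm]

theorem SS_zeroS (c : ℕ → ℂ) (s : ℤ) (e : ℕ → B) (u v : V) :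
    SS A c s e (0 : V →ₗ[ℂ] B) u v = 0 := by
  have := SS_smulS A c s e 0 0 u v
  simpa using this

theorem SS_addc (c c' : ℕ → ℂ) (s : ℤ) (e : ℕ → B) (S : V →ₗ[ℂ] B) (u v : V) :
    SS A (fun j => c j + c' j) s e S u v = SS A c s e S u v + SS A c' s e S u v := by
  obtain ⟨K, h⟩ := SS_range A s u v
  rw [h B _ e _ K le_rfl, h B c e _ K le_rfl, h B c' e _ K le_rfl, ← Finset.sum_add_distrib]
  apply Finset.sum_congr rfl
  intro j _
  rw [add_smul]

theorem SS_adde (c : ℕ → ℂ) (s : ℤ) (e e' : ℕ → B) (S : V →ₗ[ℂ] B) (u v : V) :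
    SS A c s (fun j => e j + e' j) S u v = SS A c s e S u v + SS A c s e' S u v := by
  obtain ⟨K, h⟩ := SS_range A s u v
  rw [h B c _ _ K le_rfl, h B c e _ K le_rfl, h B c e' _ K le_rfl, ← Finset.sum_add_distrib]
  apply Finset.sum_congr rfl
  intro j _
  rw [add_mul, smul_add]

theorem SS_mule (c : ℕ → ℂ) (s : ℤ) (b : B) (e : ℕ → B) (S : V →ₗ[ℂ] B) (u v : V) :
    SS A c s (fun j => b * e j) S u v = b * SS A c s e S u v := by
  obtain ⟨K, h⟩ := SS_range A s u v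
  rw [h B c _ _ K le_rfl, h B c e _ K le_rfl, Finset.mul_sum]
  apply Finset.sum_congr rfl
  intro j _
  rw [mul_smul_comm, mul_assoc]

/-- The defect of the second relation as a bilinear map. -/
noncomputable def df2L (e : ℕ → B) (S : V →ₗ[ℂ] B) : V →ₗ[ℂ] V →ₗ[ℂ] B :=
  (brL A (-2)).compr₂ S + SSL A (fun j => 2 * j + 1) 0 e S

theorem df2L_apply (e : ℕ → B) (S : V →ₗ[ℂ] B) (u v : V) : df2L A e S u v = df2 A e S u v := rfl

/-- The left side of the third relation as a linear map. -/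
noncomputable def df3L (e : ℕ → B) (S : V →ₗ[ℂ] B) : V →ₗ[ℂ] B :=
  S ∘ₗ (brL A (-1) (omt A)) - SSL A (fun _ => 1) 1 e S (omt A)

theorem df3L_apply (e : ℕ → B) (S : V →ₗ[ℂ] B) (v : V) : df3L A e S v = df3 A e S v := rfl

theorem df2_addS (e : ℕ → B) (S T : V →ₗ[ℂ] B) (u v : V) :
    df2 A e (S + T) u v = df2 A e S u v + df2 A e T u v := by
  unfold df2
  rw [SS_addS, LinearMap.add_apply]
  abel

theorem df2_subS (e : ℕ → B) (S T : V →ₗ[ℂ] B) (u v : V) :
    df2 A e (S - T) u v = df2 A e S u v - df2 A e T u v := by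
  unfold df2
  rw [SS_subS, LinearMap.sub_apply]
  abel

theorem df2_mulS (e : ℕ → B) (b : B) (S : V →ₗ[ℂ] B) (u v : V) :
    df2 A e (LinearMap.mulLeft ℂ b ∘ₗ S) u v = b * df2 A e S u v := by
  unfold df2
  rw [SS_mulS, LinearMap.comp_apply, LinearMap.mulLeft_apply, mul_add]

theorem df2_smulS (e : ℕ → B) (b : ℂ) (S : V →ₗ[ℂ] B) (u v : V) :
    df2 A e (b • S) u v = b • df2 A e S u v := by
  unfold df2
  rw [SS_smulS, LinearMap.smul_apply, smul_add]

theorem df3_addS (e : ℕ → B) (S T : V →ₗ[ℂ] B) (v : V) :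
    df3 A e (S + T) v = df3 A e S v + df3 A e T v := by
  unfold df3
  rw [SS_addS, LinearMap.add_apply]
  abel

theorem df3_subS (e : ℕ → B) (S T : V →ₗ[ℂ] B) (v : V) :
    df3 A e (S - T) v = df3 A e S v - df3 A e T v := by
  unfold df3
  rw [SS_subS, LinearMap.sub_apply]
  abel

theorem df3_mulS (e : ℕ → B) (b : B) (S : V →ₗ[ℂ] B) (v : V) :
    df3 A e (LinearMap.mulLeft ℂ b ∘ₗ S) v = b * df3 A e S v := by
  unfold df3
  rw [SS_mulS, LinearMap.comp_apply, LinearMap.mulLeft_apply, mul_sub]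

theorem df3_smulS (e : ℕ → B) (b : ℂ) (S : V →ₗ[ℂ] B) (v : V) :
    df3 A e (b • S) v = b • df3 A e S v := by
  unfold df3
  rw [SS_smulS, LinearMap.smul_apply, smul_sub]

end SS

end Pool.Agent.DERV
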