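import Pool.Agent.DERV.BAS

/-!
# Project DERV: Laurent series, approximation principle, derivative, orders

Constants are written `cc c` (a ring homomorphism), so that all identities are ring identities.
-/

set_option autoImplicit false

universe u

open Finset

namespace Pool.Agent.DERV

/-- Constants as Laurent series. -/
noncomputable def cc : ℂ →+* LaurentSeries ℂ := HahnSeries.C

theorem cc_mul (c : ℂ) (f : LaurentSeries ℂ) : cc c * f = c • f := HahnSeries.C_mul_eq_smul

theorem coeff_cc_mul (c : ℂ) (f : LaurentSeries ℂ) (i : ℤ) :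
    (cc c * f).coeff i = c * f.coeff i := by
  rw [cc_mul, HahnSeries.coeff_smul, smul_eq_mul]

theorem coeff_cc (c : ℂ) (i : ℤ) : (cc c).coeff i = if i = 0 then c else 0 := by
  have := coeff_cc_mul c 1 i
  rw [mul_one] at this
  rw [this, HahnSeries.coeff_one]
  split_ifs <;> simp

theorem single_eq_cc (n : ℤ) (c : ℂ) :
    (HahnSeries.single n c : LaurentSeries ℂ) = cc c * HahnSeries.single n 1 := by
  ext i
  rw [coeff_cc_mul]
  by_cases h : i = n
  · subst h
    rw [HahnSeries.coeff_single_same, HahnSeries.coeff_single_same, mul_one]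
  · rw [HahnSeries.coeff_single_of_ne h, HahnSeries.coeff_single_of_ne h, mul_zero]

/-- All coefficients below `N` vanish. -/
def OG (N : ℤ) (f : LaurentSeries ℂ) : Prop := ∀ i < N, f.coeff i = 0

theorem OG.mono {M N : ℤ} {f : LaurentSeries ℂ} (h : OG N f) (hMN : M ≤ N) : OG M f :=
  fun i hi => h i (lt_of_lt_of_le hi hMN)

theorem OG.add {N : ℤ} {f g : LaurentSeries ℂ} (hf : OG N f) (hg : OG N g) : OG N (f + g) := by
  intro i hi
  rw [HahnSeries.coeff_add, hf i hi, hg i hi, add_zero]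

theorem OG.sub {N : ℤ} {f g : LaurentSeries ℂ} (hf : OG N f) (hg : OG N g) : OG N (f - g) := by
  intro i hi
  rw [HahnSeries.coeff_sub, hf i hi, hg i hi, sub_zero]

theorem OG.neg {N : ℤ} {f : LaurentSeries ℂ} (hf : OG N f) : OG N (-f) := by
  intro i hi
  rw [HahnSeries.coeff_neg, hf i hi, neg_zero]

theorem OG.cc {N : ℤ} {f : LaurentSeries ℂ} (c : ℂ) (hf : OG N f) : OG N (cc c * f) := by
  intro i hi
  rw [coeff_cc_mul, hf i hi, mul_zero]

theorem OG.zero (N : ℤ) : OG N 0 := fun i _ => by simp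

theorem OG.sum {ι : Type*} {N : ℤ} (s : Finset ι) (f : ι → LaurentSeries ℂ)
    (h : ∀ i ∈ s, OG N (f i)) : OG N (∑ i ∈ s, f i) := by
  classical
  induction s using Finset.induction_on with
  | empty => simpa using OG.zero N
  | insert a s ha ih =>
    rw [Finset.sum_insert ha]
    exact (h a (Finset.mem_insert_self a s)).add
      (ih (fun i hi => h i (Finset.mem_insert_of_mem hi)))

theorem OG.mul {M N : ℤ} {f g : LaurentSeries ℂ} (hf : OG M f) (hg : OG N g) :
    OG (M + N) (f * g) := by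
  intro i hi
  rw [HahnSeries.coeff_mul]
  apply Finset.sum_eq_zero
  intro x hx
  obtain ⟨h1, h2, h3⟩ := Finset.mem_addAntidiagonal.1 hx
  rw [HahnSeries.mem_support] at h1 h2
  exfalso
  have h4 : M ≤ x.1 := by
    by_contra h
    exact h1 (hf _ (not_le.1 h))
  have h5 : N ≤ x.2 := by
    by_contra h
    exact h2 (hg _ (not_le.1 h))
  omega

theorem OG_order (f : LaurentSeries ℂ) : OG f.order f := fun _ hi =>
  HahnSeries.coeff_eq_zero_of_lt_order hi

theorem OG_single (n : ℤ) (c : ℂ) : OG n (HahnSeries.single n c : LaurentSeries ℂ) := fun _ hi =>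
  HahnSeries.coeff_single_of_ne (ne_of_lt hi)

/-- A Laurent series is a finite combination of monomials up to high order. -/
theorem apx_split (f : LaurentSeries ℂ) (N : ℤ) : ∃ (s : Finset ℤ), OG N
    (f - ∑ i ∈ s, cc (f.coeff i) * (HahnSeries.single i 1 : LaurentSeries ℂ)) := by
  refine ⟨Finset.Ico f.order N, fun i hi => ?_⟩
  rw [HahnSeries.coeff_sub, HahnSeries.coeff_sum]
  simp only [coeff_cc_mul]
  by_cases h : f.order ≤ i
  · rw [Finset.sum_eq_single i]
    · rw [HahnSeries.coeff_single_same]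
      ring
    · intro b _ hb
      rw [HahnSeries.coeff_single_of_ne (Ne.symm hb), mul_zero]
    · intro h'
      exact absurd (Finset.mem_Ico.2 ⟨h, hi⟩) h'
  · rw [HahnSeries.coeff_eq_zero_of_lt_order (not_le.1 h), Finset.sum_eq_zero, sub_zero]
    intro b hb
    rw [Finset.mem_Ico] at hb
    rw [HahnSeries.coeff_single_of_ne (by omega), mul_zero]

/-- Approximation principle: a linear map on Laurent series that vanishes on the monomials and on
series of high order is zero. -/
theorem apx {W : Type*} [AddCommGroup W] (Φ : LaurentSeries ℂ → W) (N : ℤ)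
    (hadd : ∀ f g, Φ (f + g) = Φ f + Φ g)
    (hN : ∀ f, OG N f → Φ f = 0) (h : ∀ (c : ℂ) (m : ℤ), Φ (cc c * HahnSeries.single m 1) = 0)
    (f : LaurentSeries ℂ) : Φ f = 0 := by
  obtain ⟨s, hs⟩ := apx_split f N
  let Ψ : LaurentSeries ℂ →+ W := AddMonoidHom.mk' Φ hadd
  have hΨ : ∀ f, Ψ f = Φ f := fun _ => rfl
  have h1 := hN _ hs
  rw [← hΨ, map_sub, map_sum] at h1
  rw [← hΨ, sub_eq_zero.1 h1]
  apply Finset.sum_eq_zero
  intro i _
  rw [hΨ, h]

theorem coeff_dL (f : LaurentSeries ℂ) (n : ℤ) :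
    (dL f).coeff n = ((n : ℂ) + 1) * f.coeff (n + 1) := by
  unfold dL
  rw [LaurentSeries.derivative_apply, LaurentSeries.hasseDeriv_coeff]
  push_cast
  rw [Ring.choose_one_right]
  rw [zsmul_eq_mul]
  push_cast
  rfl

theorem dL_add (f g : LaurentSeries ℂ) : dL (f + g) = dL f + dL g := by
  unfold dL
  rw [map_add]

theorem dL_sub (f g : LaurentSeries ℂ) : dL (f - g) = dL f - dL g := by
  unfold dL
  rw [map_sub]

theorem dL_cc_mul (c : ℂ) (f : LaurentSeries ℂ) : dL (cc c * f) = cc c * dL f := by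
  ext i
  rw [coeff_dL, coeff_cc_mul, coeff_cc_mul, coeff_dL]
  ring

theorem dL_neg (f : LaurentSeries ℂ) : dL (-f) = -dL f := by
  unfold dL
  rw [map_neg]

theorem dL_zero : dL 0 = 0 := by
  unfold dL
  rw [map_zero]

theorem dL_sum {ι : Type*} (s : Finset ι) (f : ι → LaurentSeries ℂ) :
    dL (∑ i ∈ s, f i) = ∑ i ∈ s, dL (f i) := by
  unfold dL
  rw [map_sum]

theorem dL_single (n : ℤ) (c : ℂ) :
    dL (HahnSeries.single n c) = HahnSeries.single (n - 1) ((n : ℂ) * c) := by
  ext i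
  rw [coeff_dL]
  by_cases h : i = n - 1
  · subst h
    rw [sub_add_cancel, HahnSeries.coeff_single_same, HahnSeries.coeff_single_same]
    push_cast
    ring
  · rw [HahnSeries.coeff_single_of_ne h, HahnSeries.coeff_single_of_ne (by omega), mul_zero]

theorem OG.dL {N : ℤ} {f : LaurentSeries ℂ} (hf : OG N f) : OG (N - 1) (dL f) := by
  intro i hi
  rw [coeff_dL, hf (i + 1) (by omega), mul_zero]

/-- The Leibniz rule. -/
theorem dL_mul (f g : LaurentSeries ℂ) : dL (f * g) = dL f * g + f * dL g := by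
  suffices h : dL (f * g) - dL f * g - f * dL g = 0 by
    rw [sub_sub, sub_eq_zero] at h
    exact h
  ext k
  rw [HahnSeries.coeff_zero]
  refine apx (fun f => (dL (f * g) - dL f * g - f * dL g).coeff k) (k + 2 - g.order) ?_ ?_ ?_ f
  · intro a b
    simp only [add_mul, dL_add, HahnSeries.coeff_add, HahnSeries.coeff_sub]
    ring
  · intro f hf
    have hg := OG_order g
    have h1 : OG (k + 1) (dL (f * g)) := (hf.mul hg).dL.mono (by omega)
    have h2 : OG (k + 1) (dL f * g) := (hf.dL.mul hg).mono (by omega)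
    have h3 : OG (k + 1) (f * dL g) := (hf.mul hg.dL).mono (by omega)
    exact ((h1.sub h2).sub h3) k (by omega)
  · intro c m
    have e1 : dL (cc c * HahnSeries.single m 1 * g) - dL (cc c * HahnSeries.single m 1) * g
        - cc c * HahnSeries.single m 1 * dL g
        = cc c * (dL (HahnSeries.single m 1 * g) - dL (HahnSeries.single m 1) * g
        - HahnSeries.single m 1 * dL g) := by
      rw [mul_assoc, dL_cc_mul, dL_cc_mul]
      ring
    rw [e1, coeff_cc_mul]
    suffices h : (dL (HahnSeries.single m 1 * g) - dL (HahnSeries.single m 1) * g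
        - HahnSeries.single m 1 * dL g).coeff k = 0 by rw [h, mul_zero]
    refine apx (fun g => (dL (HahnSeries.single m 1 * g) - dL (HahnSeries.single m 1) * g
        - HahnSeries.single m 1 * dL g).coeff k) (k + 2 - m) ?_ ?_ ?_ g
    · intro a b
      simp only [mul_add, dL_add, HahnSeries.coeff_add, HahnSeries.coeff_sub]
      ring
    · intro f hf
      have hg := OG_single m 1
      have h1 : OG (k + 1) (dL ((HahnSeries.single m 1 : LaurentSeries ℂ) * f)) :=
        (hg.mul hf).dL.mono (by omega)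
      have h2 : OG (k + 1) (dL (HahnSeries.single m 1) * f) := (hg.dL.mul hf).mono (by omega)
      have h3 : OG (k + 1) ((HahnSeries.single m 1 : LaurentSeries ℂ) * dL f) :=
        (hg.mul hf.dL).mono (by omega)
      exact ((h1.sub h2).sub h3) k (by omega)
    · intro c' n
      rw [← single_eq_cc, HahnSeries.single_mul_single, dL_single, dL_single, dL_single,
        HahnSeries.single_mul_single, HahnSeries.single_mul_single]
      have e1 : m + (n - 1) = m + n - 1 := by ring
      have e2 : m - 1 + n = m + n - 1 := by ring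
      rw [e1, e2]
      by_cases h : k = m + n - 1
      · subst h
        simp only [HahnSeries.coeff_sub, HahnSeries.coeff_single_same]
        push_cast
        ring
      · simp only [HahnSeries.coeff_sub, HahnSeries.coeff_single_of_ne h]
        ring

theorem dL_cc (c : ℂ) : dL (cc c) = 0 := by
  ext i
  rw [coeff_dL, coeff_cc, HahnSeries.coeff_zero]
  split_ifs with h
  · have : (i : ℂ) + 1 = 0 := by exact_mod_cast h
    rw [this, zero_mul]
  · rw [mul_zero]

theorem dL_one : dL 1 = 0 := by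
  rw [← map_one cc, dL_cc]

theorem dL_pow (f : LaurentSeries ℂ) (n : ℕ) :
    dL (f ^ (n + 1)) = cc ((n : ℂ) + 1) * (f ^ n * dL f) := by
  induction n with
  | zero => simp
  | succ n ih =>
    rw [pow_succ f (n + 1), dL_mul, ih]
    push_cast
    simp only [map_add, map_one]
    ring

/-- The derivative of integer powers. -/
theorem dL_zpow (f : LaurentSeries ℂ) (hf : f ≠ 0) (n : ℤ) :
    dL (f ^ n) = cc (n : ℂ) * (f ^ (n - 1) * dL f) := by
  have hpos : ∀ k : ℕ, dL (f ^ (k : ℤ)) = cc (k : ℂ) * (f ^ ((k : ℤ) - 1) * dL f) := by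
    intro k
    cases k with
    | zero => simp [dL_one]
    | succ k =>
      have e : ((k + 1 : ℕ) : ℤ) - 1 = (k : ℤ) := by push_cast; ring
      rw [e, zpow_natCast, zpow_natCast, dL_pow]
      push_cast
      rfl
  obtain ⟨k, rfl | rfl⟩ := n.eq_nat_or_neg
  · have := hpos k
    push_cast
    exact this
  · have h1 : f ^ (-(k : ℤ)) * f ^ (k : ℤ) = 1 := by
      rw [← zpow_add₀ hf]; simp
    have h2 := dL_mul (f ^ (-(k : ℤ))) (f ^ (k : ℤ))
    rw [h1, dL_one, hpos k] at h2
    have h3 : f ^ (k : ℤ) ≠ 0 := zpow_ne_zero _ hf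
    apply mul_right_cancel₀ h3
    have h4 : dL (f ^ (-(k : ℤ))) * f ^ (k : ℤ) =
        -(f ^ (-(k : ℤ)) * (cc (k : ℂ) * (f ^ ((k : ℤ) - 1) * dL f))) := by
      linear_combination -h2
    rw [h4]
    push_cast
    rw [map_neg]
    have e : f ^ (-(k : ℤ)) * (f ^ ((k : ℤ) - 1) * dL f) =
        f ^ (-(k : ℤ) - 1) * dL f * f ^ (k : ℤ) := by
      rw [← mul_assoc, ← zpow_add₀ hf, mul_right_comm, ← zpow_add₀ hf]
      congr 2
      ring
    linear_combination (-cc (k : ℂ)) * e

theorem xL_coeff_one : xL.coeff 1 = 1 := by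
  unfold xL
  rw [HahnSeries.coeff_single_same]

theorem OG_xL : OG 1 xL := OG_single 1 1

theorem dL_xL : dL xL = 1 := by
  unfold xL
  rw [dL_single]
  simp

theorem dL_y : dL (1 + xL) = 1 := by
  rw [dL_add, dL_one, dL_xL, zero_add]

theorem xL_ne : xL ≠ 0 := by
  intro h
  have := xL_coeff_one
  rw [h] at this
  simp at this

theorem y_coeff_zero : (1 + xL : LaurentSeries ℂ).coeff 0 = 1 := by
  rw [HahnSeries.coeff_add]
  unfold xL
  rw [HahnSeries.coeff_single_of_ne (by norm_num), add_zero, HahnSeries.coeff_one, if_pos rfl]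

theorem y_ne : (1 + xL : LaurentSeries ℂ) ≠ 0 := by
  intro h
  have := y_coeff_zero
  rw [h] at this
  simp at this

/-- Laurent series with leading term `x ^ n`. -/
def LD (n : ℤ) (f : LaurentSeries ℂ) : Prop := OG n f ∧ f.coeff n = 1

theorem LD.mul {m n : ℤ} {f g : LaurentSeries ℂ} (hf : LD m f) (hg : LD n g) :
    LD (m + n) (f * g) := by
  refine ⟨hf.1.mul hg.1, ?_⟩
  have h1 : OG (m + 1) (f - HahnSeries.single m 1) := by
    intro i hi
    rw [HahnSeries.coeff_sub]
    by_cases h : i = m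
    · subst h; rw [hf.2, HahnSeries.coeff_single_same, sub_self]
    · rw [hf.1 i (by omega), HahnSeries.coeff_single_of_ne h, sub_zero]
  have h2 : (f - HahnSeries.single m 1) * g = f * g - HahnSeries.single m 1 * g := sub_mul _ _ _
  have h3 : ((f - HahnSeries.single m 1) * g).coeff (m + n) = 0 := (h1.mul hg.1) _ (by omega)
  rw [h2, HahnSeries.coeff_sub, HahnSeries.coeff_single_mul, sub_eq_zero] at h3
  rw [h3]
  have e : m + n - m = n := by ring
  rw [e, hg.2, one_mul]

theorem LD.ne {n : ℤ} {f : LaurentSeries ℂ} (hf : LD n f) : f ≠ 0 := by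
  intro h
  have := hf.2
  rw [h] at this
  simp at this

theorem LD_one : LD 0 1 := ⟨fun i hi => by
  rw [HahnSeries.coeff_one, if_neg (by omega)], by simp⟩

theorem LD.inv {n : ℤ} {f : LaurentSeries ℂ} (hf : LD n f) : LD (-n) f⁻¹ := by
  have h1 : f * f⁻¹ = 1 := mul_inv_cancel₀ hf.ne
  have hne : f⁻¹ ≠ 0 := inv_ne_zero hf.ne
  -- the order of the inverse
  set g := f⁻¹ with hg
  set m := g.order with hm
  have hgm : g.coeff m ≠ 0 := HahnSeries.coeff_order_eq_zero.not.2 hne
  have hOG := OG_order g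
  have h2 : LD m (cc (g.coeff m)⁻¹ * g) := by
    refine ⟨hOG.cc _, ?_⟩
    rw [coeff_cc_mul, inv_mul_cancel₀ hgm]
  have h3 := hf.mul h2
  rw [mul_left_comm, h1, mul_one] at h3
  have h4 : n + m = 0 := by
    by_contra hne'
    have h5 := h3.2
    rw [coeff_cc, if_neg hne'] at h5
    exact one_ne_zero h5.symm
  have h5 : m = -n := by omega
  have h6 := h3.2
  rw [coeff_cc, if_pos h4] at h6
  rw [← h5]
  refine ⟨hOG, ?_⟩
  rw [← inv_inv (g.coeff m), h6, inv_one]

theorem LD.pow {n : ℤ} {f : LaurentSeries ℂ} (hf : LD n f) (k : ℕ) : LD (k * n) (f ^ k) := by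
  induction k with
  | zero => simpa using LD_one
  | succ k ih =>
    have := ih.mul hf
    rw [pow_succ]
    have e : ((k + 1 : ℕ) : ℤ) * n = k * n + n := by push_cast; ring
    rwa [e]

theorem LD.zpow {n : ℤ} {f : LaurentSeries ℂ} (hf : LD n f) (k : ℤ) : LD (k * n) (f ^ k) := by
  obtain ⟨j, rfl | rfl⟩ := k.eq_nat_or_neg
  · rw [zpow_natCast]
    exact hf.pow j
  · rw [zpow_neg, zpow_natCast, neg_mul]
    exact (hf.pow j).inv

theorem LD_y : LD 0 (1 + xL) := by
  refine ⟨?_, y_coeff_zero⟩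
  exact LD_one.1.add (OG_xL.mono (by norm_num))

theorem LD_y_zpow (s : ℤ) : LD 0 ((1 + xL) ^ s) := by
  have := LD_y.zpow s
  rwa [mul_zero] at this

theorem LD_xL : LD 1 xL := ⟨OG_xL, xL_coeff_one⟩

theorem Lg_coeff_nat (n : ℕ) : Lg.coeff (n : ℤ) = PowerSeries.coeff n (PowerSeries.log ℂ) := by
  unfold Lg
  rw [PowerSeries.coeff_coe, if_neg (by omega)]
  rfl

theorem Lg_coeff_neg (n : ℤ) (hn : n < 0) : Lg.coeff n = 0 := by
  unfold Lg
  rw [PowerSeries.coeff_coe]
  rw [if_pos hn]

theorem LD_Lg : LD 1 Lg := by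
  constructor
  · intro i hi
    by_cases h : i < 0
    · exact Lg_coeff_neg i h
    · have : i = ((0 : ℕ) : ℤ) := by push_cast; omega
      rw [this, Lg_coeff_nat]
      simp
  · have := Lg_coeff_nat 1
    rw [PowerSeries.coeff_one_log] at this
    exact_mod_cast this

theorem LD_Lg_zpow (n : ℤ) : LD n (Lg ^ n) := by
  have := LD_Lg.zpow n
  rwa [mul_one] at this

theorem Lg_ne : Lg ≠ 0 := LD_Lg.ne

/-- `(1 + x) L' = 1`. -/
theorem dL_Lg : (1 + xL) * dL Lg = 1 := by
  ext i
  rw [add_mul, one_mul, HahnSeries.coeff_add]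
  unfold xL
  rw [HahnSeries.coeff_single_mul, one_mul, coeff_dL, coeff_dL, HahnSeries.coeff_one]
  have hc : ∀ n : ℕ, ((n : ℂ) + 1) * Lg.coeff ((n : ℤ) + 1) = (-1) ^ n := by
    intro n
    have := Lg_coeff_nat (n + 1)
    push_cast at this
    rw [this, PowerSeries.coeff_log, if_neg (by omega)]
    have h1 : ((n : ℂ) + 1) ≠ 0 := by exact_mod_cast Nat.succ_ne_zero n
    rw [eq_ratCast]
    push_cast
    rw [mul_div_cancel₀ _ h1, pow_succ, pow_succ]
    ring
  rcases lt_trichotomy i 0 with h | h | h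
  · rw [if_neg (by omega), Lg_coeff_neg (i - 1 + 1) (by omega), mul_zero, add_zero]
    by_cases h1 : i + 1 = 0
    · rw [h1]
      have : ((i : ℂ) + 1) = 0 := by exact_mod_cast h1
      rw [this, zero_mul]
    · rw [Lg_coeff_neg (i + 1) (by omega), mul_zero]
  · subst h
    rw [if_pos rfl]
    have h1 := hc 0
    have e1 : ((0 : ℕ) : ℤ) + 1 = 1 := by norm_num
    rw [e1] at h1
    have e2 : ((0 : ℤ) + 1) = 1 := by norm_num
    have e3 : ((0 : ℤ) - 1 + 1) = 0 := by norm_num
    rw [e2, e3]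
    push_cast at h1 ⊢
    rw [h1]
    ring
  · rw [if_neg (by omega)]
    obtain ⟨n, rfl⟩ : ∃ n : ℕ, i = (n : ℤ) + 1 := ⟨(i - 1).toNat, by omega⟩
    have h1 := hc (n + 1)
    have h2 := hc n
    push_cast at h1 h2 ⊢
    rw [h1]
    have e : (n : ℤ) + 1 - 1 = n := by ring
    rw [e]
    have e' : (n : ℂ) + 1 - 1 + 1 = (n : ℂ) + 1 := by ring
    rw [e', h2]
    ring

/-- `(1 + x) d/dx L ^ n = n L ^ (n - 1)`. -/
theorem dL_Lg_zpow (n : ℤ) : (1 + xL) * dL (Lg ^ n) = cc (n : ℂ) * Lg ^ (n - 1) := by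
  rw [dL_zpow Lg Lg_ne]
  linear_combination (cc (n : ℂ) * Lg ^ (n - 1)) * dL_Lg

theorem dL_y_zpow (s : ℤ) : dL ((1 + xL) ^ s) = cc (s : ℂ) * (1 + xL) ^ (s - 1) := by
  rw [dL_zpow _ y_ne, dL_y, mul_one]

theorem dL_res (f : LaurentSeries ℂ) : (dL f).coeff (-1) = 0 := by
  rw [coeff_dL]
  simp

theorem y_inv_eq : (1 + xL : LaurentSeries ℂ) ^ (-1 : ℤ) = dL Lg := by
  rw [zpow_neg_one]
  exact inv_eq_of_mul_eq_one_right dL_Lg

/-- The residue of `L ^ n` against `dx / (1 + x)`. -/
theorem res_Lg (n : ℤ) : ((1 + xL) ^ (-1 : ℤ) * Lg ^ n).coeff (-1) = if n = -1 then 1 else 0 := by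
  split_ifs with hn
  · subst hn
    have h2 : LD (0 + -1) ((1 + xL) ^ (-1 : ℤ) * Lg ^ (-1 : ℤ)) :=
      (LD_y_zpow (-1)).mul (LD_Lg_zpow (-1))
    exact h2.2
  · have hn' : ((n : ℂ) + 1) ≠ 0 := by
      intro h
      apply hn
      have : ((n + 1 : ℤ) : ℂ) = 0 := by push_cast; exact h
      have := Int.cast_eq_zero.1 this
      omega
    have h2 := dL_zpow Lg Lg_ne (n + 1)
    have e : n + 1 - 1 = n := by ring
    rw [e] at h2
    have h3 := dL_res (Lg ^ (n + 1))
    rw [h2, coeff_cc_mul] at h3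
    push_cast at h3
    rcases mul_eq_zero.1 h3 with h4 | h4
    · exact absurd h4 hn'
    · rw [y_inv_eq, mul_comm]
      exact h4

end Pool.Agent.DERV
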