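import Pool.Agent.DERV.EKC

/-!
# Project DERV, part II: expansions in powers of the logarithm
-/

set_option autoImplicit false

universe u

open Finset

namespace Pool.Agent.DERV

open Pool.Agent.VOAut
open UpperHalfPlane hiding I
open scoped Nat ArithmeticFunction.sigma Manifold

variable {V : Type u} [AddCommGroup V] [Module ℂ V]

/-- A power series in the logarithm, truncated. -/
noncomputable def ser_tr (F : PowerSeries ℂ) (K : ℕ) : LaurentSeries ℂ :=
  ∑ k ∈ range K, cc (PowerSeries.coeff k F) * Lg ^ (k : ℤ)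

theorem ser_tr_succ (F : PowerSeries ℂ) (K : ℕ) :
    ser_tr F (K + 1) = ser_tr F K + cc (PowerSeries.coeff K F) * Lg ^ (K : ℤ) := by
  unfold ser_tr
  rw [Finset.sum_range_succ]

theorem ser_cc_Lg_OG (c : ℂ) (k : ℕ) : OG k (cc c * Lg ^ (k : ℤ)) := (LD_Lg_zpow k).1.cc c

theorem ser_tr_OG0 (F : PowerSeries ℂ) (K : ℕ) : OG 0 (ser_tr F K) :=
  OG.sum _ _ fun k _ => (ser_cc_Lg_OG _ k).mono (by omega)

/-- Truncated products. -/
theorem ser_mul (F G : PowerSeries ℂ) (K : ℕ) :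
    OG K (ser_tr F K * ser_tr G K - ser_tr (F * G) K) := by
  have h1 : ser_tr F K * ser_tr G K =
      ∑ p ∈ range K ×ˢ range K, cc (PowerSeries.coeff p.1 F * PowerSeries.coeff p.2 G) *
        Lg ^ ((p.1 + p.2 : ℕ) : ℤ) := by
    unfold ser_tr
    rw [Finset.sum_mul_sum, Finset.sum_product]
    apply Finset.sum_congr rfl
    intro i _
    apply Finset.sum_congr rfl
    intro j _
    rw [map_mul]
    push_cast
    rw [zpow_add₀ Lg_ne]
    ring
  have h2 : ser_tr (F * G) K =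
      ∑ p ∈ (range K ×ˢ range K).filter (fun p => p.1 + p.2 < K),
        cc (PowerSeries.coeff p.1 F * PowerSeries.coeff p.2 G) *
        Lg ^ ((p.1 + p.2 : ℕ) : ℤ) := by
    unfold ser_tr
    have h3 : ∀ k ∈ range K, cc (PowerSeries.coeff k (F * G)) * Lg ^ (k : ℤ) =
        ∑ p ∈ antidiagonal k, cc (PowerSeries.coeff p.1 F * PowerSeries.coeff p.2 G) *
          Lg ^ ((p.1 + p.2 : ℕ) : ℤ) := by
      intro k _
      rw [PowerSeries.coeff_mul, map_sum, Finset.sum_mul]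
      apply Finset.sum_congr rfl
      intro p hp
      rw [HasAntidiagonal.mem_antidiagonal] at hp
      rw [hp]
    rw [Finset.sum_congr rfl h3, Finset.sum_sigma']
    refine Finset.sum_bij' (fun x _ => x.2) (fun p _ => ⟨p.1 + p.2, p⟩) ?_ ?_ ?_ ?_ ?_
    · rintro ⟨k, p⟩ h
      simp only [mem_sigma, mem_range, HasAntidiagonal.mem_antidiagonal] at h
      simp only [mem_filter, mem_product, mem_range]
      omega
    · rintro p h
      simp only [mem_filter, mem_product, mem_range] at h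
      simp only [mem_sigma, mem_range, HasAntidiagonal.mem_antidiagonal]
      exact ⟨h.2, trivial⟩
    · rintro ⟨k, p⟩ h
      simp only [mem_sigma, mem_range, HasAntidiagonal.mem_antidiagonal] at h
      obtain ⟨_, rfl⟩ := h
      rfl
    · rintro p h
      rfl
    · rintro ⟨k, p⟩ h
      rfl
  rw [h1, h2, ← Finset.sum_filter_add_sum_filter_not (range K ×ˢ range K)
    (fun p => p.1 + p.2 < K), add_sub_cancel_left]
  apply OG.sum
  intro p hp
  simp only [mem_filter, mem_product, mem_range] at hp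
  exact (ser_cc_Lg_OG _ _).mono (by omega)

/-- the derivative of the truncated series -/
theorem ser_dL_term (c : ℂ) (n : ℤ) :
    (1 + xL) * dL (cc c * Lg ^ n) = cc (c * (n : ℂ)) * Lg ^ (n - 1) := by
  rw [dL_cc_mul, map_mul]
  have := dL_Lg_zpow n
  linear_combination (cc c) * this

/-- coefficients from the derivative -/
theorem ser_of_dL {N : ℤ} {g : LaurentSeries ℂ} (h : OG N (dL g)) (i : ℤ) (hi : i < N + 1)
    (h0 : i ≠ 0) : g.coeff i = 0 := by
  have h1 := h (i - 1) (by omega)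
  rw [coeff_dL, sub_add_cancel] at h1
  rcases mul_eq_zero.1 h1 with h2 | h2
  · exfalso
    apply h0
    push_cast at h2
    rw [sub_add_cancel] at h2
    exact_mod_cast h2
  · exact h2

theorem ser_fact_ne (k : ℕ) : ((k ! : ℕ) : ℂ) ≠ 0 := by
  exact_mod_cast Nat.factorial_ne_zero k

theorem ser_exp_dL (s : ℤ) (K : ℕ) :
    (1 + xL) * dL (∑ k ∈ range (K + 1), cc ((s : ℂ) ^ k / (k ! : ℕ)) * Lg ^ (k : ℤ)) =
      cc (s : ℂ) * ∑ k ∈ range K, cc ((s : ℂ) ^ k / (k ! : ℕ)) * Lg ^ (k : ℤ) := by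
  rw [dL_sum, Finset.mul_sum, Finset.mul_sum, Finset.sum_range_succ']
  have h0 : (1 + xL) * dL (cc ((s : ℂ) ^ 0 / ((0 ! : ℕ) : ℂ)) * Lg ^ ((0 : ℕ) : ℤ)) = 0 := by
    rw [ser_dL_term]
    simp
  rw [h0, add_zero]
  apply Finset.sum_congr rfl
  intro k _
  rw [ser_dL_term, ← mul_assoc, ← map_mul]
  have e1 : ((k + 1 : ℕ) : ℤ) - 1 = (k : ℤ) := by push_cast; ring
  rw [e1]
  congr 2
  have h1 := ser_fact_ne k
  have h2 : ((k : ℂ) + 1) ≠ 0 := by exact_mod_cast Nat.succ_ne_zero k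
  rw [Nat.factorial_succ, pow_succ]
  push_cast
  field_simp

theorem y_pow_apx (s : ℤ) (K : ℕ) :
    OG K ((1 + xL) ^ s - ∑ k ∈ range K, cc ((s : ℂ) ^ k / (k ! : ℕ)) * Lg ^ (k : ℤ)) := by
  cases K with
  | zero =>
    simp only [range_zero, sum_empty, sub_zero]
    exact (LD_y_zpow s).1
  | succ K =>
    set P : LaurentSeries ℂ :=
      ∑ k ∈ range (K + 1), cc ((s : ℂ) ^ k / (k ! : ℕ)) * Lg ^ (k : ℤ) with hP
    -- leading coefficient of P
    have hP0 : OG 1 (P - 1) := by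
      have : P - 1 = ∑ k ∈ range K, cc ((s : ℂ) ^ (k + 1) / ((k + 1) ! : ℕ)) *
          Lg ^ ((k + 1 : ℕ) : ℤ) := by
        rw [hP, Finset.sum_range_succ']
        simp
      rw [this]
      exact OG.sum _ _ fun k _ => (ser_cc_Lg_OG _ (k + 1)).mono (by push_cast; omega)
    have hPLD : LD 0 P := by
      have e : P = 1 + (P - 1) := by ring
      rw [e]
      refine ⟨LD_one.1.add (hP0.mono (by norm_num)), ?_⟩
      rw [HahnSeries.coeff_add, hP0 0 (by norm_num), LD_one.2, add_zero]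
    set g : LaurentSeries ℂ := (1 + xL) ^ (-s) * P with hg
    have hgLD : LD 0 g := by
      have := (LD_y_zpow (-s)).mul hPLD
      rwa [add_zero] at this
    -- derivative
    have hd : (1 + xL) * dL g = -(cc (s : ℂ) * ((1 + xL) ^ (-s) *
        (cc ((s : ℂ) ^ K / (K ! : ℕ)) * Lg ^ (K : ℤ)))) := by
      have h1 := ser_exp_dL s K
      rw [← hP] at h1
      have h2 : P = (∑ k ∈ range K, cc ((s : ℂ) ^ k / (k ! : ℕ)) * Lg ^ (k : ℤ)) +
          cc ((s : ℂ) ^ K / (K ! : ℕ)) * Lg ^ (K : ℤ) := by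
        rw [hP, Finset.sum_range_succ]
      have h3 : (1 + xL) * (1 + xL) ^ (-s - 1) = (1 + xL : LaurentSeries ℂ) ^ (-s) := by
        rw [← zpow_one_add₀ y_ne]
        congr 1
        ring
      have h4 := dL_y_zpow (-s)
      have h5 : cc ((-s : ℤ) : ℂ) = -cc (s : ℂ) := by
        push_cast
        rw [map_neg]
      rw [h5] at h4
      rw [hg, dL_mul, h4]
      linear_combination (-cc (s : ℂ) * P) * h3 + (1 + xL) ^ (-s) * h1 -
        (cc (s : ℂ) * (1 + xL) ^ (-s)) * h2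
    have hOG : OG K (dL g) := by
      have h1 : dL g = (1 + xL) ^ (-1 : ℤ) * ((1 + xL) * dL g) := by
        rw [← mul_assoc, zpow_neg_one, inv_mul_cancel₀ y_ne, one_mul]
      rw [h1, hd]
      have h2 : OG (0 + K) ((1 + xL) ^ (-s) * (cc ((s : ℂ) ^ K / (K ! : ℕ)) * Lg ^ (K : ℤ))) :=
        (LD_y_zpow (-s)).1.mul (ser_cc_Lg_OG _ K)
      have h3 := (LD_y_zpow (-1)).1.mul (h2.cc (s : ℂ)).neg
      exact h3.mono (by omega)
    have hg1 : OG (K + 1) (g - 1) := by
      intro i hi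
      rw [HahnSeries.coeff_sub]
      by_cases h0 : i = 0
      · subst h0
        rw [hgLD.2, LD_one.2, sub_self]
      · rw [ser_of_dL hOG i hi h0, HahnSeries.coeff_one, if_neg h0, sub_zero]
    have h1 : (1 + xL) ^ s - P = -((1 + xL) ^ s * (g - 1)) := by
      have h2 : (1 + xL : LaurentSeries ℂ) ^ s * (1 + xL) ^ (-s) = 1 := by
        rw [← zpow_add₀ y_ne]
        simp
      rw [hg]
      linear_combination P * h2
    rw [h1]
    have h2 := ((LD_y_zpow s).1.mul hg1).neg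
    refine h2.mono ?_
    push_cast
    omega

theorem ser_exp_tr (K : ℕ) : ser_tr (PowerSeries.exp ℂ) K =
    ∑ k ∈ range K, cc (((1 : ℤ) : ℂ) ^ k / (k ! : ℕ)) * Lg ^ (k : ℤ) := by
  unfold ser_tr
  apply Finset.sum_congr rfl
  intro k _
  congr 2
  rw [PowerSeries.coeff_exp]
  simp

theorem ser_y_apx (K : ℕ) : OG K (1 + xL - ser_tr (PowerSeries.exp ℂ) K) := by
  have := y_pow_apx 1 K
  rw [zpow_one] at this
  rwa [ser_exp_tr]

theorem ser_tr_sub (F G : PowerSeries ℂ) (K : ℕ) :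
    ser_tr (F - G) K = ser_tr F K - ser_tr G K := by
  unfold ser_tr
  rw [← Finset.sum_sub_distrib]
  apply Finset.sum_congr rfl
  intro k _
  rw [map_sub, map_sub, sub_mul]

theorem ser_tr_one (K : ℕ) : ser_tr 1 (K + 1) = 1 := by
  unfold ser_tr
  rw [Finset.sum_eq_single 0]
  · simp
  · intro b _ hb
    rw [PowerSeries.coeff_one, if_neg hb, map_zero, zero_mul]
  · simp

theorem ser_tr_X (K : ℕ) : ser_tr PowerSeries.X (K + 2) = Lg := by
  unfold ser_tr
  rw [Finset.sum_eq_single 1]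
  · simp
  · intro b _ hb
    rw [PowerSeries.coeff_X, if_neg hb, map_zero, zero_mul]
  · simp

/-- the Bernoulli series in the logarithm -/
theorem ser_bern (K : ℕ) :
    OG K (phs - Lg ^ (-1 : ℤ) * ser_tr (bernoulli'PowerSeries ℂ) (K + 2)) := by
  set Q := ser_tr (bernoulli'PowerSeries ℂ) (K + 2) with hQ
  have hB := bernoulli'PowerSeries_mul_exp_sub_one ℂ
  have h1 : OG ((K + 2 : ℕ) : ℤ) (Q * ser_tr (PowerSeries.exp ℂ - 1) (K + 2) -
      ser_tr (PowerSeries.X * PowerSeries.exp ℂ) (K + 2)) := by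
    have := ser_mul (bernoulli'PowerSeries ℂ) (PowerSeries.exp ℂ - 1) (K + 2)
    rwa [hB] at this
  have h2 : OG ((K + 2 : ℕ) : ℤ) (Lg * ser_tr (PowerSeries.exp ℂ) (K + 2) -
      ser_tr (PowerSeries.X * PowerSeries.exp ℂ) (K + 2)) := by
    have := ser_mul PowerSeries.X (PowerSeries.exp ℂ) (K + 2)
    rwa [ser_tr_X] at this
  have h3 : OG ((K + 2 : ℕ) : ℤ) (xL - ser_tr (PowerSeries.exp ℂ - 1) (K + 2)) := by
    have := ser_y_apx (K + 2)
    rw [ser_tr_sub, ser_tr_one (K + 1)]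
    have e : xL - (ser_tr (PowerSeries.exp ℂ) (K + 2) - 1) =
        1 + xL - ser_tr (PowerSeries.exp ℂ) (K + 2) := by ring
    rw [e]
    exact this
  have h4 := ser_y_apx (K + 2)
  have h5 : OG ((K + 2 : ℕ) : ℤ) (Lg * (1 + xL - ser_tr (PowerSeries.exp ℂ) (K + 2))) :=
    (LD_Lg.1.mul h4).mono (by omega)
  have h6 : OG ((K + 2 : ℕ) : ℤ) (Q * (xL - ser_tr (PowerSeries.exp ℂ - 1) (K + 2))) :=
    ((ser_tr_OG0 _ _).mul h3).mono (by omega)
  -- total
  have h7 : OG ((K + 2 : ℕ) : ℤ) (Lg * (1 + xL) - Q * xL) := by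
    have h8 := ((h5.sub h6).add h2).sub h1
    have e : Lg * (1 + xL) - Q * xL = Lg * (1 + xL - ser_tr (PowerSeries.exp ℂ) (K + 2)) -
        Q * (xL - ser_tr (PowerSeries.exp ℂ - 1) (K + 2)) +
        (Lg * ser_tr (PowerSeries.exp ℂ) (K + 2) -
          ser_tr (PowerSeries.X * PowerSeries.exp ℂ) (K + 2)) -
        (Q * ser_tr (PowerSeries.exp ℂ - 1) (K + 2) -
          ser_tr (PowerSeries.X * PowerSeries.exp ℂ) (K + 2)) := by ring
    rw [e]
    exact h8
  have h9 : phs - Lg ^ (-1 : ℤ) * Q = (Lg ^ (-1 : ℤ) * xL⁻¹) * (Lg * (1 + xL) - Q * xL) := by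
    unfold phs
    have e1 : Lg ^ (-1 : ℤ) * Lg = 1 := by
      rw [zpow_neg_one, inv_mul_cancel₀ Lg_ne]
    have e2 : xL⁻¹ * xL = 1 := inv_mul_cancel₀ xL_ne
    linear_combination (-(1 + xL) * xL⁻¹) * e1 + (Lg ^ (-1 : ℤ) * Q) * e2
  rw [h9]
  have h10 := ((LD_Lg_zpow (-1)).1.mul LD_xL.inv.1).mul h7
  refine h10.mono ?_
  push_cast
  omega

theorem ser_bern_coeff (K : ℕ) : Lg ^ (-1 : ℤ) * ser_tr (bernoulli'PowerSeries ℂ) (2 * K + 2) =
    Lg ^ (-1 : ℤ) + cc (1 / 2) + ∑ j ∈ range K, cc (bk j) * Lg ^ (2 * (j : ℤ) + 1) := by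
  have hc : ∀ n, PowerSeries.coeff n (bernoulli'PowerSeries ℂ) =
      ((bernoulli' n : ℚ) : ℂ) / (n ! : ℕ) := by
    intro n
    unfold bernoulli'PowerSeries
    rw [PowerSeries.coeff_mk]
    simp
  have hL : Lg ^ (-1 : ℤ) * Lg = 1 := by
    rw [zpow_neg_one, inv_mul_cancel₀ Lg_ne]
  induction K with
  | zero =>
    have e : 2 * 0 + 2 = 0 + 1 + 1 := rfl
    rw [e, ser_tr_succ, ser_tr_succ, hc, hc]
    simp only [ser_tr, range_zero, sum_empty, bernoulli'_zero, bernoulli'_one, zero_add,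
      Nat.factorial_zero, Nat.factorial_one, Nat.cast_one, div_one, Nat.cast_zero, zpow_zero,
      mul_one, zpow_one, add_zero, Rat.cast_one, map_one]
    push_cast
    linear_combination (cc (1 / 2 : ℂ)) * hL
  | succ K ih =>
    have e : 2 * (K + 1) + 2 = (2 * K + 2) + 1 + 1 := by ring
    rw [e, ser_tr_succ, ser_tr_succ, hc, hc, Finset.sum_range_succ, ← add_assoc, ← ih]
    have h1 : bernoulli' (2 * K + 2 + 1) = 0 :=
      bernoulli'_eq_zero_of_odd (by exact ⟨K + 1, by ring⟩) (by omega)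
    have h2 : bernoulli' (2 * K + 2) = bernoulli (2 * K + 2) :=
      (bernoulli_eq_bernoulli'_of_ne_one (by omega)).symm
    rw [h1, h2]
    have h3 : Lg ^ (-1 : ℤ) * Lg ^ ((2 * K + 2 : ℕ) : ℤ) = Lg ^ (2 * (K : ℤ) + 1) := by
      rw [← zpow_add₀ Lg_ne]
      congr 1
      push_cast
      ring
    unfold bk
    rw [Rat.cast_zero, zero_div, map_zero]
    linear_combination (cc (((bernoulli (2 * K + 2) : ℚ) : ℂ) / ((2 * K + 2) ! : ℕ))) * h3

theorem phs_apx (K : ℕ) :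
    OG (2 * K) (phs - (Lg ^ (-1 : ℤ) + cc (1 / 2) +
      ∑ j ∈ range K, cc (bk j) * Lg ^ (2 * (j : ℤ) + 1))) := by
  have := ser_bern (2 * K)
  rw [ser_bern_coeff] at this
  exact_mod_cast this

theorem pho_apx (K : ℕ) :
    OG (2 * K - 1) (pho - (Lg ^ (-2 : ℤ) -
      ∑ j ∈ range K, cc ((2 * j + 1) * bk j) * Lg ^ (2 * (j : ℤ)))) := by
  have h1 := (phs_apx K).dL
  have h2 := (LD_y.1.mul h1).neg
  rw [zero_add] at h2
  have e1 : -((1 + xL) * dL (phs - (Lg ^ (-1 : ℤ) + cc (1 / 2) +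
      ∑ j ∈ range K, cc (bk j) * Lg ^ (2 * (j : ℤ) + 1)))) =
      pho - (Lg ^ (-2 : ℤ) - ∑ j ∈ range K, cc ((2 * j + 1) * bk j) * Lg ^ (2 * (j : ℤ))) := by
    rw [dL_sub, dL_add, dL_add, dL_cc, dL_sum]
    have a1 : (1 + xL) * dL phs = -pho := by
      have b1 : phs = xL ^ (-1 : ℤ) + 1 := by
        unfold phs
        rw [zpow_neg_one, add_mul, one_mul, mul_inv_cancel₀ xL_ne]
      have b2 : dL (xL ^ (-1 : ℤ)) = -(xL⁻¹ * xL⁻¹) := by
        rw [dL_zpow xL xL_ne, dL_xL, mul_one]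
        have : (-1 - 1 : ℤ) = -2 := by norm_num
        rw [this]
        push_cast
        rw [map_neg, map_one, zpow_neg]
        have : xL ^ (2 : ℤ) = xL * xL := zpow_two _
        rw [this, mul_inv]
        ring
      rw [b1, dL_add, dL_one, b2]
      unfold pho
      ring
    have a2 : (1 + xL) * dL (Lg ^ (-1 : ℤ)) = -Lg ^ (-2 : ℤ) := by
      rw [dL_Lg_zpow]
      have : (-1 - 1 : ℤ) = -2 := by norm_num
      rw [this]
      push_cast
      rw [map_neg, map_one]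
      ring
    have a3 : (1 + xL) * ∑ j ∈ range K, dL (cc (bk j) * Lg ^ (2 * (j : ℤ) + 1)) =
        ∑ j ∈ range K, cc ((2 * j + 1) * bk j) * Lg ^ (2 * (j : ℤ)) := by
      rw [Finset.mul_sum]
      apply Finset.sum_congr rfl
      intro j _
      rw [ser_dL_term, add_sub_cancel_right]
      congr 2
      push_cast
      ring
    linear_combination -a1 + a2 + a3
  rw [← e1]
  exact h2

end Pool.Agent.DERV
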