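import Pool.Agent.DERV.SER2

/-!
# Project DERV, part II: the same expansions applied to vectors
-/

set_option autoImplicit false

universe u

open Finset

namespace Pool.Agent.DERV

open Pool.Agent.VOAut
open UpperHalfPlane hiding I
open scoped Nat ArithmeticFunction.sigma Manifold

variable {V : Type u} [AddCommGroup V] [Module ℂ V]

variable (A : VOA V)

theorem WW_pow (s : ℤ) (u v : V) : ∃ K0 : ℕ, ∀ K, K0 ≤ K →
    WW A ((1 + xL) ^ s) u v = ∑ k ∈ range K, ((s : ℂ) ^ k / (k ! : ℕ)) • br A k u v := by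
  obtain ⟨N, hN⟩ := WW_van A u v
  refine ⟨N.toNat, fun K hK => ?_⟩
  have h := hN _ ((y_pow_apx s K).mono (by omega))
  rw [WW_sub_f, WW_sum_f, sub_eq_zero] at h
  rw [h]
  apply Finset.sum_congr rfl
  intro k _
  rw [WW_cc]
  rfl

theorem WW_phs (u v : V) : ∃ K0 : ℕ, ∀ K, K0 ≤ K →
    WW A phs u v = br A (-1) u v + (1 / 2 : ℂ) • br A 0 u v +
      ∑ j ∈ range K, bk j • br A (2 * j + 1) u v := by
  obtain ⟨N, hN⟩ := WW_van A u v
  refine ⟨N.toNat, fun K hK => ?_⟩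
  have h := hN _ ((phs_apx K).mono (by omega))
  have e : cc (1 / 2) = cc (1 / 2) * Lg ^ (0 : ℤ) := by rw [zpow_zero, mul_one]
  rw [WW_sub_f, WW_add_f, WW_add_f, WW_sum_f, sub_eq_zero, e, WW_cc] at h
  rw [h]
  congr 1
  apply Finset.sum_congr rfl
  intro k _
  rw [WW_cc]
  rfl

theorem WW_pho (u v : V) : ∃ K0 : ℕ, ∀ K, K0 ≤ K →
    WW A pho u v = br A (-2) u v - ∑ j ∈ range K, ((2 * j + 1) * bk j) • br A (2 * j) u v := by
  obtain ⟨N, hN⟩ := WW_van A u v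
  refine ⟨(N + 1).toNat, fun K hK => ?_⟩
  have h := hN _ ((pho_apx K).mono (by omega))
  rw [WW_sub_f, WW_sub_f, WW_sum_f, sub_eq_zero] at h
  rw [h]
  congr 1
  apply Finset.sum_congr rfl
  intro k _
  rw [WW_cc]
  rfl

theorem WW_phoLg (u v : V) : ∃ K0 : ℕ, ∀ K, K0 ≤ K →
    WW A (pho * Lg) u v =
      br A (-1) u v - ∑ j ∈ range K, ((2 * j + 1) * bk j) • br A (2 * j + 1) u v := by
  obtain ⟨N, hN⟩ := WW_van A u v
  refine ⟨(N + 1).toNat, fun K hK => ?_⟩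
  have h := hN _ (((pho_apx K).mul LD_Lg.1).mono (by omega))
  have e : (pho - (Lg ^ (-2 : ℤ) -
      ∑ j ∈ range K, cc ((2 * j + 1) * bk j) * Lg ^ (2 * (j : ℤ)))) * Lg =
      pho * Lg - (Lg ^ (-1 : ℤ) -
      ∑ j ∈ range K, cc ((2 * j + 1) * bk j) * Lg ^ (2 * (j : ℤ) + 1)) := by
    have e1 : Lg ^ (-2 : ℤ) * Lg = Lg ^ (-1 : ℤ) := by
      rw [← zpow_add_one₀ Lg_ne]
      norm_num
    have e2 : (∑ j ∈ range K, cc ((2 * j + 1) * bk j) * Lg ^ (2 * (j : ℤ))) * Lg =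
        ∑ j ∈ range K, cc ((2 * j + 1) * bk j) * Lg ^ (2 * (j : ℤ) + 1) := by
      rw [Finset.sum_mul]
      apply Finset.sum_congr rfl
      intro j _
      rw [zpow_add_one₀ Lg_ne, mul_assoc]
    linear_combination -e1 + e2
  rw [e, WW_sub_f, WW_sub_f, WW_sum_f, sub_eq_zero] at h
  rw [h]
  congr 1
  apply Finset.sum_congr rfl
  intro k _
  rw [WW_cc]
  rfl

end Pool.Agent.DERV
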