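import Pool.Agent.DERV.SLT
import Pool.Agent.DERV.DER
import Pool.Agent.DERV.SLR3

/-!
# Project DERV, part II: first relation after inversion
-/

set_option autoImplicit false

universe u

open Finset

namespace Pool.Agent.DERV

open Pool.Agent.VOAut
open UpperHalfPlane hiding I
open scoped Nat ArithmeticFunction.sigma Manifold

variable {V : Type u} [AddCommGroup V] [Module ℂ V]

theorem slr1_hom {A : VOA V} {D : Module.End ℂ V} (h : CFT A) (hD : IsDer A D)
    (Z T : V →ₗ[ℂ] (ℍ → ℂ)) (hT : TA A D Z T) (a b : ℤ) (u v : V) (hu : u ∈ brg A a)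
    (hv : v ∈ brg A b) :
    Sl h T (br A 0 u v) = tau * (Sl h Z (br A (-1) (D u) v)
      - SS A (fun _ => 1) 1 EH (Sl h Z) (D u) v) + kap • Sl h Z (br A 1 (D u) v) := by
  have hDu := D_brg hD a u hu
  have e1 := slr3_SS h Z (fun _ => 1) 1 a b (D u) v hDu hv
  have e2 : a + b - 1 + 1 = a + b := by ring
  have e3 := Sl_apply h Z (a + b - (-1) - 1) _ (br_brg a b (-1) (D u) v hDu hv)
  have e4 : a + b - (-1) - 1 = a + b := by ring
  have e5 := Sl_apply h T (a + b - 0 - 1) _ (br_brg a b 0 u v hu hv)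
  have e6 : a + b - 0 - 1 = a + b - 1 := by ring
  rw [e2] at e1
  rw [e4] at e3
  rw [e6] at e5
  rw [e5, hT.t1 u v, Sop_pred, map_sub, e1, ← e3]
  funext τ
  have ht : tau τ * taui τ = 1 := congrFun tau_taui τ
  simp only [Pi.smul_apply, Pi.mul_apply, Pi.sub_apply, Pi.add_apply, smul_eq_mul]
  linear_combination (kap * Sl h Z (br A 1 (D u) v) τ) * ht

theorem Sl_r1 {A : VOA V} {D : Module.End ℂ V} (h : CFT A) (hD : IsDer A D)
    (Z T : V →ₗ[ℂ] (ℍ → ℂ)) (hT : TA A D Z T) (u v : V) :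
    Sl h T (br A 0 u v) = tau * (Sl h Z (br A (-1) (D u) v)
      - SS A (fun _ => 1) 1 EH (Sl h Z) (D u) v) + kap • Sl h Z (br A 1 (D u) v) := by
  let F : V →ₗ[ℂ] V →ₗ[ℂ] (ℍ → ℂ) := (brL A 0).compr₂ (Sl h T)
  let G : V →ₗ[ℂ] V →ₗ[ℂ] (ℍ → ℂ) :=
    (((brL A (-1)).comp D).compr₂ (Sl h Z) - (SSL A (fun _ => 1) 1 EH (Sl h Z)).comp D).compr₂
      (LinearMap.mulLeft ℂ tau) + kap • ((brL A 1).comp D).compr₂ (Sl h Z)
  have hFG : ∀ u v, F u v = G u v ↔ Sl h T (br A 0 u v) = tau * (Sl h Z (br A (-1) (D u) v)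
      - SS A (fun _ => 1) 1 EH (Sl h Z) (D u) v) + kap • Sl h Z (br A 1 (D u) v) :=
    fun u v => Iff.rfl
  rw [← hFG]
  refine brg_ind h (P := fun u => F u v = G u v) u ?_ ?_ ?_
  · rw [map_zero, map_zero]
  · intro x y hx hy
    rw [map_add, map_add, LinearMap.add_apply, LinearMap.add_apply, hx, hy]
  · intro a x hx
    refine brg_ind h (P := fun v => F x v = G x v) v ?_ ?_ ?_
    · rw [map_zero, map_zero]
    · intro y z hy hz
      rw [map_add, map_add, hy, hz]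
    · intro b y hy
      rw [hFG]
      exact slr1_hom h hD Z T hT a b x y hx hy

end Pool.Agent.DERV
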