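import Pool.Agent.DERV.SOP
import Pool.Agent.DERV.BRC2

/-!
# Project DERV, part II: the inversion on solutions
-/

set_option autoImplicit false

universe u

open Finset

namespace Pool.Agent.DERV

open Pool.Agent.VOAut
open UpperHalfPlane hiding I
open scoped Nat ArithmeticFunction.sigma Manifold

variable {V : Type u} [AddCommGroup V] [Module ℂ V]

/-- The `S`-transform. -/
noncomputable def Sl {A : VOA V} (h : CFT A) (S : V →ₗ[ℂ] (ℍ → ℂ)) : V →ₗ[ℂ] (ℍ → ℂ) where
  toFun v := ∑ᶠ n : ℤ, Sop n (S (hcomp (brg_int h) n v))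
  map_add' u v := hcomp_finsum_add (brg_int h) (fun n x => Sop n (S x))
    (fun n x y => by rw [map_add, map_add]) u v
  map_smul' c v := by
    rw [RingHom.id_apply]
    have hf : (Function.support fun n : ℤ => Sop n (S (hcomp (brg_int h) n v))).Finite := by
      refine (hcomp_fin (brg_int h) v).subset ?_
      intro n hn
      rw [Function.mem_support] at hn
      intro h1
      apply hn
      rw [h1, map_zero, map_zero]
    rw [smul_finsum' c hf]
    apply finsum_congr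
    intro n
    rw [map_smul, map_smul, map_smul]

theorem Sl_apply {A : VOA V} (h : CFT A) (S : V →ₗ[ℂ] (ℍ → ℂ)) (n : ℤ) (v : V)
    (hv : v ∈ brg A n) : Sl h S v = Sop n (S v) := by
  show ∑ᶠ m : ℤ, Sop m (S (hcomp (brg_int h) m v)) = _
  rw [finsum_eq_single _ n]
  · rw [hcomp_of_mem (brg_int h) n n v hv, if_pos rfl]
  · intro m hm
    rw [hcomp_of_mem (brg_int h) m n v hv, if_neg (Ne.symm hm), map_zero, map_zero]

theorem Sl_sum {A : VOA V} (h : CFT A) {ι : Type} (s : Finset ι) (c : ι → ℂ)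
    (S : ι → V →ₗ[ℂ] (ℍ → ℂ)) : Sl h (∑ i ∈ s, c i • S i) = ∑ i ∈ s, c i • Sl h (S i) := by
  apply LinearMap.ext
  intro v
  refine brg_ind h (P := fun v => Sl h (∑ i ∈ s, c i • S i) v = (∑ i ∈ s, c i • Sl h (S i)) v)
    v ?_ ?_ ?_
  · show Sl h (∑ i ∈ s, c i • S i) 0 = (∑ i ∈ s, c i • Sl h (S i)) 0
    rw [map_zero, map_zero]
  · intro x y hx hy
    show Sl h (∑ i ∈ s, c i • S i) (x + y) = (∑ i ∈ s, c i • Sl h (S i)) (x + y)
    rw [map_add, map_add, hx, hy]
  · intro n x hx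
    show Sl h (∑ i ∈ s, c i • S i) x = (∑ i ∈ s, c i • Sl h (S i)) x
    rw [Sl_apply h _ n x hx, LinearMap.sum_apply, LinearMap.sum_apply, map_sum]
    apply Finset.sum_congr rfl
    intro i _
    rw [LinearMap.smul_apply, LinearMap.smul_apply, map_smul, Sl_apply h _ n x hx]

theorem Sl_zero {A : VOA V} (h : CFT A) : Sl h (0 : V →ₗ[ℂ] (ℍ → ℂ)) = 0 := by
  have h1 := Sl_sum h (∅ : Finset ℕ) (fun _ => 0) (fun _ => (0 : V →ₗ[ℂ] (ℍ → ℂ)))
  rw [Finset.sum_empty, Finset.sum_empty] at h1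
  exact h1

theorem Sl_four {A : VOA V} (h : CFT A) (S : V →ₗ[ℂ] (ℍ → ℂ)) :
    Sl h (Sl h (Sl h (Sl h S))) = S := by
  apply LinearMap.ext
  intro v
  refine brg_ind h (P := fun v => Sl h (Sl h (Sl h (Sl h S))) v = S v) v ?_ ?_ ?_
  · show Sl h (Sl h (Sl h (Sl h S))) 0 = S 0
    rw [map_zero, map_zero]
  · intro x y hx hy
    show Sl h (Sl h (Sl h (Sl h S))) (x + y) = S (x + y)
    rw [map_add, map_add, hx, hy]
  · intro n x hx
    show Sl h (Sl h (Sl h (Sl h S))) x = S x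
    rw [Sl_apply h _ n x hx, Sl_apply h _ n x hx, Sl_apply h _ n x hx, Sl_apply h _ n x hx,
      Sop_Sop, Sop_Sop, smul_smul, ← mul_zpow]
    norm_num

theorem Sl_hol {A : VOA V} (h : CFT A) (T : V →ₗ[ℂ] (ℍ → ℂ)) (hT : ∀ v, Hol (T v)) (v : V) :
    Hol (Sl h T v) := by
  refine brg_ind h (P := fun v => Hol (Sl h T v)) v ?_ ?_ ?_
  · show Hol (Sl h T 0)
    rw [map_zero]
    exact Hol_zero
  · intro x y hx hy
    show Hol (Sl h T (x + y))
    rw [map_add]
    exact Hol_add hx hy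
  · intro n x hx
    show Hol (Sl h T x)
    rw [Sl_apply h _ n x hx]
    exact Sop_hol n (hT x)

end Pool.Agent.DERV
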