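import Pool.Agent.DERV.CV3
import Pool.Agent.DERV.EIS2

/-!
# Project DERV, part II: the inversion operator on functions
-/

set_option autoImplicit false

universe u

open Finset

namespace Pool.Agent.DERV

open Pool.Agent.VOAut
open UpperHalfPlane hiding I
open scoped Nat ArithmeticFunction.sigma Manifold

variable {V : Type u} [AddCommGroup V] [Module ℂ V]

theorem Sop_apply (n : ℤ) (F : ℍ → ℂ) (τ : ℍ) :
    Sop n F τ = (τ : ℂ) ^ (-n) * F (ModularGroup.S • τ) := rfl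

theorem sop_ne (τ : ℍ) : (τ : ℂ) ≠ 0 := UpperHalfPlane.ne_zero τ

theorem sop_coe_S (τ : ℍ) : ((ModularGroup.S • τ : ℍ) : ℂ) = -(τ : ℂ)⁻¹ := by
  rw [UpperHalfPlane.modular_S_smul]
  show (-(τ : ℂ))⁻¹ = _
  rw [inv_neg]

theorem sop_SS (τ : ℍ) : ModularGroup.S • (ModularGroup.S • τ) = τ := by
  apply UpperHalfPlane.ext
  rw [sop_coe_S, sop_coe_S, inv_neg, inv_inv, neg_neg]

theorem sop_ofComplex (τ : ℍ) : ofComplex (-(τ : ℂ)⁻¹) = ModularGroup.S • τ := by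
  rw [← sop_coe_S, ofComplex_apply]

/-- The inversion of a function as a function on the plane. -/
theorem sop_fun (n : ℤ) (F : ℍ → ℂ) (τ : ℍ) :
    Sop n F τ = (fun z : ℂ => z ^ (-n) * (F ∘ ofComplex) (-z⁻¹)) τ := by
  rw [Sop_apply]
  show _ = (τ : ℂ) ^ (-n) * F (ofComplex (-(τ : ℂ)⁻¹))
  rw [sop_ofComplex]

theorem sop_hol_of (F : ℍ → ℂ) (G : ℂ → ℂ) (h : ∀ τ : ℍ, F τ = G τ)
    (hG : ∀ τ : ℍ, DifferentiableAt ℂ G τ) : Hol F := fun τ =>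
  mdifferentiableAt_iff.mpr ((cv3_eventually F G h τ).differentiableAt_iff.mpr (hG _))

theorem sop_inv_deriv (τ : ℍ) :
    HasDerivAt (fun z : ℂ => -z⁻¹) (((τ : ℂ) ^ 2)⁻¹) (τ : ℂ) := by
  have := (hasDerivAt_inv (sop_ne τ)).neg
  rw [neg_neg] at this
  exact this

theorem sop_deriv (n : ℤ) {F : ℍ → ℂ} (hF : Hol F) (τ : ℍ) :
    HasDerivAt (fun z : ℂ => z ^ (-n) * (F ∘ ofComplex) (-z⁻¹))
      ((((-n : ℤ) : ℂ) * (τ : ℂ) ^ (-n - 1)) * F (ModularGroup.S • τ) +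
        (τ : ℂ) ^ (-n) * (deriv (F ∘ ofComplex) (ModularGroup.S • τ : ℍ) *
          ((τ : ℂ) ^ 2)⁻¹)) (τ : ℂ) := by
  have h1 : HasDerivAt (fun z : ℂ => z ^ (-n)) (((-n : ℤ) : ℂ) * (τ : ℂ) ^ (-n - 1)) (τ : ℂ) :=
    hasDerivAt_zpow (-n) (τ : ℂ) (Or.inl (sop_ne τ))
  have h2 : HasDerivAt (F ∘ ofComplex) (deriv (F ∘ ofComplex) (ModularGroup.S • τ : ℍ))
      (-(τ : ℂ)⁻¹) := by
    rw [← sop_coe_S]
    exact (cv3_diff hF _).hasDerivAt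
  have h3 : HasDerivAt (fun z : ℂ => (F ∘ ofComplex) (-z⁻¹))
      (deriv (F ∘ ofComplex) (ModularGroup.S • τ : ℍ) * ((τ : ℂ) ^ 2)⁻¹) (τ : ℂ) :=
    HasDerivAt.comp (τ : ℂ) h2 (sop_inv_deriv τ)
  have h4 := h1.mul h3
  have h5 : (F ∘ ofComplex) (-(τ : ℂ)⁻¹) = F (ModularGroup.S • τ) := by
    show F (ofComplex (-(τ : ℂ)⁻¹)) = _
    rw [sop_ofComplex]
  rw [h5] at h4
  exact h4

theorem tau_taui : tau * taui = 1 := by
  funext τ
  show (τ : ℂ) * (τ : ℂ)⁻¹ = 1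
  exact mul_inv_cancel₀ (sop_ne τ)

theorem Hol_taui : Hol taui :=
  sop_hol_of taui (fun z => z⁻¹) (fun _ => rfl) fun τ => differentiableAt_inv (sop_ne τ)

theorem DH_taui : DH taui = -(kap • (taui * taui)) := by
  funext τ
  rw [cv3_deriv taui (fun z => z⁻¹) (fun _ => rfl) τ, (hasDerivAt_inv (sop_ne τ)).deriv]
  show kap * -((τ : ℂ) ^ 2)⁻¹ = -(kap * ((τ : ℂ)⁻¹ * (τ : ℂ)⁻¹))
  rw [sq, mul_inv]
  ring

theorem Sop_add_wt (m n : ℤ) (F G : ℍ → ℂ) : Sop (m + n) (F * G) = Sop m F * Sop n G := by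
  funext τ
  rw [Pi.mul_apply, Sop_apply, Sop_apply, Sop_apply, Pi.mul_apply, neg_add,
    zpow_add₀ (sop_ne τ)]
  ring

theorem Sop_succ (n : ℤ) (F : ℍ → ℂ) : Sop (n + 1) F = taui * Sop n F := by
  funext τ
  rw [Pi.mul_apply, Sop_apply, Sop_apply, neg_add, zpow_add₀ (sop_ne τ), zpow_neg_one]
  show _ = (τ : ℂ)⁻¹ * _
  ring

theorem Sop_pred (n : ℤ) (F : ℍ → ℂ) : Sop (n - 1) F = tau * Sop n F := by
  funext τ
  have e : -(n - 1) = 1 + -n := by ring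
  rw [Pi.mul_apply, Sop_apply, Sop_apply, e, zpow_add₀ (sop_ne τ), zpow_one]
  show _ = (τ : ℂ) * _
  ring

theorem Sop_Sop (n : ℤ) (F : ℍ → ℂ) : Sop n (Sop n F) = ((-1 : ℂ) ^ n) • F := by
  funext τ
  rw [Sop_apply, Sop_apply, sop_SS, sop_coe_S, Pi.smul_apply, smul_eq_mul, ← mul_assoc,
    ← mul_zpow]
  have h : (τ : ℂ) * -(τ : ℂ)⁻¹ = -1 := by
    rw [mul_neg, mul_inv_cancel₀ (sop_ne τ)]
  rw [h, zpow_neg, ← inv_zpow]
  norm_num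

theorem Sop_hol (n : ℤ) {F : ℍ → ℂ} (hF : Hol F) : Hol (Sop n F) :=
  sop_hol_of _ _ (sop_fun n F) fun τ => (sop_deriv n hF τ).differentiableAt

theorem DH_Sop (n : ℤ) {F : ℍ → ℂ} (hF : Hol F) :
    DH (Sop n F) = Sop (n + 2) (DH F) - ((n : ℂ) * kap) • (taui * Sop n F) := by
  funext τ
  rw [cv3_deriv _ (fun z : ℂ => z ^ (-n) * (F ∘ ofComplex) (-z⁻¹)) (sop_fun n F) τ,
    (sop_deriv n hF τ).deriv, Pi.sub_apply, Pi.smul_apply,
    Pi.mul_apply, smul_eq_mul, Sop_apply, Sop_apply]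
  have h1 : DH F (ModularGroup.S • τ) =
      kap * deriv (F ∘ ofComplex) (ModularGroup.S • τ : ℍ) := rfl
  have h2 : (τ : ℂ) ^ (-(n + 2)) = (τ : ℂ) ^ (-n) * ((τ : ℂ) ^ 2)⁻¹ := by
    rw [neg_add, zpow_add₀ (sop_ne τ), zpow_neg (τ : ℂ) 2]
    rfl
  have h3 : (τ : ℂ) ^ (-n - 1) = (τ : ℂ) ^ (-n) * (τ : ℂ)⁻¹ := by
    rw [sub_eq_add_neg, zpow_add₀ (sop_ne τ), zpow_neg_one]
  rw [h1, h2, h3]
  show _ = _ - (n : ℂ) * kap * ((τ : ℂ)⁻¹ * _)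
  push_cast
  ring

theorem Sop_EH (j : ℕ) : Sop (2 * j + 2) (EH j) = EH j - (if j = 0 then kap • taui else 0) := by
  funext τ
  rw [Pi.sub_apply, Sop_apply, EH_S]
  have h1 : (τ : ℂ) ^ (-(2 * (j : ℤ) + 2)) * (τ : ℂ) ^ (2 * j + 2) = 1 := by
    rw [← zpow_natCast, ← zpow_add₀ (sop_ne τ)]
    push_cast
    rw [neg_add_cancel, zpow_zero]
  by_cases hj : j = 0
  · subst hj
    rw [if_pos rfl, if_pos rfl, Pi.smul_apply, smul_eq_mul]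
    show _ = EH 0 τ - kap * (τ : ℂ)⁻¹
    have h2 : (τ : ℂ) ^ (-(2 * ((0 : ℕ) : ℤ) + 2)) * (τ : ℂ) = (τ : ℂ)⁻¹ := by
      rw [← zpow_add_one₀ (sop_ne τ)]
      norm_num
    linear_combination (EH 0 τ) * h1 - kap * h2
  · rw [if_neg hj, if_neg hj, Pi.zero_apply]
    linear_combination (EH j τ) * h1

theorem Sop_DEH (j : ℕ) : Sop (2 * j + 4) (DH (EH j)) =
    DH (EH j) + ((2 * j + 2) * kap) • (taui * EH j)
      - (if j = 0 then (kap * kap) • (taui * taui) else 0) := by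
  have h := DH_Sop (2 * (j : ℤ) + 2) (EH_hol j)
  have e : 2 * (j : ℤ) + 2 + 2 = 2 * j + 4 := by ring
  rw [e, Sop_EH] at h
  by_cases hj : j = 0
  · subst hj
    rw [if_pos rfl, DH_sub (EH_hol 0) (Hol_smul _ Hol_taui), DH_smul _ Hol_taui, DH_taui] at h
    rw [if_pos rfl]
    funext τ
    have h1 := congrFun h τ
    simp only [Pi.sub_apply, Pi.add_apply, Pi.smul_apply, Pi.mul_apply, Pi.neg_apply,
      smul_eq_mul] at h1 ⊢
    push_cast at h1 ⊢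
    linear_combination -h1
  · rw [if_neg hj, sub_zero] at h
    rw [if_neg hj, sub_zero]
    funext τ
    have h1 := congrFun h τ
    simp only [Pi.sub_apply, Pi.add_apply, Pi.smul_apply, Pi.mul_apply, smul_eq_mul] at h1 ⊢
    push_cast at h1 ⊢
    linear_combination -h1

end Pool.Agent.DERV
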