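import Pool.Agent.DERV.TRA3

/-!
# Project DERV, part II: leading coefficients
-/

set_option autoImplicit false

universe u

open Finset

namespace Pool.Agent.DERV

open Pool.Agent.VOAut
open UpperHalfPlane hiding I
open scoped Nat ArithmeticFunction.sigma Manifold

variable {V : Type u} [AddCommGroup V] [Module ℂ V]

variable {A : VOA V} {D : Module.End ℂ V}

theorem stp1_mul (g f : PowerSeries ℂ) (n : ℕ) (hf : Van n f) :
    (PowerSeries.coeff n (g * f) : ℂ) = PowerSeries.coeff 0 g * PowerSeries.coeff n f := by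
  rw [PowerSeries.coeff_mul]
  apply Finset.sum_eq_single (0, n)
  · rintro ⟨i, j⟩ hij hne
    have hij : i + j = n := by simpa using hij
    have hj : j < n := by
      rcases Nat.eq_zero_or_pos i with h | h
      · exfalso
        apply hne
        rw [h, zero_add] at hij
        rw [h, hij]
      · omega
    rw [hf j hj, mul_zero]
  · intro h
    exact absurd (by simp) h

theorem stp1_SS (c : ℕ → ℂ) (s : ℤ) (f : V →ₗ[ℂ] PowerSeries ℂ) (n : ℕ)
    (hf : ∀ v, Van n (f v)) (u v : V) : ∃ K0 : ℕ, ∀ K, K0 ≤ K →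
    (PowerSeries.coeff n (SS A c s Ek f u v) : ℂ) =
      -∑ j ∈ range K, c j * bk j * PowerSeries.coeff n (f (br A (2 * j + s) u v)) := by
  obtain ⟨K0, hK0⟩ := SS_range A s u v
  refine ⟨K0, fun K hK => ?_⟩
  rw [hK0 (PowerSeries ℂ) c Ek f K hK, map_sum, ← Finset.sum_neg_distrib]
  apply Finset.sum_congr rfl
  intro j _
  rw [PowerSeries.coeff_smul, stp1_mul _ _ n (hf _), Ek_zero]
  ring

theorem lead_tf (f : V →ₗ[ℂ] PowerSeries ℂ) (n : ℕ) (hf : ∀ v, Van n (f v))
    (f1 : ∀ u v, Van (n + 1) (f (br A 0 u v))) (f2 : ∀ u v, Van (n + 1) (df2 A Ek f u v)) :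
    IsTF A ((PowerSeries.coeff n).comp f) := by
  constructor
  · intro u v
    rw [LinearMap.comp_apply]
    obtain ⟨K1, h1⟩ := WW_pho A u v
    obtain ⟨K2, h2⟩ := stp1_SS (A := A) (fun j => 2 * j + 1) 0 f n hf u v
    rw [h1 (max K1 K2) (le_max_left _ _), map_sub, map_sub, map_sum, map_sum]
    have h3 := f2 u v n (Nat.lt_succ_self n)
    unfold df2 at h3
    rw [map_add, h2 (max K1 K2) (le_max_right _ _)] at h3
    rw [← sub_eq_add_neg] at h3
    refine Eq.trans ?_ h3
    congr 1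
    apply Finset.sum_congr rfl
    intro j _
    rw [map_smul, PowerSeries.coeff_smul, add_zero, smul_eq_mul, mul_assoc]
  · intro u v
    rw [LinearMap.comp_apply, WW_one]
    exact f1 u v n (Nat.lt_succ_self n)

theorem lead3 (f : V →ₗ[ℂ] PowerSeries ℂ) (n : ℕ) (hf : ∀ v, Van n (f v)) (v : V) :
    (PowerSeries.coeff n (df3 A Ek f v) : ℂ) = PowerSeries.coeff n (f (WW A phs (omt A) v))
      - (1 / 2) * PowerSeries.coeff n (f (br A 0 (omt A) v)) := by
  obtain ⟨K1, h1⟩ := WW_phs A (omt A) v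
  obtain ⟨K2, h2⟩ := stp1_SS (A := A) (fun _ => 1) 1 f n hf (omt A) v
  rw [h1 (max K1 K2) (le_max_left _ _)]
  unfold df3
  rw [map_sub, h2 (max K1 K2) (le_max_right _ _), map_add, map_add, map_add, map_add, map_smul,
    PowerSeries.coeff_smul, map_sum, map_sum]
  have h3 : ∑ j ∈ range (max K1 K2), (PowerSeries.coeff n (f (bk j • br A (2 * j + 1) (omt A) v)) : ℂ) =
      ∑ j ∈ range (max K1 K2), 1 * bk j * PowerSeries.coeff n (f (br A (2 * j + 1) (omt A) v)) := by
    apply Finset.sum_congr rfl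
    intro j _
    rw [map_smul, PowerSeries.coeff_smul, one_mul, smul_eq_mul]
  rw [h3]
  ring

theorem stp1_trg (t : TMod A D) (v : V) :
    (PowerSeries.coeff 0 (ZsL t v) : ℂ) = trg t.X 0 (zm t.X v) := by
  rw [ZsL_apply]
  unfold Zs
  rw [PowerSeries.coeff_mk, Nat.cast_zero]

theorem stp1_kap : kap ≠ 0 := by
  unfold kap
  apply inv_ne_zero
  apply mul_ne_zero (mul_ne_zero two_ne_zero _) Complex.I_ne_zero
  exact_mod_cast Real.pi_ne_zero

theorem stp1_eig (t : TMod A D) (v : V) :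
    trg t.X 0 (zm t.X (WW A phs (omt A) v)) = lamt t * trg t.X 0 (zm t.X v) := by
  have hF := Zs_isF t
  have h1 := lead3 (A := A) (ZsL t) 0 (fun _ i hi => absurd hi (Nat.not_lt_zero i)) v
  rw [hF.c3 v, hF.c1, map_zero, mul_zero, sub_zero, map_add, coeff_th, Nat.cast_zero, zero_mul,
    zero_add, PowerSeries.coeff_smul, stp1_trg, stp1_trg] at h1
  exact h1.symm

theorem step (p : Pack A D) (lam : ℂ) (f g : V →ₗ[ℂ] PowerSeries ℂ) (n : ℕ)
    (hf : ∀ v, Van n (f v)) (hg : ∀ v, Van n (g v))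
    (f1 : ∀ u v, Van (n + 1) (f (br A 0 u v))) (g1 : ∀ u v, Van (n + 1) (g (br A 0 u v)))
    (f2 : ∀ u v, Van (n + 1) (df2 A Ek f u v)) (g2 : ∀ u v, Van (n + 1) (df2 A Ek g u v))
    (f3 : ∀ v, Van (n + 1) (df3 A Ek f v - (th (f v) + lam • f v + kap • g v)))
    (g3 : ∀ v, Van (n + 1) (df3 A Ek g v - (th (g v) + lam • g v))) :
    (∀ v, Van (n + 1) (g v)) ∧ ∃ d : Fin (p.n + 1) → ℂ, (∀ j, d j ≠ 0 → lamt (p.t j) = lam + n) ∧
      ∀ v, (PowerSeries.coeff n (f v) : ℂ) = ∑ j, d j * trg (p.t j).X 0 (zm (p.t j).X v) := by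
  obtain ⟨c, hc⟩ := p.span _ (lead_tf g n hg g1 g2)
  obtain ⟨d, hd⟩ := p.span _ (lead_tf f n hf f1 f2)
  simp only [LinearMap.comp_apply] at hc hd
  have eg : ∀ v, (PowerSeries.coeff n (g (WW A phs (omt A) v)) : ℂ) =
      (n + lam) * PowerSeries.coeff n (g v) := by
    intro v
    have h1 := lead3 (A := A) g n hg v
    have h2 := g3 v n (Nat.lt_succ_self n)
    rw [map_sub, map_add, coeff_th, PowerSeries.coeff_smul, h1,
      g1 (omt A) v n (Nat.lt_succ_self n)] at h2
    linear_combination h2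
  have ef : ∀ v, (PowerSeries.coeff n (f (WW A phs (omt A) v)) : ℂ) =
      (n + lam) * PowerSeries.coeff n (f v) + kap * PowerSeries.coeff n (g v) := by
    intro v
    have h1 := lead3 (A := A) f n hf v
    have h2 := f3 v n (Nat.lt_succ_self n)
    rw [map_sub, map_add, map_add, coeff_th, PowerSeries.coeff_smul, PowerSeries.coeff_smul, h1,
      f1 (omt A) v n (Nat.lt_succ_self n)] at h2
    linear_combination h2
  have hcz : (fun j => c j * (lamt (p.t j) - lam - n)) = 0 := by
    apply p.indep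
    intro v
    have h1 := eg v
    rw [hc, hc, Finset.mul_sum] at h1
    rw [← sub_eq_zero, ← Finset.sum_sub_distrib] at h1
    rw [← h1]
    apply Finset.sum_congr rfl
    intro j _
    rw [stp1_eig]
    ring
  have hdz : (fun j => d j * (lamt (p.t j) - lam - n) - kap * c j) = 0 := by
    apply p.indep
    intro v
    have h1 := ef v
    rw [hd, hd, hc, Finset.mul_sum, Finset.mul_sum] at h1
    rw [← sub_eq_zero, ← Finset.sum_add_distrib, ← Finset.sum_sub_distrib] at h1
    rw [← h1]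
    apply Finset.sum_congr rfl
    intro j _
    rw [stp1_eig]
    ring
  have hc0 : ∀ j, c j = 0 := by
    intro j
    by_contra hj
    have h1 : c j * (lamt (p.t j) - lam - n) = 0 := congrFun hcz j
    have h2 : d j * (lamt (p.t j) - lam - n) - kap * c j = 0 := congrFun hdz j
    rcases mul_eq_zero.1 h1 with h3 | h3
    · exact hj h3
    · rw [h3, mul_zero, zero_sub, neg_eq_zero] at h2
      rcases mul_eq_zero.1 h2 with h4 | h4
      · exact stp1_kap h4
      · exact hj h4
  refine ⟨fun v i hi => ?_, d, fun j hj => ?_, hd⟩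
  · rcases Nat.lt_succ_iff_lt_or_eq.1 hi with h | h
    · exact hg v i h
    · rw [h, hc v]
      apply Finset.sum_eq_zero
      intro j _
      rw [hc0 j, zero_mul]
  · have h2 : d j * (lamt (p.t j) - lam - n) - kap * c j = 0 := congrFun hdz j
    rw [hc0 j, mul_zero, sub_zero] at h2
    rcases mul_eq_zero.1 h2 with h3 | h3
    · exact absurd h3 hj
    · linear_combination h3

end Pool.Agent.DERV
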