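import Pool.Agent.DERV.STP1

/-!
# Project DERV, part II: the strip lemma
-/

set_option autoImplicit false

universe u

open Finset

namespace Pool.Agent.DERV

open Pool.Agent.VOAut
open UpperHalfPlane hiding I
open scoped Nat ArithmeticFunction.sigma Manifold

variable {V : Type u} [AddCommGroup V] [Module ℂ V]

variable {A : VOA V} {D : Module.End ℂ V}

/-- The shifted family `q ^ m Z`. -/
noncomputable def shL (m : ℕ) (Z : V →ₗ[ℂ] PowerSeries ℂ) : V →ₗ[ℂ] PowerSeries ℂ :=
  LinearMap.mulLeft ℂ (PowerSeries.X ^ m) ∘ₗ Z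

theorem shL_apply (m : ℕ) (Z : V →ₗ[ℂ] PowerSeries ℂ) (v : V) :
    shL m Z v = PowerSeries.X ^ m * Z v := rfl

theorem stp2_th_X_mul (m : ℕ) (f : PowerSeries ℂ) :
    th (PowerSeries.X ^ m * f) =
      (m : ℂ) • (PowerSeries.X ^ m * f) + PowerSeries.X ^ m * th f := by
  ext n
  rw [coeff_th, map_add, map_smul, PowerSeries.coeff_X_pow_mul', PowerSeries.coeff_X_pow_mul',
    coeff_th, smul_eq_mul]
  split_ifs with h
  · rw [Nat.cast_sub h]
    ring
  · ring

theorem shL_isF (lam : ℂ) (m : ℕ) (Z : V →ₗ[ℂ] PowerSeries ℂ) (h : IsF A (lam + m) Z) :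
    IsF A lam (shL m Z) where
  c1 u v := by rw [shL_apply, h.c1, mul_zero]
  c2 u v := by
    unfold shL
    rw [df2_mulS, h.c2, mul_zero]
  c3 v := by
    unfold shL
    rw [df3_mulS, h.c3, LinearMap.comp_apply, LinearMap.mulLeft_apply, stp2_th_X_mul, mul_add,
      mul_smul_comm, add_smul]
    abel

theorem stp2_isF_zero (lam : ℂ) : IsF A lam 0 where
  c1 u v := rfl
  c2 u v := by
    unfold df2
    rw [SS_zeroS]
    simp
  c3 v := by
    unfold df3
    rw [SS_zeroS]
    simp

theorem stp2_isF_add (lam : ℂ) {Z Z' : V →ₗ[ℂ] PowerSeries ℂ} (h : IsF A lam Z)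
    (h' : IsF A lam Z') : IsF A lam (Z + Z') where
  c1 u v := by rw [LinearMap.add_apply, h.c1, h'.c1, add_zero]
  c2 u v := by rw [df2_addS, h.c2, h'.c2, add_zero]
  c3 v := by
    rw [df3_addS, h.c3, h'.c3, LinearMap.add_apply, map_add, smul_add]
    abel

theorem stp2_isF_smul (lam c : ℂ) {Z : V →ₗ[ℂ] PowerSeries ℂ} (h : IsF A lam Z) :
    IsF A lam (c • Z) where
  c1 u v := by rw [LinearMap.smul_apply, h.c1, smul_zero]
  c2 u v := by rw [df2_smulS, h.c2, smul_zero]
  c3 v := by
    rw [df3_smulS, h.c3, LinearMap.smul_apply, map_smul, smul_add, smul_comm c lam]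

theorem stp2_isF_sum (lam : ℂ) {ι : Type*} (s : Finset ι) (Z : ι → V →ₗ[ℂ] PowerSeries ℂ)
    (h : ∀ i ∈ s, IsF A lam (Z i)) : IsF A lam (∑ i ∈ s, Z i) := by
  classical
  induction s using Finset.induction_on with
  | empty =>
    rw [Finset.sum_empty]
    exact stp2_isF_zero lam
  | insert a s ha ih =>
    rw [Finset.sum_insert ha]
    exact stp2_isF_add lam (h a (Finset.mem_insert_self a s))
      (ih (fun i hi => h i (Finset.mem_insert_of_mem hi)))

/-- The part that is subtracted. -/
noncomputable def stp2_R (p : Pack A D) (d : Fin (p.n + 1) → ℂ) (m : Fin (p.n + 1) → ℕ) :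
    V →ₗ[ℂ] PowerSeries ℂ := ∑ j, d j • shL (m j) (ZsL (p.t j))

theorem stp2_R_apply (p : Pack A D) (d : Fin (p.n + 1) → ℂ) (m : Fin (p.n + 1) → ℕ) (v : V) :
    stp2_R p d m v = ∑ j, d j • (PowerSeries.X ^ m j * Zs (p.t j) v) := by
  unfold stp2_R
  rw [LinearMap.sum_apply]
  rfl

theorem stp2_R_isF (p : Pack A D) (lam : ℂ) (d : Fin (p.n + 1) → ℂ) (m : Fin (p.n + 1) → ℕ)
    (h : ∀ j, d j ≠ 0 → lamt (p.t j) = lam + m j) : IsF A lam (stp2_R p d m) := by
  apply stp2_isF_sum
  intro j _
  by_cases hj : d j = 0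
  · rw [hj, zero_smul]
    exact stp2_isF_zero lam
  · apply stp2_isF_smul
    apply shL_isF
    rw [← h j hj]
    exact Zs_isF (p.t j)

theorem stp2_Van_mono {N M : ℕ} (h : N ≤ M) {f : PowerSeries ℂ} (hf : Van M f) : Van N f :=
  fun i hi => hf i (lt_of_lt_of_le hi h)

theorem strip (p : Pack A D) (lam : ℂ)
    (f g : V →ₗ[ℂ] PowerSeries ℂ) (N : ℕ)
    (f1 : ∀ u v, Van N (f (br A 0 u v))) (g1 : ∀ u v, Van N (g (br A 0 u v)))
    (f2 : ∀ u v, Van N (df2 A Ek f u v)) (g2 : ∀ u v, Van N (df2 A Ek g u v))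
    (f3 : ∀ v, Van N (df3 A Ek f v - (th (f v) + lam • f v + kap • g v)))
    (g3 : ∀ v, Van N (df3 A Ek g v - (th (g v) + lam • g v))) :
    (∀ v, Van N (g v)) ∧ ∃ (d : Fin (p.n + 1) → ℂ) (m : Fin (p.n + 1) → ℕ),
      (∀ j, d j ≠ 0 → lamt (p.t j) = lam + m j ∧ m j < N) ∧
      ∀ v, Van N (f v - ∑ j, d j • (PowerSeries.X ^ m j * Zs (p.t j) v)) := by
  classical
  induction N with
  | zero =>
    refine ⟨fun v i hi => absurd hi (Nat.not_lt_zero i), 0, 0, fun j hj => absurd rfl hj,
      fun v i hi => absurd hi (Nat.not_lt_zero i)⟩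
  | succ N ih =>
    have hm : N ≤ N + 1 := Nat.le_succ N
    obtain ⟨hgN, d, m, hd, hfN⟩ := ih (fun u v => stp2_Van_mono hm (f1 u v))
      (fun u v => stp2_Van_mono hm (g1 u v)) (fun u v => stp2_Van_mono hm (f2 u v))
      (fun u v => stp2_Van_mono hm (g2 u v)) (fun v => stp2_Van_mono hm (f3 v))
      (fun v => stp2_Van_mono hm (g3 v))
    have hR := stp2_R_isF p lam d m (fun j hj => (hd j hj).1)
    obtain ⟨hgs, d', hd', hf'⟩ := step p lam (f - stp2_R p d m) g N
      (fun v => by
        rw [LinearMap.sub_apply, stp2_R_apply]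
        exact hfN v) hgN
      (fun u v => by
        rw [LinearMap.sub_apply, hR.c1, sub_zero]
        exact f1 u v) g1
      (fun u v => by
        rw [df2_subS, hR.c2, sub_zero]
        exact f2 u v) g2
      (fun v => by
        have e : df3 A Ek (f - stp2_R p d m) v - (th ((f - stp2_R p d m) v) +
            lam • (f - stp2_R p d m) v + kap • g v) =
            df3 A Ek f v - (th (f v) + lam • f v + kap • g v) := by
          rw [df3_subS, hR.c3, LinearMap.sub_apply, map_sub, smul_sub]
          abel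
        rw [e]
        exact f3 v) g3
    refine ⟨hgs, fun j => if d' j ≠ 0 then d' j else d j, fun j => if d' j ≠ 0 then N else m j,
      ?_, ?_⟩
    · intro j hj
      by_cases h : d' j ≠ 0
      · simp only [if_pos h]
        exact ⟨hd' j h, Nat.lt_succ_self N⟩
      · simp only [if_neg h] at hj ⊢
        exact ⟨(hd j hj).1, lt_trans (hd j hj).2 (Nat.lt_succ_self N)⟩
    · intro v
      have e : f v - ∑ j, (if d' j ≠ 0 then d' j else d j) •
          (PowerSeries.X ^ (if d' j ≠ 0 then N else m j) * Zs (p.t j) v) =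
          (f - stp2_R p d m) v - ∑ j, d' j • (PowerSeries.X ^ N * Zs (p.t j) v) := by
        rw [LinearMap.sub_apply, stp2_R_apply, sub_sub, ← Finset.sum_add_distrib]
        congr 1
        apply Finset.sum_congr rfl
        intro j _
        by_cases h : d' j ≠ 0
        · have h0 : d j = 0 := by
            by_contra h1
            have h2 := (hd j h1).1
            rw [hd' j h] at h2
            have h3 : (N : ℂ) = m j := by linear_combination h2
            have h4 : N = m j := by exact_mod_cast h3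
            exact absurd (hd j h1).2 (by omega)
          rw [if_pos h, if_pos h, h0, zero_smul, zero_add]
        · rw [if_neg h, if_neg h]
          rw [not_not] at h
          rw [h, zero_smul, add_zero]
      rw [e]
      intro i hi
      rw [map_sub, map_sum]
      rcases Nat.lt_succ_iff_lt_or_eq.1 hi with h | h
      · have h1 := hfN v i h
        rw [LinearMap.sub_apply, stp2_R_apply, h1, zero_sub, neg_eq_zero]
        apply Finset.sum_eq_zero
        intro j _
        rw [map_smul, PowerSeries.coeff_X_pow_mul', if_neg (by omega), smul_zero]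
      · rw [h, hf' v, sub_eq_zero]
        apply Finset.sum_congr rfl
        intro j _
        rw [map_smul, PowerSeries.coeff_X_pow_mul', if_pos le_rfl, Nat.sub_self, smul_eq_mul]
        congr 1
        unfold Zs
        rw [PowerSeries.coeff_mk]
        rfl

end Pool.Agent.DERV
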