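import Pool.Agent.DERV.TRH

/-!
# Project DERV, part II: first trace identity
-/

set_option autoImplicit false

universe u

open Finset

namespace Pool.Agent.DERV

open Pool.Agent.VOAut
open UpperHalfPlane hiding I
open scoped Nat ArithmeticFunction.sigma Manifold

variable {V : Type u} [AddCommGroup V] [Module ℂ V]

variable {A : VOA V} {D : Module.End ℂ V}

/-- Trace of `o(u * v) DM`. -/
theorem tra1_phs (t : TMod A D) (a b : ℤ) (u v : V) (hu : u ∈ A.gr a) (hv : v ∈ A.gr b) (i : ℕ) :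
    tc t i (WW A phs u v) = trg t.X i (zm t.X u * zm t.X v * t.DM) +
      ∑ n ∈ Icc 1 i, (trg t.X i (t.X.Y u (a - 1 - n) * t.X.Y v (b - 1 + n) * t.DM) +
        trg t.X i (t.X.Y v (b - 1 - n) * t.X.Y u (a - 1 + n) * t.DM)) := by
  unfold tc
  rw [trg_congr t.X i (zm t.X (WW A phs u v) * t.DM) (zm t.X u * zm t.X v * t.DM +
      ∑ n ∈ Icc 1 i, (t.X.Y u (a - 1 - n) * t.X.Y v (b - 1 + n) * t.DM +
        t.X.Y v (b - 1 - n) * t.X.Y u (a - 1 + n) * t.DM))]
  · rw [← trgL_apply, map_add, map_sum]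
    simp only [map_add, trgL_apply]
  · intro x hx
    rw [Module.End.mul_apply, zm_phs t.X a b u v hu hv i (t.DM x) (t.DM_gr i x hx)]
    simp only [LinearMap.add_apply, LinearMap.sum_apply, Module.End.mul_apply]

/-- The double sum in the first identity. -/
theorem tra1_sum (hD : IsDer A D) (t : TMod A D) (a b : ℤ) (u v : V) (hu : u ∈ A.gr a)
    (hv : v ∈ A.gr b) (hu0 : D u = 0) (i : ℕ) : ∃ R0 : ℕ, ∀ R, R0 ≤ R →
    ∑ n ∈ Icc 1 i, (trg t.X i (t.X.Y u (a - 1 - n) * t.X.Y v (b - 1 + n) * t.DM) +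
        trg t.X i (t.X.Y v (b - 1 - n) * t.X.Y u (a - 1 + n) * t.DM)) =
    ∑ r ∈ range R, ∑ m ∈ Icc 1 i, (2 / ((2 * r + 1)! : ℕ) * ((σ (2 * r + 1) m : ℕ) : ℂ)) *
      tc t (i - m) (br A (2 * r + 1) u v) := by
  obtain ⟨R0, h0⟩ := WW_odd A u v
  refine ⟨R0, fun R hR => ?_⟩
  have h1 : ∀ n ∈ Icc 1 i, trg t.X i (t.X.Y u (a - 1 - n) * t.X.Y v (b - 1 + n) * t.DM) +
        trg t.X i (t.X.Y v (b - 1 - n) * t.X.Y u (a - 1 + n) * t.DM) =
      ∑ j ∈ Icc 1 (i / n), ∑ r ∈ range R, (2 / ((2 * r + 1)! : ℕ) * (n : ℂ) ^ (2 * r + 1)) *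
        tc t (i - j * n) (br A (2 * r + 1) u v) := by
    intro n hn
    rw [Finset.mem_Icc] at hn
    rw [tr_uv hD t a b u v hu hv n (by omega) i, tr_vu hD t a b u v hu hv n (by omega) i,
      ← Finset.sum_neg_distrib, ← Finset.sum_add_distrib]
    apply Finset.sum_congr rfl
    intro j _
    rw [hu0, WW_zero_u, WW_zero_u]
    have h2 := congrArg (tcL t (i - j * n)) (h0 n R hR)
    rw [map_sub, map_sum] at h2
    simp only [map_smul, tcL_apply, smul_eq_mul] at h2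
    have h3 : zc t (i - j * n) 0 = 0 := by rw [← zcL_apply, map_zero]
    rw [h3]
    have h4 : ∑ r ∈ range R, (2 / ((2 * r + 1)! : ℕ) * (n : ℂ) ^ (2 * r + 1)) *
        tc t (i - j * n) (br A (2 * r + 1) u v) = ∑ r ∈ range R, (2 * (n : ℂ) ^ (2 * r + 1) /
        ((2 * r + 1)! : ℕ)) * tc t (i - j * n) (br A (2 * r + 1) u v) := by
      apply Finset.sum_congr rfl
      intro r _
      ring
    rw [h4, ← h2]
    ring
  rw [Finset.sum_congr rfl h1]
  have h5 : ∀ r ∈ range R, ∑ m ∈ Icc 1 i, (2 / ((2 * r + 1)! : ℕ) *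
      ((σ (2 * r + 1) m : ℕ) : ℂ)) * tc t (i - m) (br A (2 * r + 1) u v) =
      ∑ n ∈ Icc 1 i, ∑ j ∈ Icc 1 (i / n), (2 / ((2 * r + 1)! : ℕ) * (n : ℂ) ^ (2 * r + 1)) *
        tc t (i - j * n) (br A (2 * r + 1) u v) := by
    intro r _
    rw [regroup (fun n _ => 2 / ((2 * r + 1)! : ℕ) * (n : ℂ) ^ (2 * r + 1))
      (fun l => tc t l (br A (2 * r + 1) u v)) i]
    apply Finset.sum_congr rfl
    intro m _
    rw [div_sum_pow]
  rw [Finset.sum_congr rfl h5]
  symm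
  rw [Finset.sum_comm]
  apply Finset.sum_congr rfl
  intro n _
  rw [Finset.sum_comm]

theorem tprod (hD : IsDer A D) (t : TMod A D) (a : ℤ) (u : V) (hu : u ∈ A.gr a) (hu0 : D u = 0)
    (v : V) (i : ℕ) : trg t.X i (zm t.X u * zm t.X v * t.DM) =
      PowerSeries.coeff i (TsL t (br A (-1) u v) + (1 / 2 : ℂ) • TsL t (br A 0 u v)
        - SS A (fun _ => 1) 1 Ek (TsL t) u v) := by
  -- both sides are linear in `v`
  let P : V →ₗ[ℂ] ℂ := trgL t.X i ∘ₗ LinearMap.mulRight ℂ t.DM ∘ₗ LinearMap.mulLeft ℂ (zm t.X u) ∘ₗ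
    zmL t.X
  let Q : V →ₗ[ℂ] ℂ := PowerSeries.coeff i ∘ₗ (TsL t ∘ₗ brL A (-1) u + (1 / 2 : ℂ) •
    (TsL t ∘ₗ brL A 0 u) - SSL A (fun _ => 1) 1 Ek (TsL t) u)
  suffices h : P v - Q v = 0 from sub_eq_zero.1 h
  refine hom_ind A (P := fun v => P v - Q v = 0) v ?_ ?_ ?_
  · simp
  · intro x y hx hy
    rw [map_add, map_add]
    linear_combination hx + hy
  intro b v hv
  rw [sub_eq_zero]
  show trg t.X i (zm t.X u * zm t.X v * t.DM) =
      PowerSeries.coeff i (TsL t (br A (-1) u v) + (1 / 2 : ℂ) • TsL t (br A 0 u v)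
        - SS A (fun _ => 1) 1 Ek (TsL t) u v)
  obtain ⟨R1, h1⟩ := tra1_sum hD t a b u v hu hv hu0 i
  obtain ⟨R2, h2⟩ := WW_phs A u v
  obtain ⟨R3, h3⟩ := SS_range A 1 u v
  have hR1 : R1 ≤ R1 + R2 + R3 := by omega
  have hR2 : R2 ≤ R1 + R2 + R3 := by omega
  have hR3 : R3 ≤ R1 + R2 + R3 := by omega
  set R := R1 + R2 + R3 with hR
  have h4 := tra1_phs t a b u v hu hv i
  rw [h1 R hR1] at h4
  have h5 := congrArg (tcL t i) (h2 R hR2)
  rw [map_add, map_add, map_sum] at h5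
  simp only [map_smul, tcL_apply, smul_eq_mul] at h5
  rw [h3 _ (fun _ => 1) Ek (TsL t) R hR3, map_sub, map_add, map_sum]
  simp only [one_smul, coeff_Ek_mul, coeff_TsL]
  have h6 : (PowerSeries.coeff i ((1 / 2 : ℂ) • TsL t (br A 0 u v)) : ℂ) =
      1 / 2 * tc t i (br A 0 u v) := by
    rw [map_smul, coeff_TsL, smul_eq_mul]
  rw [h6, Finset.sum_add_distrib]
  have h7 : ∀ r ∈ range R, ∑ m ∈ Icc 1 i, (2 / ((2 * r + 1)! : ℕ) * ((σ (2 * r + 1) m : ℕ) : ℂ)) *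
      tc t (i - m) (br A (2 * r + 1) u v) =
      ∑ m ∈ Icc 1 i, (2 / ((2 * r + 1)! : ℕ) * ((σ (2 * r + 1) m : ℕ) : ℂ)) *
      tc t ((i - m : ℕ) : ℤ) (br A (2 * r + 1) u v) := by
    intro r _
    apply Finset.sum_congr rfl
    intro m hm
    rw [Finset.mem_Icc] at hm
    rw [Nat.cast_sub hm.2]
  rw [Finset.sum_congr rfl h7] at h4
  have h8 : ∑ r ∈ range R, -bk r * tc t i (br A (2 * r + 1) u v) =
      -∑ r ∈ range R, bk r * tc t i (br A (2 * r + 1) u v) := by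
    rw [← Finset.sum_neg_distrib]
    apply Finset.sum_congr rfl
    intro r _
    ring
  rw [h8]
  linear_combination h5 - h4

theorem Z_c1 (t : TMod A D) (u v : V) : ZsL t (br A 0 u v) = 0 := by
  let P : V →ₗ[ℂ] V →ₗ[ℂ] PowerSeries ℂ := (brL A 0).compr₂ (ZsL t)
  suffices h : P = 0 by
    have := congrArg (fun f => f u v) h
    exact this
  have h1 : ∀ (a b : ℤ) (u v : V), u ∈ A.gr a → v ∈ A.gr b → ZsL t (br A 0 u v) = 0 := by
    intro a b u v hu hv
    ext i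
    rw [coeff_ZsL, map_zero]
    unfold zc
    rw [trg_congr t.X i (zm t.X (br A 0 u v)) (zm t.X u * zm t.X v - zm t.X v * zm t.X u)]
    · rw [← trgL_apply, map_sub, trgL_apply, trgL_apply, sub_eq_zero]
      have := trg_cyc t.X t.fd 0 (zm t.X v) (zm t.X u) (Dg_zm t.X v)
        (by rw [neg_zero]; exact Dg_zm t.X u) i
      rw [add_zero] at this
      exact this
    · intro x _
      have h := zm_comm t.X a b 0 u v hu hv x
      rw [zpow_zero, WW_one, add_zero, sub_zero] at h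
      rw [← h, zm_of_mem t.X a u hu, zm_of_mem t.X b v hv]
      rfl
  refine LinearMap.ext fun u => LinearMap.ext fun v => ?_
  refine hom_ind A (P := fun u => P u v = 0) u ?_ ?_ ?_
  · rw [map_zero]; rfl
  · intro x y hx hy
    rw [map_add, LinearMap.add_apply, hx, hy, add_zero]
  intro a u hu
  refine hom_ind A (P := fun v => P u v = 0) v ?_ ?_ ?_
  · rw [map_zero]
  · intro x y hx hy
    rw [map_add, hx, hy, add_zero]
  intro b v hv
  exact h1 a b u v hu hv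

/-- The same module with the trivial derivation. -/
noncomputable def t0M (t : TMod A D) : TMod A 0 where
  M := t.M
  X := t.X
  fd := t.fd
  h := t.h
  L0 := t.L0
  DM := 1
  DM_gr n x hx := hx
  DM_der u n x := by
    rw [LinearMap.zero_apply, map_zero]
    simp

theorem Ts_t0M (t : TMod A D) : TsL (t0M t) = ZsL t := by
  ext v i
  rw [coeff_TsL, coeff_ZsL]
  unfold tc zc
  show trg t.X i (zm t.X v * 1) = _
  rw [mul_one]

theorem Zs_t0M (t : TMod A D) : ZsL (t0M t) = ZsL t := by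
  ext v i
  rw [coeff_ZsL, coeff_ZsL]
  rfl

theorem isDer_zero : IsDer A 0 := ⟨fun u n w => by simp, by simp⟩

theorem zprod (t : TMod A D) (u v : V) (i : ℕ) : trg t.X i (zm t.X u * zm t.X v) =
      PowerSeries.coeff i (ZsL t (br A (-1) u v) - SS A (fun _ => 1) 1 Ek (ZsL t) u v) := by
  let P : V →ₗ[ℂ] ℂ := trgL t.X i ∘ₗ LinearMap.mulRight ℂ (zm t.X v) ∘ₗ zmL t.X
  let Q : V →ₗ[ℂ] ℂ := PowerSeries.coeff i ∘ₗ (ZsL t ∘ₗ (brL A (-1)).flip v
    - (SSL A (fun _ => 1) 1 Ek (ZsL t)).flip v)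
  suffices h : P u - Q u = 0 from sub_eq_zero.1 h
  refine hom_ind A (P := fun u => P u - Q u = 0) u ?_ ?_ ?_
  · simp
  · intro x y hx hy
    rw [map_add, map_add]
    linear_combination hx + hy
  intro a u hu
  rw [sub_eq_zero]
  show trg t.X i (zm t.X u * zm t.X v) =
      PowerSeries.coeff i (ZsL t (br A (-1) u v) - SS A (fun _ => 1) 1 Ek (ZsL t) u v)
  have h := tprod isDer_zero (t0M t) a u hu (by simp) v i
  rw [Ts_t0M, Z_c1, smul_zero, add_zero] at h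
  rw [← h]
  show _ = trg t.X i (zm t.X u * zm t.X v * 1)
  rw [mul_one]

end Pool.Agent.DERV
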