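import Pool.Agent.DERV.TRH

/-!
# Project DERV, part II: second trace identity
-/

set_option autoImplicit false

universe u

open Finset

namespace Pool.Agent.DERV

open Pool.Agent.VOAut
open UpperHalfPlane hiding I
open scoped Nat ArithmeticFunction.sigma Manifold

variable {V : Type u} [AddCommGroup V] [Module ℂ V]

variable {A : VOA V} {D : Module.End ℂ V}

/-- Trace of `o(u ∘ v) DM`. -/
theorem tra2_pho (t : TMod A D) (a b : ℤ) (u v : V) (hu : u ∈ A.gr a) (hv : v ∈ A.gr b) (i : ℕ) :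
    tc t i (WW A pho u v) =
      ∑ n ∈ Icc 1 i, (n : ℂ) * (trg t.X i (t.X.Y u (a - 1 - n) * t.X.Y v (b - 1 + n) * t.DM) -
        trg t.X i (t.X.Y v (b - 1 - n) * t.X.Y u (a - 1 + n) * t.DM)) := by
  unfold tc
  rw [trg_congr t.X i (zm t.X (WW A pho u v) * t.DM)
      (∑ n ∈ Icc 1 i, (n : ℂ) • (t.X.Y u (a - 1 - n) * t.X.Y v (b - 1 + n) * t.DM -
        t.X.Y v (b - 1 - n) * t.X.Y u (a - 1 + n) * t.DM))]
  · rw [← trgL_apply, map_sum]
    simp only [map_smul, map_sub, trgL_apply, smul_eq_mul]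
  · intro x hx
    rw [Module.End.mul_apply, zm_pho t.X a b u v hu hv i (t.DM x) (t.DM_gr i x hx)]
    simp only [LinearMap.sub_apply, LinearMap.smul_apply, LinearMap.sum_apply,
      Module.End.mul_apply]

theorem tra2_fact (r : ℕ) : (2 : ℂ) / ((2 * r)! : ℕ) = (2 * r + 1) * (2 / ((2 * r + 1)! : ℕ)) := by
  rw [Nat.factorial_succ]
  push_cast
  have h1 : ((2 * r)! : ℂ) ≠ 0 := by exact_mod_cast Nat.factorial_ne_zero _
  have h2 : (2 * (r : ℂ) + 1) ≠ 0 := by exact_mod_cast Nat.succ_ne_zero (2 * r)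
  field_simp

theorem tra2_div (r m : ℕ) (hm : 1 ≤ m) :
    ∑ n ∈ m.divisors, ((n : ℂ) * ((m / n : ℕ) : ℂ)) * (2 / ((2 * r + 1)! : ℕ) * (n : ℂ) ^ (2 * r + 1)) =
      (m : ℂ) * (2 / ((2 * r + 1)! : ℕ) * ((σ (2 * r + 1) m : ℕ) : ℂ)) := by
  rw [← div_sum_pow, Finset.mul_sum]
  apply Finset.sum_congr rfl
  intro n hn
  rw [Nat.mem_divisors] at hn
  rw [← Nat.cast_mul, Nat.mul_div_cancel' hn.1]

/-- The double sum in the second identity. -/
theorem tra2_sum (hD : IsDer A D) (t : TMod A D) (a b : ℤ) (u v : V) (hu : u ∈ A.gr a)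
    (hv : v ∈ A.gr b) (i : ℕ) : ∃ R0 : ℕ, ∀ R, R0 ≤ R →
    ∑ n ∈ Icc 1 i, (n : ℂ) * (trg t.X i (t.X.Y u (a - 1 - n) * t.X.Y v (b - 1 + n) * t.DM) -
        trg t.X i (t.X.Y v (b - 1 - n) * t.X.Y u (a - 1 + n) * t.DM)) =
    -(∑ r ∈ range R, ∑ m ∈ Icc 1 i, ((2 * r + 1) * (2 / ((2 * r + 1)! : ℕ) *
      ((σ (2 * r + 1) m : ℕ) : ℂ))) * tc t (i - m) (br A (2 * r) u v)) +
    ∑ r ∈ range R, ∑ m ∈ Icc 1 i, ((m : ℂ) * (2 / ((2 * r + 1)! : ℕ) *
      ((σ (2 * r + 1) m : ℕ) : ℂ))) * zc t (i - m) (br A (2 * r + 1) (D u) v) := by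
  obtain ⟨R0, h0⟩ := WW_even A u v
  obtain ⟨R1, h1⟩ := WW_odd A (D u) v
  refine ⟨R0 + R1, fun R hR => ?_⟩
  have hp : ∀ n ∈ Icc 1 i, (n : ℂ) *
      (trg t.X i (t.X.Y u (a - 1 - n) * t.X.Y v (b - 1 + n) * t.DM) -
        trg t.X i (t.X.Y v (b - 1 - n) * t.X.Y u (a - 1 + n) * t.DM)) =
      -(∑ j ∈ Icc 1 (i / n), ∑ r ∈ range R, (2 / ((2 * r)! : ℕ) * (n : ℂ) ^ (2 * r + 1)) *
        tc t (i - j * n) (br A (2 * r) u v)) +
      ∑ j ∈ Icc 1 (i / n), ∑ r ∈ range R, (((n : ℂ) * (j : ℂ)) * (2 / ((2 * r + 1)! : ℕ) *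
        (n : ℂ) ^ (2 * r + 1))) * zc t (i - j * n) (br A (2 * r + 1) (D u) v) := by
    intro n hn
    rw [Finset.mem_Icc] at hn
    rw [tr_uv hD t a b u v hu hv n (by omega) i, tr_vu hD t a b u v hu hv n (by omega) i,
      ← Finset.sum_neg_distrib, ← Finset.sum_sub_distrib, Finset.mul_sum,
      ← Finset.sum_neg_distrib, ← Finset.sum_add_distrib]
    apply Finset.sum_congr rfl
    intro j _
    have h2 := congrArg (tcL t (i - j * n)) (h0 n R (by omega))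
    rw [map_add, map_sum] at h2
    simp only [map_smul, tcL_apply, smul_eq_mul] at h2
    have h3 := congrArg (zcL t (i - j * n)) (h1 n R (by omega))
    rw [map_sub, map_sum] at h3
    simp only [map_smul, zcL_apply, smul_eq_mul] at h3
    have h4 : ∑ r ∈ range R, (2 / ((2 * r)! : ℕ) * (n : ℂ) ^ (2 * r + 1)) *
        tc t (i - j * n) (br A (2 * r) u v) = n * ∑ r ∈ range R, (2 * (n : ℂ) ^ (2 * r) /
        ((2 * r)! : ℕ)) * tc t (i - j * n) (br A (2 * r) u v) := by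
      rw [Finset.mul_sum]
      apply Finset.sum_congr rfl
      intro r _
      ring
    have h5 : ∑ r ∈ range R, (((n : ℂ) * (j : ℂ)) * (2 / ((2 * r + 1)! : ℕ) *
        (n : ℂ) ^ (2 * r + 1))) * zc t (i - j * n) (br A (2 * r + 1) (D u) v) =
        (n * j) * ∑ r ∈ range R, (2 * (n : ℂ) ^ (2 * r + 1) /
        ((2 * r + 1)! : ℕ)) * zc t (i - j * n) (br A (2 * r + 1) (D u) v) := by
      rw [Finset.mul_sum]
      apply Finset.sum_congr rfl
      intro r _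
      ring
    rw [h4, h5, ← h2, ← h3]
    ring
  rw [Finset.sum_congr rfl hp, Finset.sum_add_distrib, Finset.sum_neg_distrib]
  refine congrArg₂ (· + ·) (congrArg Neg.neg ?_) ?_
  · have h5 : ∀ r ∈ range R, ∑ m ∈ Icc 1 i, ((2 * r + 1) * (2 / ((2 * r + 1)! : ℕ) *
      ((σ (2 * r + 1) m : ℕ) : ℂ))) * tc t (i - m) (br A (2 * r) u v) =
        ∑ n ∈ Icc 1 i, ∑ j ∈ Icc 1 (i / n), (2 / ((2 * r)! : ℕ) * (n : ℂ) ^ (2 * r + 1)) *
        tc t (i - j * n) (br A (2 * r) u v) := by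
      intro r _
      rw [regroup (fun n _ => 2 / ((2 * r)! : ℕ) * (n : ℂ) ^ (2 * r + 1))
        (fun l => tc t l (br A (2 * r) u v)) i]
      apply Finset.sum_congr rfl
      intro m _
      rw [div_sum_pow, tra2_fact]
      ring
    rw [Finset.sum_congr rfl h5]
    symm
    rw [Finset.sum_comm]
    apply Finset.sum_congr rfl
    intro n _
    rw [Finset.sum_comm]
  · have h5 : ∀ r ∈ range R, ∑ m ∈ Icc 1 i, ((m : ℂ) * (2 / ((2 * r + 1)! : ℕ) *
      ((σ (2 * r + 1) m : ℕ) : ℂ))) * zc t (i - m) (br A (2 * r + 1) (D u) v) =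
        ∑ n ∈ Icc 1 i, ∑ j ∈ Icc 1 (i / n), (((n : ℂ) * (j : ℂ)) * (2 / ((2 * r + 1)! : ℕ) *
        (n : ℂ) ^ (2 * r + 1))) * zc t (i - j * n) (br A (2 * r + 1) (D u) v) := by
      intro r _
      rw [regroup (fun n j => ((n : ℂ) * (j : ℂ)) * (2 / ((2 * r + 1)! : ℕ) * (n : ℂ) ^ (2 * r + 1)))
        (fun l => zc t l (br A (2 * r + 1) (D u) v)) i]
      apply Finset.sum_congr rfl
      intro m hm
      rw [Finset.mem_Icc] at hm
      rw [tra2_div r m hm.1]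
    rw [Finset.sum_congr rfl h5]
    symm
    rw [Finset.sum_comm]
    apply Finset.sum_congr rfl
    intro n _
    rw [Finset.sum_comm]

theorem tdf2 (hD : IsDer A D) (t : TMod A D) (u v : V) :
    df2 A Ek (TsL t) u v = SS A (fun _ => 1) 1 (fun j => th (Ek j)) (ZsL t) (D u) v := by
  let P : V →ₗ[ℂ] V →ₗ[ℂ] PowerSeries ℂ := df2L A Ek (TsL t)
  let Q : V →ₗ[ℂ] V →ₗ[ℂ] PowerSeries ℂ :=
    (SSL A (fun _ => 1) 1 (fun j => th (Ek j)) (ZsL t)) ∘ₗ D
  suffices h : P = Q by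
    exact congrArg (fun f => f u v) h
  refine LinearMap.ext fun u => LinearMap.ext fun v => ?_
  rw [← sub_eq_zero]
  refine hom_ind A (P := fun u => P u v - Q u v = 0) u ?_ ?_ ?_
  · simp
  · intro x y hx hy
    rw [map_add, map_add, LinearMap.add_apply, LinearMap.add_apply]
    linear_combination hx + hy
  intro a u hu
  refine hom_ind A (P := fun v => P u v - Q u v = 0) v ?_ ?_ ?_
  · simp
  · intro x y hx hy
    rw [map_add, map_add]
    linear_combination hx + hy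
  intro b v hv
  rw [sub_eq_zero]
  show df2 A Ek (TsL t) u v = SS A (fun _ => 1) 1 (fun j => th (Ek j)) (ZsL t) (D u) v
  apply PowerSeries.ext
  intro i
  obtain ⟨R1, h1⟩ := tra2_sum hD t a b u v hu hv i
  obtain ⟨R2, h2⟩ := WW_pho A u v
  obtain ⟨R3, h3⟩ := SS_range A 0 u v
  obtain ⟨R4, h4⟩ := SS_range A 1 (D u) v
  have hR1 : R1 ≤ R1 + R2 + R3 + R4 := by omega
  have hR2 : R2 ≤ R1 + R2 + R3 + R4 := by omega
  have hR3 : R3 ≤ R1 + R2 + R3 + R4 := by omega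
  have hR4 : R4 ≤ R1 + R2 + R3 + R4 := by omega
  set R := R1 + R2 + R3 + R4 with hR
  have h5 := tra2_pho t a b u v hu hv i
  rw [h1 R hR1] at h5
  have h6 := congrArg (tcL t i) (h2 R hR2)
  rw [map_sub, map_sum] at h6
  simp only [map_smul, tcL_apply, smul_eq_mul] at h6
  unfold df2
  rw [h3 _ (fun j => 2 * (j : ℂ) + 1) Ek (TsL t) R hR3,
    h4 _ (fun _ => 1) (fun j => th (Ek j)) (ZsL t) R hR4, map_add, map_sum, map_sum]
  simp only [one_smul, map_smul, coeff_Ek_mul, coeff_thEk_mul, coeff_TsL, coeff_ZsL, add_zero,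
    smul_eq_mul]
  have h7 : ∀ r ∈ range R, ∑ m ∈ Icc 1 i, ((m : ℂ) * (2 / ((2 * r + 1)! : ℕ) *
      ((σ (2 * r + 1) m : ℕ) : ℂ))) * zc t (i - m) (br A (2 * r + 1) (D u) v) =
      ∑ m ∈ Icc 1 i, ((m : ℂ) * (2 / ((2 * r + 1)! : ℕ) * ((σ (2 * r + 1) m : ℕ) : ℂ))) *
      zc t ((i - m : ℕ) : ℤ) (br A (2 * r + 1) (D u) v) := by
    intro r _
    apply Finset.sum_congr rfl
    intro m hm
    rw [Finset.mem_Icc] at hm
    rw [Nat.cast_sub hm.2]
  have h8 : ∀ r ∈ range R, (2 * (r : ℂ) + 1) * (-bk r * tc t i (br A (2 * r) u v) +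
      ∑ m ∈ Icc 1 i, (2 / ((2 * r + 1)! : ℕ) * ((σ (2 * r + 1) m : ℕ) : ℂ)) *
        tc t ((i - m : ℕ) : ℤ) (br A (2 * r) u v)) =
      -((2 * r + 1) * bk r * tc t i (br A (2 * r) u v)) +
      ∑ m ∈ Icc 1 i, ((2 * r + 1) * (2 / ((2 * r + 1)! : ℕ) *
      ((σ (2 * r + 1) m : ℕ) : ℂ))) * tc t (i - m) (br A (2 * r) u v) := by
    intro r _
    rw [mul_add, Finset.mul_sum]
    congr 1
    · ring
    · apply Finset.sum_congr rfl
      intro m hm
      rw [Finset.mem_Icc] at hm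
      rw [Nat.cast_sub hm.2]
      ring
  rw [Finset.sum_congr rfl h8, ← Finset.sum_congr rfl h7, Finset.sum_add_distrib,
    Finset.sum_neg_distrib]
  linear_combination h5 - h6

end Pool.Agent.DERV
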