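import Pool.Agent.DERV.TRA1
import Pool.Agent.DERV.TRA2

/-!
# Project DERV, part II: the relations for the graded traces
-/

set_option autoImplicit false

universe u

open Finset

namespace Pool.Agent.DERV

open Pool.Agent.VOAut
open UpperHalfPlane hiding I
open scoped Nat ArithmeticFunction.sigma Manifold

variable {V : Type u} [AddCommGroup V] [Module ℂ V]

variable {A : VOA V} {D : Module.End ℂ V}

/-- `o(u[0] v) = [o(u), o(v)]`. -/
theorem zm_br0 {M : Type u} [AddCommGroup M] [Module ℂ M] (X : AdmissibleModule A M) (u v : V) :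
    zm X (br A 0 u v) = zm X u * zm X v - zm X v * zm X u := by
  rw [← sub_eq_zero]
  let P : V →ₗ[ℂ] V →ₗ[ℂ] Module.End ℂ M := (brL A 0).compr₂ (zmL X)
  let Q : V →ₗ[ℂ] V →ₗ[ℂ] Module.End ℂ M := LinearMap.mk₂ ℂ
    (fun u v => zmL X u * zmL X v - zmL X v * zmL X u)
    (fun u u' v => by rw [map_add, add_mul, mul_add]; abel)
    (fun c u v => by rw [map_smul, smul_mul_assoc, mul_smul_comm, smul_sub])
    (fun u v v' => by rw [map_add, add_mul, mul_add]; abel)
    (fun c u v => by rw [map_smul, smul_mul_assoc, mul_smul_comm, smul_sub])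
  show P u v - Q u v = 0
  refine hom_ind A (P := fun u => P u v - Q u v = 0) u ?_ ?_ ?_
  · simp
  · intro x y hx hy
    rw [map_add, map_add, LinearMap.add_apply, LinearMap.add_apply, add_sub_add_comm, hx, hy,
      add_zero]
  intro a u hu
  refine hom_ind A (P := fun v => P u v - Q u v = 0) v ?_ ?_ ?_
  · simp
  · intro x y hx hy
    rw [map_add, map_add, add_sub_add_comm, hx, hy, add_zero]
  intro b v hv
  rw [sub_eq_zero]
  show zm X (br A 0 u v) = zm X u * zm X v - zm X v * zm X u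
  refine LinearMap.ext fun x => ?_
  have h := zm_comm X a b 0 u v hu hv x
  rw [zpow_zero, WW_one, add_zero, sub_zero] at h
  rw [← h, zm_of_mem X a u hu, zm_of_mem X b v hv]
  rfl

theorem Dg_DM (t : TMod A D) : Dg t.X 0 t.DM := by
  intro n x hx
  rw [add_zero]
  exact t.DM_gr n x hx

theorem tra3_sum (hD : IsDer A D) (t : TMod A D) (u v : V) (i : ℤ) :
    trg t.X i (zm t.X u * zm t.X (D v)) + trg t.X i (zm t.X (D u) * zm t.X v) = 0 := by
  have hu := Dg_zm t.X u
  have hv := Dg_zm t.X v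
  have hm := Dg_DM t
  have h1 := trg_cyc t.X t.fd 0 (zm t.X u * zm t.X v) t.DM
    (by simpa using Dg.mul t.X hu hv) (by rw [neg_zero]; exact hm) i
  rw [add_zero] at h1
  have h2 : t.DM * (zm t.X u * zm t.X v) = zm t.X u * zm t.X v * t.DM +
      zm t.X u * zm t.X (D v) + zm t.X (D u) * zm t.X v := by
    rw [zm_D hD, zm_D hD]
    simp only [mul_sub, sub_mul, mul_assoc]
    abel
  rw [h2, ← trgL_apply, map_add, map_add] at h1
  simp only [trgL_apply] at h1
  linear_combination h1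

theorem Ts_t1 (hD : IsDer A D) (t : TMod A D) (u v : V) : TsL t (br A 0 u v) =
    ZsL t (br A (-1) (D u) v) - SS A (fun _ => 1) 1 Ek (ZsL t) (D u) v := by
  apply PowerSeries.ext
  intro i
  rw [← zprod t (D u) v i, coeff_TsL]
  unfold tc
  have hu := Dg_zm t.X u
  have hv := Dg_zm t.X v
  have hm := Dg_DM t
  have h1 := trg_cyc t.X t.fd 0 (zm t.X u * t.DM) (zm t.X v)
    (by simpa using Dg.mul t.X hu hm) (by rw [neg_zero]; exact hv) i
  rw [add_zero] at h1
  have h2 : zm t.X u * t.DM * zm t.X v = zm t.X u * zm t.X v * t.DM +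
      zm t.X u * zm t.X (D v) := by
    rw [zm_D hD]
    simp only [mul_sub, mul_assoc]
    abel
  have h3 : zm t.X (br A 0 u v) * t.DM = zm t.X u * zm t.X v * t.DM -
      zm t.X v * (zm t.X u * t.DM) := by
    rw [zm_br0, sub_mul]
    simp only [mul_assoc]
  have h4 := tra3_sum hD t u v i
  rw [h2, ← trgL_apply, ← trgL_apply, map_add] at h1
  rw [h3, ← trgL_apply, map_sub]
  simp only [trgL_apply] at h1 ⊢
  linear_combination -h1 - h4

theorem tra3_om (hD : IsDer A D) (t : TMod A D) (v : V) (i : ℕ) :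
    trg t.X i (zm t.X (omt A) * zm t.X v * t.DM) =
      PowerSeries.coeff i (TsL t (br A (-1) (omt A) v) + (1 / 2 : ℂ) • TsL t (br A 0 (omt A) v)
        - SS A (fun _ => 1) 1 Ek (TsL t) (omt A) v) := by
  have h1 := tprod hD t 2 A.om (om_mem A) hD.om v i
  have h2 := tprod hD t 0 A.vac (vac_mem A) (D_vac hD) v i
  let P : V →ₗ[ℂ] ℂ := trgL t.X i ∘ₗ LinearMap.mulRight ℂ (zm t.X v * t.DM) ∘ₗ zmL t.X
  let Q : V →ₗ[ℂ] ℂ := PowerSeries.coeff i ∘ₗ (TsL t ∘ₗ (brL A (-1)).flip v + (1 / 2 : ℂ) •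
    (TsL t ∘ₗ (brL A 0).flip v) - (SSL A (fun _ => 1) 1 Ek (TsL t)).flip v)
  have hP : ∀ u, P u = trg t.X i (zm t.X u * zm t.X v * t.DM) := fun u => by
    rw [mul_assoc]; rfl
  have hQ : ∀ u, Q u = PowerSeries.coeff i (TsL t (br A (-1) u v) +
      (1 / 2 : ℂ) • TsL t (br A 0 u v) - SS A (fun _ => 1) 1 Ek (TsL t) u v) := fun u => rfl
  rw [← hP, ← hQ] at h1 h2
  rw [← hP, ← hQ]
  unfold omt
  rw [map_sub, map_sub, map_smul, map_smul, h1, h2]

theorem zm_omt (t : TMod A D) (i : ℤ) (x : t.M) (hx : x ∈ t.X.gr i) :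
    zm t.X (omt A) x = (lamt t + i) • x := by
  unfold omt
  rw [← zmL_apply, map_sub, map_smul, zmL_apply, zmL_apply, zm_of_mem t.X 2 A.om (om_mem A),
    zm_of_mem t.X 0 A.vac (vac_mem A), LinearMap.sub_apply, LinearMap.smul_apply]
  have e1 : (2 : ℤ) - 1 = 1 := by norm_num
  have e2 : (0 : ℤ) - 1 = -1 := by norm_num
  rw [e1, e2, t.L0 i x hx, t.X.vacuum, if_pos rfl]
  unfold lamt
  module

theorem Ts_isG (hD : IsDer A D) (t : TMod A D) : IsG A D (lamt t) (ZsL t) (TsL t) := by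
  refine ⟨Ts_t1 hD t, tdf2 hD t, fun v => ?_⟩
  apply PowerSeries.ext
  intro i
  have h1 := tra3_om hD t v i
  have h2 : TsL t (br A 0 (omt A) v) = 0 := by
    rw [Ts_t1 hD, D_omt hD, ← SSL_apply, map_zero, ← brL_apply, map_zero]
    simp
  rw [h2, smul_zero, add_zero] at h1
  unfold df3
  rw [← h1, map_add, coeff_th, map_smul, coeff_TsL, smul_eq_mul, ← add_mul]
  rw [trg_congr t.X i _ ((lamt t + i) • (zm t.X v * t.DM))]
  · rw [← trgL_apply, map_smul, smul_eq_mul, trgL_apply, add_comm]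
    rfl
  · intro x hx
    rw [mul_assoc, Module.End.mul_apply, LinearMap.smul_apply]
    have := zm_omt t i ((zm t.X v * t.DM) x) (zm_gr t.X v i _ (t.DM_gr i x hx))
    rw [this]
    push_cast
    rfl

theorem Zs_isF (t : TMod A D) : IsF A (lamt t) (ZsL t) := by
  have h := Ts_isG isDer_zero (t0M t)
  rw [Ts_t0M, Zs_t0M] at h
  refine ⟨Z_c1 t, fun u v => ?_, fun v => h.t4 v⟩
  rw [h.t3, LinearMap.zero_apply, ← SSL_apply, map_zero, LinearMap.zero_apply]

end Pool.Agent.DERV
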