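import Pool.Agent.DERV.EKC

/-!
# Project DERV, part II: graded traces and cyclicity
-/

set_option autoImplicit false

universe u

open Finset

namespace Pool.Agent.DERV

open Pool.Agent.VOAut
open UpperHalfPlane hiding I
open scoped Nat ArithmeticFunction.sigma Manifold

variable {V : Type u} [AddCommGroup V] [Module ℂ V]

variable {A : VOA V} {M : Type u} [AddCommGroup M] [Module ℂ M] (X : AdmissibleModule A M)

/-- Endomorphisms of degree `k`. -/
def Dg (k : ℤ) (f : Module.End ℂ M) : Prop := ∀ (n : ℤ) (x : M), x ∈ X.gr n → f x ∈ X.gr (n + k)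

theorem Dg_mode (a n : ℤ) (v : V) (hv : v ∈ A.gr a) : Dg X (-n) (X.Y v (a - 1 + n)) := by
  intro m x hx
  have := X.graded a (a - 1 + n) m v x hv hx
  have e : m + a - (a - 1 + n) - 1 = m + -n := by ring
  rwa [e] at this

theorem Dg_zm (v : V) : Dg X 0 (zm X v) := by
  intro m x hx
  rw [add_zero]
  exact zm_gr X v m x hx

theorem Dg.mul {j k : ℤ} {f g : Module.End ℂ M} (hf : Dg X j f) (hg : Dg X k g) :
    Dg X (j + k) (f * g) := by
  intro m x hx
  have := hf _ _ (hg m x hx)
  have e : m + k + j = m + (j + k) := by ring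
  rwa [e] at this

theorem trg_congr (n : ℤ) (f g : Module.End ℂ M) (h : ∀ x ∈ X.gr n, f x = g x) :
    trg X n f = trg X n g := by
  unfold trg
  congr 1
  ext x
  have := h x.1 x.2
  simp only [LinearMap.codRestrict_apply, LinearMap.comp_apply, Submodule.subtype_apply, this]

theorem trg_neg (n : ℤ) (hn : n < 0) (f : Module.End ℂ M) : trg X n f = 0 := by
  unfold trg
  have h0 : ∀ T : X.gr n →ₗ[ℂ] X.gr n, T = 0 := by
    intro T
    apply LinearMap.ext
    intro x
    have h1 := (T x).2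
    rw [LinearMap.zero_apply]
    apply Subtype.ext
    have h2 : ∀ y : M, y ∈ X.gr n → y = 0 := by
      intro y hy
      rw [X.nonneg n hn] at hy
      exact (Submodule.mem_bot ℂ).1 hy
    rw [h2 _ h1]
    rfl
  rw [h0 (LinearMap.codRestrict (X.gr n) (hcomp X.internal n ∘ₗ f ∘ₗ (X.gr n).subtype)
    (fun _ => hcomp_mem X.internal n _)), map_zero]

theorem trg_cyc (hfd : ∀ n, FiniteDimensional ℂ (X.gr n)) (k : ℤ) (f g : Module.End ℂ M)
    (hf : Dg X k f) (hg : Dg X (-k) g) (n : ℤ) : trg X n (g * f) = trg X (n + k) (f * g) := by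
  have _ := hfd n
  have _ := hfd (n + k)
  have hg' : ∀ x ∈ X.gr (n + k), g x ∈ X.gr n := by
    intro x hx
    have := hg _ x hx
    rwa [add_neg_cancel_right] at this
  set f' : X.gr n →ₗ[ℂ] X.gr (n + k) := (f ∘ₗ (X.gr n).subtype).codRestrict (X.gr (n + k))
    (fun x => hf n x.1 x.2) with hf'
  set g' : X.gr (n + k) →ₗ[ℂ] X.gr n := (g ∘ₗ (X.gr (n + k)).subtype).codRestrict (X.gr n)
    (fun x => hg' x.1 x.2) with hg''
  have e1 : trg X n (g * f) = LinearMap.trace ℂ (X.gr n) (g' ∘ₗ f') := by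
    unfold trg
    congr 1
    apply LinearMap.ext
    intro x
    apply Subtype.ext
    have h1 : (g * f) x.1 ∈ X.gr n := hg' _ (hf n x.1 x.2)
    have h2 := hcomp_of_mem X.internal n n _ h1
    rw [if_pos rfl] at h2
    exact h2
  have e2 : trg X (n + k) (f * g) = LinearMap.trace ℂ (X.gr (n + k)) (f' ∘ₗ g') := by
    unfold trg
    congr 1
    apply LinearMap.ext
    intro x
    apply Subtype.ext
    have h1 : (f * g) x.1 ∈ X.gr (n + k) := hf n _ (hg' x.1 x.2)
    have h2 := hcomp_of_mem X.internal (n + k) (n + k) _ h1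
    rw [if_pos rfl] at h2
    exact h2
  rw [e1, e2]
  exact LinearMap.trace_comp_comm' f' g'

end Pool.Agent.DERV
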