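import Pool.Agent.DERV.EKC

/-!
# Project DERV, part II: regrouping of divisor sums
-/

set_option autoImplicit false

universe u

open Finset

namespace Pool.Agent.DERV

open Pool.Agent.VOAut
open UpperHalfPlane hiding I
open scoped Nat ArithmeticFunction.sigma Manifold

variable {V : Type u} [AddCommGroup V] [Module ℂ V]

theorem regroup (F : ℕ → ℕ → ℂ) (x : ℤ → ℂ) (i : ℕ) :
    ∑ n ∈ Icc 1 i, ∑ j ∈ Icc 1 (i / n), F n j * x (i - j * n) =
      ∑ m ∈ Icc 1 i, (∑ n ∈ m.divisors, F n (m / n)) * x (i - m) := by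
  simp only [Finset.sum_mul]
  rw [Finset.sum_sigma', Finset.sum_sigma']
  refine Finset.sum_bij' (fun p _ => ⟨p.2 * p.1, p.1⟩) (fun p _ => ⟨p.2, p.1 / p.2⟩) ?_ ?_ ?_ ?_ ?_
  · rintro ⟨n, j⟩ h
    simp only [Finset.mem_sigma, Finset.mem_Icc, Nat.mem_divisors] at h ⊢
    obtain ⟨⟨h1, h2⟩, h3, h4⟩ := h
    have h5 : j * n ≤ i := (Nat.le_div_iff_mul_le (by omega)).1 h4
    have h6 : 1 ≤ j * n := Nat.mul_pos (by omega) (by omega)
    exact ⟨⟨h6, h5⟩, Dvd.intro_left _ rfl, by omega⟩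
  · rintro ⟨m, n⟩ h
    simp only [Finset.mem_sigma, Finset.mem_Icc, Nat.mem_divisors] at h ⊢
    obtain ⟨⟨h1, h2⟩, h3, h4⟩ := h
    have hn : 0 < n := Nat.pos_of_dvd_of_pos h3 (by omega)
    have hnm : n ≤ m := Nat.le_of_dvd (by omega) h3
    exact ⟨⟨by omega, by omega⟩, Nat.div_pos hnm hn, Nat.div_le_div_right h2⟩
  · rintro ⟨n, j⟩ h
    simp only [Finset.mem_sigma, Finset.mem_Icc] at h
    have hn : 0 < n := by omega
    simp [Nat.mul_div_cancel _ hn]
  · rintro ⟨m, n⟩ h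
    simp only [Finset.mem_sigma, Finset.mem_Icc, Nat.mem_divisors] at h
    simp [Nat.div_mul_cancel h.2.1]
  · rintro ⟨n, j⟩ h
    simp only [Finset.mem_sigma, Finset.mem_Icc] at h
    have hn : 0 < n := by omega
    simp only [Nat.mul_div_cancel _ hn]
    push_cast
    rfl

end Pool.Agent.DERV
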