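import Pool.Agent.DERV.TRR
import Pool.Agent.DERV.TRG
import Pool.Agent.DERV.SER3

/-!
# Project DERV, part II: helper lemmas for the trace identities
-/

set_option autoImplicit false

universe u

open Finset

namespace Pool.Agent.DERV

open Pool.Agent.VOAut
open scoped Nat ArithmeticFunction.sigma

variable {V : Type u} [AddCommGroup V] [Module ℂ V]

section
variable {A : VOA V} {D : Module.End ℂ V}

/-- `tc` as a linear map. -/
noncomputable def tcL (t : TMod A D) (i : ℤ) : V →ₗ[ℂ] ℂ :=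
  trgL t.X i ∘ₗ LinearMap.mulRight ℂ t.DM ∘ₗ zmL t.X

theorem tcL_apply (t : TMod A D) (i : ℤ) (v : V) : tcL t i v = tc t i v := rfl

/-- `zc` as a linear map. -/
noncomputable def zcL (t : TMod A D) (i : ℤ) : V →ₗ[ℂ] ℂ := trgL t.X i ∘ₗ zmL t.X

theorem zcL_apply (t : TMod A D) (i : ℤ) (v : V) : zcL t i v = zc t i v := rfl

theorem coeff_TsL (t : TMod A D) (i : ℕ) (v : V) :
    (PowerSeries.coeff i (TsL t v) : ℂ) = tc t i v := by
  rw [TsL_apply]
  unfold Ts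
  rw [PowerSeries.coeff_mk]
  rfl

theorem coeff_ZsL (t : TMod A D) (i : ℕ) (v : V) :
    (PowerSeries.coeff i (ZsL t v) : ℂ) = zc t i v := by
  rw [ZsL_apply]
  unfold Zs
  rw [PowerSeries.coeff_mk]
  rfl

end

theorem WW_pow_unif (A : VOA V) (u v : V) : ∃ K0 : ℕ, ∀ (s : ℤ) (K : ℕ), K0 ≤ K →
    WW A ((1 + xL) ^ s) u v = ∑ k ∈ range K, ((s : ℂ) ^ k / (k ! : ℕ)) • br A k u v := by
  obtain ⟨N, hN⟩ := br_zero A u v
  refine ⟨N.toNat, fun s K hK => ?_⟩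
  obtain ⟨K1, h1⟩ := WW_pow A s u v
  rw [h1 (max K K1) (le_max_right _ _)]
  symm
  apply Finset.sum_subset (Finset.range_subset_range.2 (le_max_left _ _))
  intro k _ hk
  rw [Finset.mem_range, not_lt] at hk
  rw [hN k (by have := Int.self_le_toNat N; omega), smul_zero]

/-- Splitting a sum into even and odd indices. -/
theorem sum_even_odd {M : Type*} [AddCommMonoid M] (f : ℕ → M) (R : ℕ) :
    ∑ k ∈ range (2 * R), f k = ∑ r ∈ range R, (f (2 * r) + f (2 * r + 1)) := by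
  induction R with
  | zero => simp
  | succ R ih =>
    rw [Finset.sum_range_succ, ← ih, mul_add, mul_one, Finset.sum_range_succ, Finset.sum_range_succ,
      add_assoc]

/-- The odd part. -/
theorem WW_odd (A : VOA V) (u v : V) : ∃ R0 : ℕ, ∀ (n : ℕ) (R : ℕ), R0 ≤ R →
    WW A ((1 + xL) ^ (n : ℤ)) u v - WW A ((1 + xL) ^ (-(n : ℤ))) u v =
      ∑ r ∈ range R, (2 * (n : ℂ) ^ (2 * r + 1) / ((2 * r + 1)! : ℕ)) • br A (2 * r + 1) u v := by
  obtain ⟨K0, h0⟩ := WW_pow_unif A u v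
  refine ⟨K0, fun n R hR => ?_⟩
  rw [h0 _ (2 * R) (by omega), h0 _ (2 * R) (by omega), ← Finset.sum_sub_distrib, sum_even_odd]
  apply Finset.sum_congr rfl
  intro r _
  push_cast
  rw [← sub_smul, ← sub_smul, Even.neg_pow ⟨r, by ring⟩, sub_self, zero_smul, zero_add,
    Odd.neg_pow ⟨r, rfl⟩]
  congr 1
  ring

/-- The even part. -/
theorem WW_even (A : VOA V) (u v : V) : ∃ R0 : ℕ, ∀ (n : ℕ) (R : ℕ), R0 ≤ R →
    WW A ((1 + xL) ^ (n : ℤ)) u v + WW A ((1 + xL) ^ (-(n : ℤ))) u v =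
      ∑ r ∈ range R, (2 * (n : ℂ) ^ (2 * r) / ((2 * r)! : ℕ)) • br A (2 * r) u v := by
  obtain ⟨K0, h0⟩ := WW_pow_unif A u v
  refine ⟨K0, fun n R hR => ?_⟩
  rw [h0 _ (2 * R) (by omega), h0 _ (2 * R) (by omega), ← Finset.sum_add_distrib, sum_even_odd]
  apply Finset.sum_congr rfl
  intro r _
  push_cast
  rw [← add_smul, ← add_smul, Even.neg_pow ⟨r, by ring⟩, Odd.neg_pow ⟨r, rfl⟩]
  have e1 : (n : ℂ) ^ (2 * r + 1) / ((2 * r + 1)! : ℕ) + -(n : ℂ) ^ (2 * r + 1) /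
    ((2 * r + 1)! : ℕ) = 0 := by ring
  rw [e1, zero_smul, add_zero]
  congr 1
  ring

theorem coeff_mul_Icc (f g : PowerSeries ℂ) (i : ℕ) : (PowerSeries.coeff i (f * g) : ℂ) =
    PowerSeries.coeff 0 f * PowerSeries.coeff i g +
      ∑ m ∈ Icc 1 i, PowerSeries.coeff m f * PowerSeries.coeff (i - m) g := by
  rw [PowerSeries.coeff_mul, Finset.Nat.sum_antidiagonal_eq_sum_range_succ_mk]
  rw [Finset.range_eq_Ico, Finset.sum_eq_sum_Ico_succ_bot (by omega)]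
  simp only [Nat.sub_zero, zero_add]
  congr 1

theorem coeff_Ek_mul (r i : ℕ) (g : PowerSeries ℂ) : (PowerSeries.coeff i (Ek r * g) : ℂ) =
    -bk r * PowerSeries.coeff i g +
      ∑ m ∈ Icc 1 i, (2 / ((2 * r + 1)! : ℕ) * ((σ (2 * r + 1) m : ℕ) : ℂ)) *
        PowerSeries.coeff (i - m) g := by
  rw [coeff_mul_Icc, Ek_zero]
  congr 1
  apply Finset.sum_congr rfl
  intro m hm
  rw [Finset.mem_Icc] at hm
  rw [Ek_pos r m (by omega)]

theorem coeff_thEk_mul (r i : ℕ) (g : PowerSeries ℂ) :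
    (PowerSeries.coeff i (th (Ek r) * g) : ℂ) =
      ∑ m ∈ Icc 1 i, ((m : ℂ) * (2 / ((2 * r + 1)! : ℕ) * ((σ (2 * r + 1) m : ℕ) : ℂ))) *
        PowerSeries.coeff (i - m) g := by
  rw [coeff_mul_Icc, coeff_th, Nat.cast_zero, zero_mul, zero_mul, zero_add]
  apply Finset.sum_congr rfl
  intro m hm
  rw [Finset.mem_Icc] at hm
  rw [coeff_th, Ek_pos r m (by omega)]

theorem div_sum_pow (r m : ℕ) (c : ℂ) :
    ∑ n ∈ m.divisors, c * (n : ℂ) ^ (2 * r + 1) = c * ((σ (2 * r + 1) m : ℕ) : ℂ) := by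
  rw [← Finset.mul_sum, ArithmeticFunction.sigma_apply]
  push_cast
  rfl

end Pool.Agent.DERV
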