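import Pool.Agent.DERV.TRC
import Pool.Agent.DERV.TRM
import Pool.Agent.DERV.DER

/-!
# Project DERV, part II: traces of products of modes
-/

set_option autoImplicit false

universe u

open Finset

namespace Pool.Agent.DERV

open Pool.Agent.VOAut
open UpperHalfPlane hiding I
open scoped Nat ArithmeticFunction.sigma Manifold

variable {V : Type u} [AddCommGroup V] [Module ℂ V]

variable {A : VOA V} {D : Module.End ℂ V}

/-- Coefficients of `Z`. -/
noncomputable def zc (t : TMod A D) (i : ℤ) (v : V) : ℂ := trg t.X i (zm t.X v)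

/-- Coefficients of `T`. -/
noncomputable def tc (t : TMod A D) (i : ℤ) (v : V) : ℂ := trg t.X i (zm t.X v * t.DM)

theorem trr_sum (K : ℕ) (f : ℕ → ℂ) : ∑ j ∈ Icc 1 K, f j = ∑ j ∈ range K, f (j + 1) := by
  induction K with
  | zero => simp
  | succ K ih => rw [Finset.sum_Icc_succ_top (by omega), ih, Finset.sum_range_succ]

theorem trr_rec (n : ℕ) (hn : 0 < n) (F F0 P Q : ℤ → ℂ) (h0 : ∀ i : ℤ, i < n → F i = 0)
    (h0' : ∀ i : ℤ, i < n → F0 i = 0) (hF : ∀ i, F i = F (i - n) - P (i - n) + F0 i)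
    (hF0 : ∀ i, F0 i = F0 (i - n) - Q (i - n)) (i : ℕ) :
    F i = -∑ j ∈ Icc 1 (i / n), (P (i - j * n) + j * Q (i - j * n)) ∧
      F0 i = -∑ j ∈ Icc 1 (i / n), Q (i - j * n) := by
  induction i using Nat.strong_induction_on with
  | _ i ih =>
    rcases lt_or_ge i n with h | h
    · rw [Nat.div_eq_of_lt h, h0 _ (by exact_mod_cast h), h0' _ (by exact_mod_cast h)]
      simp
    · obtain ⟨e1, e2⟩ := ih (i - n) (by omega)
      have hK : i / n = (i - n) / n + 1 := by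
        rw [Nat.div_eq_sub_div hn h]
      have hc : (((i - n : ℕ)) : ℤ) = (i : ℤ) - n := by push_cast [h]; ring
      rw [hc] at e1 e2
      rw [trr_sum] at e1 e2
      rw [hK, trr_sum, trr_sum, Finset.sum_range_succ', Finset.sum_range_succ', hF, hF0, e1, e2]
      have key : ∀ j : ℕ, (i : ℤ) - n - ((j + 1 : ℕ) : ℤ) * n = i - ((j + 1 + 1 : ℕ) : ℤ) * n := by
        intro j
        push_cast
        ring
      simp only [key]
      have key0 : (i : ℤ) - ((0 + 1 : ℕ) : ℤ) * n = i - n := by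
        push_cast
        ring
      simp only [key0]
      constructor
      · have : ∑ j ∈ range ((i - n) / n), (P (i - ((j + 1 + 1 : ℕ) : ℤ) * n) +
            ((j + 1 + 1 : ℕ) : ℂ) * Q (i - ((j + 1 + 1 : ℕ) : ℤ) * n)) =
            ∑ j ∈ range ((i - n) / n), (P (i - ((j + 1 + 1 : ℕ) : ℤ) * n) +
            ((j + 1 : ℕ) : ℂ) * Q (i - ((j + 1 + 1 : ℕ) : ℤ) * n)) +
            ∑ j ∈ range ((i - n) / n), Q (i - ((j + 1 + 1 : ℕ) : ℤ) * n) := by
          rw [← Finset.sum_add_distrib]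
          refine Finset.sum_congr rfl fun j _ => ?_
          push_cast
          ring
        rw [this]
        push_cast
        ring
      · ring

theorem trr_add (t : TMod A D) (i : ℤ) (f g : Module.End ℂ t.M) :
    trg t.X i (f + g) = trg t.X i f + trg t.X i g := by
  rw [← trgL_apply, ← trgL_apply, ← trgL_apply, map_add]

theorem trr_sub (t : TMod A D) (i : ℤ) (f g : Module.End ℂ t.M) :
    trg t.X i (f - g) = trg t.X i f - trg t.X i g := by
  rw [← trgL_apply, ← trgL_apply, ← trgL_apply, map_sub]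

theorem trr_DM (t : TMod A D) : Dg t.X 0 t.DM := by
  intro n x hx
  rw [add_zero]
  exact t.DM_gr n x hx

theorem trr_der (t : TMod A D) (u : V) (n : ℤ) :
    t.DM * t.X.Y u n = t.X.Y u n * t.DM + t.X.Y (D u) n := by
  ext x
  have := t.DM_der u n x
  simp only [Module.End.mul_apply, LinearMap.add_apply]
  rw [this]
  abel

theorem zc_D (hD : IsDer A D) (t : TMod A D) (i : ℤ) (v : V) : zc t i (D v) = 0 := by
  unfold zc
  rw [zm_D hD t v, trr_sub]
  have h1 := trg_cyc t.X t.fd 0 (zm t.X v) t.DM (Dg_zm t.X v)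
    (by rw [neg_zero]; exact trr_DM t) i
  rw [h1, add_zero, sub_self]

theorem trr_up (t : TMod A D) (a : ℤ) (u : V) (hu : u ∈ A.gr a) (n : ℤ) :
    Dg t.X n (t.X.Y u (a - 1 - n)) := by
  have h := Dg_mode t.X a (-n) u hu
  rw [neg_neg] at h
  have e : a - 1 + -n = a - 1 - n := by ring
  rwa [e] at h

/-- Cyclicity with a shift by `n`. -/
theorem trr_cyc (t : TMod A D) (n : ℤ) (f g : Module.End ℂ t.M) (hf : Dg t.X (-n) f)
    (hg : Dg t.X n g) (i : ℤ) : trg t.X i (g * f) = trg t.X (i - n) (f * g) := by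
  have h := trg_cyc t.X t.fd (-n) f g hf (by rw [neg_neg]; exact hg) i
  rw [h]
  rfl

theorem trr_comm (t : TMod A D) (a b n : ℤ) (u v : V) (hu : u ∈ A.gr a) (hv : v ∈ A.gr b) :
    t.X.Y u (a - 1 + n) * t.X.Y v (b - 1 - n) =
      t.X.Y v (b - 1 - n) * t.X.Y u (a - 1 + n) + zm t.X (WW A ((1 + xL) ^ n) u v) := by
  ext x
  have := zm_comm t.X a b n u v hu hv x
  simp only [Module.End.mul_apply, LinearMap.add_apply]
  rw [← this]
  abel

theorem trr_comm' (t : TMod A D) (a b n : ℤ) (u v : V) (hu : u ∈ A.gr a) (hv : v ∈ A.gr b) :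
    t.X.Y v (b - 1 + n) * t.X.Y u (a - 1 - n) =
      t.X.Y u (a - 1 - n) * t.X.Y v (b - 1 + n) - zm t.X (WW A ((1 + xL) ^ (-n)) u v) := by
  have h := trr_comm t a b (-n) u v hu hv
  have e1 : a - 1 + -n = a - 1 - n := by ring
  have e2 : b - 1 - -n = b - 1 + n := by ring
  rw [e1, e2] at h
  rw [h]
  abel

theorem tr_uv (hD : IsDer A D) (t : TMod A D) (a b : ℤ) (u v : V) (hu : u ∈ A.gr a)
    (hv : v ∈ A.gr b) (n : ℕ) (hn : 0 < n) (i : ℕ) :
    trg t.X i (t.X.Y u (a - 1 - n) * t.X.Y v (b - 1 + n) * t.DM) =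
      -∑ j ∈ Icc 1 (i / n), (tc t (i - j * n) (WW A ((1 + xL) ^ (-(n : ℤ))) u v) +
        j * zc t (i - j * n) (WW A ((1 + xL) ^ (-(n : ℤ))) (D u) v)) := by
  have hDu := D_gr hD a u hu
  have hvn : Dg t.X (-(n : ℤ)) (t.X.Y v (b - 1 + n)) := Dg_mode t.X b n v hv
  have hvD : Dg t.X (-(n : ℤ)) (t.X.Y v (b - 1 + n) * t.DM) := by
    have := hvn.mul t.X (trr_DM t)
    rwa [add_zero] at this
  -- the two recursions
  have r0 : ∀ (w : V), w ∈ A.gr a → ∀ i : ℤ, trg t.X i (t.X.Y w (a - 1 - n) * t.X.Y v (b - 1 + n)) =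
      trg t.X (i - n) (t.X.Y v (b - 1 + n) * t.X.Y w (a - 1 - n)) := fun w hw i =>
    trr_cyc t n _ _ hvn (trr_up t a w hw n) i
  have r1 : ∀ i : ℤ, trg t.X i (t.X.Y u (a - 1 - n) * t.X.Y v (b - 1 + n) * t.DM) =
      trg t.X (i - n) (t.X.Y v (b - 1 + n) * t.DM * t.X.Y u (a - 1 - n)) := by
    intro i
    rw [mul_assoc]
    exact trr_cyc t n _ _ hvD (trr_up t a u hu n) i
  refine (trr_rec n hn (fun i => trg t.X i (t.X.Y u (a - 1 - n) * t.X.Y v (b - 1 + n) * t.DM))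
    (fun i => trg t.X i (t.X.Y (D u) (a - 1 - n) * t.X.Y v (b - 1 + n)))
    (fun i => tc t i (WW A ((1 + xL) ^ (-(n : ℤ))) u v))
    (fun i => zc t i (WW A ((1 + xL) ^ (-(n : ℤ))) (D u) v)) ?_ ?_ ?_ ?_ i).1
  · intro i hi
    rw [r1]
    exact trg_neg t.X _ (by omega) _
  · intro i hi
    rw [r0 _ hDu]
    exact trg_neg t.X _ (by omega) _
  · intro i
    rw [r1, r0 _ hDu, mul_assoc, trr_der, mul_add, ← mul_assoc, trr_comm' t a b n u v hu hv,
      sub_mul, trr_add, trr_sub]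
    rfl
  · intro i
    rw [r0 _ hDu, trr_comm' t a b n (D u) v hDu hv, trr_sub]
    rfl

theorem tr_vu (hD : IsDer A D) (t : TMod A D) (a b : ℤ) (u v : V) (hu : u ∈ A.gr a)
    (hv : v ∈ A.gr b) (n : ℕ) (hn : 0 < n) (i : ℕ) :
    trg t.X i (t.X.Y v (b - 1 - n) * t.X.Y u (a - 1 + n) * t.DM) =
      ∑ j ∈ Icc 1 (i / n), (tc t (i - j * n) (WW A ((1 + xL) ^ (n : ℤ)) u v) -
        j * zc t (i - j * n) (WW A ((1 + xL) ^ (n : ℤ)) (D u) v)) := by
  have hDv := D_gr hD b v hv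
  have hun : Dg t.X (-(n : ℤ)) (t.X.Y u (a - 1 + n)) := Dg_mode t.X a n u hu
  have huD : Dg t.X (-(n : ℤ)) (t.X.Y u (a - 1 + n) * t.DM) := by
    have := hun.mul t.X (trr_DM t)
    rwa [add_zero] at this
  have r0 : ∀ (w : V), w ∈ A.gr b → ∀ i : ℤ, trg t.X i (t.X.Y w (b - 1 - n) * t.X.Y u (a - 1 + n)) =
      trg t.X (i - n) (t.X.Y u (a - 1 + n) * t.X.Y w (b - 1 - n)) := fun w hw i =>
    trr_cyc t n _ _ hun (trr_up t b w hw n) i
  have r1 : ∀ i : ℤ, trg t.X i (t.X.Y v (b - 1 - n) * t.X.Y u (a - 1 + n) * t.DM) =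
      trg t.X (i - n) (t.X.Y u (a - 1 + n) * t.DM * t.X.Y v (b - 1 - n)) := by
    intro i
    rw [mul_assoc]
    exact trr_cyc t n _ _ huD (trr_up t b v hv n) i
  have key := (trr_rec n hn
    (fun i => -trg t.X i (t.X.Y v (b - 1 - n) * t.X.Y u (a - 1 + n) * t.DM))
    (fun i => -trg t.X i (t.X.Y (D v) (b - 1 - n) * t.X.Y u (a - 1 + n)))
    (fun i => tc t i (WW A ((1 + xL) ^ (n : ℤ)) u v))
    (fun i => zc t i (WW A ((1 + xL) ^ (n : ℤ)) u (D v))) ?_ ?_ ?_ ?_ i).1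
  · have h1 : ∀ i : ℤ, zc t i (WW A ((1 + xL) ^ (n : ℤ)) u (D v)) =
        -zc t i (WW A ((1 + xL) ^ (n : ℤ)) (D u) v) := by
      intro i
      have h2 := zc_D hD t i (WW A ((1 + xL) ^ (n : ℤ)) u v)
      rw [D_WW hD] at h2
      unfold zc at h2 ⊢
      rw [← zmL_apply, map_add, zmL_apply, zmL_apply, trr_add] at h2
      rw [eq_neg_iff_add_eq_zero, add_comm]
      exact h2
    simp only [h1] at key
    rw [neg_inj] at key
    rw [key]
    refine Finset.sum_congr rfl fun j _ => ?_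
    ring
  · intro i hi
    rw [r1, neg_eq_zero]
    exact trg_neg t.X _ (by omega) _
  · intro i hi
    rw [r0 _ hDv, neg_eq_zero]
    exact trg_neg t.X _ (by omega) _
  · intro i
    rw [r1, r0 _ hDv, mul_assoc, trr_der, mul_add, ← mul_assoc, trr_comm t a b n u v hu hv,
      add_mul, trr_add, trr_add]
    unfold tc
    ring
  · intro i
    rw [r0 _ hDv, trr_comm t a b n u (D v) hu hDv, trr_add]
    unfold zc
    ring

end Pool.Agent.DERV
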